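import Pool.Agent.Lib.MP_50b5c6_lc.Conv

/-! Blocks of ten by six faces acting as wires, crossings, branchings and clauses. -/

namespace Pool.Agent.Lib.MP_50b5c6_lc

def blocks : List (List ℕ) :=
  [[0, 0, 0, 0, 0, 0, 0, 0, 0, 0, 0, 0, 0, 0, 0, 0, 0, 0, 0, 0, 0, 0, 0, 0, 0, 0, 0, 0, 0, 0, 0, 0, 0, 0, 0, 0, 0, 0, 0, 0, 0, 0, 0, 0, 0, 0, 0, 0, 0, 0, 0, 0, 0, 0, 0, 0, 0, 0, 0, 0],
   [22, 16, 5, 5, 0, 0, 15, 19, 16, 16, 22, 0, 22, 22, 5, 5, 15, 0, 14, 13, 16, 13, 22, 0, 15, 14, 0, 14, 14, 0, 22, 16, 22, 14, 15, 22, 16, 19, 15, 14, 22, 16, 0, 22, 22, 16, 16, 0, 0, 14, 16, 19, 0, 0, 0, 14, 0, 0, 0, 0],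
   [0, 0, 0, 0, 0, 0, 0, 0, 0, 0, 0, 0, 0, 0, 0, 0, 0, 0, 0, 0, 0, 0, 0, 0, 0, 0, 0, 0, 0, 0, 22, 0, 0, 0, 0, 22, 16, 22, 0, 0, 22, 16, 0, 16, 22, 22, 16, 0, 0, 0, 16, 16, 0, 0, 0, 22, 19, 0, 0, 0],
   [0, 15, 0, 0, 0, 0, 0, 19, 22, 0, 0, 0, 0, 0, 13, 22, 0, 0, 0, 22, 16, 16, 22, 0, 22, 16, 0, 0, 16, 22, 16, 0, 0, 0, 0, 16, 0, 0, 0, 0, 0, 0, 0, 0, 0, 0, 0, 0, 0, 0, 0, 0, 0, 0, 0, 0, 0, 0, 0, 0],
   [0, 14, 0, 0, 0, 0, 0, 16, 22, 0, 0, 0, 0, 0, 16, 22, 0, 0, 0, 0, 0, 16, 22, 0, 0, 0, 0, 0, 16, 22, 0, 0, 0, 0, 0, 16, 0, 0, 0, 0, 0, 0, 0, 0, 0, 0, 0, 0, 0, 0, 0, 0, 0, 0, 0, 0, 0, 0, 0, 0],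
   [22, 16, 0, 0, 0, 0, 14, 0, 0, 0, 0, 0, 14, 0, 0, 0, 0, 0, 14, 0, 0, 0, 0, 0, 14, 0, 0, 0, 0, 0, 16, 0, 0, 0, 0, 0, 0, 0, 0, 0, 0, 0, 0, 0, 0, 0, 0, 0, 0, 0, 0, 0, 0, 0, 0, 0, 0, 0, 0, 0],
   [0, 0, 0, 0, 0, 0, 0, 0, 0, 0, 0, 0, 0, 0, 0, 0, 0, 0, 0, 0, 0, 0, 0, 0, 0, 0, 0, 0, 0, 0, 0, 0, 0, 22, 22, 22, 0, 0, 22, 16, 16, 16, 0, 22, 16, 0, 0, 0, 0, 14, 0, 0, 0, 0, 0, 14, 0, 0, 0, 0]]

def blk (t i : ℕ) : ℕ := (blocks.getD t []).getD i 0

def sols : List (List ℕ) :=
  [[0x0, 0x0, 0x1000000000000000, 0x1000000000000000, 0x0, 0x0, 0x1000000000000000, 0x1000000000000000, 0x8, 0x8, 0x1000000000000008, 0x1000000000000008, 0x8, 0x8, 0x1000000000000008, 0x1000000000000008],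
   [0xb82c4aba8229806083aa6c00a10e6, 0x0, 0xb82c4b3aaacb0b4823196a00a10e6, 0xb80c413a6acb0b4823196a00a10e6, 0x0, 0x0, 0x0, 0x0, 0xb82c4aba8229806083aa6e20bb0ca, 0x0, 0xb82c4b3aaacb3348a3116ae0bb0ca, 0xb80c413a6acb3348a3116ae0bb0ca, 0xb0228a0a8829106880aa4c211b08a, 0x0, 0xb0228b0aa8cb3348a3116ae0bb0ca, 0xb002810a68cb3348a3116ae0bb0ca],
   [0xb82a8a8aa02800000000000000000, 0x0, 0x80210804001000000000000000, 0x380481b260c803000000000000000, 0x0, 0x0, 0x80210804001000000000000000, 0x80481b260c803000000000000000, 0xb82a8a8aa02800000000000000008, 0x0, 0x80210804001000000000000008, 0x380481b260c803000000000000008, 0x0, 0x0, 0x80210804001000000000000008, 0x80481b260c803000000000000008],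
   [0x802a0a2aa0a8028000004, 0x0, 0x802a0b2aa0a8028000004, 0x800201486118068000004, 0x802a0a2aa0a8028000004, 0x0, 0x802a0b2aa0a8028000004, 0x800201486118068000004, 0x2408120040018008, 0x2408120040018008, 0x1408120040018008, 0x1408120040018008, 0x2408120040018008, 0x2408120040018008, 0x1408120040018008, 0x1408120040018008],
   [0x800a002800a0028008004, 0x0, 0x800a012800a0028008004, 0x0, 0x800a002800a0028008004, 0x0, 0x800a012800a0028008004, 0x0, 0x400100040010008, 0x400100040010008, 0x1400100040010008, 0x1400100040010008, 0x400100040010008, 0x400100040010008, 0x1400100040010008, 0x1400100040010008],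
   [0x0, 0x0, 0x1006000006000006, 0x1006000006000006, 0x0, 0x0, 0x1006000006000006, 0x1006000006000006, 0x200200400200400a00a, 0x200200400200400a00a, 0x1002000002000008, 0x1002000002000008, 0x200200400200400a00a, 0x200200400200400a00a, 0x1002000002000008, 0x1002000002000008],
   [0x1802caa8aa0880000000000000000, 0x18004218460980000000000000000, 0x1802caa8aa0881000000000000000, 0x18004218460981000000000000000, 0x10028a28aa0880000000000000000, 0x0, 0x10028a28aa0881000000000000000, 0x0, 0x1802caa8aa0880000000000000008, 0x18004218460980000000000000008, 0x1802caa8aa0881000000000000008, 0x18004218460981000000000000008, 0x10028a28aa0880000000000000008, 0x0, 0x10028a28aa0881000000000000008, 0x0]]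

def cond (t : ℕ) (w e s n : Bool) : Bool :=
  if t = 1 then (s || !n) && (w || !e) else if t = 2 then s || (!n && !e)
  else if t = 3 then s || w || !n else if t = 4 then w || !n else if t = 5 then s || w
  else if t = 6 then !e || !n else true

def pW : Pt × Bool := ((0, 1), true)
def pE : Pt × Bool := ((10, 1), true)
def pS : Pt × Bool := ((5, 0), false)
def pN : Pt × Bool := ((5, 6), false)

def sat3 (g : ℕ) (π : Bool) (v : Bool × Bool × Bool) : Bool :=
  sat g ![v.1 == π, v.2.1 == π, v.2.2 == π]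

lemma sat_state (g : ℕ) (y : Pt × Bool → Bool) (T : Pt) :
    sat g (state y T) = sat3 g (par T) (y (fsd T 0), y (fsd T 1), y (fsd T 2)) := by
  unfold sat3; congr 1; ext i; fin_cases i <;> rfl

def opts (kn : List ((Pt × Bool) × Bool)) (s : Pt × Bool) : List Bool :=
  match kn.lookup s with
  | none => [false, true]
  | some v => [v]

def poss (t a b : ℕ) (kn : List ((Pt × Bool) × Bool)) : List (Bool × Bool × Bool) :=
  (opts kn (fsd (a, b) 0) ×ˢ opts kn (fsd (a, b) 1) ×ˢ opts kn (fsd (a, b) 2)).filter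
    (sat3 (blk t (a * 6 + b)) (par (a, b)))

def refute (t : ℕ) : List (ℕ × ℕ × Fin 3 × Bool) → List ((Pt × Bool) × Bool) → Bool
  | [], _ => false
  | (a, b, i, v) :: r, kn => decide (a < 10 ∧ b < 6) && ((poss t a b kn).isEmpty ||
      ((poss t a b kn).all (fun p => ![p.1, p.2.1, p.2.2] i == v) &&
        refute t r ((fsd (a, b) i, v) :: kn)))

lemma refute_sound {t : ℕ} {y : Pt × Bool → Bool}
    (h : ∀ a < 10, ∀ b < 6, sat (blk t (a * 6 + b)) (state y ((a : ℕ), (b : ℕ))) = true) :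
    ∀ r kn, refute t r kn = true → ¬∀ k ∈ kn, y k.1 = k.2 := by
  intro r
  induction r with
  | nil => simp [refute]
  | cons x r ih =>
    obtain ⟨a, b, i, v⟩ := x
    intro kn h1 h2
    have k1 : ∀ s, y s ∈ opts kn s := by
      intro s
      unfold opts
      rcases e : kn.lookup s with _ | v
      · cases y s <;> simp
      · obtain ⟨l1, l2, rfl, -⟩ := List.lookup_eq_some_iff.1 e
        simpa using h2 (s, v) (by simp)
    simp only [refute, Bool.and_eq_true, decide_eq_true_eq, Bool.or_eq_true, List.isEmpty_iff,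
      List.all_eq_true, beq_iff_eq] at h1
    have k2 : (y (fsd (a, b) 0), y (fsd (a, b) 1), y (fsd (a, b) 2)) ∈ poss t a b kn :=
      List.mem_filter.2 ⟨by simp [k1], sat_state _ y _ ▸ h a h1.1.1 b h1.1.2⟩
    rcases h1.2 with h3 | ⟨h3, h4⟩
    · simp [h3] at k2
    · refine ih _ h4 fun k hk => ?_
      rcases List.mem_cons.1 hk with rfl | hk
      · rw [← h3 _ k2]; fin_cases i <;> rfl
      · exact h2 k hk

theorem ref0 : refute 1
    [(5, 0, 1, true), (5, 0, 2, false), (5, 5, 1, false), (6, 0, 0, false), (6, 1, 2, false), (6, 5, 0, true), (4, 0, 2, false), (5, 1, 2, false), (6, 4, 1, false), (6, 4, 2, true), (7, 4, 0, true), (3, 0, 0, false), (3, 0, 2, true), (4, 1, 0, false), (4, 1, 2, true), (5, 4, 2, true), (7, 3, 2, false), (2, 0, 0, false), (2, 1, 1, true), (3, 1, 0, false), (3, 2, 2, true), (4, 4, 0, true), (4, 4, 2, false), (6, 3, 0, false), (6, 3, 2, true), (2, 2, 0, true), (2, 3, 1, true), (3, 4, 0, true), (5, 3, 0, true), (5, 3, 2,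 false), (3, 3, 1, false), (4, 3, 0, false)]
    [(pS, false), (pN, true)] = true := by decide +kernel

theorem ref1 : refute 1
    [(0, 1, 0, true), (0, 1, 1, false), (1, 1, 0, false), (1, 2, 2, true), (9, 1, 0, true), (9, 1, 2, false), (0, 0, 1, false), (0, 2, 0, true), (0, 3, 1, true), (1, 0, 1, false), (1, 3, 0, false), (1, 3, 1, true), (1, 4, 1, true), (2, 0, 0, false), (2, 1, 1, true), (2, 4, 1, true), (3, 4, 0, true), (8, 1, 0, false), (8, 1, 2, true), (7, 1, 0, false), (7, 2, 1, true), (7, 2, 2, false), (8, 2, 0, false), (8, 3, 2, false), (6, 2, 2, false), (7, 3, 2, false), (5, 2, 0, true), (6, 3, 0, false), (6, 3, 2, true), (5, 1, 2, false), (5, 3, 0, true), (5, 3, 2, false), (4, 1, 0, false), (4, 1, 2, true), (4, 3, 0, false), (4, 3, 2, true), (3, 1, 0, false), (3, 2, 2, true), (3, 3, 2, false), (2, 2, 0, true), (2, 3, 0, false)]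
    [(pW, false), (pE, true)] = true := by decide +kernel

theorem ref2 : refute 2
    [(5, 0, 1, true), (5, 5, 1, false), (6, 0, 0, false), (6, 1, 1, true), (6, 5, 0, true), (7, 1, 0, false), (7, 2, 1, true), (8, 2, 0, false), (8, 3, 2, true), (6, 4, 1, false), (7, 3, 0, false), (7, 4, 0, false)]
    [(pS, false), (pN, true)] = true := by decide +kernel

theorem ref3 : refute 2
    [(5, 0, 1, true), (6, 0, 0, false), (6, 1, 1, true), (7, 1, 0, false), (7, 2, 1, true), (8, 2, 0, false), (8, 2, 1, true), (9, 1, 0, false), (9, 2, 0, false)]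
    [(pS, false), (pE, true)] = true := by decide +kernel

theorem ref4 : refute 3
    [(0, 1, 1, false), (1, 1, 0, false), (1, 2, 1, true), (5, 0, 2, true), (5, 5, 2, false), (4, 0, 0, false), (4, 1, 2, true), (4, 5, 0, true), (3, 1, 0, false), (3, 2, 2, true), (4, 4, 2, false), (2, 2, 0, false), (2, 3, 1, true), (3, 3, 0, false), (3, 4, 0, false)]
    [(pS, false), (pW, false), (pN, true)] = true := by decide +kernel

theorem ref5 : refute 4
    [(0, 1, 1, true), (1, 1, 0, false), (1, 2, 1, true), (2, 2, 0, false), (2, 3, 1, true), (3, 3, 0, false), (3, 4, 1, true), (4, 4, 0, false), (4, 5, 1, true), (5, 5, 0, false)]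
    [(pW, false), (pN, true)] = true := by decide +kernel

theorem ref6 : refute 5
    [(0, 1, 0, true), (5, 0, 2, true), (0, 0, 1, false), (1, 0, 1, true), (2, 0, 1, false), (3, 0, 1, true), (4, 0, 0, false)]
    [(pS, false), (pW, false)] = true := by decide +kernel

theorem ref7 : refute 6
    [(5, 5, 1, false), (6, 5, 0, true), (9, 1, 0, true), (9, 1, 2, false), (6, 4, 2, false), (8, 1, 0, false), (8, 1, 2, true), (5, 4, 0, true), (7, 1, 0, false), (7, 2, 2, true), (5, 3, 1, false), (6, 2, 0, false), (6, 3, 0, false)]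
    [(pE, true), (pN, true)] = true := by decide +kernel


lemma block_sound {t : ℕ} {y : Pt × Bool → Bool}
    (h : ∀ a < 10, ∀ b < 6, sat (blk t (a * 6 + b)) (state y ((a : ℕ), (b : ℕ))) = true) :
    cond t (y pW) (y pE) (y pS) (y pN) = true := by
  unfold cond
  split_ifs with h1 h2 h3 h4 h5 h6
  · subst h1
    have := refute_sound h _ _ ref0
    have := refute_sound h _ _ ref1
    grind
  · subst h2
    have := refute_sound h _ _ ref2
    have := refute_sound h _ _ ref3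
    grind
  · subst h3
    have := refute_sound h _ _ ref4
    grind
  · subst h4
    have := refute_sound h _ _ ref5
    grind
  · subst h5
    have := refute_sound h _ _ ref6
    grind
  · subst h6
    have := refute_sound h _ _ ref7
    grind
  · rfl

def sol (t : ℕ) (w e s n : Bool) : ℕ :=
  (sols.getD t []).getD (w.toNat * 8 + e.toNat * 4 + s.toNat * 2 + n.toNat) 0

def bitY (m : ℕ) (s : Pt × Bool) : Bool :=
  m.testBit ((s.1.1.toNat * 6 + s.1.2.toNat) * 2 + s.2.toNat)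

def locY (m : ℕ) (e n x0 x1 : Bool) (s : Pt × Bool) : Bool :=
  if s.1.1 < 10 ∧ s.1.2 < 6 then bitY m s else if s = pE then e else if s = pN then n
  else if s.2 then x1 else x0

def solOK (t : ℕ) (w e s n : Bool) : Bool :=
  !cond t w e s n || (bitY (sol t w e s n) pW == w && bitY (sol t w e s n) pS == s &&
    (List.range 10).all fun a : ℕ => (List.range 6).all fun b : ℕ =>
      Nat.beq (blk t (a * 6 + b)) 0 || [false, true].all fun x0 => [false, true].all fun x1 =>
        sat (blk t (a * 6 + b)) (state (locY (sol t w e s n) e n x0 x1) (a, b)))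

theorem sol0 : ∀ w e s n, solOK 0 w e s n = true := by decide +kernel
theorem sol1 : ∀ w e s n, solOK 1 w e s n = true := by decide +kernel
theorem sol2 : ∀ w e s n, solOK 2 w e s n = true := by decide +kernel
theorem sol3 : ∀ w e s n, solOK 3 w e s n = true := by decide +kernel
theorem sol4 : ∀ w e s n, solOK 4 w e s n = true := by decide +kernel
theorem sol5 : ∀ w e s n, solOK 5 w e s n = true := by decide +kernel
theorem sol6 : ∀ w e s n, solOK 6 w e s n = true := by decide +kernel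

theorem blk_gates : ∀ t < 7, ∀ i < 60, blk t i ∈ gates := by decide +kernel

def morg (I : Pt) : Pt := (10 * I.1, 6 * I.2)

def gateOf (mt : Pt → ℕ) (T : Pt) : ℕ :=
  blk (mt (T.1 / 10, T.2 / 6)) ((T.1 % 10).toNat * 6 + (T.2 % 6).toNat)

lemma par_morg (I T : Pt) : par (morg I + T) = par T := by
  rw [par_add, show par (morg I) = false by simp [par, morg]; omega, Bool.false_xor]

lemma fsd_morg (I T : Pt) (i : Fin 3) : fsd (morg I + T) i = (morg I + (fsd T i).1, (fsd T i).2) := by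
  simp only [fsd, par_morg, add_assoc]

lemma gateOf_morg (mt : Pt → ℕ) (I : Pt) {a b : ℕ} (ha : a < 10) (hb : b < 6) :
    gateOf mt (morg I + ((a : ℤ), (b : ℤ))) = blk (mt I) (a * 6 + b) := by
  simp only [gateOf, morg, Prod.mk_add_mk]
  congr 3 <;> omega

theorem grid_sound {mt : Pt → ℕ} {y : Pt × Bool → Bool} (I : Pt)
    (h : ∀ a : ℕ, a < 10 → ∀ b : ℕ, b < 6 → sat (gateOf mt (morg I + ((a : ℤ), (b : ℤ))))
      (state y (morg I + ((a : ℤ), (b : ℤ)))) = true) :
    cond (mt I) (y (morg I + (0, 1), true)) (y (morg (I + (1, 0)) + (0, 1), true))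
      (y (morg I + (5, 0), false)) (y (morg (I + (0, 1)) + (5, 0), false)) = true := by
  have := block_sound (t := mt I) (y := fun s => y (morg I + s.1, s.2)) fun a ha b hb => by
    rw [← h a ha b hb, gateOf_morg mt I ha hb]
    congr 1
    ext i
    simp only [state, fsd_morg, par_morg]
  rwa [show morg (I + (1, 0)) + (0, 1) = morg I + pE.1 by ext <;> simp [morg, pE]; ring,
    show morg (I + (0, 1)) + (5, 0) = morg I + pN.1 by ext <;> simp [morg, pN]; ring]

theorem grid_complete {mt : Pt → ℕ} (hm : ∀ I, mt I < 7) {h v : Pt → Bool}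
    (hc : ∀ I, cond (mt I) (h I) (h (I + (1, 0))) (v I) (v (I + (0, 1))) = true) :
    ∃ y, ∀ T, sat (gateOf mt T) (state y T) = true := by
  have k : ∀ t < 7, ∀ w e s n, solOK t w e s n = true := by
    intro t ht
    interval_cases t
    exacts [sol0, sol1, sol2, sol3, sol4, sol5, sol6]
  let m : Pt → ℕ := fun I => sol (mt I) (h I) (h (I + (1, 0))) (v I) (v (I + (0, 1)))
  have k2 := fun I => k _ (hm I) (h I) (h (I + (1, 0))) (v I) (v (I + (0, 1)))
  simp only [solOK, hc, Bool.not_true, Bool.false_or, Bool.and_eq_true, beq_iff_eq,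
    List.all_eq_true, List.mem_range, Bool.or_eq_true, Nat.beq_eq] at k2
  let y : Pt × Bool → Bool := fun s =>
    bitY (m (s.1.1 / 10, s.1.2 / 6)) ((s.1.1 % 10, s.1.2 % 6), s.2)
  have k3 : ∀ I c β, 0 ≤ c.1 → c.1 < 10 → 0 ≤ c.2 → c.2 < 6 →
      y (morg I + c, β) = bitY (m I) (c, β) := by
    intro I c β h1 h2 h3 h4
    simp only [y, morg, Prod.fst_add, Prod.snd_add]
    congr 3 <;> omega
  refine ⟨y, fun T => ?_⟩
  obtain ⟨I, a, b, ha, hb, rfl⟩ : ∃ (I : Pt) (a b : ℕ), a < 10 ∧ b < 6 ∧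
      T = morg I + ((a : ℤ), (b : ℤ)) :=
    ⟨(T.1 / 10, T.2 / 6), (T.1 % 10).toNat, (T.2 % 6).toNat, by omega, by omega, by
      ext <;> simp only [morg, Prod.mk_add_mk] <;> omega⟩
  rw [gateOf_morg mt I ha hb]
  rcases (k2 I).2 a ha b hb with h1 | h1
  · rw [h1]; simp [sat]
  · rw [← h1 (y (morg I + ((a : ℤ), (b : ℤ) + 1), false)) (by simp)
      (y (morg I + ((a : ℤ) + 1, (b : ℤ)), true)) (by simp)]
    congr 1
    ext i
    simp only [state, fsd_morg, par_morg]
    congr 1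
    have e : ∀ s : Pt × Bool, 0 ≤ s.1.1 → 0 ≤ s.1.2 → (s.1.1 < 10 ∧ s.1.2 < 6 ∨
        s = (((a : ℤ), (b : ℤ) + 1), false) ∨ s = (((a : ℤ) + 1, (b : ℤ)), true)) →
        y (morg I + s.1, s.2) = locY (m I) (h (I + (1, 0))) (v (I + (0, 1)))
          (y (morg I + ((a : ℤ), (b : ℤ) + 1), false)) (y (morg I + ((a : ℤ) + 1, (b : ℤ)), true)) s := by
      intro s s1 s2 s3
      unfold locY
      split_ifs with c1 c2 c3 c4
      · exact k3 I s.1 s.2 s1 c1.1 s2 c1.2
      · rw [c2, show morg I + pE.1 = morg (I + (1, 0)) + pW.1 by ext <;> simp [morg, pE, pW]; ring,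
          k3 _ _ _ (by decide) (by decide) (by decide) (by decide)]
        exact (k2 _).1.1
      · rw [c3, show morg I + pN.1 = morg (I + (0, 1)) + pS.1 by ext <;> simp [morg, pN, pS]; ring,
          k3 _ _ _ (by decide) (by decide) (by decide) (by decide)]
        exact (k2 _).1.2
      · rcases s3 with s3 | rfl | rfl
        exacts [(c1 s3).elim, by simp at c4, rfl]
      · rcases s3 with s3 | rfl | rfl
        exacts [(c1 s3).elim, rfl, by simp at c4]
    refine e _ ?_ ?_ ?_ <;> simp only [fsd] <;> cases par ((a : ℤ), (b : ℤ)) <;> fin_cases i <;>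
      simp [fo] <;> omega

end Pool.Agent.Lib.MP_50b5c6_lc
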