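import Pool.Agent.Lib.MP_50b5c6_lc.Emb

/-! Walks, the theta lemma and contraction of connected pieces. -/

set_option linter.unusedSectionVars false

namespace Pool.Agent.Lib.MP_50b5c6_lc

variable {N A : Type}

def rv (d : A × Bool) : A × Bool := (d.1, !d.2)

@[simp] lemma rv_rv (d : A × Bool) : rv (rv d) = d := by simp [rv]
@[simp] lemma rv_fst (d : A × Bool) : (rv d).1 = d.1 := rfl

lemma eq_or_rv {d d' : A × Bool} (h : d'.1 = d.1) : d' = d ∨ d' = rv d := by
  obtain ⟨e, b⟩ := d
  obtain ⟨e', b'⟩ := d'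
  simp only at h
  subst h
  cases b <;> cases b' <;> simp [rv]

variable {ends : A × Bool → N} {χ : (A → F) → A → F}

inductive Walk (ends : A × Bool → N) (S : Set N) : N → N → List A → Prop
  | one (d : A × Bool) {a c : N} : ends d = a → ends (rv d) = c → Walk ends S a c [d.1]
  | cons (d : A × Bool) {a b c : N} {l : List A} : ends d = a → ends (rv d) = b → b ∈ S →
      Walk ends S b c l → Walk ends S a c (d.1 :: l)

namespace Walk

variable {S S' T : Set N} {a b c : N} {l l' : List A}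

lemma mem (w : Walk ends S a c l) {d : A × Bool} (hd : d.1 ∈ l) :
    ends d ∈ S ∨ ends d = a ∨ ends d = c := by
  induction w with
  | one d' h1 h2 =>
    rcases eq_or_rv (List.mem_singleton.1 hd) with rfl | rfl
    · exact .inr (.inl h1)
    · exact .inr (.inr h2)
  | cons d' h1 h2 h3 _ ih =>
    rcases List.mem_cons.1 hd with h | h
    · rcases eq_or_rv h with rfl | rfl
      · exact .inr (.inl h1)
      · exact .inl (h2 ▸ h3)
    · rcases ih h with h | h | h
      · exact .inl h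
      · exact .inl (h ▸ h3)
      · exact .inr (.inr h)

lemma first (w : Walk ends S a c l) : ∃ d, d.1 ∈ l ∧ ends d = a := by
  cases w with
  | one d h1 _ => exact ⟨d, by simp, h1⟩
  | cons d h1 _ _ _ => exact ⟨d, by simp, h1⟩

lemma last (w : Walk ends S a c l) : ∃ d, d.1 ∈ l ∧ ends d = c := by
  induction w with
  | one d _ h2 => exact ⟨rv d, by simp, h2⟩
  | cons d _ _ _ _ ih =>
    obtain ⟨d', h1, h2⟩ := ih
    exact ⟨d', List.mem_cons_of_mem _ h1, h2⟩

lemma mono (w : Walk ends S a c l) (h : S ⊆ S') : Walk ends S' a c l := by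
  induction w with
  | one d h1 h2 => exact .one d h1 h2
  | cons d h1 h2 h3 _ ih => exact .cons d h1 h2 (h h3) ih

lemma append (w : Walk ends S a b l) (w' : Walk ends S b c l') (h : b ∈ S) :
    Walk ends S a c (l ++ l') := by
  induction w with
  | one d h1 h2 => exact .cons d h1 h2 h w'
  | cons d h1 h2 h3 _ ih => exact .cons d h1 h2 h3 (ih w' h)

lemma symm (w : Walk ends S a c l) : Walk ends S c a l.reverse := by
  induction w with
  | one d h1 h2 => exact .one (rv d) h2 (by simpa using h1)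
  | cons d h1 h2 h3 _ ih =>
    rw [List.reverse_cons]
    exact ih.append (.one (rv d) h2 (by simpa using h1)) h3

lemma cut_right (w : Walk ends S a c l) : ∃ l', Walk ends (S \ {c}) a c l' := by
  induction w with
  | one d h1 h2 => exact ⟨_, .one d h1 h2⟩
  | @cons d a b c l h1 h2 h3 _ ih =>
    by_cases h : b = c
    · exact ⟨_, .one d h1 (h2.trans h)⟩
    · obtain ⟨l', w⟩ := ih
      exact ⟨_, .cons d h1 h2 ⟨h3, h⟩ w⟩

lemma shorten (w : Walk ends S a c l) : ∃ l', Walk ends ((S \ {c}) \ {a}) a c l' := by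
  obtain ⟨l1, w1⟩ := w.cut_right
  obtain ⟨l2, w2⟩ := w1.symm.cut_right
  exact ⟨_, w2.symm⟩

lemma const (w : Walk ends S a c l) {φ : A → F}
    (h : ∀ n ∈ S, ∀ d d', ends d = n → ends d' = n → φ d.1 = φ d'.1) :
    ∃ κ, ∀ e ∈ l, φ e = κ := by
  induction w with
  | one d _ _ => exact ⟨φ d.1, by simp⟩
  | cons d h1 h2 h3 w ih =>
    obtain ⟨κ, hκ⟩ := ih
    obtain ⟨d', h4, h5⟩ := w.first
    refine ⟨κ, fun e he => ?_⟩
    rcases List.mem_cons.1 he with rfl | he
    · exact (h _ h3 (rv d) d' h2 h5).trans (hκ _ h4)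
    · exact hκ e he

lemma hit (w : Walk ends S a c l) (hc : c ∈ S) : ∀ e ∈ l, ∃ β, ends (e, β) ∈ S := by
  induction w with
  | one d _ h2 => intro e he; rw [List.mem_singleton.1 he]; exact ⟨!d.2, h2 ▸ hc⟩
  | cons d h1 h2 h3 w ih =>
    intro e he
    rcases List.mem_cons.1 he with rfl | he
    · exact ⟨!d.2, h2 ▸ h3⟩
    · exact ih hc e he

end Walk

variable [Fintype N] [DecidableEq N] [Fintype A] [DecidableEq A]

lemma bd_apply (C : A → F) (n : N) : bd ends C n =
    ∑ e, C e * ((if ends (e, true) = n then 1 else 0) + (if ends (e, false) = n then 1 else 0)) := by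
  simp [bd, bv, Finset.sum_apply]

lemma bd_add (C C' : A → F) : bd ends (C + C') = bd ends C + bd ends C' := by
  simp [bd, add_smul, Finset.sum_add_distrib]

lemma bd_smul (x : F) (C : A → F) : bd ends (x • C) = x • bd ends C := by
  simp [bd, Finset.smul_sum, smul_smul]

lemma bd_zero : bd ends (0 : A → F) = 0 := by simp [bd]

lemma bd_sum {ι : Type} (s : Finset ι) (f : ι → A → F) :
    bd ends (∑ i ∈ s, f i) = ∑ i ∈ s, bd ends (f i) := by
  classical
  induction s using Finset.induction_on with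
  | empty => simp [bd_zero]
  | insert a s ha ih => rw [Finset.sum_insert ha, Finset.sum_insert ha, bd_add, ih]

def dl (n : N) : N → F := Pi.single n 1

lemma dl_add_self (n : N) : dl n + dl n = 0 := by ext; exact F_add_self _

lemma bd_single (d : A × Bool) : bd ends (Pi.single d.1 1) = dl (ends d) + dl (ends (rv d)) := by
  ext n
  rw [bd_apply, Finset.sum_eq_single d.1 (fun e _ he => by simp [he]) (by simp)]
  obtain ⟨e, _ | _⟩ := d <;> simp [dl, rv, Pi.single_apply, eq_comm, add_comm]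

def ch (l : List A) : A → F := fun e => (l.count e : F)

lemma ch_cons (e : A) (l : List A) : ch (e :: l) = Pi.single e 1 + ch l := by
  ext x
  simp only [ch, List.count_cons, Pi.add_apply, Pi.single_apply, beq_iff_eq]
  by_cases h : e = x
  · simp [h, add_comm]
  · simp [h, Ne.symm h]

lemma ch_append (l l' : List A) : ch (l ++ l') = ch l + ch l' := by
  ext x; simp [ch]

lemma mem_of_ch {l : List A} {e : A} (h : ch l e ≠ 0) : e ∈ l := by
  by_contra hn
  exact h (by simp [ch, List.count_eq_zero_of_not_mem hn])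

namespace Walk

variable {S : Set N} {a c : N} {l : List A}

lemma bd (w : Walk ends S a c l) : bd ends (ch l) = dl a + dl c := by
  induction w with
  | one d h1 h2 =>
    rw [ch_cons, bd_add, bd_single, h1, h2, show ch ([] : List A) = 0 from by ext; simp [ch],
      bd_zero, add_zero]
  | cons d h1 h2 _ _ ih =>
    rw [ch_cons, bd_add, bd_single, h1, h2, ih, add_assoc, ← add_assoc (dl _) (dl _) (dl _),
      dl_add_self, zero_add]

lemma bd_left (w : Walk ends S a c l) (h : a ≠ c) : MP_50b5c6_lc.bd ends (ch l) a = 1 := by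
  rw [w.bd]; simp [dl, h]

lemma bd_right (w : Walk ends S a c l) (h : a ≠ c) : MP_50b5c6_lc.bd ends (ch l) c = 1 := by
  rw [w.bd]; simp [dl, h.symm]

end Walk

/-- the chain has no edge at a node of `T` -/
def Av (ends : A × Bool → N) (C : A → F) (T : Set N) : Prop := ∀ d, ends d ∈ T → C d.1 = 0

lemma Av.add {C C' : A → F} {T : Set N} (h : Av ends C T) (h' : Av ends C' T) :
    Av ends (C + C') T := fun d hd => by simp [h d hd, h' d hd]

lemma Av.mono {C : A → F} {T T' : Set N} (h : Av ends C T) (h' : T' ⊆ T) : Av ends C T' :=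
  fun d hd => h d (h' hd)

lemma Walk.av {S T : Set N} {a c : N} {l : List A} (w : Walk ends S a c l)
    (h : ∀ n ∈ T, n ∉ S ∧ n ≠ a ∧ n ≠ c) : Av ends (ch l) T := fun d hd => by
  by_contra hn
  have := w.mem (mem_of_ch hn)
  have := h _ hd
  tauto

lemma Av.bd {C : A → F} {a : N} (h : Av ends C {a}) : bd ends C a = 0 := by
  rw [bd_apply]
  refine Finset.sum_eq_zero fun e _ => ?_
  by_cases h1 : ends (e, true) = a
  · rw [h (e, true) h1, zero_mul]
  by_cases h2 : ends (e, false) = a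
  · rw [h (e, false) h2, zero_mul]
  simp [h1, h2]

def Val (χ : (A → F) → A → F) (C : A → F) (l : List A) (κ : F) : Prop := ∀ e ∈ l, χ C e = κ

def ValN (ends : A × Bool → N) (χ : (A → F) → A → F) (C : A → F) (n : N) (κ : F) : Prop :=
  ∀ d, ends d = n → χ C d.1 = κ

section
variable (hE : Emb ends χ) {C C' : A → F} {S : Set N} {a c : N} {l : List A} {κ κ' : F}
include hE

lemma Emb.val (hC : bd ends C = 0) (w : Walk ends S a c l) (h : Av ends C S) :
    ∃ κ, Val χ C l κ :=
  w.const fun n hn => hE.node C hC n fun d hd => h d (hd ▸ hn)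

lemma Emb.valN (hC : bd ends C = 0) (h : Av ends C {a}) : ∃ κ, ValN ends χ C a κ := by
  by_cases h1 : ∃ d, ends d = a
  · obtain ⟨d, hd⟩ := h1
    exact ⟨χ C d.1, fun d' hd' => hE.node C hC a h d' d hd' hd⟩
  · exact ⟨0, fun d hd => (h1 ⟨d, hd⟩).elim⟩

lemma Emb.fromL (hC : bd ends C = 0) (w : Walk ends S a c l) (h : Av ends C S)
    (v : ValN ends χ C a κ) : Val χ C l κ := by
  obtain ⟨κ', h1⟩ := hE.val hC w h
  obtain ⟨d, h2, h3⟩ := w.first
  rwa [← v d h3, h1 _ h2]

lemma Emb.fromR (hC : bd ends C = 0) (w : Walk ends S a c l) (h : Av ends C S)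
    (v : ValN ends χ C c κ) : Val χ C l κ := by
  obtain ⟨κ', h1⟩ := hE.val hC w h
  obtain ⟨d, h2, h3⟩ := w.last
  rwa [← v d h3, h1 _ h2]

lemma Emb.toL (hC : bd ends C = 0) (w : Walk ends S a c l) (h : Av ends C {a})
    (v : Val χ C l κ) : ValN ends χ C a κ := by
  obtain ⟨d, h2, h3⟩ := w.first
  exact fun d' hd' => (hE.node C hC a h d' d hd' h3).trans (v _ h2)

lemma Emb.toR (hC : bd ends C = 0) (w : Walk ends S a c l) (h : Av ends C {c})
    (v : Val χ C l κ) : ValN ends χ C c κ := by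
  obtain ⟨d, h2, h3⟩ := w.last
  exact fun d' hd' => (hE.node C hC c h d' d hd' h3).trans (v _ h2)

lemma Emb.val_add (v : Val χ C l κ) (v' : Val χ C' l κ') : Val χ (C + C') l (κ + κ') :=
  fun e he => by rw [hE.add, v e he, v' e he]

lemma Emb.valN_add (v : ValN ends χ C a κ) (v' : ValN ends χ C' a κ') :
    ValN ends χ (C + C') a (κ + κ') :=
  fun e he => by rw [hE.add, v e he, v' e he]

omit hE in
lemma Walk.uniq (w : Walk ends S a c l) (v : Val χ C l κ) (v' : Val χ C l κ') : κ = κ' := by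
  obtain ⟨d, h, -⟩ := w.first
  rw [← v _ h, v' _ h]

omit hE in
lemma Walk.uniqL (w : Walk ends S a c l) (v : ValN ends χ C a κ) (v' : ValN ends χ C a κ') :
    κ = κ' := by
  obtain ⟨d, -, h⟩ := w.first
  rw [← v _ h, v' _ h]

lemma Emb.theta {C1 C2 E0 E1 E2 : A → F} {κ0 κ1 κ2 : F} (h1 : bd ends C1 = 0)
    (h2 : bd ends C2 = 0) (b0 : bd ends E0 a = 1) (b1 : bd ends E1 a = 1) (b2 : bd ends E2 a = 1)
    (hd : ∀ e, E0 e * E1 e = 0 ∧ E0 e * E2 e = 0 ∧ E1 e * E2 e = 0)
    (a1 : Av ends (C1 + E0 + E1) {a}) (a2 : Av ends (C2 + E0 + E2) {a})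
    (v0 : ∀ d, ends d = a → E0 d.1 ≠ 0 → χ (C1 + C2) d.1 = κ0)
    (v1 : ∀ d, ends d = a → E1 d.1 ≠ 0 → χ C2 d.1 = κ1)
    (v2 : ∀ d, ends d = a → E2 d.1 ≠ 0 → χ C1 d.1 = κ2) : κ0 + κ1 + κ2 = 1 := by
  have k : Av ends ((fun e => χ C1 e * C2 e + χ C2 e * C1 e + C1 e * C2 e) +
      ((κ0 + 1) • E0 + κ1 • E1 + κ2 • E2)) {a} := by
    intro d hd'
    have aux : ∀ x0 x1 x2 c1 c2 y1 y2 κ0 κ1 κ2 : F, x0 * x1 = 0 ∧ x0 * x2 = 0 ∧ x1 * x2 = 0 →
        c1 + x0 + x1 = 0 → c2 + x0 + x2 = 0 → (x0 ≠ 0 → y1 + y2 = κ0) → (x1 ≠ 0 → y2 = κ1) →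
        (x2 ≠ 0 → y1 = κ2) →
        y1 * c2 + y2 * c1 + c1 * c2 + ((κ0 + 1) * x0 + κ1 * x1 + κ2 * x2) = 0 := by
      decide +kernel
    exact aux _ _ _ _ _ _ _ _ _ _ (hd d.1) (a1 d hd') (a2 d hd')
      (fun h => hE.add C1 C2 d.1 ▸ v0 d hd' h) (v1 d hd') (v2 d hd')
  have := k.bd
  simp only [bd_add, bd_smul, hE.cap C1 C2 h1 h2, Pi.add_apply, Pi.smul_apply, b0, b1, b2,
    Pi.zero_apply, smul_eq_mul] at this
  revert this
  generalize κ0 = x; generalize κ1 = y; generalize κ2 = z
  revert x y z; decide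

theorem Emb.contract (π : N → N) (hπ : ∀ n, Relation.ReflTransGen
    (fun a b => π a = π b ∧ ∃ d, ends d = a ∧ ends (rv d) = b) n (π n)) :
    ∃ χ', Emb (fun d => π (ends d)) χ' := by
  have H : ∀ a b, Relation.ReflTransGen
      (fun a b => π a = π b ∧ ∃ d, ends d = a ∧ ends (rv d) = b) a b → π a = π b ∧
      ∃ τ : A → F, bd ends τ = dl a + dl b ∧ ∀ d, τ d.1 ≠ 0 → π (ends d) = π a := by
    intro a b h
    induction h with
    | refl => exact ⟨rfl, 0, by rw [bd_zero, dl_add_self], fun d h => (h rfl).elim⟩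
    | tail _ h ih =>
      obtain ⟨e1, τ, h1, h2⟩ := ih
      obtain ⟨e2, d0, h3, h4⟩ := h
      refine ⟨e1.trans e2, τ + Pi.single d0.1 1, ?_, fun d hd => ?_⟩
      · rw [bd_add, bd_single, h1, h3, h4, add_assoc, ← add_assoc (dl _) (dl _) (dl _),
          dl_add_self, zero_add]
      · by_cases h5 : d.1 = d0.1
        · rcases eq_or_rv h5 with rfl | rfl
          · rw [h3, e1]
          · rw [h4, e1, e2]
        · exact h2 d (by simpa [h5] using hd)
  choose τ t1 t2 using fun n => (H n _ (hπ n)).2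
  let L : (A → F) → A → F := fun C =>
    C + ∑ e, C e • (τ (ends (e, true)) + τ (ends (e, false)))
  have L1 : ∀ C, bd ends (L C) = bd (fun d => π (ends d)) C := by
    intro C
    simp only [L, bd_add, bd_sum, bd_smul, t1]
    rw [bd, bd, ← Finset.sum_add_distrib]
    refine Finset.sum_congr rfl fun e _ => ?_
    rw [← smul_add]
    congr 1
    ext n
    simp only [bv, dl, Pi.add_apply, Pi.single_apply, eq_comm (a := n)]
    have aux : ∀ a b c d : F, a + b + (a + c + (b + d)) = c + d := by decide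
    exact aux _ _ _ _
  have L2 : ∀ C d, (∀ d', π (ends d') = π (ends d) → C d'.1 = 0 ∨ τ (ends d') d.1 = 0) →
      L C d.1 = C d.1 := by
    intro C d h
    simp only [L, Pi.add_apply, Finset.sum_apply, Pi.smul_apply, smul_eq_mul, add_eq_left]
    refine Finset.sum_eq_zero fun e _ => ?_
    have k : ∀ β, C e * τ (ends (e, β)) d.1 = 0 := by
      intro β
      by_cases h1 : τ (ends (e, β)) d.1 = 0
      · rw [h1, mul_zero]
      · rcases h (e, β) (t2 _ d h1).symm with h2 | h2
        · rw [show C e = 0 from h2, zero_mul]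
        · exact (h1 h2).elim
    rw [mul_add, k, k, add_zero]
  refine ⟨fun C => χ (L C), fun C C' e => ?_, fun C hC n hn => ?_, fun C C' hC hC' => ?_⟩
  · rw [← hE.add]
    congr 1
    simp only [L, Pi.add_apply, add_smul, Finset.sum_add_distrib]
    abel
  · have k0 : ∀ m, π m = n → ∀ d d', ends d = m → ends d' = m → χ (L C) d.1 = χ (L C) d'.1 :=
      fun m hm => hE.node _ ((L1 C).trans hC) m fun d hd => by
        have h1 : π (ends d) = n := hd ▸ hm
        rw [L2 C d fun d' h => .inl (hn d' (h.trans h1)), hn d h1]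
    have k1 : ∀ a b, Relation.ReflTransGen
        (fun a b => π a = π b ∧ ∃ d, ends d = a ∧ ends (rv d) = b) a b → π a = n →
        ∀ d, ends d = a → ∃ d0, ends d0 = b ∧ χ (L C) d0.1 = χ (L C) d.1 := by
      intro a b h ha d hd
      induction h with
      | refl => exact ⟨d, hd, rfl⟩
      | tail h' h ih =>
        obtain ⟨d0, h1, h2⟩ := ih
        obtain ⟨-, d1, h3, h4⟩ := h
        exact ⟨rv d1, h4, (k0 _ ((H _ _ h').1.symm.trans ha) d1 d0 h3 h1).trans h2⟩
    intro d d' hd hd'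
    obtain ⟨d0, h1, h2⟩ := k1 _ _ (hπ (ends d)) hd d rfl
    obtain ⟨d1, h3, h4⟩ := k1 _ _ (hπ (ends d')) hd' d' rfl
    rw [← h2, ← h4]
    exact k0 n (by rw [← hd]; exact (H _ _ (hπ _)).1.symm) d0 d1 (h1.trans hd) (h3.trans hd')
  · have k := hE.cap _ _ ((L1 C).trans hC) ((L1 C').trans hC')
    ext m
    have k2 := congrArg (fun g => g ⬝ᵥ fun n => if π n = m then (1 : F) else 0) k
    simp only [bd, sum_dotProduct, smul_dotProduct, bv_dot, zero_dotProduct, smul_eq_mul] at k2
    rw [bd_apply]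
    refine Eq.trans (Finset.sum_congr rfl fun e _ => ?_) k2
    by_cases he : π (ends (e, true)) = π (ends (e, false))
    · simp only [he, F_add_self, mul_zero]
    · have k3 : ∀ C, L C e = C e := fun C => L2 C (e, true) fun d' _ => .inr (by
        by_contra hn
        exact he ((t2 _ (e, true) hn).trans (t2 _ (e, false) hn).symm))
      simp only [k3]

end

end Pool.Agent.Lib.MP_50b5c6_lc
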