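import Pool.Agent.Lib.MP_50b5c6_lc.If

/-! A confluent drawing gives states that satisfy all faces. -/

namespace Pool.Agent.Lib.MP_50b5c6_lc

def tAll (π : Bool) : List (Pt × Pt) := base' π ++ (List.range 6).map fun t => eP π (19 + t)

lemma tAll_of {π : Bool} {g : ℕ} {e : Pt × Pt} (h : e ∈ templ π g) : e ∈ tAll π := by
  rcases mem_flag.1 h with h | ⟨t, h1, -, rfl⟩
  · exact List.mem_append_left _ h
  · exact List.mem_append_right _ (List.mem_map.2 ⟨t, List.mem_range.2 h1, rfl⟩)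

def may (π : Bool) (a b : Pt) : Bool :=
  decide ((vl a, b - org (vt a)) ∈ tAll (π ^^ par (vt a))) ||
    decide ((vl b, a - org (vt b)) ∈ tAll (π ^^ par (vt b)))

variable {gate : Pt → ℕ} {X Y : ℤ}

lemma graph_adj {a b : {v // win X Y v}} :
    (graph gate X Y).Adj a b ↔ a ≠ b ∧ (E gate a.1 b.1 ∨ E gate b.1 a.1) := by simp [graph]

lemma adj_of {a b : {v // win X Y v}} (T a0 b0 : Pt) (ha : a.1 = org T + a0)
    (hb : b.1 = org T + b0) (h : a0 ≠ b0 ∧ near (par T) a0 b0 = true) : (graph gate X Y).Adj a b := by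
  have h1 : a.1 ≠ b.1 := by rw [ha, hb]; exact (add_right_injective _).ne h.1
  exact graph_adj.2 ⟨fun e => h1 (by rw [e]),
    (ha ▸ hb ▸ near_sound gate h.2 : nearG gate a.1 b.1).resolve_left h1⟩

lemma not_adj_of {a b : {v // win X Y v}} (T a0 b0 : Pt) (ha : a.1 = org T + a0)
    (hb : b.1 = org T + b0) (h : may (par T) a0 b0 = false) : ¬(graph gate X Y).Adj a b := by
  intro h1
  have h2 := (graph_adj.1 h1).2
  simp only [ha, hb, E, vt_add, vl_add, par_add, org_add, add_sub_add_left_eq_sub] at h2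
  simp only [may, Bool.or_eq_false_iff, decide_eq_false_iff_not] at h
  exact h2.elim (fun k => h.1 (tAll_of k)) fun k => h.2 (tAll_of k)

def spt (s : Pt × Bool) (k : ℤ) : Pt := org s.1 + sl (par s.1) s.2 k

lemma spt_fsd (T : Pt) (i : Fin 3) (k : ℤ) : spt (fsd T i) k = org T + fp (par T) i k := by
  simp only [spt, fsd, fp, org_add, par_add, add_assoc]

lemma spt_inj {s s' : Pt × Bool} (hs : s.2 = false → par s.1 = true)
    (hs' : s'.2 = false → par s'.1 = true) {k k' : ℤ} (h1 : 1 ≤ k) (h2 : k ≤ 11) (h3 : 0 ≤ k')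
    (h4 : k' ≤ 12) (h : spt s k = spt s' k') : s = s' ∧ k = k' := by
  obtain ⟨⟨A, B⟩, l⟩ := s
  obtain ⟨⟨A', B'⟩, l'⟩ := s'
  simp only [spt, sl, par, org, decide_eq_true_eq, Prod.ext_iff, Prod.fst_add, Prod.snd_add]
    at hs hs' h ⊢
  cases l <;> cases l' <;> simp only [Bool.false_eq_true, if_false, if_true, forall_const,
    Bool.true_eq_false, and_false, false_and, and_true] at hs hs' h ⊢ <;>
    split_ifs at h <;> simp only at h <;> omega

set_option synthInstance.maxSize 1000 in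
lemma deg1 : ∀ π left, (left = false → π = true) → ∀ k ∈ ([1, 2, 3, 5, 6, 7, 9, 10, 11] : List ℤ),
    vt (sl π left k) = 0 ∧ ∀ e ∈ tAll π, e.1 = sl π left k →
      e.2 = sl π left (k - 1) ∨ e.2 = sl π left (k + 1) := by decide +kernel

set_option synthInstance.maxSize 1000 in
lemma deg2 : ∀ π left, (left = false → π = true) → ∀ k ∈ ([1, 2, 3, 5, 6, 7, 9, 10, 11] : List ℤ),
    ∀ π', ∀ e ∈ tAll π', vl e.2 = sl π left k → π = (π' ^^ par (vt e.2)) →
      vt e.2 = 0 ∧ (e.1 = sl π left (k - 1) ∨ e.1 = sl π left (k + 1)) := by decide +kernel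

lemma deg {s : Pt × Bool} (hs : s.2 = false → par s.1 = true) {k : ℤ}
    (hk : k ∈ ([1, 2, 3, 5, 6, 7, 9, 10, 11] : List ℤ)) {w : Pt}
    (h : E gate (spt s k) w ∨ E gate w (spt s k)) : w = spt s (k - 1) ∨ w = spt s (k + 1) := by
  obtain ⟨h1, h2⟩ := deg1 _ _ hs k hk
  have h3 : vl (sl (par s.1) s.2 k) = sl (par s.1) s.2 k := by
    simpa [h1, org_zero] using org_vl (sl (par s.1) s.2 k)
  rcases h with h | h
  · simp only [E, spt, vt_add, vl_add, h1, h3, add_zero] at h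
    exact (h2 _ (tAll_of h) rfl).imp (fun k => eq_add_of_sub_eq' k) fun k => eq_add_of_sub_eq' k
  · have e : spt s k - org (vt w) = org (s.1 - vt w) + sl (par s.1) s.2 k := by
      rw [eq_comm, eq_sub_iff_add_eq', ← add_assoc, ← org_add, add_sub_cancel, spt]
    have := deg2 _ _ hs k hk _ _ (tAll_of h) (by rw [e, vl_add, h3])
      (by rw [e, vt_add, h1, add_zero, ← par_add, add_sub_cancel])
    rw [e, vt_add, h1, add_zero, sub_eq_zero] at this
    rw [← org_vl w, ← this.1]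
    exact this.2.imp (fun k => congrArg _ k) fun k => congrArg _ k

lemma sl_range (π left : Bool) {k : ℤ} (h1 : 0 ≤ k) (h2 : k ≤ 12) : 0 ≤ (sl π left k).1 ∧
    (sl π left k).1 ≤ 60 ∧ 0 ≤ (sl π left k).2 ∧ (sl π left k).2 ≤ 27 := by
  unfold sl; split_ifs <;> simp only <;> omega

set_option synthInstance.maxSize 1000 in
lemma side_facts : ∀ π left, (left = false → π = true) →
    (∀ k : Fin 12, sl π left k.1 ≠ sl π left (k.1 + 1) ∧
      near π (sl π left k.1) (sl π left (k.1 + 1)) = true) ∧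
    (sl π left 0 ≠ sl π left 8 ∧ near π (sl π left 0) (sl π left 8) = true) ∧
    (sl π left 4 ≠ sl π left 12 ∧ near π (sl π left 4) (sl π left 12) = true) ∧
    sl π left 0 ≠ sl π left 12 ∧ may π (sl π left 0) (sl π left 4) = false ∧
    may π (sl π left 0) (sl π left 12) = false := by decide +kernel

set_option synthInstance.maxSize 1000 in
lemma face_facts : ∀ π, (zL π ≠ oL π ∧ near π (zL π) (oL π) = true) ∧ ∀ i : Fin 3,
    fp π i 12 = fp π (i + 1) 0 ∧ (∀ j, fp π i 0 = fp π j 0 → i = j) ∧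
    (oL π ≠ fp π i 0 ∧ near π (oL π) (fp π i 0) = true) ∧
    (zL π ≠ fp π i 0 ∧ near π (zL π) (fp π i 0) = true) ∧
    may π (fp π i 4) (oL π) = false ∧ may π (fp π i 8) (oL π) = false ∧
    may π (fp π i 4) (fp π (i + 2) 0) = false ∧ may π (fp π i 8) (fp π (i + 2) 0) = false ∧
    eP π (19 + 2 * i) = (zL π, fp π i 8) ∧ eP π (19 + (2 * i + 1)) = (zL π, fp π i 4) ∧
    vt (zL π) = 0 := by decide +kernel

lemma oz_ne : ∀ π π' left, ∀ k : Fin 13, vl (sl π' left k.1) ≠ vl (oL π) ∧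
    vl (sl π' left k.1) ≠ vl (zL π) := by decide +kernel

set_option synthInstance.maxSize 1000 in
lemma two_faces : ∀ i i' : Fin 3, (fo true i).2 = (fo false i').2 →
    par ((fo true i).1 - (fo false i').1) = true →
    fp true (i + 2) 0 ≠ org ((fo true i).1 - (fo false i').1) + fp false (i' + 2) 0 ∧
    ∀ j j', (j ≠ i ∨ j' ≠ i') → (fo true j).2 = (fo false j').2 →
      (fo true j).1 ≠ (fo true i).1 - (fo false i').1 + (fo false j').1 := by decide +kernel

lemma one_face : ∀ π, ∀ i i' : Fin 3, (fo π i).2 = (fo π i').2 →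
    par ((fo π i).1 - (fo π i').1) = false → i = i' := by decide +kernel

theorem only_dir {simple : Prop} (h : Confluent simple (graph gate X Y)) :
    ∃ y : Pt × Bool → Bool, ∀ T : Pt, 0 ≤ T.1 → 30 * T.1 + 90 < X → 0 ≤ T.2 → 26 * T.2 + 53 < Y →
      sat (gate T) (state y T) = true := by
  classical
  have : Fintype {v // win X Y v} := (Set.Finite.subset (Set.finite_Icc (0 : Pt) (X, Y))
    fun v (hv : win X Y v) => ⟨⟨hv.1, hv.2.2.1⟩, hv.2.1.le, hv.2.2.2.le⟩).fintype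
  let ok : Pt × Bool → Prop := fun s => (s.2 = false → par s.1 = true) ∧ 0 ≤ s.1.1 ∧
    30 * s.1.1 + 60 < X ∧ 0 ≤ s.1.2 ∧ 26 * s.1.2 + 27 < Y
  let P : {s // ok s} → Fin 13 → {v // win X Y v} := fun s k => ⟨spt s.1 k.1, by
    have := sl_range (par s.1.1) s.1.2 (k := k.1) (by omega) (by omega)
    have := s.2.2
    simp only [win, spt, org, Prod.fst_add, Prod.snd_add]
    omega⟩
  have Pi : ∀ {s s' k k'}, P s k = P s' k' → 1 ≤ k.1 → k.1 ≤ 11 → s = s' ∧ k = k' := by
    intro s s' k k' e h1 h2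
    have := spt_inj s.2.1 s'.2.1 (by omega) (by omega) (by omega) (by omega)
      (congrArg Subtype.val e)
    exact ⟨Subtype.ext this.1, Fin.ext (by omega)⟩
  let kE : Fin 3 → Bool → Fin 13 := fun j β => ⟨4 * j.1 + if β then 4 else 0, by
    split_ifs <;> omega⟩
  let kN : Fin 3 → Bool → Fin 13 := fun j β => ⟨4 * j.1 + if β then 3 else 1, by
    split_ifs <;> omega⟩
  let kM : Fin 3 → Fin 13 := fun j => ⟨4 * j.1 + 2, by omega⟩
  have Pa : ∀ s (k k' : Fin 13), k'.1 = k.1 + 1 → (graph gate X Y).Adj (P s k) (P s k') := by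
    intro s k k' e
    refine adj_of s.1.1 _ _ rfl rfl ?_
    rw [e]
    exact (side_facts _ _ s.2.1).1 ⟨k.1, by omega⟩
  have Pd : ∀ s (k k1 k2 : Fin 13) w, k.1 % 4 ≠ 0 → k.1 = k1.1 + 1 → k2.1 = k.1 + 1 →
      (graph gate X Y).Adj (P s k) w → w = P s k1 ∨ w = P s k2 := by
    intro s k k1 k2 w h1 h2 h3 h4
    have := deg s.2.1 (k := k.1) (by simp only [List.mem_cons]; omega) (graph_adj.1 h4).2
    exact this.imp (fun e => Subtype.ext (e.trans (by simp [P, h2])))
      fun e => Subtype.ext (e.trans (by simp [P, h3]))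
  have hL : Links (graph gate X Y) (fun i : ({s // ok s} × Fin 3) × Bool => P i.1.1 (kE i.1.2 i.2))
      (fun i => P i.1.1 (kN i.1.2 i.2)) (fun i => P i.1 (kM i.2)) := by
    refine ⟨?_, ?_, ?_, ?_, ?_, ?_, ?_, ?_, ?_⟩
    · rintro ⟨⟨s, j⟩, _ | _⟩
      exacts [Pa _ _ _ rfl, (Pa _ _ _ rfl).symm]
    · rintro ⟨⟨s, j⟩, _ | _⟩
      exacts [Pa _ _ _ rfl, (Pa _ _ _ rfl).symm]
    · rintro ⟨⟨s, j⟩, _ | _⟩ w h
      · exact Pd _ _ _ _ w (by simp [kN]) rfl rfl h
      · exact (Pd _ _ _ _ w (by simp [kN]) rfl rfl h).symm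
    · rintro ⟨s, j⟩ w h
      rcases Pd _ _ (kN j false) (kN j true) w (by simp [kM]) rfl rfl h with h | h
      exacts [⟨false, h⟩, ⟨true, h⟩]
    · rintro ⟨⟨s, j⟩, β⟩ ⟨⟨s', j'⟩, β'⟩ e
      obtain ⟨rfl, h⟩ := Pi e (by cases β <;> simp [kN]) (by cases β <;> simp [kN] <;> omega)
      cases β <;> cases β' <;> simp [kN] at h ⊢ <;> omega
    · rintro ⟨s, j⟩ ⟨s', j'⟩ e
      obtain ⟨rfl, h⟩ := Pi e (by simp [kM]) (by simp [kM]; omega)
      simp [kM] at h ⊢; omega
    · rintro ⟨⟨s, j⟩, β⟩ ⟨s', j'⟩ e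
      obtain ⟨-, h⟩ := Pi e.symm (by simp [kM]) (by simp [kM]; omega)
      cases β <;> simp [kN, kM] at h <;> omega
    · rintro ⟨⟨s, j⟩, β⟩ ⟨⟨s', j'⟩, β'⟩ e
      obtain ⟨-, h⟩ := Pi e.symm (by cases β' <;> simp [kN]) (by cases β' <;> simp [kN] <;> omega)
      cases β <;> cases β' <;> simp [kN, kE] at h <;> omega
    · rintro ⟨⟨s, j⟩, β⟩ ⟨s', j'⟩ e
      obtain ⟨-, h⟩ := Pi e.symm (by simp [kM]) (by simp [kM]; omega)
      cases β <;> simp [kE, kM] at h <;> omega
  have Pr : ∀ s j β, Real (fun i : ({s // ok s} × Fin 3) × Bool => P i.1.1 (kN i.1.2 i.2))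
      (fun i => P i.1 (kM i.2)) (P s (kE j β)) := fun s j β =>
    ⟨hL.d2 ((s, j), β), hL.d3 ((s, j), β)⟩
  have Pn : ∀ {s s' k k'}, 1 ≤ k.1 → k.1 ≤ 11 → k ≠ k' → P s k ≠ P s' k' :=
    fun h1 h2 h3 e => h3 (Pi e h1 h2).2
  have Z : Sides (graph gate X Y) _ (fun i : ({s // ok s} × Fin 3) × Bool => P i.1.1 (kE i.1.2 i.2))
      (P · 0) (P · 4) (P · 8) (P · 12) :=
    ⟨fun _ => rfl, fun _ => rfl, fun _ => rfl, fun _ => rfl, fun _ => rfl, fun _ => rfl,
      fun s => Pr s 0 false, fun s => Pr s 0 true, fun s => Pr s 1 true, fun s => Pr s 2 true,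
      fun _ _ e => (Pi e (by decide) (by decide)).1, fun _ _ e => (Pi e (by decide) (by decide)).1,
      fun _ _ => Pn (by decide) (by decide) (by decide),
      fun _ _ => Pn (by decide) (by decide) (by decide),
      fun _ _ => Pn (by decide) (by decide) (by decide),
      fun _ _ => Pn (by decide) (by decide) (by decide),
      fun _ _ => Pn (by decide) (by decide) (by decide),
      fun s e => (side_facts _ _ s.2.1).2.2.2.1 (add_left_cancel (congrArg Subtype.val e)),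
      fun s => adj_of s.1.1 _ _ rfl rfl (side_facts _ _ s.2.1).2.1,
      fun s => adj_of s.1.1 _ _ rfl rfl (side_facts _ _ s.2.1).2.2.1,
      fun s => not_adj_of s.1.1 _ _ rfl rfl (side_facts _ _ s.2.1).2.2.2.2.1,
      fun s => not_adj_of s.1.1 _ _ rfl rfl (side_facts _ _ s.2.1).2.2.2.2.2⟩
  let Φ := {T : Pt // 0 ≤ T.1 ∧ 30 * T.1 + 90 < X ∧ 0 ≤ T.2 ∧ 26 * T.2 + 53 < Y}
  let S : Φ → Fin 3 → {s // ok s} := fun T i => ⟨fsd T.1 i, by
    have := T.2
    simp only [ok, fsd, par_add]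
    cases par T.1 <;> fin_cases i <;> simp [fo, par] <;> omega⟩
  let o : Φ → {v // win X Y v} := fun T => ⟨org T.1 + oL (par T.1), by
    have := T.2
    cases par T.1 <;> simp [win, org, oL] <;> omega⟩
  let z : Φ → {v // win X Y v} := fun T => ⟨org T.1 + zL (par T.1), by
    have := T.2
    cases par T.1 <;> simp [win, org, zL] <;> omega⟩
  have PS : ∀ T i k, (P (S T i) k).1 = org T.1 + fp (par T.1) i k.1 := fun T i k => spt_fsd _ _ _
  have Po : ∀ T s k, P s k ≠ o T ∧ P s k ≠ z T := fun T s k =>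
    ⟨fun e => (oz_ne (par T.1) (par s.1.1) s.1.2 k).1
        (by simpa only [P, o, spt, vl_add] using congrArg (fun v => vl v.1) e),
      fun e => (oz_ne (par T.1) (par s.1.1) s.1.2 k).2
        (by simpa only [P, z, spt, vl_add] using congrArg (fun v => vl v.1) e)⟩
  obtain ⟨y, hy⟩ := h.only hL Z (s := S) (o := o) (z := z) (c := fun T => par T.1)
    (fun T => by
      obtain ⟨f0, f⟩ := face_facts (par T.1)
      exact ⟨fun i => Subtype.ext ((PS T i 12).trans ((congrArg _ (f i).1).trans (PS T _ 0).symm)),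
        fun i j e => (f i).2.1 j (add_left_cancel
          ((PS T i 0).symm.trans ((congrArg Subtype.val e).trans (PS T j 0)))),
        ⟨fun _ => (Po T _ _).1.symm, fun _ => (Po T _ _).1.symm⟩,
        ⟨fun _ => (Po T _ _).2.symm, fun _ => (Po T _ _).2.symm⟩,
        fun _ => (Po T _ _).1, fun _ => (Po T _ _).2, adj_of T.1 _ _ rfl rfl f0,
        fun i => adj_of T.1 _ _ rfl (PS _ _ _) (f i).2.2.1,
        fun i => adj_of T.1 _ _ rfl (PS _ _ _) (f i).2.2.2.1,
        fun i => ⟨not_adj_of T.1 _ _ (PS _ _ _) rfl (f i).2.2.2.2.1,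
          not_adj_of T.1 _ _ (PS _ _ _) rfl (f i).2.2.2.2.2.1⟩,
        fun i => ⟨not_adj_of T.1 _ _ (PS _ _ _) (PS _ _ _) (f i).2.2.2.2.2.2.1,
          not_adj_of T.1 _ _ (PS _ _ _) (PS _ _ _) (f i).2.2.2.2.2.2.2.1⟩⟩)
    (fun T T' i i' e1 e2 => by
      have e3 : fsd T.1 i = fsd T'.1 i' := congrArg Subtype.val e1
      simp only [fsd, ← e2, Prod.mk.injEq] at e3
      have e4 : T'.1 = T.1 + ((fo (par T.1) i).1 - (fo (par T.1) i').1) := by
        rw [← add_sub_assoc, e3.1, add_sub_cancel_right]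
      have e5 := one_face _ i i' e3.2 (by
        rw [e4, par_add] at e2; revert e2; cases par T.1 <;> simp)
      subst e5
      exact ⟨Subtype.ext (by rw [e4, sub_self, add_zero]), rfl⟩)
    (fun T T' i i' e1 e2 e2' => by
      have e3 : fsd T.1 i = fsd T'.1 i' := congrArg Subtype.val e1
      simp only [fsd, e2, e2', Prod.mk.injEq] at e3
      have e4 : T'.1 = T.1 + ((fo true i).1 - (fo false i').1) := by
        rw [← add_sub_assoc, e3.1, add_sub_cancel_right]
      obtain ⟨k1, k2⟩ := two_faces i i' e3.2 (by rw [e4, par_add, e2] at e2'; simpa using e2')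
      have k3 : ∀ j j', j ≠ i ∨ j' ≠ i' → S T j ≠ S T' j' := by
        intro j j' hj e
        have e5 : fsd T.1 j = fsd T'.1 j' := congrArg Subtype.val e
        simp only [fsd, e2, e2', Prod.mk.injEq] at e5
        exact k2 j j' hj e5.2 (add_left_cancel (e5.1.trans (by rw [e4, add_assoc])))
      refine ⟨fun e => k1 ?_, fun j j' h => k3 j j' (.inl h), fun j j' h => k3 j j' (.inr h)⟩
      have e5 := (PS T _ 0).symm.trans ((congrArg Subtype.val e).trans (PS T' _ 0))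
      rw [e2, e2', e4, org_add, add_assoc] at e5
      exact add_left_cancel e5)
  refine ⟨fun s => if h : ok s then y ⟨s, h⟩ else false, fun T h1 h2 h3 h4 => ?_⟩
  obtain ⟨σ, hσ⟩ := hy ⟨T, h1, h2, h3, h4⟩
  refine decide_eq_true ⟨σ, fun i => ?_⟩
  have e : state (fun s => if h : ok s then y ⟨s, h⟩ else false) T i = true ↔
      y (S ⟨T, h1, h2, h3, h4⟩ i) = par T := by
    simp only [state, beq_iff_eq]
    rw [dif_pos (show ok (fsd T i) from (S ⟨T, h1, h2, h3, h4⟩ i).2)]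
  obtain ⟨-, -, -, -, -, -, -, -, f1, f2, f5⟩ := (face_facts (par T)).2 i
  have k : ∀ t (k : Fin 13), t < 6 → flg (gate T) t = true →
      eP (par T) (19 + t) = (zL (par T), fp (par T) i k.1) → (graph gate X Y).Adj (z ⟨T, h1, h2, h3, h4⟩)
        (P (S ⟨T, h1, h2, h3, h4⟩ i) k) := by
    intro t k t1 t2 t3
    refine graph_adj.2 ⟨(Po _ _ _).2.symm, .inl ?_⟩
    rw [PS]
    exact E_of_mem (e := (zL (par T), fp (par T) i k.1)) (mem_flag.2 (.inr ⟨t, t1, t2, t3.symm⟩)) f5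
  rw [Ne, Ne, e]
  exact ⟨fun g1 => (hσ i).1 (k (2 * i) 8 (by omega) (by simpa [flg] using g1) f1),
    fun g1 => (hσ i).2 (k (2 * i + 1) 4 (by omega)
      (by simpa [flg, show (2 * i.1 + 1) / 2 = i.1 by omega] using g1) f2)⟩

end Pool.Agent.Lib.MP_50b5c6_lc
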