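import Pool.Prelude.Def_F_458e953d

namespace Pool.Agent.Lib.MP_50b5c6_lc

open scoped ContDiff

/-- The velocity with which arc `d.1` leaves its start (`d.2 = false`) or, run backwards, its end
(`d.2 = true`). -/
noncomputable def vel {A : Type} (γ : A → ℝ → ℂ) (d : A × Bool) : ℂ :=
  if d.2 then -deriv (γ d.1) 1 else deriv (γ d.1) 0

/-- `G` is represented by a confluent drawing; smooth paths must have distinct junctions when
`simple` holds (confluent) and need not otherwise (strongly confluent). -/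
def Confluent (simple : Prop) {V : Type} (G : SimpleGraph V) : Prop :=
  ∃ (J A : Type) (_ : Finite J) (_ : Finite A) (pos : V ⊕ J → ℂ) (γ : A → ℝ → ℂ)
    (ends : A × Bool → V ⊕ J),
    Function.Injective pos ∧
    (∀ a, ContDiff ℝ ∞ (γ a) ∧ Set.InjOn (γ a) (Set.Icc 0 1) ∧
      (∀ t ∈ Set.Icc (0 : ℝ) 1, deriv (γ a) t ≠ 0) ∧
      γ a 0 = pos (ends (a, false)) ∧ γ a 1 = pos (ends (a, true))) ∧
    (∀ a, ∀ t ∈ Set.Ioo (0 : ℝ) 1, (∀ n, γ a t ≠ pos n) ∧
      ∀ b ≠ a, ∀ s ∈ Set.Icc (0 : ℝ) 1, γ a t ≠ γ b s) ∧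
    (∀ j d d', ends d = .inr j → ends d' = .inr j → ∃ r : ℝ, vel γ d' = r • vel γ d) ∧
    ∀ u v, u ≠ v → (G.Adj u v ↔ ∃ l : List (A × Bool),
      l.head?.map ends = some (.inl u) ∧
      l.getLast?.map (fun d => ends (d.1, !d.2)) = some (.inl v) ∧
      l.IsChain (fun d d' => (∃ j, ends (d.1, !d.2) = .inr j ∧ ends d' = .inr j) ∧
        SameRay ℝ (-vel γ (d.1, !d.2)) (vel γ d')) ∧
      (simple → (l.map fun d => ends (d.1, !d.2)).Nodup))

open Classical in
/-- The bit strings that encode the vertex list and an edge list of such a graph. -/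
noncomputable def lang (simple : Prop) : N68a2faeb.DecisionProblem := fun s =>
  decide (∃ (n : ℕ) (es : List (Fin n × Fin n)),
    s = N487b59b3.bitEncode (List.range n, es.map fun e => (e.1.val, e.2.val)) ∧
    Confluent simple (SimpleGraph.fromRel fun u v => (u, v) ∈ es))

end Pool.Agent.Lib.MP_50b5c6_lc
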