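import Pool.Agent.Lib.MP_50b5c6_lc.World

/-! What a face of the frame forces. -/

set_option linter.unusedSectionVars false

namespace Pool.Agent.Lib.MP_50b5c6_lc

variable {V A N Sd : Type} [Fintype N] [DecidableEq N] [Fintype A] [DecidableEq A]

structure Sides (G : SimpleGraph V) (R : V → Prop) (en : (Sd × Fin 3) × Bool → V)
    (u x p w : Sd → V) : Prop where
  e0 : ∀ s, en ((s, 0), false) = u s
  e1 : ∀ s, en ((s, 0), true) = x s
  e2 : ∀ s, en ((s, 1), false) = x s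
  e3 : ∀ s, en ((s, 1), true) = p s
  e4 : ∀ s, en ((s, 2), false) = p s
  e5 : ∀ s, en ((s, 2), true) = w s
  ru : ∀ s, R (u s)
  rx : ∀ s, R (x s)
  rp : ∀ s, R (p s)
  rw : ∀ s, R (w s)
  xi : ∀ s s', x s = x s' → s = s'
  pi : ∀ s s', p s = p s' → s = s'
  xp : ∀ s s', x s ≠ p s'
  xu : ∀ s s', x s ≠ u s'
  xw : ∀ s s', x s ≠ w s'
  pu : ∀ s s', p s ≠ u s'
  pw : ∀ s s', p s ≠ w s'
  uw : ∀ s, u s ≠ w s
  aA : ∀ s, G.Adj (u s) (p s)
  aB : ∀ s, G.Adj (x s) (w s)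
  nx : ∀ s, ¬G.Adj (u s) (x s)
  nw : ∀ s, ¬G.Adj (u s) (w s)

variable {G : SimpleGraph V} {R : V → Prop} {en : (Sd × Fin 3) × Bool → V} {ends : A × Bool → N}
  {χ : (A → F) → A → F} {vx : V → N} {lS : Sd × Fin 3 → Set N} {lk : Sd × Fin 3 → List A}
  {Free : Set N} {Pa : V → V → Set N → Prop} {u x p w : Sd → V}

def reg (vx : V → N) (lS : Sd × Fin 3 → Set N) (x p : Sd → V) (s : Sd) : Set N :=
  {n | n ∈ lS (s, 0) ∨ n ∈ lS (s, 1) ∨ n ∈ lS (s, 2) ∨ n = vx (x s) ∨ n = vx (p s)}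

def sw (lk : Sd × Fin 3 → List A) (s : Sd) : List A := lk (s, 0) ++ (lk (s, 1) ++ lk (s, 2))

lemma Av.mul {l : List A} {C : A → F} {T : Set N} (h : Av ends C T)
    (h' : ∀ e ∈ l, ∃ β, ends (e, β) ∈ T) (e : A) : C e * ch l e = 0 := by
  by_cases h1 : ch l e = 0
  · rw [h1, mul_zero]
  · obtain ⟨β, h2⟩ := h' e (mem_of_ch h1)
    rw [show C e = 0 from h _ h2, zero_mul]

lemma av_zero {T : Set N} : Av ends 0 T := fun _ _ => rfl

lemma add_self_F (C : A → F) : C + C = 0 := by ext; exact F_add_self _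

variable (W : World G R en ends χ vx lS lk Free Pa) (Z : Sides G R en u x p w)
include W Z

lemma w0 (s : Sd) : Walk ends (lS (s, 0)) (vx (u s)) (vx (x s)) (lk (s, 0)) := by
  simpa only [Z.e0, Z.e1] using W.lw (s, 0)

lemma w1 (s : Sd) : Walk ends (lS (s, 1)) (vx (x s)) (vx (p s)) (lk (s, 1)) := by
  simpa only [Z.e2, Z.e3] using W.lw (s, 1)

lemma w2 (s : Sd) : Walk ends (lS (s, 2)) (vx (p s)) (vx (w s)) (lk (s, 2)) := by
  simpa only [Z.e4, Z.e5] using W.lw (s, 2)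

lemma ws (s : Sd) : Walk ends (reg vx lS x p s) (vx (u s)) (vx (w s)) (sw lk s) :=
  ((w0 W Z s).mono fun _ h => .inl h).append (((w1 W Z s).mono fun _ h => .inr (.inl h)).append
    ((w2 W Z s).mono fun _ h => .inr (.inr (.inl h))) (by simp [reg])) (by simp [reg])

lemma hs (s : Sd) : ∀ e ∈ sw lk s, ∃ β, ends (e, β) ∈ reg vx lS x p s := by
  intro e he
  simp only [sw, List.mem_append] at he
  rcases he with he | he | he <;> obtain ⟨β, h⟩ := W.lh _ e he <;> exact ⟨β, by simp [reg, h]⟩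

lemma reg_v {s : Sd} {v : V} (hv : R v) (h : vx v ∈ reg vx lS x p s) : v = x s ∨ v = p s := by
  rcases h with h | h | h | h | h
  exacts [(W.vS _ _ hv h).elim, (W.vS _ _ hv h).elim, (W.vS _ _ hv h).elim, .inl (W.inj h),
    .inr (W.inj h)]

lemma reg_F {s : Sd} {n : N} (h : n ∈ reg vx lS x p s) : n ∉ Free := by
  rcases h with h | h | h | rfl | rfl
  exacts [W.SF _ _ h, W.SF _ _ h, W.SF _ _ h, W.vF _, W.vF _]

lemma reg_reg {s s' : Sd} {n : N} (h : n ∈ reg vx lS x p s) (h' : n ∈ reg vx lS x p s') :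
    s = s' := by
  have k : ∀ {s s' : Sd} {n : N} {k}, n ∈ lS (s, k) → n ∈ reg vx lS x p s' → s = s' := by
    intro s s' n k h h'
    rcases h' with h' | h' | h' | rfl | rfl
    exacts [congrArg Prod.fst (W.SS _ _ _ h h'), congrArg Prod.fst (W.SS _ _ _ h h'),
      congrArg Prod.fst (W.SS _ _ _ h h'), (W.vS _ _ (Z.rx _) h).elim, (W.vS _ _ (Z.rp _) h).elim]
  rcases h with h | h | h | rfl | rfl
  exacts [k h h', k h h', k h h', (reg_v W Z (Z.rx _) h').elim (Z.xi _ _) fun h => (Z.xp _ _ h).elim,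
    (reg_v W Z (Z.rp _) h').elim (fun h => (Z.xp _ _ h.symm).elim) (Z.pi _ _)]

lemma cross (s : Sd) {lr la lb : List A} {Sr Sa Sb : Set N} {κ κ' : F}
    (wr : Walk ends Sr (vx (w s)) (vx (u s)) lr) (hr : ∀ e ∈ lr, ∃ β, ends (e, β) ∈ Sr)
    (hS : ∀ n ∈ Sr, n ∉ reg vx lS x p s ∧ n ∉ Free ∧ n ≠ vx (u s) ∧ n ≠ vx (w s))
    (qa : Walk ends Sa (vx (u s)) (vx (p s)) la) (qb : Walk ends Sb (vx (x s)) (vx (w s)) lb)
    (fa : Sa ⊆ Free) (fb : Sb ⊆ Free) (hd : ∀ n ∈ Sa, n ∉ Sb)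
    (va : Val χ (ch (sw lk s) + ch lr) la κ) (vb : Val χ (ch (sw lk s) + ch lr) lb κ') :
    κ + κ' = 1 := by
  have E := W.emb
  have l0 := w0 W Z s
  have l1 := w1 W Z s
  have l2 := w2 W Z s
  have hS' : ∀ n ∈ Sr, n ∉ lS (s, 0) ∧ n ∉ lS (s, 1) ∧ n ∉ lS (s, 2) ∧ n ≠ vx (x s) ∧
      n ≠ vx (p s) ∧ n ∉ Free ∧ n ≠ vx (u s) ∧ n ≠ vx (w s) := fun n hn => by
    have := hS n hn
    simp only [reg, Set.mem_ofPred_eq] at this
    tauto
  have d1 : vx (u s) ≠ vx (x s) := W.inj.ne (Z.xu _ _).symm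
  have d2 : vx (u s) ≠ vx (p s) := W.inj.ne (Z.pu _ _).symm
  have d3 : vx (u s) ≠ vx (w s) := W.inj.ne (Z.uw _)
  have d4 : vx (x s) ≠ vx (p s) := W.inj.ne (Z.xp _ _)
  have d5 : vx (x s) ≠ vx (w s) := W.inj.ne (Z.xw _ _)
  have d6 : vx (p s) ≠ vx (w s) := W.inj.ne (Z.pw _ _)
  have f1 := W.vF (u s)
  have f2 := W.vF (x s)
  have f3 := W.vF (p s)
  have f4 := W.vF (w s)
  have g1 := fun k => W.vS _ (s, k) (Z.ru s)
  have g2 := fun k => W.vS _ (s, k) (Z.rx s)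
  have g3 := fun k => W.vS _ (s, k) (Z.rp s)
  have g4 := fun k => W.vS _ (s, k) (Z.rw s)
  have g5 := fun k => W.SF (s, k)
  have g6 : ∀ n, n ∈ lS (s, 0) → n ∉ lS (s, 2) := fun n h h' => by simpa using W.SS _ _ _ h h'
  have c1 : bd ends (ch la + ch (lk (s, 0)) + ch (lk (s, 1))) = 0 := by
    rw [bd_add, bd_add, qa.bd, l0.bd, l1.bd]
    ext n; simp only [Pi.add_apply, Pi.zero_apply]; grind
  have c2 : bd ends (ch la + ch (lk (s, 2)) + ch lr) = 0 := by
    rw [bd_add, bd_add, qa.bd, l2.bd, wr.bd]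
    ext n; simp only [Pi.add_apply, Pi.zero_apply]; grind
  have e : ch la + ch (lk (s, 0)) + ch (lk (s, 1)) + (ch la + ch (lk (s, 2)) + ch lr) =
      ch (sw lk s) + ch lr := by
    simp only [sw, ch_append]
    ext n; simp only [Pi.add_apply]; grind
  obtain ⟨κ1, v1⟩ := E.val c2 l0
    (((qa.av (by grind)).add (l2.av (by grind))).add (wr.av (by grind)))
  have v1' := E.fromL c2 qb (((qa.av (by grind)).add (l2.av (by grind))).add (wr.av (by grind)))
    (E.toR c2 l0 (((qa.av (by grind)).add (l2.av (by grind))).add (wr.av (by grind))) v1)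
  obtain ⟨κ2, v2⟩ := E.val c1 wr
    (((qa.av (by grind)).add (l0.av (by grind))).add (l1.av (by grind)))
  have v2' := E.fromR c1 qb (((qa.av (by grind)).add (l0.av (by grind))).add (l1.av (by grind)))
    (E.toL c1 wr (((qa.av (by grind)).add (l0.av (by grind))).add (l1.av (by grind))) v2)
  have t := E.theta (a := vx (u s)) c1 c2 (qa.bd_left d2) (l0.bd_left d1) (wr.bd_right d3.symm)
    (fun e => ⟨(qa.av (by grind)).mul (W.lh _) e, (qa.av (by grind)).mul hr e,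
      (l0.av (by grind)).mul hr e⟩)
    (by
      rw [show ch la + ch (lk (s, 0)) + ch (lk (s, 1)) + ch la + ch (lk (s, 0)) = ch (lk (s, 1)) by
        ext n; simp only [Pi.add_apply]; grind]
      exact l1.av (by grind))
    (by
      rw [show ch la + ch (lk (s, 2)) + ch lr + ch la + ch lr = ch (lk (s, 2)) by
        ext n; simp only [Pi.add_apply]; grind]
      exact l2.av (by grind))
    (fun d _ h => e ▸ va _ (mem_of_ch h)) (fun d _ h => v1 _ (mem_of_ch h))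
    (fun d _ h => v2 _ (mem_of_ch h))
  have := qb.uniq vb (e ▸ E.val_add v2' v1')
  grind

end Pool.Agent.Lib.MP_50b5c6_lc
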