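import Pool.Agent.Lib.MP_50b5c6_lc.Tile

/-! Checks that do not depend on the content of the faces. -/

namespace Pool.Agent.Lib.MP_50b5c6_lc

theorem vm_even : ∀ π, ∀ x < 30, ∀ y < 26, (vm π).testBit (x * 26 + y) = true →
    x % 2 = 0 ∨ y % 2 = 0 := by decide +kernel

theorem cellF_t : ((List.range 16).all fun x : ℕ => (List.range 14).all fun y : ℕ =>
    cellF true (x, y)) = true := by decide +kernel

theorem cellF_f : ((List.range 16).all fun x : ℕ => (List.range 14).all fun y : ℕ =>
    cellF false (x, y)) = true := by decide +kernel

theorem portF_ok : ∀ π, (ports π).all (portF π) = true := by decide +kernel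

theorem paths_t : ((paths true).all fun p => good true p.2.1 (eP true p.1) p.2.2) = true := by
  decide +kernel

theorem paths_f : ((paths false).all fun p => good false p.2.1 (eP false p.1) p.2.2) = true := by
  decide +kernel

theorem lpaths_ok : ∀ π, (((links π).zip (lpaths π)).all fun p => good π 0 p.1 p.2) = true ∧
    (links π).length = (lpaths π).length := by
  decide +kernel

theorem fx_ok : ∀ π, ∀ j < 11, ∀ k < 11, fx.testBit (j * 11 + k) = true →
    near π (lv π j) (lv π k) = true := by decide +kernel

end Pool.Agent.Lib.MP_50b5c6_lc
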