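import Pool.Agent.Lib.MP_50b5c6_lc.Only

/-! Train tracks on a square grid are confluent drawings. -/

namespace Pool.Agent.Lib.MP_50b5c6_lc

abbrev Pt := ℤ × ℤ

def dx (s : Fin 4) : ℤ := if s = 0 then 1 else if s = 2 then -1 else 0
def dy (s : Fin 4) : ℤ := if s = 1 then 1 else if s = 3 then -1 else 0

/-- the midpoint of side `s` of the cell `c` -/
def nd (c : Pt) (s : Fin 4) : Pt := (2 * c.1 + 1 + dx s, 2 * c.2 + 1 + dy s)

/-- the cell behind side `s` of the cell `c` -/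
def nb (c : Pt) (s : Fin 4) : Pt := (c.1 + dx s, c.2 + dy s)

lemma nd_nb (c : Pt) (s : Fin 4) : nd (nb c s) (s + 2) = nd c s := by
  fin_cases s <;> simp [nd, nb, dx, dy] <;> omega

lemma nd_eq {c c' : Pt} {s s' : Fin 4} (h : nd c s = nd c' s') :
    (c' = c ∧ s' = s) ∨ (c' = nb c s ∧ s' = s + 2) := by
  obtain ⟨a, b⟩ := c
  obtain ⟨a', b'⟩ := c'
  fin_cases s <;> fin_cases s' <;> simp [nd, nb, dx, dy] at h ⊢ <;> omega

lemma nd_even (c : Pt) (s : Fin 4) : (nd c s).1 % 2 = 0 ∨ (nd c s).2 % 2 = 0 := by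
  fin_cases s <;> simp [nd, dx, dy] <;> omega

inductive Run (trk : Pt → Fin 4 → Fin 4 → Bool) (isV : Pt → Bool) (box : Set Pt) :
    Pt → Fin 4 → Pt → List Pt → Prop
  | stop (c s s') : c ∈ box → trk c s s' = true → isV (nd c s') = true →
      Run trk isV box c s (nd c s') [nd c s']
  | step (c s s') {w l} : c ∈ box → trk c s s' = true → isV (nd c s') = false →
      Run trk isV box (nb c s') (s' + 2) w l → Run trk isV box c s w (nd c s' :: l)

noncomputable def toC (x y : ℝ) : ℂ := ⟨x, y⟩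

noncomputable def ev (s : Fin 4) : ℂ := ⟨dx s, dy s⟩

noncomputable def crv (c : Pt) (s s' : Fin 4) (t : ℝ) : ℂ :=
  toC (2 * c.1 + 1) (2 * c.2 + 1) + ((1 - t) ^ 2) • ev s + (t ^ 2) • ev s'

lemma crv_re (c : Pt) (s s' : Fin 4) (t : ℝ) :
    (crv c s s' t).re = 2 * c.1 + 1 + (1 - t) ^ 2 * dx s + t ^ 2 * dx s' := by
  simp only [crv, toC, ev, Complex.add_re, Complex.smul_re, smul_eq_mul]

lemma crv_im (c : Pt) (s s' : Fin 4) (t : ℝ) :
    (crv c s s' t).im = 2 * c.2 + 1 + (1 - t) ^ 2 * dy s + t ^ 2 * dy s' := by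
  simp only [crv, toC, ev, Complex.add_im, Complex.smul_im, smul_eq_mul]

lemma crv_deriv (c : Pt) (s s' : Fin 4) (t : ℝ) :
    deriv (crv c s s') t = (-2 * (1 - t)) • ev s + (2 * t) • ev s' := by
  have h1 : HasDerivAt (fun t : ℝ => (1 - t) ^ 2) (-2 * (1 - t)) t := by
    have := ((hasDerivAt_id t).const_sub 1).pow 2
    simp only [id] at this
    exact this.congr_deriv (by simp)
  have h2 : HasDerivAt (fun t : ℝ => t ^ 2) (2 * t) t := by
    simpa using hasDerivAt_pow 2 t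
  exact (((h1.smul_const (ev s)).const_add _).add (h2.smul_const (ev s'))).deriv

lemma crv_zero (c : Pt) (s s' : Fin 4) : crv c s s' 0 = toC (nd c s).1 (nd c s).2 := by
  apply Complex.ext <;> simp [crv_re, crv_im, toC, nd]

lemma crv_one (c : Pt) (s s' : Fin 4) : crv c s s' 1 = toC (nd c s').1 (nd c s').2 := by
  apply Complex.ext <;> simp [crv_re, crv_im, toC, nd]

lemma crv_inj (c : Pt) {s s' : Fin 4} (h : s ≠ s') : Function.Injective (crv c s s') := by
  intro t t' e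
  have h1 := congrArg Complex.re e
  have h2 := congrArg Complex.im e
  rw [crv_re, crv_re] at h1
  rw [crv_im, crv_im] at h2
  fin_cases s <;> fin_cases s' <;> simp [dx, dy] at h h1 h2 <;> nlinarith

lemma crv_deriv_ne (c : Pt) {s s' : Fin 4} (h : s ≠ s') (t : ℝ) : deriv (crv c s s') t ≠ 0 := by
  rw [crv_deriv]
  intro e
  have h1 := congrArg Complex.re e
  have h2 := congrArg Complex.im e
  simp only [ev, Complex.add_re, Complex.smul_re, smul_eq_mul, Complex.add_im, Complex.smul_im,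
    Complex.zero_re, Complex.zero_im] at h1 h2
  fin_cases s <;> fin_cases s' <;> simp [dx, dy] at h h1 h2 <;> linarith

lemma crv_mem (c : Pt) {s s' : Fin 4} (h : s ≠ s') {t : ℝ} (ht : t ∈ Set.Ioo (0 : ℝ) 1) :
    (2 * c.1 < (crv c s s' t).re ∧ (crv c s s' t).re < 2 * c.1 + 2) ∧
      (2 * c.2 < (crv c s s' t).im ∧ (crv c s s' t).im < 2 * c.2 + 2) := by
  have a1 : 0 < t ^ 2 := pow_pos ht.1 2
  have a2 : t ^ 2 < 1 := by nlinarith [ht.1, ht.2]
  have a3 : 0 < (1 - t) ^ 2 := pow_pos (sub_pos.2 ht.2) 2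
  have a4 : (1 - t) ^ 2 < 1 := by nlinarith [ht.1, ht.2]
  rw [crv_re, crv_im]
  generalize t ^ 2 = p at *
  generalize (1 - t) ^ 2 = q at *
  refine ⟨⟨?_, ?_⟩, ?_, ?_⟩ <;> fin_cases s <;> fin_cases s' <;> simp [dx, dy] at h ⊢ <;> linarith

lemma not_even {c n : ℤ} {x : ℝ} (h : 2 * c < x ∧ x < 2 * c + 2) (hn : n % 2 = 0) : x ≠ n := by
  rintro rfl
  have h1 : 2 * c < n := by exact_mod_cast h.1
  have h2 : n < 2 * c + 2 := by exact_mod_cast h.2
  omega

lemma same_cell {c c' : ℤ} {x : ℝ} (h : 2 * c < x ∧ x < 2 * c + 2)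
    (h' : 2 * c' < x ∧ x < 2 * c' + 2) : c = c' := by
  have h1 : 2 * c < 2 * c' + 2 := by exact_mod_cast h.1.trans h'.2
  have h2 : 2 * c' < 2 * c + 2 := by exact_mod_cast h'.1.trans h.2
  omega

lemma crv_meet {c : Pt} {s s' r r' : Fin 4} (h : s < s') (h' : r < r') {t t' : ℝ}
    (ht : t ∈ Set.Ioo (0 : ℝ) 1) (ht' : t' ∈ Set.Ioo (0 : ℝ) 1)
    (e : crv c s s' t = crv c r r' t') : (s = r ∧ s' = r') ∨ (s = 0 ∧ s' = 2 ∧ r = 1 ∧ r' = 3) ∨
      (s = 1 ∧ s' = 3 ∧ r = 0 ∧ r' = 2) := by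
  have h1 := congrArg Complex.re e
  have h2 := congrArg Complex.im e
  rw [crv_re, crv_re] at h1
  rw [crv_im, crv_im] at h2
  have a1 : 0 < t ^ 2 := pow_pos ht.1 2
  have a3 : 0 < (1 - t) ^ 2 := pow_pos (sub_pos.2 ht.2) 2
  have b1 : 0 < t' ^ 2 := pow_pos ht'.1 2
  have b3 : 0 < (1 - t') ^ 2 := pow_pos (sub_pos.2 ht'.2) 2
  generalize t ^ 2 = p at *
  generalize (1 - t) ^ 2 = q at *
  generalize t' ^ 2 = p' at *
  generalize (1 - t') ^ 2 = q' at *
  fin_cases s <;> fin_cases s' <;> simp at h <;> fin_cases r <;> fin_cases r' <;> simp at h' <;>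
    simp [dx, dy] at h1 h2 ⊢ <;> linarith

lemma ev_opp (s : Fin 4) : ev (s + 2) = -ev s := by
  fin_cases s <;> apply Complex.ext <;> simp [ev, dx, dy]

lemma ev_ne (s : Fin 4) : ev s ≠ 0 := by
  fin_cases s <;> simp [ev, dx, dy, Complex.ext_iff]

lemma not_sameRay (s : Fin 4) : ¬SameRay ℝ (-((-2 : ℝ) • ev s)) ((-2 : ℝ) • ev s) := by
  rw [sameRay_neg_swap]
  exact fun h => smul_ne_zero (by norm_num) (ev_ne s) (eq_zero_of_sameRay_self_neg h)

theorem realise (simple : Prop) (trk : Pt → Fin 4 → Fin 4 → Bool) (isV : Pt → Bool)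
    (box : Set Pt) (hbox : box.Finite) (win : Pt → Prop) (adj : Pt → Pt → Prop)
    (G : SimpleGraph {v // win v}) (hG : ∀ a b, G.Adj a b ↔ a ≠ b ∧ (adj a.1 b.1 ∨ adj b.1 a.1))
    (t1 : ∀ c s s', trk c s s' = trk c s' s) (t2 : ∀ c s, trk c s s = false)
    (t3 : ∀ c, trk c 0 2 = true → trk c 1 3 = true → False)
    (hV : ∀ v, isV v = true → v.1 % 2 = 0 ∨ v.2 % 2 = 0)
    (lab : Pt → Fin 4 → Pt → Prop) (s0 : ∀ c s, isV (nd c s) = true → lab c s (nd c s))
    (s1 : ∀ c s s' v, lab c s v → trk c s s' = true → isV (nd c s') = true →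
      v = nd c s' ∨ adj v (nd c s') ∨ adj (nd c s') v)
    (s2 : ∀ c s s' v, lab c s v → trk c s s' = true → isV (nd c s') = false →
      lab (nb c s') (s' + 2) v)
    (hc : ∀ v w, win v → win w → adj v w → ∃ c s a b l, ((a = v ∧ b = w) ∨ (a = w ∧ b = v)) ∧
      nd c s = a ∧ isV a = true ∧ Run trk isV box c s b l ∧ l.Nodup) :
    Confluent simple G := by
  classical
  let J := {n : Pt // isV n = false ∧ ∃ c ∈ box, ∃ s, n = nd c s}
  let A := {a : Pt × Fin 4 × Fin 4 // a.1 ∈ box ∧ a.2.1 < a.2.2 ∧ trk a.1 a.2.1 a.2.2 = true ∧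
    (isV (nd a.1 a.2.1) = true → win (nd a.1 a.2.1)) ∧
    (isV (nd a.1 a.2.2) = true → win (nd a.1 a.2.2))}
  have fJ : Finite J := by
    refine Set.Finite.to_subtype (((hbox.prod (Set.finite_univ (α := Fin 4))).image
      fun x => nd x.1 x.2).subset ?_)
    rintro n ⟨-, c, hc, s, rfl⟩
    exact ⟨(c, s), ⟨hc, trivial⟩, rfl⟩
  have fA : Finite A := Set.Finite.to_subtype
    ((hbox.prod (Set.finite_univ (α := Fin 4 × Fin 4))).subset fun a ha => ⟨ha.1, trivial⟩)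
  let sd : A × Bool → Fin 4 := fun d => if d.2 then d.1.1.2.2 else d.1.1.2.1
  have hw : ∀ d : A × Bool, isV (nd d.1.1.1 (sd d)) = true → win (nd d.1.1.1 (sd d)) := by
    rintro ⟨a, _ | _⟩
    exacts [a.2.2.2.2.1, a.2.2.2.2.2]
  let ends : A × Bool → {v // win v} ⊕ J := fun d =>
    if h : isV (nd d.1.1.1 (sd d)) = true then .inl ⟨_, hw d h⟩
    else .inr ⟨_, by simpa using h, _, d.1.2.1, _, rfl⟩
  let pt : {v // win v} ⊕ J → Pt := Sum.elim Subtype.val Subtype.val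
  have e1 : ∀ d, pt (ends d) = nd d.1.1.1 (sd d) := fun d => by
    simp only [ends]; split_ifs <;> rfl
  have e2 : ∀ d v, ends d = .inl v ↔ nd d.1.1.1 (sd d) = v.1 ∧ isV v.1 = true := by
    intro d v
    simp only [ends]
    split_ifs with h
    · simp only [Sum.inl.injEq, Subtype.ext_iff]
      exact ⟨fun k => ⟨k, k ▸ h⟩, fun k => k.1⟩
    · simp only [false_iff]
      exact fun k => h (k.1 ▸ k.2)
  have e3 : ∀ d j, ends d = .inr j ↔ nd d.1.1.1 (sd d) = j.1 := by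
    intro d j
    simp only [ends]
    split_ifs with h
    · simp only [false_iff]
      exact fun k => by rw [k, j.2.1] at h; simp at h
    · exact Sum.inr_injective.eq_iff.trans Subtype.ext_iff
  let pos : {v // win v} ⊕ J → ℂ := fun n =>
    if isV (pt n) = true ∨ n.isRight then toC (pt n).1 (pt n).2
    else toC (2 * (pt n).1 : ℤ) ((pt n).2 + 1 / 2)
  let γ : A → ℝ → ℂ := fun a => crv a.1.1 a.1.2.1 a.1.2.2
  have p1 : ∀ d, pos (ends d) = toC (nd d.1.1.1 (sd d)).1 (nd d.1.1.1 (sd d)).2 := by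
    intro d
    simp only [pos, e1]
    rw [if_pos]
    simp only [ends]
    split_ifs with h <;> simp [h]
  have p2 : ∀ n, (∃ m : ℤ, m % 2 = 0 ∧ (pos n).re = m) ∨ ∃ m : ℤ, m % 2 = 0 ∧ (pos n).im = m := by
    intro n
    simp only [pos]
    split_ifs with h
    · have : (pt n).1 % 2 = 0 ∨ (pt n).2 % 2 = 0 := by
        rcases n with v | ⟨j, h1, c, h2, s, rfl⟩
        · exact hV _ (by simpa using h)
        · exact nd_even c s
      exact this.imp (fun k => ⟨_, k, rfl⟩) fun k => ⟨_, k, rfl⟩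
    · exact .inl ⟨_, by omega, rfl⟩
  have p3 : ∀ a, ∀ t ∈ Set.Ioo (0 : ℝ) 1, ∀ n, γ a t ≠ pos n := by
    intro a t ht n e
    have h1 := crv_mem a.1.1 a.2.2.1.ne ht
    rcases p2 n with ⟨m, h2, h3⟩ | ⟨m, h2, h3⟩
    · exact not_even h1.1 h2 ((congrArg Complex.re e).trans h3)
    · exact not_even h1.2 h2 ((congrArg Complex.im e).trans h3)
  have v1 : ∀ d, vel γ d = (-2 : ℝ) • ev (sd d) := by
    rintro ⟨a, _ | _⟩ <;> simp [vel, γ, crv_deriv, sd]
  have v2 : ∀ j d d', ends d = .inr j → ends d' = .inr j → ∃ r : ℝ, vel γ d' = r • vel γ d := by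
    intro j d d' h1 h2
    rcases nd_eq (((e3 _ _).1 h1).trans ((e3 _ _).1 h2).symm) with ⟨-, h⟩ | ⟨-, h⟩
    · exact ⟨1, by rw [v1, v1, h, one_smul]⟩
    · exact ⟨-1, by rw [v1, v1, h, ev_opp]; simp⟩
  let T := trackOf simple γ ends v2
  have tr : ∀ d : A × Bool, trk d.1.1.1 (sd d) (sd (rv d)) = true := by
    rintro ⟨a, _ | _⟩
    exacts [a.2.2.2.1, (t1 _ _ _).trans a.2.2.2.1]
  have nx : ∀ d d', T.Nx d d' ↔ isV (nd d.1.1.1 (sd (rv d))) = false ∧
      d'.1.1.1 = nb d.1.1.1 (sd (rv d)) ∧ sd d' = sd (rv d) + 2 := by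
    intro d d'
    constructor
    · rintro ⟨⟨j, h1, h2⟩, h3⟩
      have h4 := (e3 _ _).1 h1
      refine ⟨h4 ▸ j.2.1, (nd_eq (h4.trans ((e3 _ _).1 h2).symm)).resolve_left fun h => ?_⟩
      change SameRay ℝ _ _ at h3
      rw [v1, v1, h.2] at h3
      exact not_sameRay _ h3
    · rintro ⟨h1, h2, h3⟩
      refine ⟨⟨⟨_, h1, _, d.1.2.1, _, rfl⟩, (e3 _ _).2 rfl, (e3 _ _).2 ?_⟩, ?_⟩
      · rw [h2, h3, nd_nb]
      · change SameRay ℝ _ _
        rw [v1, v1, h3, ev_opp, smul_neg]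
  have snd : ∀ (l : List (A × Bool)) d a w v, T.Ch a (d :: l) (.inl w) → lab d.1.1.1 (sd d) v →
      v = w.1 ∨ adj v w.1 ∨ adj w.1 v := by
    intro l
    induction l with
    | nil =>
      intro d a w v h1 h2
      obtain ⟨h3, h4⟩ := (e2 _ _).1 (Track.ch_one.1 h1).2
      exact h3 ▸ s1 _ _ _ v h2 (tr d) (h3 ▸ h4)
    | cons d' l ih =>
      intro d a w v h1 h2
      obtain ⟨-, h3, h4⟩ := Track.ch_cons.1 h1
      obtain ⟨h5, h6, h7⟩ := (nx _ _).1 h3
      exact ih d' _ w v h4 (h6 ▸ h7 ▸ s2 _ _ _ v h2 (tr d) h5)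
  have mk : ∀ c s s', c ∈ box → trk c s s' = true → (isV (nd c s) = true → win (nd c s)) →
      (isV (nd c s') = true → win (nd c s')) →
      ∃ d : A × Bool, d.1.1.1 = c ∧ sd d = s ∧ sd (rv d) = s' := by
    intro c s s' h1 h2 h3 h4
    rcases lt_trichotomy s s' with h | rfl | h
    · exact ⟨(⟨(c, s, s'), h1, h, h2, h3, h4⟩, false), rfl, rfl, rfl⟩
    · rw [t2] at h2; simp at h2
    · exact ⟨(⟨(c, s', s), h1, h, (t1 _ _ _).trans h2, h4, h3⟩, true), rfl, rfl, rfl⟩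
  have cmp : ∀ c s w l, Run trk isV box c s w l → (isV (nd c s) = true → win (nd c s)) →
      ∀ hw : win w, ∃ d ds, d.1.1.1 = c ∧ sd d = s ∧ T.Ch (ends d) (d :: ds) (.inl ⟨w, hw⟩) ∧
        ((d :: ds).map T.hd).map pt = l := by
    intro c s w l h
    induction h with
    | stop c s s' h1 h2 h3 =>
      intro h4 h5
      obtain ⟨d, rfl, rfl, rfl⟩ := mk c s s' h1 h2 h4 fun _ => h5
      exact ⟨d, [], rfl, rfl, Track.ch_one.2 ⟨rfl, (e2 _ _).2 ⟨rfl, h3⟩⟩,
        congrArg (fun x => [x]) (e1 (rv d))⟩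
    | step c s s' h1 h2 h3 _ ih =>
      intro h4 h5
      obtain ⟨d, rfl, rfl, rfl⟩ := mk c s s' h1 h2 h4 fun h => by simp [h3] at h
      obtain ⟨d', ds, h6, h7, h8, h9⟩ := ih (fun h => by simp [nd_nb, h3] at h) h5
      have h10 := (nx d d').2 ⟨h3, h6, h7⟩
      obtain ⟨j, k1, k2⟩ := h10.1
      refine ⟨d, d' :: ds, rfl, rfl, Track.ch_cons.2 ⟨rfl, h10, ?_⟩, ?_⟩
      · rwa [show T.hd d = ends d' from k1.trans k2.symm]
      · rw [List.map_cons, List.map_cons, h9]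
        exact congrArg (· :: _) (e1 (rv d))
  refine ⟨J, A, fJ, fA, pos, γ, ends, ?_, fun a => ⟨?_, (crv_inj _ a.2.2.1.ne).injOn,
    fun t _ => crv_deriv_ne _ a.2.2.1.ne t, (crv_zero _ _ _).trans (p1 (a, false)).symm,
    (crv_one _ _ _).trans (p1 (a, true)).symm⟩, fun a t ht => ⟨p3 a t ht, fun b hb s hs e => ?_⟩,
    v2, fun u v huv => ?_⟩
  · intro n n' e
    have k : ∀ x y : ℤ, (x : ℝ) ≠ y + 1 / 2 := by
      intro x y h
      have : (2 * x : ℝ) = 2 * y + 1 := by linarith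
      have : 2 * x = 2 * y + 1 := by exact_mod_cast this
      omega
    simp only [pos, toC] at e
    split_ifs at e with h h' h' <;> simp only [Complex.mk.injEq] at e
    · have e' : pt n = pt n' := Prod.ext (by exact_mod_cast e.1) (by exact_mod_cast e.2)
      rcases n with n | n <;> rcases n' with n' | n'
      · exact congrArg _ (Subtype.ext e')
      · rw [e', show isV (pt (.inr n')) = false from n'.2.1] at h; simp at h
      · rw [← e', show isV (pt (.inr n)) = false from n.2.1] at h'; simp at h'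
      · exact congrArg _ (Subtype.ext e')
    · exact (k _ _ e.2).elim
    · exact (k _ _ e.2.symm).elim
    · have e' : pt n = pt n' := Prod.ext (by have := e.1; norm_cast at this; omega)
        (by exact_mod_cast add_right_cancel e.2)
      rcases n with n | n <;> rcases n' with n' | n'
      · exact congrArg _ (Subtype.ext e')
      · simp at h'
      · simp at h
      · simp at h
  · simp only [γ]; unfold crv; fun_prop
  · rcases hs.1.eq_or_lt with rfl | h0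
    · exact p3 a t ht _ (e.trans ((crv_zero _ _ _).trans (p1 (b, false)).symm))
    rcases hs.2.eq_or_lt with rfl | h1
    · exact p3 a t ht _ (e.trans ((crv_one _ _ _).trans (p1 (b, true)).symm))
    have m1 := crv_mem a.1.1 a.2.2.1.ne ht
    have m2 := crv_mem b.1.1 b.2.2.1.ne ⟨h0, h1⟩
    simp only [γ] at e
    rw [← e] at m2
    have e' : a.1.1 = b.1.1 := Prod.ext (same_cell m1.1 m2.1) (same_cell m1.2 m2.2)
    rw [← e'] at e
    have k1 := a.2.2.2.1
    have k2 := b.2.2.2.1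
    rw [← e'] at k2
    rcases crv_meet a.2.2.1 b.2.2.1 ht ⟨h0, h1⟩ e with ⟨h2, h3⟩ | ⟨h2, h3, h4, h5⟩ | ⟨h2, h3, h4, h5⟩
    · exact hb (Subtype.ext (Prod.ext e'.symm (Prod.ext h2.symm h3.symm)))
    · exact t3 _ (h2 ▸ h3 ▸ k1) (h4 ▸ h5 ▸ k2)
    · exact t3 _ (h4 ▸ h5 ▸ k2) (h2 ▸ h3 ▸ k1)
  · refine Iff.trans (b := ∃ l, T.SP u v l) ⟨fun h => ?_, fun ⟨l, h, _⟩ => ?_⟩ ?_
    · have k : ∀ u v : {v // win v}, adj u.1 v.1 → ∃ l, T.SP u v l := by
        intro u v h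
        obtain ⟨c, s, a, b, l, h1, h2, h3, h4, h5⟩ := hc _ _ u.2 v.2 h
        have k2 : ∀ u v : {v // win v}, a = u.1 → b = v.1 → ∃ l, T.SP u v l := by
          rintro u v rfl rfl
          obtain ⟨d, ds, rfl, rfl, h6, rfl⟩ := cmp c s _ l h4 (fun _ => h2 ▸ u.2) v.2
          rw [(e2 d u).2 ⟨h2, h3⟩] at h6
          exact ⟨_, h6, fun _ => h5.of_map _⟩
        rcases h1 with h1 | h1
        · exact k2 u v h1.1 h1.2
        · obtain ⟨l, h⟩ := k2 v u h1.1 h1.2
          exact ⟨_, h.rev⟩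
      rcases ((hG u v).1 h).2 with h | h
      · exact k u v h
      · obtain ⟨l, h⟩ := k v u h
        exact ⟨_, h.rev⟩
    · cases l with
      | nil => exact (Track.not_ch_nil h).elim
      | cons d l =>
        obtain ⟨h1, h2⟩ := (e2 d u).1 (Option.some.inj h.1)
        exact (hG u v).2 ⟨huv, (snd l d _ v u.1 h (h1 ▸ s0 _ _ (h1 ▸ h2))).resolve_left
          fun k => huv (Subtype.ext k)⟩
    · simp only [Track.SP, Track.Ch, and_assoc]
      rfl

end Pool.Agent.Lib.MP_50b5c6_lc
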