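import Pool.Agent.Lib.MP_50b5c6_lc.Frame
import Pool.Agent.Lib.MP_50b5c6_lc.Data0
import Pool.Agent.Lib.MP_50b5c6_lc.Data1

/-! States that satisfy all faces give a confluent drawing. -/

namespace Pool.Agent.Lib.MP_50b5c6_lc

lemma par_add (T T' : Pt) : par (T + T') = (par T ^^ par T') := by
  simp only [par, Prod.fst_add, Prod.snd_add]
  rw [Bool.eq_iff_iff]
  by_cases h1 : (T.1 + T.2) % 2 = 1 <;> by_cases h2 : (T'.1 + T'.2) % 2 = 1 <;> simp [h1, h2] <;>
    omega

lemma org_add (T T' : Pt) : org (T + T') = org T + org T' := by ext <;> simp [org] <;> ring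
lemma vt_add (T a : Pt) : vt (org T + a) = T + vt a := by ext <;> simp [org, vt] <;> omega
lemma vl_add (T a : Pt) : vl (org T + a) = vl a := by ext <;> simp [org, vl]
lemma ct_add (T a : Pt) : ct (corg T + a) = T + ct a := by ext <;> simp [corg, ct] <;> omega
lemma cl_add (T a : Pt) : cl (corg T + a) = cl a := by ext <;> simp [corg, cl]
lemma frm_add (T a : Pt) : frm (corg T + a) = frm a := by simp [corg, frm]
lemma frm_cl (a : Pt) : frm (cl a) = frm a := by simp [cl, frm]
lemma cl_cl (a : Pt) : cl (cl a) = cl a := by simp [cl]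
lemma ct_cl (a : Pt) : ct (cl a) = 0 := by ext <;> simp [cl, ct] <;> omega
lemma corg_cl (a : Pt) : corg (ct a) + cl a = a := by ext <;> simp [cl, ct, corg] <;> omega
lemma org_vl (a : Pt) : org (vt a) + vl a = a := by ext <;> simp [vl, vt, org] <;> omega
lemma nd_add (T c : Pt) (s : Fin 4) : nd (corg T + c) s = org T + nd c s := by
  ext <;> simp [nd, corg, org] <;> ring
lemma nb_add (T c : Pt) (s : Fin 4) : nb (corg T + c) s = corg T + nb c s := by
  ext <;> simp [nb, corg] <;> ring
lemma par_zero : par 0 = false := rfl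
lemma org_zero : org 0 = 0 := rfl

lemma isV_add (T a : Pt) : isVL false (org T + a) = isVL (par T) a := by
  simp only [isVL, vt_add, vl_add, par_add, Bool.false_xor]

lemma FL_add (T c : Pt) (s : Fin 4) :
    FL false (corg T + c) s = (FL (par T) c s).map fun x => (x.1, org T + x.2) := by
  simp only [FL, ct_add, cl_add, par_add, Bool.false_xor, org_add]
  split_ifs <;> simp [add_assoc]

def nearG (gate : Pt → ℕ) (v w : Pt) : Prop := v = w ∨ E gate v w ∨ E gate w v

lemma nearG.symm {gate : Pt → ℕ} {v w : Pt} (h : nearG gate v w) : nearG gate w v := by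
  unfold nearG at *; tauto

lemma EB_sound (gate : Pt → ℕ) {T a b : Pt} (h : EB (par T) a b = true) :
    E gate (org T + a) (org T + b) := by
  simp only [E, vt_add, vl_add, par_add, org_add, add_sub_add_left_eq_sub]
  exact List.mem_append_left _ (of_decide_eq_true h)

lemma near_sound (gate : Pt → ℕ) {T a b : Pt} (h : near (par T) a b = true) :
    nearG gate (org T + a) (org T + b) := by
  simp only [near, Bool.or_eq_true, decide_eq_true_eq] at h
  rcases h with (h | h) | h
  exacts [.inl (by rw [h]), .inr (.inl (EB_sound gate h)), .inr (.inr (EB_sound gate h))]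

lemma E_of_mem {gate : Pt → ℕ} {T : Pt} {e : Pt × Pt} (h : e ∈ templ (par T) (gate T))
    (h0 : vt e.1 = 0) : E gate (org T + e.1) (org T + e.2) := by
  have : vl e.1 = e.1 := by simpa [h0, org_zero] using org_vl e.1
  simpa only [E, vt_add, vl_add, h0, add_zero, add_sub_cancel_left, this] using h

lemma mem_flag {π : Bool} {g : ℕ} {e : Pt × Pt} : e ∈ templ π g ↔
    e ∈ base' π ∨ ∃ t < 6, flg g t = true ∧ e = eP π (19 + t) := by
  simp only [templ, List.mem_append, List.mem_map, List.mem_filter, flags, List.mem_range, flg,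
    Nat.beq_eq, decide_eq_true_eq]
  refine or_congr Iff.rfl ⟨?_, ?_⟩
  · rintro ⟨_, ⟨⟨t, h1, rfl⟩, h2⟩, rfl⟩
    exact ⟨t, h1, h2, rfl⟩
  · rintro ⟨t, h1, h2, rfl⟩
    exact ⟨_, ⟨⟨t, h1, rfl⟩, h2⟩, rfl⟩

lemma flag_fst : ∀ π, ∀ t < 6, (allE.getD (19 + t) 0).1 = 1 ∧ vt (lv π 1) = 0 := by decide +kernel

lemma ladj_sound {gate : Pt → ℕ} {T : Pt} {j k : ℕ} (hj : j < 11) (hk : k < 11)
    (h : ladj (gate T) j k = true) :
    nearG gate (org T + lv (par T) j) (org T + lv (par T) k) := by
  have k1 : ∀ k, flk (gate T) k = true → E gate (org T + lv (par T) 1) (org T + lv (par T) k) := by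
    intro k h
    simp only [flk, List.any_eq_true, List.mem_range, Bool.and_eq_true, Nat.beq_eq] at h
    obtain ⟨t, h1, h2, rfl⟩ := h
    have := E_of_mem (mem_flag.2 (.inr ⟨t, h1, h2, rfl⟩))
      (by rw [eP, (flag_fst (par T) t h1).1]; exact (flag_fst _ t h1).2)
    rwa [eP, (flag_fst (par T) t h1).1] at this
  simp only [ladj, Bool.or_eq_true, Bool.and_eq_true, Nat.beq_eq] at h
  rcases h with ((rfl | h) | ⟨rfl, h⟩) | ⟨rfl, h⟩
  exacts [.inl rfl, near_sound gate (fx_ok _ j hj k hk h), .inr (.inl (k1 _ h)),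
    .inr (.inr (k1 _ h))]

lemma sb_bit {x y i : ℕ} (h : sb x y = true) (hx : x.testBit i = true) : y.testBit i = true := by
  have := congrArg (·.testBit i) (Nat.eq_of_beq_eq_true h)
  simpa [hx] using this

lemma cellF_ok (π : Bool) {c : Pt} (h : 0 ≤ c.1 ∧ c.1 ≤ 15 ∧ 0 ≤ c.2 ∧ c.2 ≤ 13) :
    cellF π c = true := by
  have k : ∀ π, ((List.range 16).all fun x : ℕ => (List.range 14).all fun y : ℕ =>
    cellF π (x, y)) = true := by rintro (_ | _); exacts [cellF_f, cellF_t]
  have := k π
  simp only [List.all_eq_true, List.mem_range] at this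
  have h1 := this c.1.toNat (by omega) c.2.toNat (by omega)
  rwa [Int.toNat_of_nonneg h.1, Int.toNat_of_nonneg h.2.2.1] at h1

lemma mem4 (s : Fin 4) : s ∈ ([0, 1, 2, 3] : List (Fin 4)) := by revert s; decide

lemma trkL_frm {π : Bool} {b : ℕ} {c : Pt} (h : frm c = true) (s s' : Fin 4) :
    trkL π b c s s' = trkL π 0 c s s' := by simp [trkL, h]

lemma trkL_mono {π : Bool} {b b' : ℕ} (hb : sb b b' = true) {c : Pt} {s s' : Fin 4}
    (h : trkL π b c s s' = true) : trkL π b' c s s' = true := by
  simp only [trkL, arcB, Bool.and_eq_true] at h ⊢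
  refine ⟨h.1, ?_⟩
  have := h.2
  split_ifs at this ⊢ <;> first | exact this | skip
  all_goals
    rw [Nat.testBit_shiftRight] at this ⊢
    exact sb_bit hb this

def FI (gate : Pt → ℕ) (v : Pt) : Option (Bool × Pt) → Prop
  | none => True
  | some (true, w) => v = w
  | some (false, w) => nearG gate v w

def lab (gate M : Pt → ℕ) (c : Pt) (s : Fin 4) (v : Pt) : Prop :=
  if frm c then FI gate v (FL false c s)
  else ∃ j < 11, (rs (M (ct c)) j s).testBit (ix (cl c)) = true ∧
    v = org (ct c) + lv (par (ct c)) j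

def trk (B : Pt → ℕ) (c : Pt) : Fin 4 → Fin 4 → Bool := trkL (par (ct c)) (B (ct c)) (cl c)

lemma trk_view (B : Pt → ℕ) (T : Pt) {c : Pt} (h : vis c = true) :
    trk B (corg T + c) = trkL (par T) (B T) c := by
  ext s s'
  have h1 : vis (cl c) = true := by simp [vis, ct_cl]
  simp only [trk, trkL, ct_add, cl_add, h, h1, frm_cl, cl_cl, ct_cl, par_zero, par_add,
    Bool.xor_false]
  by_cases h2 : frm c = true
  · simp [h2]
  · have : ct c = 0 := by simpa [vis, h2] using h
    simp [h2, this]

lemma inner {c : Pt} (h1 : frm c = false) (h2 : vis c = true) :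
    ct c = 0 ∧ cl c = c ∧ 1 ≤ c.1 ∧ c.1 ≤ 14 ∧ 1 ≤ c.2 ∧ c.2 ≤ 12 := by
  have h3 : ct c = 0 := by simpa [vis, h1] using h2
  have h4 := corg_cl c
  rw [h3, show corg 0 = 0 from rfl, zero_add] at h4
  refine ⟨h3, h4, ?_⟩
  simp [frm, ct, Prod.ext_iff] at h1 h3
  omega

lemma vis_range {c : Pt} (h : 0 ≤ c.1 ∧ c.1 ≤ 15 ∧ 0 ≤ c.2 ∧ c.2 ≤ 13) : vis c = true := by
  simp [vis, frm, ct, Prod.ext_iff]; omega

section
variable {gate B M : Pt → ℕ} {st : Pt → Fin 3 → Bool}
  (hC : ∀ T, Chk (par T) (gate T) (st T 0) (st T 1) (st T 2) (B T) (M T) = true)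
include hC

lemma port_lab {T c w : Pt} {s : Fin 4} (h1 : frm c = false) (h2 : vis c = true)
    (h : isPort (par T) c s w = true) : lab gate M (corg T + c) s (org T + w) := by
  obtain ⟨k1, k2, -⟩ := inner h1 h2
  simp only [isPort, List.any_eq_true, decide_eq_true_eq] at h
  obtain ⟨q, hq, rfl, rfl, rfl⟩ := h
  have h3 := hC T
  have h4 := List.all_eq_true.1 (portF_ok (par T)) q hq
  simp only [Chk, portF, Bool.and_eq_true, List.all_eq_true, decide_eq_true_eq] at h3 h4
  simp only [lab, frm_add, h1, ct_add, cl_add, k1, k2, add_zero]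
  exact ⟨q.1, h4.1, by simpa [ix] using h3.1.1.2 q hq, rfl⟩

lemma step {T c v : Pt} {s s' : Fin 4} (hc : 0 ≤ c.1 ∧ c.1 ≤ 15 ∧ 0 ≤ c.2 ∧ c.2 ≤ 13)
    (h1 : lab gate M (corg T + c) s v) (h2 : trkL (par T) (B T) c s s' = true) :
    (isVL (par T) (nd c s') = true → nearG gate v (org T + nd c s')) ∧
    (isVL (par T) (nd c s') = false → vis (nb c s') = true →
      lab gate M (corg T + nb c s') (s' + 2) v) := by
  have h3 := cellF_ok (par T) hc
  cases hf : frm c
  · obtain ⟨k1, k2, k3⟩ := inner hf (vis_range hc)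
    simp only [lab, frm_add, hf, ct_add, cl_add, k1, k2, add_zero] at h1
    obtain ⟨j, hj, h4, rfl⟩ := h1
    simp only [cellF, hf, Bool.false_eq_true, if_false, Bool.and_eq_true, List.all_eq_true] at h3
    obtain ⟨h5, h6⟩ := h3.2 s' (mem4 _)
    have h7 := hC T
    simp only [Chk, Bool.and_eq_true, List.all_eq_true, List.mem_range] at h7
    obtain ⟨h8, h9⟩ := h7.1.1.1 j hj
    have h10 : (out (B T) (M T) j s').testBit (ix c) = true := by
      simp only [trkL, hf, k2, Bool.false_eq_true, if_false, Bool.and_eq_true] at h2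
      simp only [out, Nat.testBit_and, Nat.testBit_or, h3.1, Bool.and_true]
      have := h2.2
      fin_cases s <;> simp_all
    have h11 := sb_bit (h8 s' (mem4 _)).1 h10
    rw [Nat.testBit_shiftRight, Nat.testBit_or, Bool.or_eq_true] at h11
    rcases h11 with h11 | h11
    · cases hv : isVL (par T) (nd c s')
      · simp only [hv, h11, Bool.false_eq_true, if_false, Bool.not_true, Bool.false_or,
          Bool.not_eq_true'] at h5
        refine ⟨by simp, fun _ hvis => ?_⟩
        obtain ⟨m1, m2, m3⟩ := inner h5 hvis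
        simp only [lab, frm_add, h5, ct_add, cl_add, m1, m2, add_zero]
        refine ⟨j, hj, sb_bit (h8 s' (mem4 _)).2 ?_, rfl⟩
        have e : dn s' + ix (nb c s') = up s' + ix c := by
          fin_cases s' <;> simp [dn, up, ix, nb, dx, dy] <;> omega
        simp [Nat.testBit_shiftRight, Nat.testBit_shiftLeft, e, h10, h11]
      · simp [hv, h11] at h5
    · simp only [h11, Bool.not_true, Bool.false_or, List.any_eq_true, decide_eq_true_eq] at h6
      obtain ⟨q, hq, rfl, rfl⟩ := h6
      have m1 := h9 q hq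
      have m2 := List.all_eq_true.1 (portF_ok (par T)) q hq
      simp only [portF, Bool.and_eq_true, decide_eq_true_eq] at m2
      have m0 : (out (B T) (M T) j q.2.2).testBit (q.2.1.1 * 14 + q.2.1.2) = true := by
        simpa [ix] using h10
      have m3 : ladj (gate T) j q.1 = true := by simpa [m0] using m1
      have m4 := ladj_sound hj m2.1 m3
      refine ⟨fun hv => ?_, fun hv _ => ?_⟩
      · have := m2.2
        simp only [hv, if_true, decide_eq_true_eq] at this
        rwa [this]
      · have := m2.2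
        simp only [hv, Bool.false_eq_true, if_false, Bool.and_eq_true, decide_eq_true_eq] at this
        simp only [lab, frm_add, this.1, if_true, FL_add, this.2, Option.map_some]
        exact m4
  · simp only [cellF, hf, if_true, Bool.and_eq_true, List.all_eq_true] at h3
    have h4 := (h3.2 s (mem4 _)).2 s' (mem4 _)
    rw [← trkL_frm hf (b := B T), h2] at h4
    simp only [lab, frm_add, hf, if_true, FL_add] at h1
    rcases h5 : FL (par T) c s with _ | ⟨k, w⟩
    · simp [h5, stepF] at h4
    simp only [h5, stepF, Bool.not_true, Bool.false_or, Option.map_some] at h4 h1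
    refine ⟨fun hv => ?_, fun hv hvis => ?_⟩
    · cases k
      · simp only [hv, if_true, Bool.false_eq_true, if_false, decide_eq_true_eq] at h4
        exact h4 ▸ h1
      · simp only [hv, if_true] at h4
        exact (show v = _ from h1) ▸ near_sound gate h4
    · cases hf' : frm (nb c s')
      · simp only [hv, hf', hvis, Bool.false_eq_true, if_false, Bool.not_true, Bool.false_or,
          Bool.and_eq_true] at h4
        obtain ⟨rfl, h6⟩ := h4
        exact (show v = _ from h1) ▸ port_lab hC hf' hvis h6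
      · simp only [hv, hf', Bool.false_eq_true, if_false, if_true] at h4
        simp only [lab, frm_add, hf', if_true, FL_add]
        rcases h6 : FL (par T) (nb c s') (s' + 2) with _ | ⟨k', w'⟩
        · trivial
        simp only [h6, subF, Bool.or_eq_true, Bool.and_eq_true, decide_eq_true_eq,
          Bool.not_eq_true'] at h4
        rcases h4 with ⟨rfl, rfl⟩ | ⟨⟨rfl, rfl⟩, h4⟩
        · exact h1
        · exact (show v = _ from h1) ▸ near_sound gate h4

end

lemma cl_range (c : Pt) : 0 ≤ (cl c).1 ∧ (cl c).1 ≤ 15 ∧ 0 ≤ (cl c).2 ∧ (cl c).2 ≤ 13 := by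
  simp only [cl]; omega

lemma exists_view (c : Pt) (s : Fin 4) : ∃ T c0, c = corg T + c0 ∧
    (0 ≤ c0.1 ∧ c0.1 ≤ 15 ∧ 0 ≤ c0.2 ∧ c0.2 ≤ 13) ∧ vis (nb c0 s) = true := by
  cases h : frm (nb c s)
  · refine ⟨ct (nb c s), c - corg (ct (nb c s)), by simp, ?_, ?_⟩
    · fin_cases s <;> simp [frm, nb, ct, corg, dx, dy] at h ⊢ <;> omega
    · fin_cases s <;> simp [vis, frm, nb, ct, corg, dx, dy, Prod.ext_iff] at h ⊢ <;> omega
  · refine ⟨ct c, cl c, (corg_cl c).symm, cl_range c, ?_⟩
    rw [← corg_cl c, nb_add, frm_add] at h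
    simp [vis, h]

lemma run_of_path {B : Pt → ℕ} {box : Set Pt} {T w : Pt} {b : ℕ} (hb : sb b (B T) = true)
    (hbox : ∀ c, inB c = true → corg T + c ∈ box) : ∀ ms c s, pathOK (par T) b w ms c s = true →
    Run (trk B) (isVL false) box (corg T + c) s (org T + w) ((nodes ms c).map (org T + ·)) := by
  intro ms
  induction ms with
  | nil => simp [pathOK]
  | cons s' ms ih =>
    intro c s h
    simp only [pathOK, Bool.and_eq_true] at h
    obtain ⟨⟨h1, h2⟩, h3⟩ := h
    have h4 : trk B (corg T + c) s s' = true := by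
      rw [trk_view B T (Bool.and_eq_true_iff.1 h2).1]
      exact trkL_mono hb h2
    cases hv : isVL (par T) (nd c s')
    · simp only [hv, Bool.false_eq_true, if_false] at h3
      have := Run.step (corg T + c) s s' (hbox c h1) h4 (by rwa [nd_add, isV_add])
        (nb_add T c s' ▸ ih _ _ h3)
      rwa [nd_add] at this
    · simp only [hv, if_true, decide_eq_true_eq] at h3
      obtain ⟨rfl, rfl⟩ := h3
      have := Run.stop (isV := isVL false) (corg T + c) s s' (hbox c h1) h4
        (by rwa [nd_add, isV_add])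
      rwa [nd_add] at this

set_option synthInstance.maxSize 1000 in
lemma own_cases : ∀ π, ∀ id ∈ ownIds π, ∀ s0 s2 : Bool, id ∈ [0, 1, 2, 3, 4, 5, 6] ∨
    id ∈ (bif s0 then [7, 8, 9] else [10]) ∨ id ∈ (bif s2 then [15, 16, 17] else [18]) ∨
    (id - 4 ∈ (bif !s2 then [11, 12, 13] else [14]) ∧
      eP (!π) (id - 4) = ((30, 0) + (eP π id).1, (30, 0) + (eP π id).2)) ∨
    (π = true ∧ id ∈ (bif !s0 then [7, 8, 9] else [10]) ∧
      eP false id = ((0, 26) + (eP π id).1, (0, 26) + (eP π id).2)) := by decide +kernel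

def fsd (T : Pt) (i : Fin 3) : Pt × Bool := (T + (fo (par T) i).1, (fo (par T) i).2)

def state (y : Pt × Bool → Bool) (T : Pt) (i : Fin 3) : Bool := y (fsd T i) == par T

def win (X Y : ℤ) (v : Pt) : Prop := 0 ≤ v.1 ∧ v.1 < X ∧ 0 ≤ v.2 ∧ v.2 < Y

def graph (gate : Pt → ℕ) (X Y : ℤ) : SimpleGraph {v // win X Y v} :=
  SimpleGraph.fromRel fun a b => E gate a.1 b.1

theorem if_dir (simple : Prop) {gate : Pt → ℕ} (hg : ∀ T, gate T ∈ gates) (X Y : ℤ)
    {y : Pt × Bool → Bool} (hy : ∀ T, sat (gate T) (state y T) = true) :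
    Confluent simple (graph gate X Y) := by
  have : ∀ T, ∃ b m, Chk (par T) (gate T) (state y T 0) (state y T 1) (state y T 2) b m = true := by
    intro T
    have h : sat (gate T) ![state y T 0, state y T 1, state y T 2] = true := by
      rw [← hy T]; congr 1; ext i; fin_cases i <;> rfl
    cases par T
    exacts [ok_0 _ (hg T) _ _ _ h, ok_1 _ (hg T) _ _ _ h]
  choose B M hC using this
  refine realise simple (trk B) (isVL false) (Set.Icc (-15, -13) (X + 30, Y + 13))
    (Set.finite_Icc _ _) _ (E gate) _ (fun a b => by simp [graph]) (fun c s s' => ?_)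
    (fun c s => by simp [trk, trkL, arcB]) (fun c h1 h2 => ?_) (fun v hv => ?_) (lab gate M)
    (fun c s h => ?_) (fun c s s' v h1 h2 h3 => ?_) (fun c s s' v h1 h2 h3 => ?_)
    fun v w hv hw h => ?_
  · simp only [trk, trkL, arcB, eq_comm (a := s), add_comm s.1, mul_comm s.1]
  · have h3 := cellF_ok (par (ct c)) (cl_range c)
    cases hf : frm (cl c)
    · have h4 := hC (ct c)
      simp only [cellF, hf, Bool.false_eq_true, if_false, Bool.and_eq_true] at h3
      simp only [Chk, Bool.and_eq_true, Nat.beq_eq] at h4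
      simp only [trk, trkL, hf, Bool.false_eq_true, if_false, Bool.and_eq_true, cl_cl] at h1 h2
      have := congrArg (·.testBit (ix (cl c))) h4.1.2
      simp [h1.2, h2.2, h3.1] at this
    · simp only [cellF, hf, if_true, Bool.and_eq_true] at h3
      rw [trk, trkL_frm hf] at h1 h2
      simp [h1, h2] at h3
  · have := vm_even _ _ (by simp only [vl]; omega) _ (by simp only [vl]; omega) hv
    simp only [vl] at this
    omega
  · have h3 := cellF_ok (par (ct c)) (cl_range c)
    rw [← corg_cl c, nd_add] at h ⊢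
    rw [isV_add] at h
    cases hf : frm (cl c)
    · simp only [cellF, hf, Bool.false_eq_true, if_false, Bool.and_eq_true, List.all_eq_true] at h3
      have h4 := (h3.2 s (mem4 _)).1
      simp only [h, if_true, Bool.and_eq_true] at h4
      exact port_lab hC hf (vis_range (cl_range c)) h4.1
    · simp only [cellF, hf, if_true, Bool.and_eq_true, List.all_eq_true] at h3
      have h4 := (h3.2 s (mem4 _)).1
      simp only [h, Bool.not_true, Bool.false_or, decide_eq_true_eq] at h4
      simp only [lab, frm_add, hf, if_true, FL_add]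
      rcases h4 with h4 | h4 <;> rw [h4]
      exacts [trivial, rfl]
  · rw [← corg_cl c] at h1 h3 ⊢
    rw [nd_add] at h3 ⊢
    rw [isV_add] at h3
    exact (step hC (cl_range c) h1 h2).1 h3
  · obtain ⟨T, c0, rfl, h4, h5⟩ := exists_view c s'
    rw [nd_add, isV_add] at h3
    rw [trk_view B T (vis_range h4)] at h2
    rw [nb_add]
    exact (step hC h4 h1 h2).2 h3 h5
  · have k : ∀ T e p b, good (par T) b e p = true → sb b (B T) = true → v = org T + e.1 →
        w = org T + e.2 → (T = vt v ∨ T + (1, 0) = vt v ∨ T + (0, 1) = vt v) →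
        ∃ c s a b l, ((a = v ∧ b = w) ∨ (a = w ∧ b = v)) ∧ nd c s = a ∧ isVL false a = true ∧
          Run (trk B) (isVL false) (Set.Icc (-15, -13) (X + 30, Y + 13)) c s b l ∧ l.Nodup := by
      intro T e p b h1 h2 h3 h4 h5
      simp only [good, Bool.and_eq_true, decide_eq_true_eq] at h1
      refine ⟨corg T + p.1, p.2.1, v, w, _, .inl ⟨rfl, rfl⟩, by rw [nd_add, h1.1.1.1, h3],
        by rw [h3, isV_add, h1.1.1.2], h4 ▸ run_of_path h2 (fun c hc => ?_) _ _ _ h1.1.2,
        h1.2.map (add_right_injective _)⟩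
      simp only [inB, decide_eq_true_eq, win, vt, Prod.ext_iff, Prod.fst_add, Prod.snd_add] at *
      simp only [Set.mem_Icc, Prod.le_def, corg, Prod.fst_add, Prod.snd_add]
      omega
    have k2 : ∀ T id, id ∈ reqIds (gate T) (state y T 0) (state y T 1) (state y T 2) →
        ∃ p b, good (par T) b (eP (par T) id) p = true ∧ sb b (B T) = true := by
      intro T id hid
      have h1 := hC T
      simp only [Chk, Bool.and_eq_true, List.all_eq_true, List.any_eq_true, Nat.beq_eq] at h1
      obtain ⟨p, h2, rfl, h3⟩ := h1.2 id hid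
      refine ⟨p.2.2, p.2.1, ?_, h3⟩
      revert h2
      cases par T
      exacts [List.all_eq_true.1 paths_f p, List.all_eq_true.1 paths_t p]
    have e1 : v = org (vt v) + (vl v, w - org (vt v)).1 := (org_vl v).symm
    have e2 : w = org (vt v) + (vl v, w - org (vt v)).2 := by simp
    unfold E at h
    generalize (vl v, w - org (vt v)) = e at h e1 e2
    generalize hT : vt v = T at h e1 e2 k
    rcases mem_flag.1 h with h | ⟨t, h1, h2, rfl⟩
    · rcases List.mem_append.1 h with h | h
      · obtain ⟨i, hi, rfl⟩ := List.getElem_of_mem h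
        obtain ⟨h1, h2⟩ := lpaths_ok (par T)
        exact k T _ _ 0 (List.all_eq_true.1 h1 (_, (lpaths (par T))[i]'(h2 ▸ hi))
          (List.mem_iff_getElem.2 ⟨i, by simp [← h2, hi], by simp⟩)) (by simp [sb]) e1 e2 (.inl rfl)
      · obtain ⟨id, hid, rfl⟩ := List.mem_map.1 h
        rcases own_cases _ id hid (state y T 0) (state y T 2) with h1 | h1 | h1 | h1 | h1
        · obtain ⟨p, b, h2, h3⟩ := k2 T id (List.mem_append_left _ h1)
          exact k T _ p b h2 h3 e1 e2 (.inl rfl)
        · obtain ⟨p, b, h2, h3⟩ := k2 T id (by simp only [reqIds, List.mem_append]; tauto)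
          exact k T _ p b h2 h3 e1 e2 (.inl rfl)
        · obtain ⟨p, b, h2, h3⟩ := k2 T id (by simp only [reqIds, List.mem_append]; tauto)
          exact k T _ p b h2 h3 e1 e2 (.inl rfl)
        · obtain ⟨T', rfl⟩ : ∃ T', T = T' + (1, 0) := ⟨T - (1, 0), by simp⟩
          have p1 : par T' = !par (T' + (1, 0)) := by rw [par_add]; cases par T' <;> rfl
          have p2 : state y T' 1 = !state y (T' + (1, 0)) 2 := by
            simp only [state, p1, show fsd T' 1 = fsd (T' + (1, 0)) 2 by simp [fsd, fo]]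
            cases y _ <;> cases par _ <;> rfl
          obtain ⟨p, b, h2, h3⟩ := k2 T' (id - 4)
            (by simp only [reqIds, List.mem_append, p2]; tauto)
          refine k T' _ p b h2 h3 ?_ ?_ (.inr (.inl rfl))
          · rw [p1, h1.2, e1, org_add, add_assoc]; rfl
          · rw [p1, h1.2, e2, org_add, add_assoc]; rfl
        · obtain ⟨T', rfl⟩ : ∃ T', T = T' + (0, 1) := ⟨T - (0, 1), by simp⟩
          have p1 : par T' = false := by
            have := h1.1; rw [par_add] at this; revert this; cases par T' <;> decide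
          have p2 : state y T' 0 = !state y (T' + (0, 1)) 0 := by
            simp only [state, p1, h1.1,
              show fsd T' 0 = fsd (T' + (0, 1)) 0 by simp [fsd, fo, p1, h1.1]]
            cases y _ <;> rfl
          obtain ⟨p, b, h2, h3⟩ := k2 T' id (by simp only [reqIds, List.mem_append, p2]; tauto)
          refine k T' _ p b h2 h3 ?_ ?_ (.inr (.inr rfl))
          · rw [p1, h1.2.2, e1, org_add, add_assoc]; rfl
          · rw [p1, h1.2.2, e2, org_add, add_assoc]; rfl
    · obtain ⟨p, b, h3, h4⟩ := k2 T (19 + t) (by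
        simp only [reqIds, List.mem_append, List.mem_map, List.mem_filter, List.mem_range]
        exact .inr (.inr (.inr (.inr ⟨t, ⟨h1, h2⟩, rfl⟩))))
      exact k T _ p b h3 h4 e1 e2 (.inl rfl)

end Pool.Agent.Lib.MP_50b5c6_lc
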