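import Pool.Agent.Lib.MP_50b5c6_lc.NpKern

set_option autoImplicit false

namespace Pool.Agent.Lib.MP_50b5c6_lc.Np

open Pf Function Finset

lemma hasPM_comap {X Y : Type} (H : SimpleGraph X) (f : Y ↪ X) (S : Finset Y) :
    HasPM (H.comap f) S ↔ HasPM H (S.map f) := by
  classical
  constructor
  · rintro ⟨m, hm⟩
    refine ⟨extend f (fun y => f (m y)) id, fun x hx => ?_⟩
    obtain ⟨y, hy, rfl⟩ := mem_map.1 hx
    obtain ⟨a, b, c⟩ := hm y hy
    simp only [f.injective.extend_apply, c]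
    exact ⟨mem_map_of_mem f a, b, trivial⟩
  · rintro ⟨m, hm⟩
    have : ∀ y, y ∈ S → ∃ z, z ∈ S ∧ f z = m (f y) := fun y hy =>
      mem_map.1 (hm _ (mem_map_of_mem f hy)).1
    choose! g hg using this
    refine ⟨g, fun y hy => ⟨(hg y hy).1, ?_, f.injective ?_⟩⟩
    · rw [SimpleGraph.comap_adj, (hg y hy).2]
      exact (hm _ (mem_map_of_mem f hy)).2.1
    · rw [(hg _ (hg y hy).1).2, (hg y hy).2]
      exact (hm _ (mem_map_of_mem f hy)).2.2

lemma pl_comap (hm : MinorSt) {X Y : Type} (H : SimpleGraph X) (f : Y ↪ X) (h : Pl H.Adj) :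
    Pl (H.comap f).Adj := by
  classical
  have e : ∀ x y, partialInv f x = some y ↔ f y = x := fun x y =>
    f.injective.isPartialInv y x
  refine hm X Y H.Adj _ (partialInv f) (fun a b y p q => ?_) (fun y z k => ?_) h
  · rw [← (e _ _).1 p, ← (e _ _).1 q]
  · exact ⟨k.ne, f y, f z, Or.inl k, (e _ _).2 rfl, (e _ _).2 rfl⟩

theorem char (hm : MinorSt) (ht : TopSt) (hk : TrackSt) (hs : SubSt) (he : SemiSt) : CharSt := by
  classical
  obtain ⟨c, hc⟩ := kern hm
  refine ⟨c, fun n G => ⟨fun h => ?_, fun ⟨k, _, H, hR, hP⟩ => ?_⟩⟩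
  · obtain ⟨J, A, _, _, ends, side, h1, h2⟩ := ht _ G h
    let _ := Fintype.ofFinite J
    have hR : Rep G Sum.inl (allW (Fin n) J) (split ends side) := by
      refine ⟨Sum.inl_injective, by simp [allW], ⟨Sum.map id fun p => (p.1, !p.2), ?_⟩,
        fun u v huv => (h1 u v huv).trans (hk _ _ _ ends side u v huv)⟩
      intro x hx
      obtain ⟨⟨j, b⟩, -, rfl⟩ := mem_map.1 hx
      refine ⟨by simp [allW], ?_, by simp⟩
      cases b <;> simp [split]
    obtain ⟨W, H, hR, hP, hW⟩ := hc _ _ G _ _ _ hR h2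
    let g : Fin (n + W.card) → Fin n ⊕ J × Bool :=
      Fin.addCases Sum.inl fun i => (W.equivFin.symm i).1
    have g1 : ∀ v, g (Fin.castAdd _ v) = Sum.inl v := fun v => by simp [g]
    have g2 : ∀ i, g (Fin.natAdd _ i) = (W.equivFin.symm i).1 := fun i => by simp [g]
    have gi : Injective g := by
      intro a b
      refine Fin.addCases (fun u => ?_) (fun i => ?_) a <;>
        refine Fin.addCases (fun v => ?_) (fun j => ?_) b <;> simp only [g1, g2] <;> intro e
      · rw [Sum.inl_injective e]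
      · exact absurd (e ▸ (W.equivFin.symm j).2) (hR.2.1 u)
      · exact absurd (e ▸ (W.equivFin.symm i).2) (hR.2.1 v)
      · rw [W.equivFin.symm.injective (Subtype.ext e)]
    have gW : (univ.map (Fin.natAddEmb n)).map ⟨g, gi⟩ = W := by
      ext x
      simp only [mem_map, mem_univ, true_and, Fin.natAddEmb_apply, Embedding.coeFn_mk,
        exists_exists_eq_and, g2]
      exact ⟨fun ⟨i, e⟩ => e ▸ (W.equivFin.symm i).2, fun k => ⟨W.equivFin ⟨x, k⟩, by simp⟩⟩
    refine ⟨W.card, by simpa using hW, H.comap (⟨g, gi⟩ : _ ↪ _),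
      ⟨Fin.castAdd_injective _ _, fun v k => ?_, ?_, fun u v huv => ?_⟩, pl_comap hm H _ hP⟩
    · have := mem_map_of_mem (⟨g, gi⟩ : _ ↪ _) k
      rw [gW] at this
      exact hR.2.1 v (g1 v ▸ this)
    · rw [hasPM_comap, gW]
      exact hR.2.2.1
    · rw [hasPM_comap, map_insert, map_insert, gW, hR.2.2.2 u v huv]
      simp only [Embedding.coeFn_mk, g1]
  · obtain ⟨J, A, _, _, _, x, ends, up, h1, h2⟩ := hs _ _ G _ _ H hR hP
    exact he _ J A G x ends up h1 fun u v huv =>
      (h2 u v huv).trans (hk _ _ _ ends _ u v huv).symm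

end Pool.Agent.Lib.MP_50b5c6_lc.Np
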