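import Pool.Agent.Lib.MP_50b5c6_lc.NpSpec

set_option autoImplicit false

namespace Pool.Agent.Lib.MP_50b5c6_lc.Np

open Pf Function Finset

variable {V X : Type} [DecidableEq X]

lemma ins_eq (W : Finset X) (a b : X) : insert a (insert b W) = W ∪ {a, b} := by
  ext x; simp only [mem_insert, mem_union, mem_singleton]; tauto

lemma Rep.disj {G : SimpleGraph V} {ι : V → X} {W : Finset X} {H : SimpleGraph X}
    (h : Rep G ι W H) (u v : V) : Disjoint W {ι u, ι v} := by
  rw [disjoint_insert_right, disjoint_singleton_right]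
  exact ⟨h.2.1 u, h.2.1 v⟩

lemma Rep.transfer {G : SimpleGraph V} {ι : V → X} {W W' : Finset X} {H H' : SimpleGraph X}
    (h : Rep G ι W H) (hW : W' ⊆ W)
    (e : ∀ T, Disjoint W T → (HasPM H' (W' ∪ T) ↔ HasPM H (W ∪ T))) : Rep G ι W' H' := by
  refine ⟨h.1, fun v k => h.2.1 v (hW k), ?_, fun u v huv => ?_⟩
  · simpa using (e ∅ (disjoint_empty_right _)).2 (by simpa using h.2.2.1)
  · rw [h.2.2.2 u v huv, ins_eq, ins_eq, e _ (h.disj u v)]

/-- adding a matched pair -/
lemma add_pair {H : SimpleGraph X} {S : Finset X} {a b : X} (hab : H.Adj a b) (ha : a ∈ S)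
    (hb : b ∈ S) (h : HasPM H ((S.erase a).erase b)) : HasPM H S := by
  obtain ⟨m, hm⟩ := h
  refine ⟨fun v => if v = a then b else if v = b then a else m v, fun v hv => ?_⟩
  by_cases p : v = a
  · simp [p, hb, hab, hab.ne']
  by_cases q : v = b
  · simp [q, ha, hab.symm, hab.ne']
  obtain ⟨k1, k2, k3⟩ := hm v (mem_erase.2 ⟨q, mem_erase.2 ⟨p, hv⟩⟩)
  obtain ⟨k4, k5⟩ := mem_erase.1 k1
  obtain ⟨k5, k6⟩ := mem_erase.1 k5
  simp [p, q, k2, k3, k4, k5, k6]

/-- removing a matched pair -/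
lemma rem_pair {H K : SimpleGraph X} {S : Finset X} {m : X → X} (hm : IsPM H S m) {a : X}
    (ha : a ∈ S)
    (hK : ∀ x y, x ≠ a → x ≠ m a → y ≠ a → y ≠ m a → H.Adj x y → K.Adj x y) :
    IsPM K ((S.erase a).erase (m a)) m := by
  intro v hv
  obtain ⟨p, q⟩ := mem_erase.1 hv
  obtain ⟨q, r⟩ := mem_erase.1 q
  obtain ⟨k1, k2, k3⟩ := hm v r
  have e1 : m v ≠ m a := fun e => q (by rw [← k3, e, (hm a ha).2.2])
  have e2 : m v ≠ a := fun e => p (by rw [← k3, e])
  exact ⟨mem_erase.2 ⟨e1, mem_erase.2 ⟨e2, k1⟩⟩, hK _ _ q p e2 e1 k2, k3⟩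

lemma erase_union {W T : Finset X} (hd : Disjoint W T) {a b : X} (ha : a ∈ W) (hb : b ∈ W) :
    (W.erase a).erase b ∪ T = ((W ∪ T).erase a).erase b := by
  ext x
  simp only [mem_union, mem_erase]
  have := disjoint_left.1 hd ha
  have := disjoint_left.1 hd hb
  grind

lemma pendant {H : SimpleGraph X} {W T : Finset X} (hd : Disjoint W T) {w z : X} (hw : w ∈ W)
    (hz : z ∈ W) (ha : H.Adj w z) (h1 : ∀ y, H.Adj w y → y = z) :
    HasPM H ((W.erase w).erase z ∪ T) ↔ HasPM H (W ∪ T) := by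
  rw [erase_union hd hw hz]
  refine ⟨add_pair ha (mem_union_left _ hw) (mem_union_left _ hz), fun ⟨m, hm⟩ => ⟨m, ?_⟩⟩
  rw [← h1 _ (hm w (mem_union_left _ hw)).2.1]
  exact rem_pair hm (mem_union_left _ hw) fun _ _ _ _ _ _ k => k

/-- `w` and `b` are merged into `a` -/
def bic (H : SimpleGraph X) (a w b : X) : SimpleGraph X where
  Adj x y := x ≠ y ∧ x ≠ w ∧ x ≠ b ∧ y ≠ w ∧ y ≠ b ∧
    (H.Adj x y ∨ (x = a ∧ H.Adj b y) ∨ (y = a ∧ H.Adj b x))
  symm := ⟨fun _ _ ⟨p, q, r, s, t, u⟩ => ⟨p.symm, s, t, q, r,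
    u.elim (fun k => Or.inl k.symm) fun k => Or.inr k.symm⟩⟩
  loopless := ⟨fun _ h => h.1 rfl⟩

lemma bic_pm {H : SimpleGraph X} {S : Finset X} {a w b : X} (ha : a ∈ S) (hw : w ∈ S)
    (hb : b ∈ S) (hab : a ≠ b) (wa : H.Adj w a) (wb : H.Adj w b)
    (h2 : ∀ y, H.Adj w y → y = a ∨ y = b) :
    HasPM (bic H a w b) ((S.erase w).erase b) ↔ HasPM H S := by
  have aS : a ∈ (S.erase w).erase b := mem_erase.2 ⟨hab, mem_erase.2 ⟨wa.ne', ha⟩⟩
  constructor
  · rintro ⟨m, hm⟩
    obtain ⟨k1, k2, -⟩ := hm a aS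
    obtain ⟨cb, k1⟩ := mem_erase.1 k1
    obtain ⟨cw, cS⟩ := mem_erase.1 k1
    have r : HasPM H ((((S.erase w).erase b).erase a).erase (m a)) :=
      ⟨m, rem_pair hm aS fun x y p _ q _ k => by
        rcases k.2.2.2.2.2 with k | k | k
        exacts [k, absurd k.1 p, absurd k.1 q]⟩
    rcases k2.2.2.2.2.2 with k | k | k
    · exact add_pair wb hw hb (add_pair k aS (hm a aS).1 r)
    · refine add_pair wa hw ha (add_pair k.2 (by simp [hb, hab.symm, wb.ne'])
        (by simp [cS, cw, k2.1.symm]) ?_)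
      rwa [erase_right_comm (a := a)]
    · exact absurd k.1 k2.1.symm
  · rintro ⟨m, hm⟩
    have up : ∀ x y, x ≠ w → x ≠ b → y ≠ w → y ≠ b → H.Adj x y → (bic H a w b).Adj x y :=
      fun x y p q r s k => ⟨k.ne, p, q, r, s, Or.inl k⟩
    rcases h2 _ (hm w hw).2.1 with e | e
    · have bS : b ∈ (S.erase w).erase (m w) := by simp [e, hb, hab.symm, wb.ne']
      have r1 : IsPM H _ m := rem_pair hm hw fun _ _ _ _ _ _ k => k
      obtain ⟨k1, k2, -⟩ := r1 b bS
      rw [e] at k1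
      obtain ⟨ca, k1⟩ := mem_erase.1 k1
      obtain ⟨cw, cS⟩ := mem_erase.1 k1
      refine add_pair (a := a) (b := m b)
        ⟨ca.symm, wa.ne', hab, cw, k2.ne', Or.inr (Or.inl ⟨rfl, k2⟩)⟩ aS
        (by simp [cS, cw, k2.ne']) ⟨m, fun v hv => ?_⟩
      subst e
      rw [erase_right_comm (a := b)] at hv ⊢
      obtain ⟨j1, j2, j3⟩ := rem_pair (K := H) r1 bS (fun _ _ _ _ _ _ k => k) v hv
      refine ⟨j1, up _ _ ?_ ?_ ?_ ?_ j2, j3⟩ <;> simp only [mem_erase] at hv j1 <;> tauto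
    · rw [← e] at up ⊢
      exact ⟨m, rem_pair hm hw up⟩

lemma bic_pl (hm : MinorSt) {H : SimpleGraph X} {a w b : X} (hab : a ≠ b) (wa : H.Adj w a)
    (wb : H.Adj w b) (h : Pl H.Adj) : Pl (bic H a w b).Adj := by
  have fa : ∀ x, (if x = w ∨ x = b then some a else some x) = some a ↔ x = w ∨ x = b ∨ x = a := by
    intro x
    split_ifs with k
    · tauto
    · simp only [Option.some.injEq]; tauto
  refine hm X X H.Adj _ (fun x => if x = w ∨ x = b then some a else some x) ?_ ?_ h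
  · intro x y z hx hy
    by_cases e : z = a
    · subst e
      have tw : ∀ x, (if x = w ∨ x = b then some z else some x) = some z → x = w ∨ H.Adj w x := by
        intro x hx
        rcases (fa x).1 hx with k | k | k
        exacts [Or.inl k, Or.inr (k ▸ wb), Or.inr (k ▸ wa)]
      have fw := (fa w).2 (Or.inl rfl)
      refine Relation.ReflTransGen.trans (b := w) ?_ ?_
      · rcases tw x hx with k | k
        · rw [k]
        · exact .single ⟨Or.inr k, hx, fw⟩
      · rcases tw y hy with k | k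
        · rw [k]
        · exact .single ⟨Or.inl k, fw, hy⟩
    · have : ∀ x, (if x = w ∨ x = b then some a else some x) = some z → x = z := by
        intro x hx
        split_ifs at hx with k
        · exact absurd (Option.some.inj hx).symm e
        · exact Option.some.inj hx
      rw [this x hx, this y hy]
  · rintro y z ⟨p, q, r, s, t, u⟩
    refine ⟨p, ?_⟩
    rcases u with u | u | u
    · exact ⟨y, z, Or.inl u, by simp [q, r], by simp [s, t]⟩
    · exact ⟨b, z, Or.inl u.2, by simp [u.1], by simp [s, t]⟩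
    · exact ⟨y, b, Or.inr u.2, by simp [q, r], by simp [u.1]⟩

theorem kern (hm : MinorSt) : KernSt := by
  classical
  refine ⟨5 * 4 ^ 144 + 8, fun V X _ _ _ G ι W₀ H₀ hR₀ hP₀ => ?_⟩
  generalize hC : 5 * 4 ^ 144 + 6 = C
  obtain ⟨⟨W, H⟩, ⟨hR, hP⟩, hmin⟩ := (InvImage.wf
    (fun p : Finset X × SimpleGraph X => (p.1.card, p.2.edgeSet.ncard))
    (Prod.lex Nat.lt_wfRel Nat.lt_wfRel).wf).has_min
      {p | Rep G ι p.1 p.2 ∧ Pl p.2.Adj} ⟨(W₀, H₀), hR₀, hP₀⟩
  dsimp only at hR hP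
  refine ⟨W, H, hR, hP, ?_⟩
  have mW : ∀ W' H', Rep G ι W' H' → Pl H'.Adj → ¬ W'.card < W.card := fun W' H' a b c =>
    hmin (W', H') ⟨a, b⟩ (Prod.Lex.left _ _ c)
  have mE : ∀ H', Rep G ι W H' → Pl H'.Adj → ¬ H'.edgeSet.ncard < H.edgeSet.ncard :=
    fun H' a b c => hmin (W, H') ⟨a, b⟩ (Prod.Lex.right _ c)
  let S : Option (V × V) → Finset X := fun q => q.elim ∅ fun p => {ι p.1, ι p.2}
  let Good : Option (V × V) → Prop := fun q => ∀ p, q = some p → G.Adj p.1 p.2
  have S2 : ∀ q, (S q).card ≤ 2 := fun q => by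
    cases q with
    | none => simp [S]
    | some p => exact card_le_two
  have Sd : ∀ q, Disjoint W (S q) := fun q => by
    cases q with
    | none => simp [S]
    | some p => exact hR.disj _ _
  have Sp : ∀ q, Good q → HasPM H (W ∪ S q) := fun q hq => by
    cases q with
    | none => simpa [S] using hR.2.2.1
    | some p =>
      have := (hR.2.2.2 _ _ (hq p rfl).ne).1 (hq p rfl)
      rwa [ins_eq] at this
  have ess : ∀ x y, H.Adj x y →
      ∃ q, Good q ∧ ∀ m, IsPM H (W ∪ S q) m → x ∈ W ∪ S q ∧ m x = y := by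
    intro x y hxy
    by_contra hc
    push Not at hc
    have le : H.deleteEdges {s(x, y)} ≤ H := SimpleGraph.deleteEdges_le _
    have g : ∀ q, Good q → HasPM (H.deleteEdges {s(x, y)}) (W ∪ S q) := by
      intro q hq
      obtain ⟨m, h1, h2⟩ := hc q hq
      refine ⟨m, fun v hv => ⟨(h1 v hv).1, ?_, (h1 v hv).2.2⟩⟩
      rw [SimpleGraph.deleteEdges_adj]
      refine ⟨(h1 v hv).2.1, fun k => ?_⟩
      rcases Sym2.eq_iff.1 (Set.mem_singleton_iff.1 k) with ⟨a, b⟩ | ⟨a, b⟩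
      · exact h2 (a ▸ hv) (a ▸ b)
      · exact h2 (b ▸ (h1 v hv).1) (by rw [← b, (h1 v hv).2.2, a])
    refine mE (H.deleteEdges {s(x, y)}) ⟨hR.1, hR.2.1, by simpa [S] using g none (by simp [Good]),
      fun u v huv => ⟨fun k => ?_, fun ⟨m, k⟩ => (hR.2.2.2 u v huv).2
        ⟨m, fun z hz => ⟨(k z hz).1, le (k z hz).2.1, (k z hz).2.2⟩⟩⟩⟩ ?_ ?_
    · rw [ins_eq]
      exact g (some (u, v)) fun p e => Option.some.inj e ▸ k
    · obtain ⟨L, a, b, c⟩ := hP
      exact ⟨L, a, fun u v k => b u v (le k), c⟩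
    · rw [SimpleGraph.edgeSet_deleteEdges]
      exact Set.ncard_sdiff_singleton_lt_of_mem hxy
  choose! qq hq using ess
  have : Nonempty (X → X) := ⟨id⟩
  choose! mm hmm using Sp
  have cases3 : ∀ w ∈ W, (∃ q, w ∈ (S q).image (mm q)) ∨
      ∃ y : Fin 3 → X, Injective y ∧ ∀ i, H.Adj w (y i) := by
    intro w hw
    obtain ⟨m, h0⟩ := hR.2.2.1
    obtain ⟨bW, wb, -⟩ := h0 w hw
    have c2 : ((W.erase w).erase (m w)).card < W.card :=
      card_erase_le.trans_lt (card_erase_lt_of_mem hw)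
    have sub : (W.erase w).erase (m w) ⊆ W := (erase_subset _ _).trans (erase_subset _ _)
    by_cases h1 : ∀ y, H.Adj w y → y = m w
    · exact absurd c2 (mW _ H (hR.transfer sub fun T hT => pendant hT hw bW wb h1) hP)
    push Not at h1
    obtain ⟨a, wa, hab⟩ := h1
    by_cases aW : a ∈ W
    · by_cases h2 : ∀ y, H.Adj w y → y = a ∨ y = m w
      · refine absurd c2 (mW _ _ (hR.transfer sub fun T hT => ?_) (bic_pl hm hab wa wb hP))
        rw [erase_union hT hw bW]
        exact bic_pm (mem_union_left _ aW) (mem_union_left _ hw) (mem_union_left _ bW) hab wa wb h2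
      · push Not at h2
        obtain ⟨c, wc, ca, cb⟩ := h2
        refine Or.inr ⟨![a, m w, c], ?_, fun i => by fin_cases i <;> simpa⟩
        intro i j
        fin_cases i <;> fin_cases j <;> simp [hab, ca, cb, hab.symm, ca.symm, cb.symm]
    · obtain ⟨g, k⟩ := hq a w wa.symm
      obtain ⟨k1, k2⟩ := k _ (hmm _ g)
      exact Or.inl ⟨_, mem_image.2 ⟨a, (mem_union.1 k1).resolve_left aW, k2⟩⟩
  set W3 := W.filter fun w => ∃ y : Fin 3 → X, Injective y ∧ ∀ i, H.Adj w (y i) with hW3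
  have : ∀ w ∈ W3, ∃ y : Fin 3 → X, Injective y ∧ ∀ i, H.Adj w (y i) :=
    fun w hw => (mem_filter.1 hw).2
  rcases isEmpty_or_nonempty X with e | e
  · simp [eq_empty_of_isEmpty W]
  choose! y hy using this
  have c3 : W3.card ≤ C * (univ : Finset (Fin 3 → Option (V × V))).card := by
    refine card_le_mul_card_image_of_maps_to (f := fun w i => qq w (y w i))
      (fun _ _ => mem_univ _) C fun τ _ => ?_
    rcases eq_empty_or_nonempty (W3.filter fun w => (fun i => qq w (y w i)) = τ) with e | ⟨w, e⟩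
    · rw [e]; simp
    have gd : ∀ i, Good (τ i) := fun i => by
      rw [← (mem_filter.1 e).2]
      exact (hq _ _ ((hy w (mem_filter.1 e).1).2 i)).1
    rw [← hC]
    refine three H W (fun i => S (τ i)) (fun i => S2 _) (fun i => Sd _)
      (fun i => ⟨_, hmm _ (gd i)⟩) _ (fun x hx => (mem_filter.1 (mem_filter.1 hx).1).1) y
      (fun x hx => (hy x (mem_filter.1 hx).1).1) fun x hx i m k => ?_
    rw [← (mem_filter.1 hx).2] at k
    exact ((hq _ _ ((hy x (mem_filter.1 hx).1).2 i)).2 m k).2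
  have c1 := card_biUnion_le_card_mul (univ : Finset (Option (V × V)))
    (fun q => (S q).image (mm q)) 2 fun q _ => card_image_le.trans (S2 q)
  have cov : W ⊆ W3 ∪ univ.biUnion fun q => (S q).image (mm q) := fun w hw =>
    (cases3 w hw).elim (fun ⟨q, k⟩ => mem_union_right _ (mem_biUnion.2 ⟨q, mem_univ _, k⟩))
      fun k => mem_union_left _ (mem_filter.2 ⟨hw, k⟩)
  have c4 := (card_le_card cov).trans (card_union_le _ _)
  simp only [card_univ, Fintype.card_fun, Fintype.card_option, Fintype.card_prod,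
    Fintype.card_fin] at c1 c3
  rw [show 5 * 4 ^ 144 + 8 = C + 2 by omega]
  generalize Fintype.card V = n at c1 c3 ⊢
  have b1 : (n * n + 1) ^ 3 ≤ (n + 1) ^ 6 := by
    rw [show (n + 1) ^ 6 = ((n + 1) ^ 2) ^ 3 by ring]
    gcongr
    nlinarith
  have b2 : n * n + 1 ≤ (n * n + 1) ^ 3 := Nat.le_self_pow (by norm_num) _
  have b3 := Nat.mul_le_mul_left C b1
  rw [add_mul]
  omega

end Pool.Agent.Lib.MP_50b5c6_lc.Np
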