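import Pool.Agent.Lib.MP_50b5c6_lc.NpSpec

/-! A graph drawn with compact connected sets is a minor of a grid. -/

set_option autoImplicit false

namespace Pool.Agent.Lib.MP_50b5c6_lc.Np

open Function Relation Filter Topology

/-- the point `z` lies in the closed pixel `p` of size `δ` -/
def PIn (δ : ℝ) (p : ℤ × ℤ) (z : ℂ) : Prop :=
  (p.1 * δ ≤ z.re ∧ z.re ≤ (p.1 + 1) * δ) ∧ (p.2 * δ ≤ z.im ∧ z.im ≤ (p.2 + 1) * δ)

/-- the pixels that meet `A` -/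
def Pix (δ : ℝ) (A : Set ℂ) : Set (ℤ × ℤ) := {p | ∃ z ∈ A, PIn δ p z}

/-- neighbours in the grid -/
def GA (p q : ℤ × ℤ) : Prop :=
  (q = (p.1 + 1, p.2) ∨ q = (p.1, p.2 + 1)) ∨ (p = (q.1 + 1, q.2) ∨ p = (q.1, q.2 + 1))

/-- steps inside a set of pixels -/
def GI (P : Set (ℤ × ℤ)) (p q : ℤ × ℤ) : Prop := GA p q ∧ p ∈ P ∧ q ∈ P

theorem GI.symm {P : Set (ℤ × ℤ)} {p q : ℤ × ℤ} (h : GI P p q) : GI P q p :=
  ⟨h.1.symm, h.2.2, h.2.1⟩

theorem rt_symm {P : Set (ℤ × ℤ)} {p q : ℤ × ℤ} (h : ReflTransGen (GI P) p q) :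
    ReflTransGen (GI P) q p := by
  induction h with
  | refl => exact .refl
  | tail _ h ih => exact .head h.symm ih

theorem rt_mono {α : Type} {r s : α → α → Prop} {p q : α} (h : ReflTransGen r p q)
    (m : ∀ a b, r a b → s a b) : ReflTransGen s p q := by
  induction h with
  | refl => exact .refl
  | tail _ h ih => exact ih.tail (m _ _ h)

theorem pix_ex {δ : ℝ} (hδ : 0 < δ) (z : ℂ) : ∃ p, PIn δ p z := by
  have k : ∀ t : ℝ, (⌊t / δ⌋ : ℝ) * δ ≤ t ∧ t ≤ (⌊t / δ⌋ + 1) * δ := fun t =>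
    ⟨(le_div_iff₀ hδ).1 (Int.floor_le _), (div_le_iff₀ hδ).1 (Int.lt_floor_add_one _).le⟩
  exact ⟨(⌊z.re / δ⌋, ⌊z.im / δ⌋), k _, k _⟩

theorem pix_near {δ t : ℝ} (hδ : 0 < δ) {i k : ℤ} (h : i * δ ≤ t) (h' : t ≤ (k + 1) * δ) :
    i ≤ k + 1 := by
  have := le_of_mul_le_mul_right (h.trans h') hδ
  exact_mod_cast this

theorem pix_same {δ : ℝ} (hδ : 0 < δ) {A : Set ℂ} {z : ℂ} (hz : z ∈ A) {p q : ℤ × ℤ}
    (hp : PIn δ p z) (hq : PIn δ q z) : ReflTransGen (GI (Pix δ A)) p q := by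
  have a1 := pix_near hδ hp.1.1 hq.1.2
  have a2 := pix_near hδ hq.1.1 hp.1.2
  have b1 := pix_near hδ hp.2.1 hq.2.2
  have b2 := pix_near hδ hq.2.1 hp.2.2
  have m : (q.1, p.2) ∈ Pix δ A := ⟨z, hz, hq.1, hp.2⟩
  have mp : p ∈ Pix δ A := ⟨z, hz, hp⟩
  have mq : q ∈ Pix δ A := ⟨z, hz, hq⟩
  refine ReflTransGen.trans (b := (q.1, p.2)) ?_ ?_
  · by_cases e : p.1 = q.1
    · rw [← e]
    · refine .single ⟨?_, mp, m⟩
      simp only [GA, Prod.ext_iff, and_true, true_and]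
      omega
  · by_cases e : p.2 = q.2
    · rw [e]
    · refine .single ⟨?_, m, mq⟩
      simp only [GA, Prod.ext_iff, and_true, true_and]
      omega

theorem pix_bd {δ : ℝ} (hδ : 0 < δ) {A : Set ℂ} (hA : Bornology.IsBounded A) :
    ∃ N : ℕ, ∀ p ∈ Pix δ A, |p.1| ≤ N ∧ |p.2| ≤ N := by
  obtain ⟨ρ, hρ⟩ := hA.exists_norm_le
  obtain ⟨n, hn⟩ := exists_nat_ge (ρ / δ)
  rw [div_le_iff₀ hδ] at hn
  have k : ∀ (t : ℝ) (i : ℤ), |t| ≤ ρ → i * δ ≤ t ∧ t ≤ (i + 1) * δ → |i| ≤ (n + 1 : ℕ) := by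
    intro t i ht h
    obtain ⟨h1, h2⟩ := abs_le.1 ht
    have a : (i : ℝ) ≤ n := le_of_mul_le_mul_right (by linarith [h.1]) hδ
    have b : -(n : ℝ) ≤ i + 1 := le_of_mul_le_mul_right (by linarith [h.2]) hδ
    have a' : i ≤ n := by exact_mod_cast a
    have b' : -(n : ℤ) ≤ i + 1 := by exact_mod_cast b
    rw [abs_le]
    push_cast
    omega
  refine ⟨n + 1, fun p ⟨z, hz, h⟩ => ⟨k _ _ ((Complex.abs_re_le_norm z).trans (hρ z hz)) h.1,
    k _ _ ((Complex.abs_im_le_norm z).trans (hρ z hz)) h.2⟩⟩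

theorem pin_closed (δ : ℝ) (p : ℤ × ℤ) : IsClosed {z | PIn δ p z} :=
  ((isClosed_le continuous_const Complex.continuous_re).inter
    (isClosed_le Complex.continuous_re continuous_const)).inter
    ((isClosed_le continuous_const Complex.continuous_im).inter
      (isClosed_le Complex.continuous_im continuous_const))

theorem pix_conn {δ : ℝ} (hδ : 0 < δ) {A : Set ℂ} (hA : IsCompact A ∧ IsPreconnected A)
    {a b : ℤ × ℤ} (ha : a ∈ Pix δ A) (hb : b ∈ Pix δ A) : ReflTransGen (GI (Pix δ A)) a b := by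
  obtain ⟨N, hN⟩ := pix_bd hδ hA.1.isBounded
  have fin : (Pix δ A).Finite :=
    ((Set.finite_Icc (-(N : ℤ)) N).prod (Set.finite_Icc (-(N : ℤ)) N)).subset fun p hp =>
      ⟨abs_le.1 (hN p hp).1, abs_le.1 (hN p hp).2⟩
  by_contra hn
  obtain ⟨z, hz, h1, h2⟩ := isPreconnected_closed_iff.1 hA.2
    (⋃ p ∈ {p ∈ Pix δ A | ReflTransGen (GI (Pix δ A)) a p}, {z | PIn δ p z})
    (⋃ p ∈ {p ∈ Pix δ A | ¬ ReflTransGen (GI (Pix δ A)) a p}, {z | PIn δ p z})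
    ((fin.subset fun _ h => h.1).isClosed_biUnion fun p _ => pin_closed δ p)
    ((fin.subset fun _ h => h.1).isClosed_biUnion fun p _ => pin_closed δ p)
    (fun z hz => by
      obtain ⟨p, hp⟩ := pix_ex hδ z
      by_cases c : ReflTransGen (GI (Pix δ A)) a p
      · exact Or.inl (Set.mem_biUnion (x := p) ⟨⟨z, hz, hp⟩, c⟩ hp)
      · exact Or.inr (Set.mem_biUnion (x := p) ⟨⟨z, hz, hp⟩, c⟩ hp))
    (by
      obtain ⟨z, hz, hp⟩ := ha
      exact ⟨z, hz, Set.mem_biUnion (x := a) ⟨⟨z, hz, hp⟩, .refl⟩ hp⟩)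
    (by
      obtain ⟨z, hz, hp⟩ := hb
      exact ⟨z, hz, Set.mem_biUnion (x := b) ⟨⟨z, hz, hp⟩, hn⟩ hp⟩)
  obtain ⟨p, hp, zp⟩ := Set.mem_iUnion₂.1 h1
  obtain ⟨q, hq, zq⟩ := Set.mem_iUnion₂.1 h2
  exact hq.2 (hp.2.trans (pix_same hδ hz zp zq))

theorem pix_disj {A B : Set ℂ} (hA : IsCompact A) (hB : IsCompact B) (h : Disjoint A B) :
    ∀ᶠ δ in 𝓝[>] (0 : ℝ), Disjoint (Pix δ A) (Pix δ B) := by
  obtain ⟨ε, hε, hs⟩ := hA.exists_thickening_subset_open hB.isClosed.isOpen_compl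
    h.subset_compl_right
  filter_upwards [Ioo_mem_nhdsGT (half_pos hε)] with δ hδ
  refine Set.disjoint_left.2 fun p ⟨z, hz, zp⟩ ⟨w, hw, wp⟩ => hs ?_ hw
  refine Metric.mem_thickening_iff.2 ⟨z, hz, ?_⟩
  rw [dist_eq_norm]
  refine (Complex.norm_le_abs_re_add_abs_im _).trans_lt ?_
  have a : |(w - z).re| ≤ δ := by
    rw [Complex.sub_re, abs_le]
    constructor <;> linarith [zp.1.1, zp.1.2, wp.1.1, wp.1.2]
  have b : |(w - z).im| ≤ δ := by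
    rw [Complex.sub_im, abs_le]
    constructor <;> linarith [zp.2.1, zp.2.2, wp.2.1, wp.2.2]
  linarith [hδ.2]

theorem touch (hm : MinorSt) (hg : GridSt) : TouchSt := by
  classical
  intro X E _ _ src tgt S T hS hT dS dT dTS hne
  have ev : ∀ᶠ δ in 𝓝[>] (0 : ℝ), 0 < δ ∧
      (∀ x y, x ≠ y → Disjoint (Pix δ (S x)) (Pix δ (S y))) ∧
      (∀ e f, e ≠ f → Disjoint (Pix δ (T e)) (Pix δ (T f))) ∧
      (∀ e x, x ≠ src e → x ≠ tgt e → Disjoint (Pix δ (T e)) (Pix δ (S x))) := by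
    refine Eventually.and self_mem_nhdsWithin (Eventually.and ?_ (Eventually.and ?_ ?_))
    · simp only [eventually_all]
      exact fun x y n => pix_disj (hS x).1 (hS y).1 (dS n)
    · simp only [eventually_all]
      exact fun x y n => pix_disj (hT x).1 (hT y).1 (dT n)
    · simp only [eventually_all]
      exact fun e x n n' => pix_disj (hT e).1 (hS x).1 (dTS e x n n')
  obtain ⟨δ, hδ, pS, pT, pTS⟩ := ev.exists
  obtain ⟨N, hN⟩ := pix_bd hδ (A := (⋃ x, S x) ∪ ⋃ e, T e)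
    ((isCompact_iUnion fun x => (hS x).1).union (isCompact_iUnion fun e => (hT e).1)).isBounded
  let A : X → Set (ℤ × ℤ) := fun x =>
    {p | p ∈ Pix δ (S x) ∨ ∃ e, src e = x ∧ p ∈ Pix δ (T e) ∧ p ∉ Pix δ (S (tgt e))}
  let B : X → Set (ℤ × ℤ) := fun x => {p | ∃ q ∈ Pix δ (S x), ReflTransGen (GI (A x)) q p}
  have BA : ∀ x p, p ∈ B x → p ∈ A x := by
    rintro x p ⟨q, hq, h⟩
    rcases h.cases_tail with rfl | ⟨_, _, h⟩
    · exact Or.inl hq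
    · exact h.2.2
  have half : ∀ x e p, p ∈ Pix δ (S x) → p ∈ Pix δ (T e) → p ∉ Pix δ (S (tgt e)) →
      x = src e := by
    intro x e p h1 h2 h3
    by_contra n
    exact Set.disjoint_left.1 (pTS e x n fun q => h3 (q ▸ h1)) h2 h1
  have uq : ∀ x y p, p ∈ A x → p ∈ A y → x = y := by
    rintro x y p (h | ⟨e, rfl, h, h'⟩) (k | ⟨f, rfl, k, k'⟩)
    · by_contra n
      exact Set.disjoint_left.1 (pS x y n) h k
    · exact half x f p h k k'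
    · exact (half y e p k h h').symm
    · by_contra n
      exact Set.disjoint_left.1 (pT e f fun q => n (q ▸ rfl)) h k
  have bd : ∀ x p, p ∈ A x → |p.1| ≤ N ∧ |p.2| ≤ N := by
    rintro x p (⟨z, hz, h⟩ | ⟨e, -, ⟨z, hz, h⟩, -⟩)
    · exact hN p ⟨z, Or.inl (Set.mem_iUnion.2 ⟨x, hz⟩), h⟩
    · exact hN p ⟨z, Or.inr (Set.mem_iUnion.2 ⟨e, hz⟩), h⟩
  let φ : ℤ × ℤ → Option X := fun p => if h : ∃ x, p ∈ B x then some h.choose else none
  have hφ : ∀ p x, φ p = some x ↔ p ∈ B x := by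
    intro p x
    simp only [φ]
    split_ifs with h
    · rw [Option.some_inj]
      exact ⟨fun q => q ▸ h.choose_spec, fun q => uq _ _ p (BA _ _ h.choose_spec) (BA _ _ q)⟩
    · exact ⟨fun q => by simp at q, fun q => absurd ⟨x, q⟩ h⟩
  let R : ℤ × ℤ → ℤ × ℤ → Prop := fun p q => |p.1| ≤ N ∧ |p.2| ≤ N ∧ |q.1| ≤ N ∧ |q.2| ≤ N ∧
    (q = (p.1 + 1, p.2) ∨ q = (p.1, p.2 + 1))
  have adj : ∀ x y p q, p ∈ B x → q ∈ B y → GA p q → R p q ∨ R q p := by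
    intro x y p q hp hq h
    have a := bd x p (BA _ _ hp)
    have b := bd y q (BA _ _ hq)
    exact h.imp (fun h => ⟨a.1, a.2, b.1, b.2, h⟩) fun h => ⟨b.1, b.2, a.1, a.2, h⟩
  have inB : ∀ x q p, q ∈ B x → ReflTransGen (GI (A x)) q p → ReflTransGen (GI (B x)) q p := by
    rintro x q p ⟨r, hr, c⟩ h
    induction h with
    | refl => exact .refl
    | tail h s ih => exact ih.tail ⟨s.1, ⟨r, hr, c.trans h⟩, ⟨r, hr, (c.trans h).tail s⟩⟩
  refine hm _ _ R _ φ (fun a b y ha hb => ?_) ?_ (hg N)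
  · rw [hφ] at ha hb
    obtain ⟨q, hq, c⟩ := id ha
    obtain ⟨r, hr, d⟩ := hb
    have m : ReflTransGen (GI (A y)) q r := rt_mono (pix_conn hδ (hS y) hq hr)
      fun _ _ h => ⟨h.1, Or.inl h.2.1, Or.inl h.2.2⟩
    exact rt_mono (inB y a b ha (((rt_symm c).trans m).trans d)) fun p q h =>
      ⟨adj y y p q h.2.1 h.2.2 h.1, (hφ _ _).2 h.2.1, (hφ _ _).2 h.2.2⟩
  · rintro y z ⟨n, e, rfl, rfl⟩
    refine ⟨n, ?_⟩
    obtain ⟨⟨z1, t1, s1⟩, ⟨z2, t2, s2⟩⟩ := hne e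
    obtain ⟨a, ha⟩ := pix_ex hδ z1
    obtain ⟨b, hb⟩ := pix_ex hδ z2
    have key : ∀ p, ReflTransGen (GI (Pix δ (T e))) a p → p ∈ B (src e) ∨
        ∃ a b, (R a b ∨ R b a) ∧ φ a = some (src e) ∧ φ b = some (tgt e) := by
      intro p h
      induction h with
      | refl => exact Or.inl ⟨a, ⟨z1, s1, ha⟩, .refl⟩
      | @tail p p' _ s ih =>
        rcases ih with ih | ih
        · by_cases c : p' ∈ Pix δ (S (tgt e))
          · have m : p' ∈ B (tgt e) := ⟨p', c, .refl⟩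
            exact Or.inr ⟨p, p', adj _ _ p p' ih m s.1, (hφ _ _).2 ih, (hφ _ _).2 m⟩
          · obtain ⟨r, hr, d⟩ := id ih
            exact Or.inl ⟨r, hr, d.tail ⟨s.1, BA _ _ ih, Or.inr ⟨e, rfl, s.2.2, c⟩⟩⟩
        · exact Or.inr ih
    exact (key b (pix_conn hδ (hT e) ⟨z1, t1, ha⟩ ⟨z2, t2, hb⟩)).resolve_left fun h =>
      n (uq _ _ b (BA _ _ h) (Or.inl ⟨z2, s2, hb⟩))

end Pool.Agent.Lib.MP_50b5c6_lc.Np
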