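import Pool.Agent.Lib.MP_50b5c6_lc.NpSpec

set_option autoImplicit false

namespace Pool.Agent.Lib.MP_50b5c6_lc.Np

open List

variable {D β γ : Type} {f : D → β} {g : D → γ}

lemma NC.sub {L L' : List D} (h : NC f L) (s : L' <+ L) : NC f L' :=
  fun a b c d k => h a b c d (k.trans s)

lemma split4 {a b c d : D} {P Q : List D} (h : [a, b, c, d] <+ P ++ Q) :
    [a, b, c, d] <+ Q ∨ ([a] <+ P ∧ [b, c, d] <+ Q) ∨ ([a, b] <+ P ∧ [c, d] <+ Q) ∨
      ([a, b, c] <+ P ∧ [d] <+ Q) ∨ [a, b, c, d] <+ P := by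
  obtain ⟨l₁, l₂, e, h1, h2⟩ := sublist_append_iff.1 h
  rcases l₁ with _ | ⟨a', _ | ⟨b', _ | ⟨c', _ | ⟨d', l⟩⟩⟩⟩ <;> simp at e
  · subst e; exact .inl h2
  · obtain ⟨rfl, rfl⟩ := e; exact .inr (.inl ⟨h1, h2⟩)
  · obtain ⟨rfl, rfl, rfl⟩ := e; exact .inr (.inr (.inl ⟨h1, h2⟩))
  · obtain ⟨rfl, rfl, rfl, rfl⟩ := e; exact .inr (.inr (.inr (.inl ⟨h1, h2⟩)))
  · obtain ⟨rfl, rfl, rfl, rfl, rfl, -⟩ := e; exact .inr (.inr (.inr (.inr h1)))

lemma NC.rot {P Q : List D} (h : NC f (P ++ Q)) : NC f (Q ++ P) := by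
  intro a b c d k h1 h2
  rcases split4 k with k | ⟨k, k'⟩ | ⟨k, k'⟩ | ⟨k, k'⟩ | k
  · exact h a b c d (k.trans (sublist_append_left _ _)) h1 h2
  · exact h1.trans (h b c d a (k'.append k) h2 h1.symm).symm
  · exact h1.trans ((h c d a b (k'.append k) h1.symm h2.symm).trans h2.symm)
  · exact ((h d a b c (k'.append k) h2.symm h1).symm).trans h2.symm
  · exact h a b c d (k.trans (sublist_append_right _ _)) h1 h2

lemma NC.app {P Q : List D} (hP : NC f P) (hQ : NC f Q) (h : ∀ x ∈ P, ∀ y ∈ Q, f x ≠ f y) :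
    NC f (P ++ Q) := by
  intro a b c d k h1 h2
  rcases split4 k with k | ⟨k, k'⟩ | ⟨k, k'⟩ | ⟨k, k'⟩ | k
  · exact hQ a b c d k h1 h2
  · exact (h a (k.subset (by simp)) c (k'.subset (by simp)) h1).elim
  · exact (h a (k.subset (by simp)) c (k'.subset (by simp)) h1).elim
  · exact (h b (k.subset (by simp)) d (k'.subset (by simp)) h2).elim
  · exact hP a b c d k h1 h2

lemma NC.congr {L : List D} (h : NC f L) (e : ∀ x ∈ L, ∀ y ∈ L, f x = f y ↔ g x = g y) :
    NC g L := by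
  intro a b c d k h1 h2
  have m : ∀ x ∈ [a, b, c, d], x ∈ L := fun x hx => k.subset hx
  have ha := m a (by simp)
  have hb := m b (by simp)
  have hc := m c (by simp)
  have hd := m d (by simp)
  exact (e a ha b hb).1 (h a b c d k ((e a ha c hc).2 h1) ((e b hb d hd).2 h2))

lemma NC.map {D' : Type} {f : D' → β} {k : D → D'} {L : List D} (h : NC (fun x => f (k x)) L) :
    NC f (L.map k) := by
  intro a b c d s h1 h2
  obtain ⟨l, hl, e⟩ := sublist_map_iff.1 s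
  rcases l with _ | ⟨a', _ | ⟨b', _ | ⟨c', _ | ⟨d', _ | ⟨_, _⟩⟩⟩⟩⟩ <;> simp at e
  obtain ⟨rfl, rfl, rfl, rfl⟩ := e
  exact h _ _ _ _ hl h1 h2

lemma NC.glue {P Q : List D} {p q : D} (hP : NC f (P ++ [p])) (hQ : NC f (q :: Q))
    (e : f p = f q) (h : ∀ x ∈ P ++ [p], ∀ y ∈ q :: Q, f x = f y → f x = f p) :
    NC f ((P ++ [p]) ++ q :: Q) := by
  intro a b c d k h1 h2
  rcases split4 k with k | ⟨k, k'⟩ | ⟨k, k'⟩ | ⟨k, k'⟩ | k
  · exact hQ a b c d k h1 h2
  · have ha := h a (k.subset (by simp)) c (k'.subset (by simp)) h1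
    rcases sublist_cons_iff.1 k' with s | ⟨r, s, -⟩
    · exact ha.trans (e.trans (hQ q b c d (s.cons_cons q) (e.symm.trans (ha.symm.trans h1)) h2))
    · obtain ⟨rfl, -⟩ := List.cons.inj s
      exact ha.trans e
  · exact (h a (k.subset (by simp)) c (k'.subset (by simp)) h1).trans
      (h b (k.subset (by simp)) d (k'.subset (by simp)) h2).symm
  · have hb := h b (k.subset (by simp)) d (k'.subset (by simp)) h2
    have k2 : [a, b, c] <+ P ∨ c = p := by
      obtain ⟨l₁, l₂, e', s1, s2⟩ := sublist_append_iff.1 k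
      rcases sublist_singleton.1 s2 with rfl | rfl
      · left; rw [e']; simpa using s1
      · right
        have := congrArg List.getLast? e'
        simpa using this
    rcases k2 with s | rfl
    · exact hP a b c p (s.append (Sublist.refl [p])) h1 hb
    · exact h1.trans hb.symm
  · exact hP a b c d k h1 h2

lemma cut_first (p : D → Prop) (Y : List D) : ∃ Y₁ Y₂, Y = Y₁ ++ Y₂ ∧ (∀ y ∈ Y₁, ¬p y) ∧
    (Y₂ = [] ∨ ∃ z r, Y₂ = z :: r ∧ p z) := by
  induction Y with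
  | nil => exact ⟨[], [], rfl, by simp, .inl rfl⟩
  | cons a Y ih =>
    by_cases h : p a
    · exact ⟨[], a :: Y, rfl, by simp, .inr ⟨a, Y, rfl, h⟩⟩
    · obtain ⟨Y₁, Y₂, rfl, h1, h2⟩ := ih
      exact ⟨a :: Y₁, Y₂, rfl, by simpa [h] using h1, h2⟩

lemma cut_last (p : D → Prop) (X : List D) : ∃ X₁ X₂, X = X₁ ++ X₂ ∧ (∀ y ∈ X₂, ¬p y) ∧
    (X₁ = [] ∨ ∃ z r, X₁ = r ++ [z] ∧ p z) := by
  obtain ⟨Y₁, Y₂, e, h1, h2⟩ := cut_first p X.reverse
  refine ⟨Y₂.reverse, Y₁.reverse, by rw [← reverse_append, ← e, reverse_reverse], by simpa using h1,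
    ?_⟩
  rcases h2 with rfl | ⟨z, r, rfl, h⟩
  · exact .inl rfl
  · exact .inr ⟨z, r.reverse, by simp, h⟩

lemma merge0 [DecidableEq β] {X Y : List D} {d d' : D} (hf : NC f (d :: X ++ d' :: Y))
    (hg : NC g (d :: X ++ d' :: Y)) (e : g d = g d') (ne : f d ≠ f d')
    (hX : ∀ x ∈ X, g x ≠ g d) (hY : ∀ x ∈ Y, g x ≠ g d) :
    ∃ L', L' ~ d :: X ++ d' :: Y ∧ NC g L' ∧
      NC (fun x => if f x = f d' then f d else f x) L' := by
  obtain ⟨X₁, X₂, rfl, x2, x1⟩ := cut_last (fun x => f x = f d) X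
  obtain ⟨Y₁, Y₂, rfl, y1, y2⟩ := cut_first (fun x => f x = f d) Y
  have hB : ∀ y ∈ X₂ ++ d' :: Y₁, f y ≠ f d := by
    intro y hy
    rcases mem_append.1 hy with h | h
    · exact x2 y h
    · rcases mem_cons.1 h with rfl | h
      · exact ne.symm
      · exact y1 y h
  have dis : ∀ x ∈ X₁ ++ Y₂ ++ [d], ∀ y ∈ X₂ ++ d' :: Y₁, f x ≠ f y := by
    intro x hx y hy h
    have hy' := hB y hy
    have sy : [y] <+ X₂ ++ d' :: Y₁ := singleton_sublist.2 hy
    rcases mem_append.1 hx with hx | hx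
    · rcases mem_append.1 hx with hx | hx
      · rcases x1 with rfl | ⟨z, r, rfl, hz⟩
        · simp at hx
        · rcases mem_append.1 hx with hx | hx
          · refine hy' (h.symm.trans (hf d x z y ?_ hz.symm h).symm)
            have := (((singleton_sublist.2 hx).append (Sublist.refl [z])).append
              (sy.trans (sublist_append_left _ Y₂))).cons_cons d
            simpa using this
          · obtain rfl := mem_singleton.1 hx
            exact hy' (h.symm.trans hz)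
      · rcases y2 with rfl | ⟨z, r, rfl, hz⟩
        · simp at hx
        · rcases mem_cons.1 hx with rfl | hx
          · exact hy' (h.symm.trans hz)
          · refine hy' (hf d y z x ?_ hz.symm h.symm).symm
            have := ((sy.trans (sublist_append_right X₁ _)).append
              ((singleton_sublist.2 hx).cons_cons z)).cons_cons d
            simpa using this
    · obtain rfl := mem_singleton.1 hx
      exact hy' h.symm
  have mem : ∀ y, y ∈ d' :: (Y₁ ++ X₂) ↔ y ∈ X₂ ++ d' :: Y₁ := by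
    intro y; simp only [mem_cons, mem_append]; tauto
  refine ⟨(X₁ ++ Y₂ ++ [d]) ++ d' :: (Y₁ ++ X₂), ?_, ?_, ?_⟩
  · classical
    refine perm_iff_count.2 fun a => ?_
    simp only [count_append, count_cons, count_nil, cons_append]; omega
  · have h1 : NC g (X₂ ++ X₁) := (hg.sub (by
      simp)).rot
    have h2 : NC g ([d, d'] ++ (Y₁ ++ Y₂)) := by
      refine NC.app (fun a b c e k => ?_) (hg.sub ?_) fun x hx y hy => ?_
      · simpa using k.length_le
      · exact ((sublist_cons_self d' _).trans (sublist_append_right _ _))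
      · rcases mem_cons.1 hx with rfl | hx
        · exact (hY y hy).symm
        · obtain rfl := mem_singleton.1 hx
          exact e ▸ (hY y hy).symm
    have h3 : NC g (Y₂ ++ ([d, d'] ++ Y₁)) := NC.rot (by simpa using h2)
    have h4 : NC g ((X₂ ++ X₁) ++ (Y₂ ++ ([d, d'] ++ Y₁))) := by
      refine h1.app h3 fun x hx y hy h => ?_
      have hx' : x ∈ X₁ ++ X₂ := by simpa [or_comm] using hx
      have : y ∈ Y₁ ++ Y₂ ∨ y = d ∨ y = d' := by
        simp only [mem_cons, mem_append, not_mem_nil] at hy ⊢; tauto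
      rcases this with hy | rfl | rfl
      · refine hX x hx' (hg d x d' y ?_ e h).symm
        exact ((singleton_sublist.2 hx').append
          ((singleton_sublist.2 hy).cons_cons d')).cons_cons d
      · exact hX x hx' h
      · exact hX x hx' (h.trans e.symm)
    have h5 : NC g (X₂ ++ (X₁ ++ (Y₂ ++ ([d, d'] ++ Y₁)))) := by simpa using h4
    simpa using h5.rot
  · have dd : d' ∈ X₂ ++ d' :: Y₁ := by simp
    have hA : ∀ x ∈ X₁ ++ Y₂ ++ [d], (if f x = f d' then f d else f x) = f x :=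
      fun x hx => if_neg (dis x hx d' dd)
    refine NC.glue (NC.congr (f := f) ?_ fun x hx y hy => by rw [hA x hx, hA y hy])
      (NC.congr (f := f) ?_ fun x hx y hy => ?_) (by simp) fun x hx y hy h => ?_
    · refine NC.rot (P := [d]) (hf.sub ?_)
      have := ((sublist_append_left X₁ X₂).append
        (((sublist_append_right Y₁ Y₂)).cons d')).cons_cons d
      simpa using this
    · refine NC.rot (P := X₂) (Q := d' :: Y₁) (hf.sub ?_)
      have := ((sublist_append_right X₁ X₂).append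
        (((sublist_append_left Y₁ Y₂)).cons_cons d')).cons d
      simpa using this
    · have a1 := hB x ((mem x).1 hx)
      have a2 := hB y ((mem y).1 hy)
      split_ifs with b1 b2 b2
      · simp [b1, b2]
      · exact ⟨fun h => (b2 (h.symm.trans b1)).elim, fun h => (a2 h.symm).elim⟩
      · exact ⟨fun h => (b1 (h.trans b2)).elim, fun h => (a1 h).elim⟩
      · rfl
    · simp only [hA x hx, ite_self] at h ⊢
      split_ifs at h with b
      · exact h
      · exact (dis x hx y ((mem y).1 hy) h).elim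

lemma merge [DecidableEq β] {L : List D} {d d' : D} (nd : L.Nodup) (hf : NC f L) (hg : NC g L)
    (hd : d ∈ L) (hd' : d' ∈ L) (e : g d = g d') (ne : f d ≠ f d')
    (two : ∀ x ∈ L, g x = g d → x = d ∨ x = d') :
    ∃ L', L' ~ L ∧ NC g L' ∧ NC (fun x => if f x = f d' then f d else f x) L' := by
  obtain ⟨P, Q, rfl⟩ := append_of_mem hd
  have p1 : d :: Q ++ P ~ P ++ d :: Q := perm_append_comm
  have dd : d' ≠ d := fun h => ne (h ▸ rfl)
  have : d' ∈ Q ++ P := by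
    have := p1.symm.subset hd'
    simpa [dd] using this
  obtain ⟨X, Y, h⟩ := append_of_mem this
  have h' : d :: Q ++ P = d :: X ++ d' :: Y := by simp [h]
  have nd' := p1.nodup_iff.2 nd
  have m : ∀ x ∈ d :: X ++ d' :: Y, x ∈ P ++ d :: Q := fun x hx => p1.subset (h' ▸ hx)
  rw [h'] at nd'
  simp only [cons_append, nodup_cons, nodup_append, mem_append, mem_cons, not_or] at nd'
  obtain ⟨L', q1, q2, q3⟩ := merge0 (h' ▸ hf.rot) (h' ▸ hg.rot) e ne
    (fun x hx k => by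
      rcases two x (m x (by simp [hx])) k with rfl | rfl
      · exact nd'.1.1 hx
      · exact nd'.2.2.2 x hx x (.inl rfl) rfl)
    (fun x hx k => by
      rcases two x (m x (by simp [hx])) k with rfl | rfl
      · exact nd'.1.2.2 hx
      · exact nd'.2.2.1.1 hx)
  exact ⟨L', q1.trans (h' ▸ p1), q2, q3⟩

lemma contract {X Y : Type} (R : X → X → Prop) (φ : X → Option Y) (L : List (X × X))
    (nd : L.Nodup) (hR : ∀ a b, R a b → (a, b) ∈ L ∧ (b, a) ∈ L) (n : ℕ) :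
    ∀ (k : X → X) (M : List (X × X)), M ~ L → (∀ a b, k a = k b → φ a = φ b) →
      NC (fun d => k d.1) M → NC (fun d => s(d.1, d.2)) M →
      (open Classical in L.countP fun d => k d.1 ≠ k d.2) ≤ n →
      ∃ (k : X → X) (M : List (X × X)), M ~ L ∧ (∀ a b, k a = k b → φ a = φ b) ∧
        NC (fun d => k d.1) M ∧ NC (fun d => s(d.1, d.2)) M ∧
        ∀ a b, R a b → φ a = φ b → k a = k b := by
  classical
  induction n using Nat.strong_induction_on with
  | _ n ih =>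
  intro k M p hk h1 h2 hn
  by_cases h : ∀ a b, R a b → φ a = φ b → k a = k b
  · exact ⟨k, M, p, hk, h1, h2, h⟩
  push Not at h
  obtain ⟨a, b, r, e, ne⟩ := h
  obtain ⟨M', p', g2, g1⟩ := merge (d := (a, b)) (d' := (b, a)) (p.nodup_iff.2 nd) h1 h2
    (p.symm.subset (hR a b r).1) (p.symm.subset (hR a b r).2) Sym2.eq_swap ne
    (fun x _ hx => by
      rcases Sym2.eq_iff.1 hx with ⟨u, v⟩ | ⟨u, v⟩
      · exact .inl (Prod.ext u v)
      · exact .inr (Prod.ext u v))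
  let k' : X → X := fun x => if k x = k b then k a else k x
  have lt : (L.countP fun d => k' d.1 ≠ k' d.2) < L.countP fun d => k d.1 ≠ k d.2 := by
    obtain ⟨P, Q, rfl⟩ := append_of_mem (hR a b r).1
    have mono : ∀ l : List (X × X),
        (l.countP fun d => k' d.1 ≠ k' d.2) ≤ l.countP fun d => k d.1 ≠ k d.2 :=
      fun l => countP_mono_left fun d _ hd => by
        simp only [ne_eq, decide_eq_true_eq] at hd ⊢
        exact fun q => hd (by simp only [k', q])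
    have a1 := mono P
    have a2 := mono Q
    have a3 : k' a = k' b := by simp [k']
    simp only [countP_append, countP_cons, a3, ne, ne_eq, not_true_eq_false, not_false_eq_true,
      decide_true, decide_false, if_true] at a1 a2 ⊢
    simp only [Bool.false_eq_true, if_false]
    omega
  refine ih _ (lt.trans_le hn) k' M' (p'.trans p) (fun x y q => ?_) g1 g2 le_rfl
  simp only [k'] at q
  split_ifs at q with b1 b2 b2
  · exact hk _ _ (b1.trans b2.symm)
  · exact (hk _ _ b1).trans (e.symm.trans (hk _ _ q))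
  · exact (hk _ _ q).trans (e.trans (hk _ _ b2).symm)
  · exact hk _ _ q

theorem minor : MinorSt := by
  classical
  rintro X Y R R' φ con wit ⟨L, nd, hR, h1, h2⟩
  obtain ⟨k, M, p, hk, g1, g2, fin⟩ := contract R φ L nd hR _ id L (Perm.refl _)
    (fun a b h => congrArg φ h) h1 h2 le_rfl
  have ker : ∀ a b y, φ a = some y → φ b = some y → k a = k b := by
    intro a b y ha hb
    induction con a b y ha hb with
    | refl => rfl
    | tail _ s ih =>
      obtain ⟨s | s, u, v⟩ := s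
      · exact (ih u).trans (fin _ _ s (u.trans v.symm))
      · exact (ih u).trans (fin _ _ s (v.trans u.symm)).symm
  by_cases hY : ∃ y z, R' y z
  swap
  · exact ⟨[], nodup_nil, fun a b h => (hY ⟨a, b, h⟩).elim, fun _ _ _ _ h => by simp at h,
      fun _ _ _ _ h => by simp at h⟩
  obtain ⟨y₀, -, -⟩ := hY
  let ψ : X → Y := fun x => (φ x).getD y₀
  let G : X × X → Prop := fun d => d ∈ M ∧ d.swap ∈ M ∧ φ d.1 = some (ψ d.1) ∧
    φ d.2 = some (ψ d.2) ∧ ψ d.1 ≠ ψ d.2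
  have ex : ∀ e : Sym2 Y, ∃ w : Option (Sym2 X), (∃ d, G d ∧ s(ψ d.1, ψ d.2) = e) →
      ∃ d, G d ∧ s(ψ d.1, ψ d.2) = e ∧ w = some s(d.1, d.2) := by
    intro e
    by_cases h : ∃ d, G d ∧ s(ψ d.1, ψ d.2) = e
    · obtain ⟨d, u, v⟩ := h
      exact ⟨_, fun _ => ⟨d, u, v, rfl⟩⟩
    · exact ⟨none, fun h' => (h h').elim⟩
  choose w hw using ex
  let N := M.filter fun d => G d ∧ w s(ψ d.1, ψ d.2) = some s(d.1, d.2)
  have hN : ∀ d ∈ N, G d ∧ w s(ψ d.1, ψ d.2) = some s(d.1, d.2) := fun d hd => by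
    simpa using (mem_filter.1 hd).2
  have sN : N <+ M := filter_sublist
  have kerE : ∀ x ∈ N, ∀ y ∈ N, s(x.1, x.2) = s(y.1, y.2) ↔ s(ψ x.1, ψ x.2) = s(ψ y.1, ψ y.2) := by
    intro x hx y hy
    constructor
    · intro h
      rcases Sym2.eq_iff.1 h with ⟨u, v⟩ | ⟨u, v⟩
      · rw [u, v]
      · rw [u, v, Sym2.eq_swap]
    · intro h
      exact Option.some.inj ((hN x hx).2.symm.trans (h ▸ (hN y hy).2))
  refine ⟨N.map fun d => (ψ d.1, ψ d.2), ?_, fun y z r => ?_, NC.map ?_, NC.map ?_⟩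
  · refine ((p.nodup_iff.2 nd).sublist sN).map_on fun x hx y hy h => ?_
    obtain ⟨u, v⟩ := Prod.mk.inj h
    rcases Sym2.eq_iff.1 ((kerE x hx y hy).2 (by rw [u, v])) with ⟨a, b⟩ | ⟨a, b⟩
    · exact Prod.ext a b
    · exact ((hN x hx).1.2.2.2.2 (by rw [u, ← b])).elim
  · obtain ⟨ne, a, b, s, ha, hb⟩ := wit y z r
    have ma : (a, b) ∈ M ∧ (b, a) ∈ M := by
      rcases s with s | s
      · exact ⟨p.symm.subset (hR _ _ s).1, p.symm.subset (hR _ _ s).2⟩
      · exact ⟨p.symm.subset (hR _ _ s).2, p.symm.subset (hR _ _ s).1⟩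
    have pa : ψ a = y := by simp [ψ, ha]
    have pb : ψ b = z := by simp [ψ, hb]
    obtain ⟨d, u, v, t⟩ := hw s(y, z) ⟨(a, b), ⟨ma.1, ma.2, by simpa [pa], by simpa [pb],
      by simpa [pa, pb]⟩, by rw [pa, pb]⟩
    have n1 : d ∈ N := mem_filter.2 ⟨u.1, by simpa using ⟨u, v ▸ t⟩⟩
    have n2 : d.swap ∈ N := mem_filter.2 ⟨u.2.1, by
      have u' : G d.swap := ⟨u.2.1, u.1, u.2.2.2.1, u.2.2.1, u.2.2.2.2.symm⟩
      have : w s(ψ d.2, ψ d.1) = some s(d.2, d.1) := by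
        rw [Sym2.eq_swap, v, t, Sym2.eq_swap]
      simpa using ⟨u', this⟩⟩
    rcases Sym2.eq_iff.1 v with ⟨c1, c2⟩ | ⟨c1, c2⟩
    · exact ⟨mem_map.2 ⟨d, n1, Prod.ext c1 c2⟩, mem_map.2 ⟨_, n2, Prod.ext c2 c1⟩⟩
    · exact ⟨mem_map.2 ⟨_, n2, Prod.ext c2 c1⟩, mem_map.2 ⟨d, n1, Prod.ext c1 c2⟩⟩
  · refine (g1.sub sN).congr fun x hx y hy => ⟨fun h => ?_, fun h => ?_⟩
    · simp only [ψ, hk _ _ h]
    · have h' : ψ x.1 = ψ y.1 := h
      exact ker _ _ _ (hN x hx).1.2.2.1 (h' ▸ (hN y hy).1.2.2.1)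
  · exact (g2.sub sN).congr kerE

theorem grid : GridSt := by
  intro N
  let k1 : (ℤ × ℤ) × ℤ × ℤ → ℤ := fun d => 2 * d.1.2 + if d.2.2 = d.1.2 + 1 then 1 else 0
  let k2 : (ℤ × ℤ) × ℤ × ℤ → ℤ := fun d =>
    if d.2.2 = d.1.2 + 1 then -d.1.1 else 3 * d.1.1 + 1 + (d.2.1 - d.1.1)
  let le : (ℤ × ℤ) × ℤ × ℤ → (ℤ × ℤ) × ℤ × ℤ → Bool := fun a b =>
    decide (k1 a < k1 b ∨ k1 a = k1 b ∧ k2 a ≤ k2 b)
  let B : Finset (ℤ × ℤ) := Finset.Icc (-N : ℤ) N ×ˢ Finset.Icc (-N : ℤ) N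
  let A : (ℤ × ℤ) × ℤ × ℤ → Prop := fun d =>
    (d.2.1 = d.1.1 + 1 ∧ d.2.2 = d.1.2) ∨ (d.2.1 = d.1.1 ∧ d.2.2 = d.1.2 + 1) ∨
      (d.2.1 + 1 = d.1.1 ∧ d.2.2 = d.1.2) ∨ (d.2.1 = d.1.1 ∧ d.2.2 + 1 = d.1.2)
  let S := (B ×ˢ B).filter A
  let L := S.toList.mergeSort le
  have p : L ~ S.toList := mergeSort_perm _ _
  have nd : L.Nodup := p.nodup_iff.2 S.nodup_toList
  have so : L.Pairwise fun a b => le a b = true :=
    pairwise_mergeSort (fun a b c => by simp only [le, decide_eq_true_eq]; omega)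
      (fun a b => by simp only [le, Bool.or_eq_true, decide_eq_true_eq]; omega) _
  have key : ∀ a b c d, [a, b, c, d] <+ L → (A a ∧ A b ∧ A c ∧ A d) ∧ (a ≠ c ∧ b ≠ d) ∧
      le a b = true ∧ le b c = true ∧ le c d = true := by
    intro a b c d h
    have m : ∀ x ∈ [a, b, c, d], A x := fun x hx =>
      (Finset.mem_filter.1 (Finset.mem_toList.1 (p.subset (h.subset hx)))).2
    have n := nd.sublist h
    have s := so.sublist h
    simp only [nodup_cons, mem_cons, not_or, pairwise_cons, forall_eq_or_imp] at n s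
    exact ⟨⟨m a (by simp), m b (by simp), m c (by simp), m d (by simp)⟩,
      ⟨n.1.2.1, n.2.1.2.1⟩, s.1.1, s.2.1.1, s.2.2.1.1⟩
  refine ⟨L, nd, fun a b ⟨a1, a2, b1, b2, h⟩ => ?_, fun a b c d h h1 h2 => ?_,
    fun a b c d h h1 h2 => ?_⟩
  · have ha : a ∈ B := Finset.mem_product.2
      ⟨Finset.mem_Icc.2 (abs_le.1 a1), Finset.mem_Icc.2 (abs_le.1 a2)⟩
    have hb : b ∈ B := Finset.mem_product.2
      ⟨Finset.mem_Icc.2 (abs_le.1 b1), Finset.mem_Icc.2 (abs_le.1 b2)⟩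
    constructor <;> refine p.symm.subset (Finset.mem_toList.2 (Finset.mem_filter.2
      ⟨Finset.mem_product.2 ⟨by assumption, by assumption⟩, ?_⟩)) <;>
      rcases h with rfl | rfl <;> simp [A]
  · obtain ⟨⟨a1, a2, a3, a4⟩, -, l1, l2, l3⟩ := key a b c d h
    obtain ⟨⟨ax, ay⟩, ⟨az, aw⟩⟩ := a
    obtain ⟨⟨bx, by'⟩, ⟨bz, bw⟩⟩ := b
    obtain ⟨⟨cx, cy⟩, ⟨cz, cw⟩⟩ := c
    obtain ⟨⟨dx, dy⟩, ⟨dz, dw⟩⟩ := d
    simp only [A, le, k1, k2, decide_eq_true_eq, Prod.mk.injEq] at *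
    split_ifs at l1 l2 l3 <;> omega
  · obtain ⟨⟨a1, a2, -, -⟩, ⟨n1, n2⟩, l1, l2, l3⟩ := key a b c d h
    obtain rfl : c = a.swap := by
      rcases Sym2.eq_iff.1 h1 with ⟨u, v⟩ | ⟨u, v⟩
      · exact (n1 (Prod.ext u v)).elim
      · exact Prod.ext v.symm u.symm
    obtain rfl : d = b.swap := by
      rcases Sym2.eq_iff.1 h2 with ⟨u, v⟩ | ⟨u, v⟩
      · exact (n2 (Prod.ext u v)).elim
      · exact Prod.ext v.symm u.symm
    obtain ⟨⟨ax, ay⟩, ⟨az, aw⟩⟩ := a
    obtain ⟨⟨bx, by'⟩, ⟨bz, bw⟩⟩ := b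
    simp only [A, le, k1, k2, decide_eq_true_eq, Prod.mk.injEq, Sym2.eq_iff, Prod.swap] at a1 a2 l1 l2 l3 ⊢
    clear n1 n2 h1 h2 h key so nd p
    rcases a1 with ⟨u, v⟩ | ⟨u, v⟩ | ⟨u, v⟩ | ⟨u, v⟩ <;>
      rcases a2 with ⟨x, y⟩ | ⟨x, y⟩ | ⟨x, y⟩ | ⟨x, y⟩ <;> split_ifs at l1 l2 l3 <;> omega

end Pool.Agent.Lib.MP_50b5c6_lc.Np
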