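import Pool.Agent.Lib.MP_50b5c6_lc.NpSpec

set_option autoImplicit false

namespace Pool.Agent.Lib.MP_50b5c6_lc.Np

open Real Set
open scoped ContDiff

/-- half circle from `a` to `b`, above the line for `e = 1`, below for `e = -1` -/
noncomputable def hc (a b e : ℝ) (t : ℝ) : ℂ :=
  (((a + b) / 2 - (b - a) / 2 * cos (π * t) : ℝ) : ℂ) +
    ((e * ((b - a) / 2) * sin (π * t) : ℝ) : ℂ) * Complex.I

lemma hc_re (a b e t : ℝ) : (hc a b e t).re = (a + b) / 2 - (b - a) / 2 * cos (π * t) := by
  simp only [hc, Complex.add_re, Complex.ofReal_re, Complex.mul_re, Complex.I_re, Complex.I_im,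
    Complex.ofReal_im]
  ring

lemma hc_im (a b e t : ℝ) : (hc a b e t).im = e * ((b - a) / 2) * sin (π * t) := by
  simp only [hc, Complex.add_im, Complex.ofReal_re, Complex.mul_im, Complex.I_re, Complex.I_im,
    Complex.ofReal_im]
  ring

lemma hc_smooth (a b e : ℝ) : ContDiff ℝ ∞ (hc a b e) := by
  unfold hc
  refine ContDiff.add ?_ (ContDiff.mul ?_ contDiff_const)
  · have h : ContDiff ℝ ∞ fun t : ℝ => (a + b) / 2 - (b - a) / 2 * cos (π * t) := by fun_prop
    exact Complex.ofRealCLM.contDiff.comp h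
  · have h : ContDiff ℝ ∞ fun t : ℝ => e * ((b - a) / 2) * sin (π * t) := by fun_prop
    exact Complex.ofRealCLM.contDiff.comp h

lemma hc_deriv (a b e t : ℝ) : deriv (hc a b e) t =
    (((b - a) / 2 * (π * sin (π * t)) : ℝ) : ℂ) +
      ((e * ((b - a) / 2) * (π * cos (π * t)) : ℝ) : ℂ) * Complex.I := by
  have h0 : HasDerivAt (fun t : ℝ => π * t) π t := by
    simpa using (hasDerivAt_id t).const_mul π
  have h1 : HasDerivAt (fun t : ℝ => (a + b) / 2 - (b - a) / 2 * cos (π * t))
      ((b - a) / 2 * (π * sin (π * t))) t := by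
    exact ((h0.cos.const_mul ((b - a) / 2)).const_sub ((a + b) / 2)).congr_deriv (by ring)
  have h2 : HasDerivAt (fun t : ℝ => e * ((b - a) / 2) * sin (π * t))
      (e * ((b - a) / 2) * (π * cos (π * t))) t := by
    exact (h0.sin.const_mul (e * ((b - a) / 2))).congr_deriv (by ring)
  exact (h1.ofReal_comp.add (h2.ofReal_comp.mul_const Complex.I)).deriv

lemma hc_zero (a b e : ℝ) : hc a b e 0 = a := by
  apply Complex.ext
  · rw [hc_re]; simp; ring
  · rw [hc_im]; simp

lemma hc_one (a b e : ℝ) : hc a b e 1 = b := by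
  apply Complex.ext
  · rw [hc_re]; simp; ring
  · rw [hc_im]; simp

lemma hc_inj {a b : ℝ} (h : a < b) (e : ℝ) : InjOn (hc a b e) (Icc 0 1) := by
  intro s hs t ht hst
  have h1 := congrArg Complex.re hst
  rw [hc_re, hc_re] at h1
  have h2 : cos (π * s) = cos (π * t) := by
    have : (b - a) / 2 * (cos (π * s) - cos (π * t)) = 0 := by linarith
    rcases mul_eq_zero.mp this with h | h <;> linarith
  have m : ∀ u ∈ Icc (0 : ℝ) 1, π * u ∈ Icc 0 π := fun u hu =>
    ⟨mul_nonneg pi_pos.le hu.1, by nlinarith [pi_pos, hu.2]⟩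
  exact mul_left_cancel₀ pi_pos.ne' (injOn_cos (m s hs) (m t ht) h2)

lemma hc_deriv_ne {a b e : ℝ} (h : a < b) (he : e ≠ 0) (t : ℝ) : deriv (hc a b e) t ≠ 0 := by
  rw [hc_deriv]
  intro h0
  have h1 := congrArg Complex.re h0
  have h2 := congrArg Complex.im h0
  simp only [Complex.add_re, Complex.add_im, Complex.ofReal_re, Complex.mul_re, Complex.mul_im,
    Complex.I_re, Complex.I_im, Complex.ofReal_im, Complex.zero_re, Complex.zero_im, mul_zero,
    mul_one, sub_zero, add_zero, zero_add] at h1 h2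
  have hr : (b - a) / 2 ≠ 0 := by linarith [half_pos (sub_pos.mpr h)] |> ne_of_gt
  have s0 : sin (π * t) = 0 := by
    simpa [hr, pi_pos.ne'] using (mul_eq_zero.mp h1).resolve_left hr
  have c0 : cos (π * t) = 0 := by
    simpa [pi_pos.ne'] using (mul_eq_zero.mp h2).resolve_left (mul_ne_zero he hr)
  have := sin_sq_add_cos_sq (π * t)
  rw [s0, c0] at this
  norm_num at this

lemma hc_circ (a b t : ℝ) {e : ℝ} (he : e * e = 1) :
    ((hc a b e t).re - a) * (b - (hc a b e t).re) = (hc a b e t).im ^ 2 := by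
  rw [hc_re, hc_im]
  have := sin_sq_add_cos_sq (π * t)
  have h2 : (e * ((b - a) / 2) * sin (π * t)) ^ 2 =
      (e * e) * ((b - a) / 2) ^ 2 * sin (π * t) ^ 2 := by ring
  rw [h2, he]
  linear_combination (-((b - a) / 2) ^ 2) * this

/-- sign of a half circle -/
def sg (u : Bool) : ℝ := if u then 1 else -1

lemma sg_sq (u : Bool) : sg u * sg u = 1 := by cases u <;> simp [sg]

lemma sg_ne (u : Bool) : sg u ≠ 0 := by cases u <;> simp [sg]

lemma sin_pos' {t : ℝ} (ht : t ∈ Ioo (0 : ℝ) 1) : 0 < sin (π * t) :=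
  sin_pos_of_pos_of_lt_pi (mul_pos pi_pos ht.1) (by nlinarith [pi_pos, ht.2])

lemma sin_nn {t : ℝ} (ht : t ∈ Icc (0 : ℝ) 1) : 0 ≤ sin (π * t) :=
  sin_nonneg_of_nonneg_of_le_pi (mul_nonneg pi_pos.le ht.1) (by nlinarith [pi_pos, ht.2])

lemma between {a b X : ℝ} (h : a < b) (hp : 0 < (X - a) * (b - X)) : a < X ∧ X < b := by
  rcases pos_and_pos_or_neg_and_neg_of_mul_pos hp with h1 | h1
  · constructor <;> linarith [h1.1, h1.2]
  · linarith [h1.1, h1.2]

lemma ray_iff {p q : ℝ} (hp : 0 < p) (hq : 0 < q) (u v : Bool) :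
    SameRay ℝ (-(((sg u * p : ℝ) : ℂ) * Complex.I)) (((sg v * q : ℝ) : ℂ) * Complex.I) ↔
      u ≠ v := by
  have e1 : -(((sg u * p : ℝ) : ℂ) * Complex.I) = (-(sg u * p)) • Complex.I := by
    simp
  have e2 : ((sg v * q : ℝ) : ℂ) * Complex.I = (sg v * q) • Complex.I := by simp
  rw [e1, e2]
  constructor
  · intro h huv
    subst huv
    rcases h with h | h | ⟨r, s, hr, hs, h⟩
    · have := congrArg Complex.im h
      simp [sg_ne, hp.ne'] at this
    · have := congrArg Complex.im h
      simp [sg_ne, hq.ne'] at this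
    · have := congrArg Complex.im h
      simp only [Complex.smul_im, Complex.I_im, smul_eq_mul, mul_one] at this
      have h3 : sg u * (r * p + s * q) = 0 := by linarith
      rcases mul_eq_zero.mp h3 with h4 | h4
      · exact sg_ne u h4
      · nlinarith [mul_pos hr hp, mul_pos hs hq]
  · intro h
    refine Or.inr (Or.inr ⟨q, p, hq, hp, ?_⟩)
    rw [smul_smul, smul_smul]
    congr 1
    cases u <;> cases v <;> simp [sg] at h ⊢ <;> ring

theorem semi : SemiSt := by
  intro V J A _ _ G x ends up ⟨hx, hlt, hnc⟩ hG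
  let γ : A → ℝ → ℂ := fun a => hc (x (ends (a, false))) (x (ends (a, true))) (sg (up a))
  let ρ : A → ℝ := fun a => (x (ends (a, true)) - x (ends (a, false))) / 2 * π
  have hρ : ∀ a, 0 < ρ a := fun a => mul_pos (half_pos (sub_pos.mpr (hlt a))) pi_pos
  have hv : ∀ d, vel γ d = ((sg (up d.1) * ρ d.1 : ℝ) : ℂ) * Complex.I := by
    rintro ⟨a, s⟩
    cases s <;> simp [vel, γ, ρ, hc_deriv] <;> ring
  have him : ∀ a, ∀ t ∈ Ioo (0 : ℝ) 1, 0 < sg (up a) * (γ a t).im := by
    intro a t ht
    simp only [γ, hc_im]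
    have := mul_pos (half_pos (sub_pos.mpr (hlt a))) (sin_pos' ht)
    have h2 := sg_sq (up a)
    nlinarith
  refine ⟨J, A, inferInstance, inferInstance, fun n => (x n : ℂ), γ, ends, ?_, ?_, ?_, ?_, ?_⟩
  · intro n n' h
    exact hx (Complex.ofReal_injective h)
  · intro a
    exact ⟨hc_smooth _ _ _, hc_inj (hlt a) _, fun t _ => hc_deriv_ne (hlt a) (sg_ne _) t,
      hc_zero _ _ _, hc_one _ _ _⟩
  · intro a t ht
    have h0 := him a t ht
    refine ⟨fun n h => ?_, fun b hb s hs h => ?_⟩
    · rw [h] at h0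
      simp at h0
    · have h1 : 0 ≤ sg (up b) * (γ b s).im := by
        simp only [γ, hc_im]
        have := mul_nonneg (half_pos (sub_pos.mpr (hlt b))).le (sin_nn hs)
        have h2 := sg_sq (up b)
        nlinarith
      rw [← h] at h1
      have hu : up a = up b := by
        revert h0 h1
        cases up a <;> cases up b <;> simp [sg]
      have hy : 0 < (γ a t).im ^ 2 := by
        have : (γ a t).im ≠ 0 := fun h => by simp [h] at h0
        positivity
      have ca := hc_circ (x (ends (a, false))) (x (ends (a, true))) t (sg_sq (up a))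
      have cb := hc_circ (x (ends (b, false))) (x (ends (b, true))) s (sg_sq (up b))
      change ((γ a t).re - _) * (_ - (γ a t).re) = (γ a t).im ^ 2 at ca
      change ((γ b s).re - _) * (_ - (γ b s).re) = (γ b s).im ^ 2 at cb
      rw [← h] at cb
      obtain ⟨a1, a2⟩ := between (hlt a) (ca ▸ hy)
      obtain ⟨b1, b2⟩ := between (hlt b) (cb ▸ hy)
      obtain ⟨n1, n2⟩ := hnc a b hb.symm hu
      obtain ⟨-, n3⟩ := hnc b a hb hu.symm
      rcases lt_trichotomy (x (ends (a, false))) (x (ends (b, false))) with l | l | l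
      · have : x (ends (b, true)) ≤ x (ends (a, true)) :=
          not_lt.mp fun k => n2 ⟨l, by linarith, k⟩
        nlinarith
      · refine n1 ⟨hx l, hx ?_⟩
        rw [← l] at cb
        have : ((γ a t).re - x (ends (a, false))) * (x (ends (a, true)) - x (ends (b, true))) = 0 := by
          linarith
        rcases mul_eq_zero.mp this with k | k <;> linarith
      · have : x (ends (a, true)) ≤ x (ends (b, true)) :=
          not_lt.mp fun k => n3 ⟨l, by linarith, k⟩
        nlinarith
  · intro j d d' _ _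
    refine ⟨sg (up d'.1) * ρ d'.1 / (sg (up d.1) * ρ d.1), ?_⟩
    have : sg (up d.1) * ρ d.1 ≠ 0 := mul_ne_zero (sg_ne _) (hρ _).ne'
    rw [hv, hv, Complex.real_smul, ← mul_assoc _ _ Complex.I, ← Complex.ofReal_mul,
      div_mul_cancel₀ _ this]
  · intro u v huv
    rw [hG u v huv]
    unfold SP
    refine exists_congr fun l => and_congr_right fun _ => and_congr_right fun _ =>
      and_congr (List.IsChain.iff fun d d' => and_congr_right fun _ => ?_) (by simp)
    rw [hv, hv, ray_iff (hρ _) (hρ _)]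

end Pool.Agent.Lib.MP_50b5c6_lc.Np
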