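import Mathlib

set_option autoImplicit false

namespace Pool.Agent.Lib.MP_50b5c6_lc.Pf

open Finset

variable {V : Type*} [Fintype V] [DecidableEq V] {F : Type*} [Field F]

/-- involutions whose set of moved points is `S` -/
def Inv (S : Finset V) : Finset (Equiv.Perm V) :=
  univ.filter fun σ => (∀ v, σ (σ v) = v) ∧ ∀ v, σ v ≠ v ↔ v ∈ S

/-- generating function of the perfect matchings of `S`; an edge has weight `r u v * r v u` -/
def pf (r : V → V → F) (S : Finset V) : F := ∑ σ ∈ Inv S, ∏ v ∈ S, r v (σ v)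

lemma mem_Inv {S : Finset V} {σ : Equiv.Perm V} :
    σ ∈ Inv S ↔ (∀ v, σ (σ v) = v) ∧ ∀ v, σ v ≠ v ↔ v ∈ S := by simp [Inv]

lemma Inv.mem {S : Finset V} {σ : Equiv.Perm V} (h : σ ∈ Inv S) {v : V} (hv : v ∈ S) :
    σ v ∈ S := by
  obtain ⟨h1, h2⟩ := mem_Inv.1 h
  refine (h2 _).1 ?_
  rw [h1]
  exact ((h2 v).2 hv).symm

lemma pf_congr {r r' : V → V → F} {S : Finset V} (h : ∀ u ∈ S, ∀ v ∈ S, r u v = r' u v) :
    pf r S = pf r' S :=
  sum_congr rfl fun _ hσ => prod_congr rfl fun v hv => h v hv _ (Inv.mem hσ hv)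

lemma up_mem {S : Finset V} {x y : V} (hx : x ∈ S) (hy : y ∈ S) (hxy : y ≠ x)
    {τ : Equiv.Perm V} (h : τ ∈ Inv ((S.erase x).erase y)) :
    τ * Equiv.swap x y ∈ Inv S ∧ (τ * Equiv.swap x y) x = y ∧ (τ * Equiv.swap x y) y = x ∧
      ∀ v, v ≠ x → v ≠ y → (τ * Equiv.swap x y) v = τ v := by
  obtain ⟨h1, h2⟩ := mem_Inv.1 h
  have tx : τ x = x := by
    by_contra hc
    simpa using (h2 x).1 hc
  have ty : τ y = y := by
    by_contra hc
    simpa using (h2 y).1 hc
  have e1 : (τ * Equiv.swap x y) x = y := by simp [ty]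
  have e2 : (τ * Equiv.swap x y) y = x := by simp [tx]
  have e3 : ∀ v, v ≠ x → v ≠ y → (τ * Equiv.swap x y) v = τ v := fun v a b => by
    simp [Equiv.swap_apply_of_ne_of_ne a b]
  refine ⟨mem_Inv.2 ⟨fun v => ?_, fun v => ?_⟩, e1, e2, e3⟩
  · by_cases a : v = x
    · rw [a, e1, e2]
    by_cases b : v = y
    · rw [b, e2, e1]
    have a' : τ v ≠ x := fun hc => a (by rw [← h1 v, hc, tx])
    have b' : τ v ≠ y := fun hc => b (by rw [← h1 v, hc, ty])
    rw [e3 v a b, e3 _ a' b', h1]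
  · by_cases a : v = x
    · rw [a, e1]; simp [hx, hxy]
    by_cases b : v = y
    · rw [b, e2]; simp [hy, hxy.symm]
    rw [e3 v a b, h2]; simp [a, b]

lemma down_mem {S : Finset V} {x y : V}
    {σ : Equiv.Perm V} (h : σ ∈ Inv S) (hs : σ x = y) :
    σ * Equiv.swap x y ∈ Inv ((S.erase x).erase y) := by
  obtain ⟨h1, h2⟩ := mem_Inv.1 h
  have sy : σ y = x := by rw [← hs, h1]
  have e1 : (σ * Equiv.swap x y) x = x := by simp [sy]
  have e2 : (σ * Equiv.swap x y) y = y := by simp [hs]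
  have e3 : ∀ v, v ≠ x → v ≠ y → (σ * Equiv.swap x y) v = σ v := fun v a b => by
    simp [Equiv.swap_apply_of_ne_of_ne a b]
  refine mem_Inv.2 ⟨fun v => ?_, fun v => ?_⟩
  · by_cases a : v = x
    · rw [a, e1, e1]
    by_cases b : v = y
    · rw [b, e2, e2]
    have a' : σ v ≠ x := fun hc => b (by rw [← h1 v, hc, hs])
    have b' : σ v ≠ y := fun hc => a (by rw [← h1 v, hc, sy])
    rw [e3 v a b, e3 _ a' b', h1]
  · by_cases a : v = x
    · rw [a, e1]; simp
    by_cases b : v = y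
    · rw [b, e2]; simp
    rw [e3 v a b, h2]; simp [a, b]

/-- expansion at a vertex -/
lemma pf_expand (r : V → V → F) {S : Finset V} {x : V} (hx : x ∈ S) :
    pf r S = ∑ y ∈ S.erase x, r x y * r y x * pf r ((S.erase x).erase y) := by
  unfold pf
  rw [← sum_fiberwise_of_maps_to (s := Inv S) (t := S.erase x) (g := fun σ => σ x)
    (fun σ hσ => mem_erase.2 ⟨((mem_Inv.1 hσ).2 x).2 hx, Inv.mem hσ hx⟩)]
  refine sum_congr rfl fun y hy => ?_
  obtain ⟨hyx, hyS⟩ := mem_erase.1 hy
  rw [mul_sum]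
  symm
  refine sum_bij' (fun τ _ => τ * Equiv.swap x y) (fun σ _ => σ * Equiv.swap x y) ?_ ?_ ?_ ?_ ?_
  · intro τ hτ
    obtain ⟨a, b, -⟩ := up_mem hx hyS hyx hτ
    exact mem_filter.2 ⟨a, b⟩
  · intro σ hσ
    exact down_mem (mem_filter.1 hσ).1 (mem_filter.1 hσ).2
  · intro τ _; simp [mul_assoc]
  · intro σ _; simp [mul_assoc]
  · intro τ hτ
    obtain ⟨-, b, c, d⟩ := up_mem hx hyS hyx hτ
    rw [← mul_prod_erase S _ hx, ← mul_prod_erase (S.erase x) _ hy, b, c, mul_assoc]
    congr 2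
    refine prod_congr rfl fun v hv => ?_
    rw [d v (mem_erase.1 (mem_erase.1 hv).2).1 (mem_erase.1 hv).1]

/-- the inverse matrix -/
noncomputable def NN (r : V → V → F) (S : Finset V) (u v : V) : F :=
  if u ∈ S ∧ v ∈ S ∧ u ≠ v then pf r ((S.erase u).erase v) / pf r S else 0

lemma NN_symm (r : V → V → F) (S : Finset V) (u v : V) : NN r S u v = NN r S v u := by
  unfold NN
  rw [erase_right_comm]
  by_cases h : u ∈ S ∧ v ∈ S ∧ u ≠ v
  · rw [if_pos h, if_pos ⟨h.2.1, h.1, h.2.2.symm⟩]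
  · rw [if_neg h, if_neg fun k => h ⟨k.2.1, k.1, k.2.2.symm⟩]

lemma NN_self (r : V → V → F) (S : Finset V) (u : V) : NN r S u u = 0 := by simp [NN]

lemma NN_out (r : V → V → F) {S : Finset V} {u : V} (h : u ∉ S) (v : V) : NN r S u v = 0 := by
  simp [NN, h]

omit [Fintype V] in
lemma sum_sym_zero (h2 : (2 : F) = 0) (A : Finset V) (g : V → V → F)
    (hg : ∀ y z, g y z = g z y) : ∑ y ∈ A, ∑ z ∈ A.erase y, g y z = 0 := by
  induction A using Finset.induction_on with
  | empty => simp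
  | insert a A ha ih =>
    rw [sum_insert ha, erase_insert ha]
    have : ∀ y ∈ A, ∑ z ∈ (insert a A).erase y, g y z = g a y + ∑ z ∈ A.erase y, g y z := by
      intro y hy
      rw [erase_insert_of_ne (fun e : a = y => ha (e ▸ hy)), sum_insert (by simp [ha]), hg y a]
    rw [sum_congr rfl this, sum_add_distrib, ih]
    linear_combination (∑ z ∈ A, g a z) * h2

/-- the product of the weight matrix with a column -/
noncomputable def TN (r : V → V → F) (S : Finset V) (x v : V) : F :=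
  ∑ y, r x y * r y x * NN r S y v

lemma TN_eq (h2 : (2 : F) = 0) {r : V → V → F} (h0 : ∀ v, r v v = 0) {S : Finset V}
    (hS : pf r S ≠ 0) {x v : V} (hx : x ∈ S) (hv : v ∈ S) :
    TN r S x v = if x = v then 1 else 0 := by
  have e : TN r S x v = (∑ y ∈ S.erase v,
      r x y * r y x * pf r ((S.erase v).erase y)) / pf r S := by
    unfold TN
    rw [sum_div, ← sum_subset (subset_univ (S.erase v))]
    · refine sum_congr rfl fun y hy => ?_
      rw [NN_symm, NN, if_pos ⟨hv, (mem_erase.1 hy).2, (mem_erase.1 hy).1.symm⟩, mul_div_assoc]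
    · intro y _ hy
      rw [NN, if_neg, mul_zero]
      exact fun k => hy (mem_erase.2 ⟨k.2.2, k.1⟩)
  rw [e]
  split_ifs with h
  · subst h
    rw [← pf_expand r hx, div_self hS]
  · have hx' : x ∈ S.erase v := mem_erase.2 ⟨h, hx⟩
    rw [← add_sum_erase _ _ hx', h0, zero_mul, zero_mul, zero_add, div_eq_zero_iff]
    left
    rw [← sum_sym_zero h2 ((S.erase v).erase x) (fun y z => r x y * r y x * (r x z * r z x *
      pf r ((((S.erase v).erase x).erase y).erase z)))
      (fun y z => by rw [erase_right_comm (a := y)]; ring)]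
    refine sum_congr rfl fun y hy => ?_
    rw [pf_expand r (x := x) (mem_erase.2 ⟨(mem_erase.1 hy).1.symm, hx'⟩), mul_sum,
      erase_right_comm (a := y) (b := x)]

omit [DecidableEq V] in
/-- computing a bilinear expression in two ways -/
lemma two_ways (t : V → V → F) (ht : ∀ u v, t u v = t v u) (n n' : V → F) :
    ∑ w, n' w * ∑ y, t w y * n y = ∑ w, (∑ y, t w y * n' y) * n w := by
  simp only [mul_sum, sum_mul]
  rw [sum_comm]
  exact sum_congr rfl fun w _ => sum_congr rfl fun y _ => by rw [ht]; ring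

lemma low_rank (h2 : (2 : F) = 0) {r : V → V → F} (h0 : ∀ v, r v v = 0) {W A B : Finset V}
    (dA : Disjoint W A) (dB : Disjoint W B) (hA : pf r (W ∪ A) ≠ 0) (hB : pf r (W ∪ B) ≠ 0)
    {u v : V} (hu : u ∈ W) (hv : v ∈ W) :
    NN r (W ∪ B) u v + ∑ s ∈ B, NN r (W ∪ B) s v * TN r (W ∪ A) s u =
      NN r (W ∪ A) u v + ∑ s ∈ A, TN r (W ∪ B) s v * NN r (W ∪ A) s u := by
  have key := two_ways (fun a b => r a b * r b a) (fun a b => mul_comm _ _)
    (fun w => NN r (W ∪ A) w u) (fun w => NN r (W ∪ B) w v)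
  change ∑ w, NN r (W ∪ B) w v * TN r (W ∪ A) w u =
    ∑ w, TN r (W ∪ B) w v * NN r (W ∪ A) w u at key
  rw [← sum_subset (subset_univ (W ∪ B)) (fun w _ hw => by rw [NN_out r hw, zero_mul]),
    ← sum_subset (subset_univ (W ∪ A)) (fun w _ hw => by rw [NN_out r hw, mul_zero]),
    sum_union dB, sum_union dA] at key
  have e1 : ∑ w ∈ W, NN r (W ∪ B) w v * TN r (W ∪ A) w u = NN r (W ∪ B) u v := by
    rw [sum_congr rfl (fun w hw => by
      rw [TN_eq h2 h0 hA (mem_union_left _ hw) (mem_union_left _ hu)])]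
    simp [hu]
  have e2 : ∑ w ∈ W, TN r (W ∪ B) w v * NN r (W ∪ A) w u = NN r (W ∪ A) u v := by
    rw [sum_congr rfl (fun w hw => by
      rw [TN_eq h2 h0 hB (mem_union_left _ hw) (mem_union_left _ hv)])]
    simp [hv, NN_symm r _ v u]
  rwa [e1, e2] at key

/-- change the weight of one edge -/
def upd (r : V → V → F) (x y : V) (s : F) (u v : V) : F :=
  if (u = x ∧ v = y) ∨ (u = y ∧ v = x) then s else r u v

lemma resolvent (h2 : (2 : F) = 0) {r : V → V → F} (h0 : ∀ v, r v v = 0)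
    (hs : ∀ u v, r u v = r v u) {S : Finset V} {x y : V} (hxy : x ≠ y)
    (hS : pf r S ≠ 0) (hS' : pf (upd r x y (r x y + 1)) S ≠ 0) {u v : V} (hu : u ∈ S)
    (hv : v ∈ S) :
    NN r S u v = NN (upd r x y (r x y + 1)) S u v + NN r S x u * NN (upd r x y (r x y + 1)) S y v
      + NN r S y u * NN (upd r x y (r x y + 1)) S x v := by
  set r' := upd r x y (r x y + 1) with hr'
  have h0' : ∀ v, r' v v = 0 := fun v => by
    rw [hr', upd, if_neg, h0]
    rintro (⟨a, b⟩ | ⟨a, b⟩) <;> exact hxy (by rw [← a, ← b])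
  have key := two_ways (fun a b => r a b * r b a) (fun a b => mul_comm _ _)
    (fun w => NN r S w u) (fun w => NN r' S w v)
  change ∑ w, NN r' S w v * TN r S w u = _ at key
  have e1 : ∑ w, NN r' S w v * TN r S w u = NN r' S u v := by
    rw [← sum_subset (subset_univ S) (fun w _ hw => by rw [NN_out r' hw, zero_mul]),
      sum_congr rfl (fun w hw => by rw [TN_eq h2 h0 hS hw hu])]
    simp [hu]
  have e2 : ∑ w, TN r' S w v * NN r S w u = NN r S u v := by
    rw [← sum_subset (subset_univ S) (fun w _ hw => by rw [NN_out r hw, mul_zero]),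
      sum_congr rfl (fun w hw => by rw [TN_eq h2 h0' hS' hw hv])]
    simp [hv, NN_symm r _ v u]
  have e3 : ∀ w, TN r' S w v = (∑ z, r w z * r z w * NN r' S z v) +
      ((if w = x then NN r' S y v else 0) + if w = y then NN r' S x v else 0) := by
    intro w
    have : ∀ z, r' w z * r' z w = r w z * r z w +
        ((if w = x then (if z = y then 1 else 0) else 0) +
          if w = y then (if z = x then 1 else 0) else 0) := by
      intro z
      simp only [hr', upd]
      by_cases a : w = x <;> by_cases b : z = y <;> by_cases c : w = y <;> by_cases d : z = x <;>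
        simp_all <;> linear_combination (r x y) * h2
    unfold TN
    simp only [this, add_mul, sum_add_distrib, ite_mul, one_mul, zero_mul]
    congr 2 <;> split_ifs <;> simp
  rw [← e2]
  simp only [e3, add_mul, sum_add_distrib, ite_mul, zero_mul, sum_ite_eq', mem_univ, if_true]
  rw [← key, e1]
  ring

end Pool.Agent.Lib.MP_50b5c6_lc.Pf
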