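import Mathlib
import Pool.Agent.Lib.MP_50b5c6_lc.Pf

set_option autoImplicit false

namespace Pool.Agent.Lib.MP_50b5c6_lc.Pf

open Finset

variable {V : Type*} [Fintype V] [DecidableEq V] {F : Type*} [Field F]

/-- `m` is a perfect matching of the subgraph of `H` induced on `S` -/
def IsPM {V : Type*} (H : SimpleGraph V) (S : Finset V) (m : V → V) : Prop :=
  ∀ v ∈ S, m v ∈ S ∧ H.Adj v (m v) ∧ m (m v) = v

lemma pf_forb {H : SimpleGraph V} {r : V → V → F} (hr : ∀ u v, r u v ≠ 0 → H.Adj u v)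
    {S : Finset V} {x y : V} (hx : x ∈ S) (hy : y ∈ S) (ha : H.Adj x y)
    (hno : ∀ m, IsPM H S m → m x ≠ y) : pf r ((S.erase x).erase y) = 0 := by
  refine sum_eq_zero fun τ hτ => ?_
  by_contra hc
  obtain ⟨a, b, c, d⟩ := up_mem hx hy ha.ne' hτ
  refine hno (τ * Equiv.swap x y) (fun v hv => ⟨Inv.mem a hv, ?_, (mem_Inv.1 a).1 v⟩) b
  by_cases e : v = x
  · rw [e, b]; exact ha
  by_cases f : v = y
  · rw [f, c]; exact ha.symm
  rw [d v e f]
  exact hr _ _ (prod_ne_zero_iff.1 hc v (mem_erase.2 ⟨f, mem_erase.2 ⟨e, hv⟩⟩))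

lemma pf_ess {H : SimpleGraph V} {r : V → V → F} (hr : ∀ u v, r u v ≠ 0 → H.Adj u v)
    {S : Finset V} {x z : V} (hx : x ∈ S) (hz : z ∈ S.erase x)
    (he : ∀ m, IsPM H S m → m x = z) :
    pf r S = r x z * r z x * pf r ((S.erase x).erase z) := by
  rw [pf_expand r hx]
  refine sum_eq_single_of_mem z hz fun y hy hyz => ?_
  by_cases h : r x y = 0
  · rw [h, zero_mul, zero_mul]
  · rw [pf_forb hr hx (mem_erase.1 hy).2 (hr _ _ h) fun m hm e => hyz (e.symm.trans (he m hm)),
      mul_zero]

lemma NN_ess {H : SimpleGraph V} {r : V → V → F} (hr : ∀ u v, r u v ≠ 0 → H.Adj u v)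
    {S : Finset V} (hS : pf r S ≠ 0) {x z : V} (hx : x ∈ S) (hz : z ∈ S.erase x)
    (he : ∀ m, IsPM H S m → m x = z) : r x z * r z x * NN r S x z = 1 := by
  rw [NN, if_pos ⟨hx, (mem_erase.1 hz).2, (mem_erase.1 hz).1.symm⟩, ← mul_div_assoc,
    ← pf_ess hr hx hz he, div_self hS]

lemma NN_forb {H : SimpleGraph V} {r : V → V → F} (hr : ∀ u v, r u v ≠ 0 → H.Adj u v)
    {S : Finset V} {x y : V} (ha : H.Adj x y) (hno : ∀ m, IsPM H S m → m x ≠ y) :
    NN r S x y = 0 := by
  unfold NN
  split_ifs with h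
  · rw [pf_forb hr h.1 h.2.1 ha hno, zero_div]
  · rfl

lemma pf_one {H : SimpleGraph V} {S : Finset V} {m : V → V} (hm : IsPM H S m) :
    pf (fun u v => if u ∈ S ∧ m u = v then (1 : F) else 0) S = 1 := by
  have hi : Function.Involutive fun v => if v ∈ S then m v else v := fun v => by
    by_cases h : v ∈ S
    · simp [h, (hm v h).1, (hm v h).2.2]
    · simp [h]
  have h0 : hi.toPerm _ ∈ Inv S := by
    refine mem_Inv.2 ⟨hi, fun v => ?_⟩
    by_cases h : v ∈ S
    · simp [h, (hm v h).2.1.ne']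
    · simp [h]
  unfold pf
  rw [sum_eq_single_of_mem _ h0]
  · exact prod_eq_one fun v hv => by simp [hv]
  · intro σ hσ hne
    obtain ⟨v, hv⟩ : ∃ v, σ v ≠ hi.toPerm _ v := by
      by_contra hc
      push Not at hc
      exact hne (Equiv.ext hc)
    by_cases h : v ∈ S
    · refine prod_eq_zero h (if_neg fun k => hv ?_)
      simp [h, k.2]
    · exact absurd (by simpa [h] using hv) fun k => h (((mem_Inv.1 hσ).2 v).1 k)

lemma pf_upd_out (r : V → V → F) (x y : V) (s : F) {S : Finset V} (hx : x ∉ S) :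
    pf (upd r x y s) S = pf r S :=
  pf_congr fun u hu v hv => if_neg (by
    rintro (⟨a, -⟩ | ⟨-, a⟩)
    · exact hx (a ▸ hu)
    · exact hx (a ▸ hv))

lemma pf_affine (r : V → V → F) {x y : V} (hxy : x ≠ y) (S : Finset V) :
    ∃ α β : F, ∀ s, pf (upd r x y s) S = α + s * s * β := by
  by_cases hx : x ∈ S
  · refine ⟨∑ z ∈ S.erase x, (if z = y then 0 else r x z * r z x) * pf r ((S.erase x).erase z),
      ∑ z ∈ S.erase x, (if z = y then 1 else 0) * pf r ((S.erase x).erase z), fun s => ?_⟩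
    rw [pf_expand _ hx, mul_sum, ← sum_add_distrib]
    refine sum_congr rfl fun z hz => ?_
    rw [pf_upd_out r x y s (by simp)]
    by_cases h : z = y
    · simp [upd, h]
    · simp [upd, h, hxy, (mem_erase.1 hz).1]
  · exact ⟨pf r S, 0, fun s => by rw [pf_upd_out r x y s hx]; simp⟩

omit [Fintype V] [Field F] in
lemma upd_self {r : V → V → F} (hs : ∀ u v, r u v = r v u) (x y : V) : upd r x y (r x y) = r := by
  funext u v
  unfold upd
  split_ifs with h
  · rcases h with ⟨a, b⟩ | ⟨a, b⟩
    · rw [a, b]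
    · rw [a, b, hs]
  · rfl

omit [Fintype V] [Field F] in
lemma upd_symm {r : V → V → F} (hs : ∀ u v, r u v = r v u) (x y : V) (s : F) (u v : V) :
    upd r x y s u v = upd r x y s v u := by
  unfold upd
  rw [hs u v]
  exact if_congr (by tauto) rfl rfl

omit [Fintype V] in
lemma upd_sup {K : SimpleGraph V} {r : V → V → F} (hr : ∀ u v, r u v ≠ 0 → K.Adj u v) {x y : V}
    (ha : K.Adj x y) (s : F) (u v : V) (h : upd r x y s u v ≠ 0) : K.Adj u v := by
  unfold upd at h
  split_ifs at h with k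
  · rcases k with ⟨a, b⟩ | ⟨a, b⟩
    · rw [a, b]; exact ha
    · rw [a, b]; exact ha.symm
  · exact hr u v h

lemma ex_weights [Fintype F] (h2 : (2 : F) = 0) (h4 : 3 < Fintype.card F) (K : SimpleGraph V)
    (S : Fin 3 → Finset V) (m : Fin 3 → V → V) (hm : ∀ a, IsPM K (S a) (m a)) :
    ∃ r : V → V → F, (∀ u v, r u v = r v u) ∧ (∀ u v, r u v ≠ 0 → K.Adj u v) ∧
      ∀ a, pf r (S a) ≠ 0 := by
  classical
  have key : ∀ E : Finset (V × V), ∃ p : Fin 3 → V → V → F, (∀ a u v, p a u v = p a v u) ∧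
      (∀ a u v, p a u v ≠ 0 → K.Adj u v) ∧ (∀ a, pf (p a) (S a) ≠ 0) ∧
      ∀ e ∈ E, ∀ a b, p a e.1 e.2 = p b e.1 e.2 := by
    intro E
    induction E using Finset.induction_on with
    | empty =>
      refine ⟨fun a u v => if u ∈ S a ∧ m a u = v then 1 else 0, fun a u v => ?_,
        fun a u v h => ?_, fun a => ?_, by simp⟩
      · refine if_congr ⟨fun k => ?_, fun k => ?_⟩ rfl rfl <;>
          exact ⟨k.2 ▸ (hm a _ k.1).1, k.2 ▸ (hm a _ k.1).2.2⟩
      · have k : u ∈ S a ∧ m a u = v := by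
          by_contra k
          exact h (if_neg k)
        exact k.2 ▸ (hm a u k.1).2.1
      · rw [pf_one (hm a)]; exact one_ne_zero
    | insert e E _ ih =>
      obtain ⟨p, p1, p2, p3, p4⟩ := ih
      by_cases ha : K.Adj e.1 e.2
      · have bad : ∀ a, (univ.filter fun s => pf (upd (p a) e.1 e.2 s) (S a) = 0).card ≤ 1 := by
          intro a
          obtain ⟨α, β, h⟩ := pf_affine (p a) ha.ne (S a)
          refine card_le_one.2 fun s hs s' hs' => ?_
          by_contra hne
          have e1 := (mem_filter.1 hs).2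
          have e2 := (mem_filter.1 hs').2
          rw [h] at e1 e2
          have hb : β = 0 := by
            have : (s - s') * (s - s') * β = 0 := by
              linear_combination e1 - e2 + (s' * s' * β - s * s' * β) * h2
            simpa [sub_eq_zero, hne] using this
          apply p3 a
          rw [← upd_self (p1 a) e.1 e.2, h, hb]
          simpa [hb] using e1
        obtain ⟨s, hs⟩ : ∃ s, s ∉ (univ : Finset (Fin 3)).biUnion
            fun a => univ.filter fun s => pf (upd (p a) e.1 e.2 s) (S a) = 0 := by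
          by_contra hc
          push Not at hc
          have := (card_le_card (fun s _ => hc s : (univ : Finset F) ⊆ _)).trans
            (card_biUnion_le_card_mul _ _ 1 fun a _ => bad a)
          simp at this
          omega
        refine ⟨fun a => upd (p a) e.1 e.2 s, fun a => upd_symm (p1 a) _ _ _,
          fun a => upd_sup (p2 a) ha s, fun a h => hs (by simpa using ⟨a, h⟩), fun f hf a b => ?_⟩
        simp only [upd]
        split_ifs with k
        · rfl
        · rcases mem_insert.1 hf with g | g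
          · exact absurd (Or.inl (by simp [g])) k
          · exact p4 f g a b
      · refine ⟨p, p1, p2, p3, fun f hf a b => ?_⟩
        rcases mem_insert.1 hf with g | g
        · rw [g, not_not.1 (mt (p2 a _ _) ha), not_not.1 (mt (p2 b _ _) ha)]
        · exact p4 f g a b
  obtain ⟨p, p1, p2, p3, p4⟩ := key univ
  refine ⟨p 0, p1 0, p2 0, fun a => ?_⟩
  rw [show p 0 = p a from funext fun u => funext fun v => p4 (u, v) (mem_univ _) 0 a]
  exact p3 a

lemma alg (h2 : (2 : F) = 0) (G D : Fin 3 → Option (Fin 3) → Option (Fin 3) → F)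
    (hσ : ∀ a b i j, G a i j + D b i j = G b i j + D a i j) (d0 : ∀ a i, D a i i = 0)
    (d1 : ∀ a c, D a none (some c) = if a = c then 1 else 0)
    (d2 : ∀ a c, D a (some c) none = if a = c then 1 else 0)
    (s1 : ∀ a j, ∑ c, G a (some c) j = 0) (s2 : ∀ a, ∑ c, G a none (some c) = 0)
    (hE : ∀ a c e, a ≠ c →
      G a none none * G a (some c) (some e) + G a none (some e) * G a (some c) none = 0) :
    False := by
  have own : ∀ a, G a none none * G a (some a) (some a) +
      G a none (some a) * G a (some a) none = 0 := by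
    intro a
    have : ∑ c, (G a none none * G a (some c) (some a) +
        G a none (some a) * G a (some c) none) = 0 := by
      rw [sum_add_distrib, ← mul_sum, ← mul_sum, s1, s1]; simp
    rwa [sum_eq_single_of_mem a (mem_univ _) fun c _ hc => hE a c a hc.symm] at this
  have step : ∀ a c, a ≠ c → G a none (some c) + G a (some c) none = 1 := by
    intro a c h
    have e0 := hσ a c none none
    have e1 := hσ a c none (some c)
    have e2 := hσ a c (some c) none
    have e3 := hσ a c (some c) (some c)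
    simp only [d0, d1, d2, if_neg h, if_true, add_zero] at e0 e1 e2 e3
    have e4 := own c
    rw [← e0, ← e1, ← e2, ← e3] at e4
    linear_combination e4 - hE a c c h - h2
  have t1 := step 0 1 (by decide)
  have t2 := step 0 2 (by decide)
  have t0 := step 1 0 (by decide)
  have e1 := hσ 1 0 none (some 0)
  have e2 := hσ 1 0 (some 0) none
  simp only [d1, d2, if_true, if_neg (show (1 : Fin 3) ≠ 0 by decide), add_zero] at e1 e2
  have u1 := s1 0 none
  have u2 := s2 0
  rw [Fin.sum_univ_three] at u1 u2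
  apply one_ne_zero (α := F)
  linear_combination u1 + u2 - t0 - t1 - t2 + e1 + e2 - 2 * h2

/-- two non adjacent special vertices cannot have the same finite data -/
lemma pair (h2 : (2 : F) = 0) {K : SimpleGraph V} {r : V → V → F} (hs : ∀ u v, r u v = r v u)
    (hr : ∀ u v, r u v ≠ 0 → K.Adj u v) {W : Finset V} {S : Fin 3 → Finset V}
    (hd : ∀ a, Disjoint W (S a)) (hp : ∀ a, pf r (W ∪ S a) ≠ 0) (y : V → Fin 3 → V)
    (P : V → Prop) (pW : ∀ x, P x → x ∈ W) (yW : ∀ x, P x → ∀ a, y x a ∈ W)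
    (yi : ∀ x, P x → Function.Injective (y x))
    (ya : ∀ x, P x → ∀ z, K.Adj x z ↔ ∃ a, y x a = z)
    (he : ∀ x, P x → ∀ a m, IsPM K (W ∪ S a) m → m x = y x a) {x x' : V} (hx : P x) (hx' : P x')
    (hne : x ≠ x') (hna : ¬ K.Adj x x') (vx : V → Option (Fin 3) → V)
    (sc : V → Option (Fin 3) → F) (v0 : ∀ x, vx x none = x) (v1 : ∀ x c, vx x (some c) = y x c)
    (c0 : ∀ x, sc x none = 1) (c1 : ∀ x c, sc x (some c) = r x (y x c) * r (y x c) x)
    (f1 : ∀ i a b, ∀ s ∈ S b, sc x i * NN r (W ∪ S a) s (vx x i) =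
      sc x' i * NN r (W ∪ S a) s (vx x' i))
    (f2 : ∀ i a b, ∀ s ∈ S b, sc x i * TN r (W ∪ S a) s (vx x i) =
      sc x' i * TN r (W ∪ S a) s (vx x' i)) : False := by
  have h0 : ∀ v, r v v = 0 := fun v => not_not.1 (mt (hr v v) (K.irrefl))
  have vW : ∀ x, P x → ∀ i, vx x i ∈ W := fun x hx i => by
    cases i with
    | none => rw [v0]; exact pW x hx
    | some c => rw [v1]; exact yW x hx c
  have adj : ∀ x, P x → ∀ c, K.Adj x (y x c) := fun x hx c => (ya x hx _).2 ⟨c, rfl⟩
  have mer : ∀ x, P x → ∀ a c, y x c ∈ (W ∪ S a).erase x := fun x hx a c =>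
    mem_erase.2 ⟨(adj x hx c).ne', mem_union_left _ (yW x hx c)⟩
  have dia : ∀ (ρ : V → V → F), (∀ u v, ρ u v ≠ 0 → K.Adj u v) → ∀ x, P x → ∀ a c,
      pf ρ (W ∪ S a) ≠ 0 →
      ρ x (y x c) * ρ (y x c) x * NN ρ (W ∪ S a) x (y x c) = if a = c then 1 else 0 := by
    intro ρ hρ x hx a c hρ'
    split_ifs with h
    · rw [← h]
      exact NN_ess hρ hρ' (mem_union_left _ (pW x hx)) (mer x hx a a) (he x hx a)
    · rw [NN_forb hρ (adj x hx c) fun m hm e => h (yi x hx ((he x hx a m hm).symm.trans e)),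
        mul_zero]
  have row : ∀ x, P x → ∀ a v, v ∈ W → x ≠ v →
      ∑ c, r x (y x c) * r (y x c) x * NN r (W ∪ S a) (y x c) v = 0 := by
    intro x hx a v hv hxv
    have := TN_eq h2 h0 (hp a) (mem_union_left _ (pW x hx)) (mem_union_left _ hv)
    rw [if_neg hxv, TN, ← sum_subset (subset_univ (univ.image (y x))),
      sum_image fun a _ b _ e => yi x hx e] at this
    · exact this
    · intro z _ hz
      rw [not_not.1 (mt (hr x z) fun k => hz (by simpa using (ya x hx z).1 k)), zero_mul,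
        zero_mul]
  have nx : ∀ j, x ≠ vx x' j := fun j => by
    cases j with
    | none => rw [v0]; exact hne
    | some c => rw [v1]; exact fun e => hna (by rw [e]; exact (adj x' hx' c).symm)
  refine alg h2 (fun a i j => sc x i * sc x' j * NN r (W ∪ S a) (vx x i) (vx x' j))
    (fun a i j => sc x i * sc x j * NN r (W ∪ S a) (vx x i) (vx x j)) ?_ ?_ ?_ ?_ ?_ ?_ ?_
  · intro a b i j
    have k1 := low_rank h2 h0 (hd a) (hd b) (hp a) (hp b) (vW x hx i) (vW x' hx' j)
    have k2 := low_rank h2 h0 (hd a) (hd b) (hp a) (hp b) (vW x hx i) (vW x hx j)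
    have g1 : sc x' j * ∑ s ∈ S b, NN r (W ∪ S b) s (vx x' j) * TN r (W ∪ S a) s (vx x i) =
        sc x j * ∑ s ∈ S b, NN r (W ∪ S b) s (vx x j) * TN r (W ∪ S a) s (vx x i) := by
      rw [mul_sum, mul_sum]
      exact sum_congr rfl fun s hs => by rw [← mul_assoc, ← mul_assoc, f1 j b b s hs]
    have g2 : sc x' j * ∑ s ∈ S a, TN r (W ∪ S b) s (vx x' j) * NN r (W ∪ S a) s (vx x i) =
        sc x j * ∑ s ∈ S a, TN r (W ∪ S b) s (vx x j) * NN r (W ∪ S a) s (vx x i) := by
      rw [mul_sum, mul_sum]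
      exact sum_congr rfl fun s hs => by rw [← mul_assoc, ← mul_assoc, f2 j b a s hs]
    linear_combination sc x i * sc x j * k2 - sc x i * sc x' j * k1 + sc x i * g1 - sc x i * g2
  · intro a i
    simp only [NN_self, mul_zero]
  · intro a c
    simp only [v0, v1, c0, c1, one_mul]
    exact dia r hr x hx a c (hp a)
  · intro a c
    simp only [v0, v1, c0, c1, mul_one]
    rw [NN_symm]
    exact dia r hr x hx a c (hp a)
  · intro a j
    simp only [v1, c1]
    have := row x hx a _ (vW x' hx' j) (nx j)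
    rw [← mul_zero (sc x' j), ← this, mul_sum]
    exact sum_congr rfl fun c _ => by ring
  · intro a
    simp only [v0, v1, c0, c1, one_mul]
    rw [← row x' hx' a x (pW x hx) hne.symm]
    exact sum_congr rfl fun c _ => by rw [NN_symm]
  · intro a c e hac
    simp only [v0, v1, c0, c1, one_mul, mul_one]
    have hr' := upd_sup hr (adj x hx c) (r x (y x c) + 1)
    have hya : y x a ≠ y x c := fun k => hac (yi x hx k)
    have hxS : x ∈ W ∪ S a := mem_union_left _ (pW x hx)
    have hp' : pf (upd r x (y x c) (r x (y x c) + 1)) (W ∪ S a) ≠ 0 := by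
      rw [pf_ess hr' hxS (mer x hx a a) (he x hx a), pf_upd_out _ _ _ _ (by simp), upd, upd,
        if_neg (by simp [hya, (adj x hx c).ne]), if_neg (by simp [hya, (adj x hx a).ne']),
        ← pf_ess hr hxS (mer x hx a a) (he x hx a)]
      exact hp a
    have z0 : NN r (W ∪ S a) x (y x c) = 0 :=
      NN_forb hr (adj x hx c) fun m hm k => hya ((he x hx a m hm).symm.trans k)
    have hv : y x' e ∈ W ∪ S a := mem_union_left _ (yW x' hx' e)
    have R := fun u hu => resolvent h2 h0 hs (adj x hx c).ne (hp a) hp' (u := u) hu hv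
    have R1 := R x hxS
    have R2 := R (y x c) (mem_union_left _ (yW x hx c))
    have R3 := R x' (mem_union_left _ (pW x' hx'))
    rw [NN_self, NN_symm r _ (y x c) x, z0, zero_mul, zero_mul, add_zero, add_zero] at R1
    rw [NN_self, z0, zero_mul, zero_mul, add_zero, add_zero] at R2
    rw [← R1, ← R2] at R3
    have D1 := dia r hr x' hx' a e (hp a)
    have D2 := dia _ hr' x' hx' a e hp'
    have n1 : x ≠ y x' e := by simpa [v1] using nx (some e)
    rw [upd, upd, if_neg (by simp [hne.symm, n1.symm]), if_neg (by simp [hne.symm, n1.symm]),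
      ← D1] at D2
    linear_combination -(r x (y x c) * r (y x c) x) * D2 -
      r x (y x c) * r (y x c) x * (r x' (y x' e) * r (y x' e) x') * R3

/-- Three matching lemma: the number of vertices that are matched by three different forced edges
in three given almost equal vertex sets is bounded. -/
theorem three (H : SimpleGraph V) (W : Finset V) (S : Fin 3 → Finset V)
    (hS : ∀ a, (S a).card ≤ 2) (hd : ∀ a, Disjoint W (S a))
    (hpm : ∀ a, ∃ m, IsPM H (W ∪ S a) m) (X : Finset V) (hX : X ⊆ W) (y : V → Fin 3 → V)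
    (hy : ∀ x ∈ X, Function.Injective (y x))
    (he : ∀ x ∈ X, ∀ a m, IsPM H (W ∪ S a) m → m x = y x a) : X.card ≤ 5 * 4 ^ 144 + 6 := by
  classical
  choose m hm using hpm
  let K : SimpleGraph V :=
    { Adj := fun u v => ∃ a, u ∈ W ∪ S a ∧ m a u = v
      symm := ⟨fun u v ⟨a, h, k⟩ => ⟨a, k ▸ (hm a u h).1, k ▸ (hm a u h).2.2⟩⟩
      loopless := ⟨fun u ⟨a, h, k⟩ => (hm a u h).2.1.ne' k⟩ }
  have KH : ∀ u v, K.Adj u v → H.Adj u v := fun u v ⟨a, h, k⟩ => k ▸ (hm a u h).2.1
  let _ : Fintype (GaloisField 2 2) := Fintype.ofFinite _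
  have hc : Fintype.card (GaloisField 2 2) = 4 := by
    rw [← Nat.card_eq_fintype_card, GaloisField.card 2 2 (by norm_num)]; norm_num
  have h2 : (2 : GaloisField 2 2) = 0 := CharTwo.two_eq_zero
  obtain ⟨r, hs, hr, hp⟩ := ex_weights h2 (by omega) K (fun a => W ∪ S a) m
    fun a v hv => ⟨(hm a v hv).1, ⟨a, hv, rfl⟩, (hm a v hv).2.2⟩
  have my : ∀ x ∈ X, ∀ a, m a x = y x a := fun x hx a => he x hx a _ (hm a)
  set X' := X.filter fun x => ∀ a, y x a ∈ W with hX'
  have c6 : X.card ≤ X'.card + 6 := by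
    have : X ⊆ X' ∪ univ.biUnion fun a => (S a).image (m a) := by
      intro x hx
      by_cases h : ∀ a, y x a ∈ W
      · exact mem_union_left _ (mem_filter.2 ⟨hx, h⟩)
      · push Not at h
        obtain ⟨a, h⟩ := h
        have k := hm a x (mem_union_left _ (hX hx))
        refine mem_union_right _ (mem_biUnion.2 ⟨a, mem_univ _, mem_image.2 ⟨m a x, ?_, k.2.2⟩⟩)
        exact (mem_union.1 k.1).resolve_left (my x hx a ▸ h)
    have b := card_biUnion_le_card_mul (univ : Finset (Fin 3)) (fun a => (S a).image (m a)) 2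
      fun a _ => card_image_le.trans (hS a)
    have := (card_le_card this).trans (card_union_le _ _)
    simp only [card_univ, Fintype.card_fin] at b
    omega
  by_contra hbig
  set T : Finset V := univ.biUnion S with hT
  have cT : T.card ≤ 6 := by
    simpa using card_biUnion_le_card_mul (univ : Finset (Fin 3)) S 2 fun a _ => hS a
  let vx : V → Option (Fin 3) → V := fun x i => i.elim x (y x)
  let sc : V → Option (Fin 3) → GaloisField 2 2 := fun x i =>
    i.elim 1 fun c => r x (y x c) * r (y x c) x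
  let φ : V → Option (Fin 3) → Fin 3 → T → GaloisField 2 2 × GaloisField 2 2 := fun x i a s =>
    (sc x i * NN r (W ∪ S a) s (vx x i), sc x i * TN r (W ∪ S a) s (vx x i))
  have cφ : Fintype.card (Option (Fin 3) → Fin 3 → T → GaloisField 2 2 × GaloisField 2 2) ≤
      4 ^ 144 := by
    simp only [Fintype.card_fun, Fintype.card_prod, hc, Fintype.card_option, Fintype.card_fin,
      Fintype.card_coe]
    calc (((4 * 4) ^ T.card) ^ 3) ^ (3 + 1) ≤ (((4 * 4) ^ 6) ^ 3) ^ (3 + 1) := by gcongr; norm_num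
      _ = 4 ^ 144 := by norm_num
  obtain ⟨w, -, hw⟩ := exists_lt_card_fiber_of_mul_lt_card_of_maps_to (s := X') (t := univ)
    (f := φ) (n := 4) (fun _ _ => mem_univ _) (by rw [card_univ]; omega)
  obtain ⟨x, hx⟩ := card_pos.1 (lt_of_le_of_lt (Nat.zero_le _) hw)
  obtain ⟨x', hx', hn⟩ := exists_mem_notMem_of_card_lt_card
    (s := insert x (univ.image (y x))) (lt_of_le_of_lt ((card_insert_le _ _).trans
      (Nat.succ_le_succ (card_image_le.trans (by simp)))) hw)
  have eφ : φ x = φ x' := (mem_filter.1 hx).2.trans (mem_filter.1 hx').2.symm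
  have ya : ∀ x, x ∈ X' → ∀ z, K.Adj x z ↔ ∃ a, y x a = z := fun x hx z =>
    exists_congr fun a => by
      rw [my x (mem_filter.1 hx).1 a]
      exact and_iff_right (mem_union_left _ (hX (mem_filter.1 hx).1))
  have mT : ∀ b, ∀ s ∈ S b, s ∈ T := fun b s h => mem_biUnion.2 ⟨b, mem_univ _, h⟩
  refine pair h2 hs hr hd hp y (· ∈ X') (fun x h => hX (mem_filter.1 h).1)
    (fun x h => (mem_filter.1 h).2) (fun x h => hy x (mem_filter.1 h).1) ya
    (fun x h a n hn => he x (mem_filter.1 h).1 a n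
      fun v hv => ⟨(hn v hv).1, KH _ _ (hn v hv).2.1, (hn v hv).2.2⟩)
    (mem_filter.1 hx).1 (mem_filter.1 hx').1 (fun e => hn (by simp [e]))
    (fun k => hn (by simpa using Or.inr ((ya x (mem_filter.1 hx).1 x').1 k))) vx sc
    (fun _ => rfl) (fun _ _ => rfl) (fun _ => rfl) (fun _ _ => rfl) (fun i a b s h => ?_)
    fun i a b s h => ?_
  · exact congrArg Prod.fst (congrFun (congrFun (congrFun eφ i) a) ⟨s, mT b s h⟩)
  · exact congrArg Prod.snd (congrFun (congrFun (congrFun eφ i) a) ⟨s, mT b s h⟩)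

end Pool.Agent.Lib.MP_50b5c6_lc.Pf
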