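import Pool.Agent.Lib.MP_50b5c6_lc.Defs
import Pool.Agent.Lib.MP_50b5c6_lc.Three

set_option autoImplicit false

namespace Pool.Agent.Lib.MP_50b5c6_lc.Np

open Pf Function

/-- the classes of `f` do not cross in the order of the list `L` -/
def NC {D β : Type} (f : D → β) (L : List D) : Prop :=
  ∀ a b c d, [a, b, c, d].Sublist L → f a = f c → f b = f d → f a = f b

/-- combinatorial planarity: an order of the darts in which neither the vertices nor the edges
cross -/
def Pl {X : Type} (R : X → X → Prop) : Prop :=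
  ∃ L : List (X × X), L.Nodup ∧ (∀ a b, R a b → (a, b) ∈ L ∧ (b, a) ∈ L) ∧
    NC Prod.fst L ∧ NC (fun d => s(d.1, d.2)) L

def HasPM {X : Type} (H : SimpleGraph X) (S : Finset X) : Prop := ∃ m, IsPM H S m

/-- `H` with inner vertices `W` and terminals `ι` represents `G` through perfect matchings -/
def Rep {V X : Type} [DecidableEq X] (G : SimpleGraph V) (ι : V → X) (W : Finset X)
    (H : SimpleGraph X) : Prop :=
  Injective ι ∧ (∀ v, ι v ∉ W) ∧ HasPM H W ∧
    ∀ u v, u ≠ v → (G.Adj u v ↔ HasPM H (insert (ι u) (insert (ι v) W)))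

/-- the node of the split graph at which a dart starts -/
def node {V J A : Type} (ends : A × Bool → V ⊕ J) (side : A × Bool → Bool) (d : A × Bool) :
    V ⊕ (J × Bool) :=
  (ends d).map id fun j => (j, side d)

/-- every junction is split into its two sides, joined by an edge -/
def split {V J A : Type} (ends : A × Bool → V ⊕ J) (side : A × Bool → Bool) :
    SimpleGraph (V ⊕ (J × Bool)) :=
  SimpleGraph.fromRel fun x y =>
    (∃ d, node ends side d = x ∧ node ends side (d.1, !d.2) = y) ∨
      ∃ j, x = .inr (j, true) ∧ y = .inr (j, false)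

/-- simple smooth path in a combinatorial train track -/
def SP {V J A : Type} (ends : A × Bool → V ⊕ J) (side : A × Bool → Bool) (u v : V) : Prop :=
  ∃ l : List (A × Bool), l.head?.map ends = some (.inl u) ∧
    l.getLast?.map (fun d => ends (d.1, !d.2)) = some (.inl v) ∧
    l.IsChain (fun d d' => (∃ j, ends (d.1, !d.2) = .inr j ∧ ends d' = .inr j) ∧
      side (d.1, !d.2) ≠ side d') ∧
    (l.map fun d => ends (d.1, !d.2)).Nodup

/-- all junction sides -/
def allW (V J : Type) [Fintype J] : Finset (V ⊕ (J × Bool)) :=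
  Finset.univ.map Function.Embedding.inr

/-- planarity passes to minors -/
def MinorSt : Prop :=
  ∀ (X Y : Type) (R : X → X → Prop) (R' : Y → Y → Prop) (φ : X → Option Y),
    (∀ a b y, φ a = some y → φ b = some y →
      Relation.ReflTransGen (fun p q => (R p q ∨ R q p) ∧ φ p = some y ∧ φ q = some y) a b) →
    (∀ y z, R' y z → y ≠ z ∧ ∃ a b, (R a b ∨ R b a) ∧ φ a = some y ∧ φ b = some z) →
    Pl R → Pl R'

/-- grids are planar -/
def GridSt : Prop :=
  ∀ N : ℕ, Pl fun p q : ℤ × ℤ => |p.1| ≤ N ∧ |p.2| ≤ N ∧ |q.1| ≤ N ∧ |q.2| ≤ N ∧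
    (q = (p.1 + 1, p.2) ∨ q = (p.1, p.2 + 1))

/-- a graph drawn with compact connected sets is planar -/
def TouchSt : Prop :=
  ∀ (X E : Type) [Finite X] [Finite E] (src tgt : E → X) (S : X → Set ℂ) (T : E → Set ℂ),
    (∀ x, IsCompact (S x) ∧ IsPreconnected (S x)) →
    (∀ e, IsCompact (T e) ∧ IsPreconnected (T e)) →
    Pairwise (Disjoint on S) → Pairwise (Disjoint on T) →
    (∀ e x, x ≠ src e → x ≠ tgt e → Disjoint (T e) (S x)) →
    (∀ e, (T e ∩ S (src e)).Nonempty ∧ (T e ∩ S (tgt e)).Nonempty) →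
    Pl fun x y => x ≠ y ∧ ∃ e, src e = x ∧ tgt e = y

/-- smooth paths are augmenting paths -/
def TrackSt : Prop :=
  ∀ (V J A : Type) [DecidableEq V] [DecidableEq J] [Fintype J] (ends : A × Bool → V ⊕ J)
    (side : A × Bool → Bool) (u v : V), u ≠ v →
    (SP ends side u v ↔
      HasPM (split ends side) (insert (.inl u) (insert (.inl v) (allW V J))))

/-- a confluent drawing gives a track with planar split graph -/
def TopSt : Prop :=
  ∀ (V : Type) [Finite V] (G : SimpleGraph V), Confluent True G →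
    ∃ (J A : Type) (_ : Finite J) (_ : Finite A) (ends : A × Bool → V ⊕ J)
      (side : A × Bool → Bool),
      (∀ u v, u ≠ v → (G.Adj u v ↔ SP ends side u v)) ∧ Pl (split ends side).Adj

/-- tracks made of half circles above (`up`) and below the real line -/
def Semi {V J A : Type} (x : V ⊕ J → ℝ) (ends : A × Bool → V ⊕ J) (up : A → Bool) : Prop :=
  Injective x ∧ (∀ a, x (ends (a, false)) < x (ends (a, true))) ∧
    ∀ a b, a ≠ b → up a = up b →
      ¬(ends (a, false) = ends (b, false) ∧ ends (a, true) = ends (b, true)) ∧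
      ¬(x (ends (a, false)) < x (ends (b, false)) ∧ x (ends (b, false)) < x (ends (a, true)) ∧
        x (ends (a, true)) < x (ends (b, true)))

def SemiSt : Prop :=
  ∀ (V J A : Type) [Finite J] [Finite A] (G : SimpleGraph V) (x : V ⊕ J → ℝ)
    (ends : A × Bool → V ⊕ J) (up : A → Bool), Semi x ends up →
    (∀ u v, u ≠ v → (G.Adj u v ↔ SP ends (fun d => up d.1) u v)) → Confluent True G

/-- a planar representation gives a half circle track -/
def SubSt : Prop :=
  ∀ (V X : Type) [Fintype V] [DecidableEq V] [Fintype X] [DecidableEq X] (G : SimpleGraph V)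
    (ι : V → X) (W : Finset X) (H : SimpleGraph X), Rep G ι W H → Pl H.Adj →
    ∃ (J A : Type) (_ : Fintype J) (_ : DecidableEq J) (_ : Finite A) (x : V ⊕ J → ℝ)
      (ends : A × Bool → V ⊕ J) (up : A → Bool), Semi x ends up ∧
      ∀ u v, u ≠ v → (G.Adj u v ↔
        HasPM (split ends fun d => up d.1) (insert (.inl u) (insert (.inl v) (allW V J))))

/-- polynomial kernel -/
def KernSt : Prop :=
  ∃ c : ℕ, ∀ (V X : Type) [Fintype V] [Fintype X] [DecidableEq X] (G : SimpleGraph V)
    (ι : V → X) (W : Finset X) (H : SimpleGraph X), Rep G ι W H → Pl H.Adj →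
    ∃ (W' : Finset X) (H' : SimpleGraph X), Rep G ι W' H' ∧ Pl H'.Adj ∧
      W'.card ≤ c * (Fintype.card V + 1) ^ 6

/-- the characterisation the verifier checks -/
def CharSt : Prop :=
  ∃ c : ℕ, ∀ (n : ℕ) (G : SimpleGraph (Fin n)), Confluent True G ↔
    ∃ k ≤ c * (n + 1) ^ 6, ∃ H : SimpleGraph (Fin (n + k)),
      Rep G (Fin.castAdd k) (Finset.univ.map (Fin.natAddEmb n)) H ∧ Pl H.Adj

def VerSt : Prop := CharSt → lang True ∈ N68a2faeb.NP

end Pool.Agent.Lib.MP_50b5c6_lc.Np
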