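import Pool.Agent.Lib.MP_50b5c6_lc.NpSpec

set_option autoImplicit false

namespace Pool.Agent.Lib.MP_50b5c6_lc.Np

open Pf Function

namespace Sbd

lemma pm_of_rel {Y : Type} {K : SimpleGraph Y} {S : Finset Y} (r : Y → Y → Prop)
    (hs : ∀ a b, r a b → r b a) (he : ∀ a ∈ S, ∃ b ∈ S, K.Adj a b ∧ r a b)
    (hu : ∀ a b c, r a b → r a c → b = c) : HasPM K S := by
  classical
  choose! m h1 h2 h3 using he
  exact ⟨m, fun v hv => ⟨h1 v hv, h2 v hv, hu _ _ _ (h3 _ (h1 v hv)) (hs _ _ (h3 v hv))⟩⟩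

lemma four {D : Type} [BEq D] [LawfulBEq D] {L : List D} {a b c d : D} (hd : d ∈ L)
    (h1 : L.idxOf a < L.idxOf b) (h2 : L.idxOf b < L.idxOf c) (h3 : L.idxOf c < L.idxOf d) :
    [a, b, c, d].Sublist L := by
  have k := List.idxOf_lt_length_of_mem hd
  refine List.sublist_iff_exists_fin_orderEmbedding_get_eq.2 ⟨OrderEmbedding.ofStrictMono
    (![⟨L.idxOf a, by omega⟩, ⟨L.idxOf b, by omega⟩, ⟨L.idxOf c, by omega⟩, ⟨L.idxOf d, k⟩] :
      Fin 4 → Fin L.length) (Fin.strictMono_iff_lt_succ.2 fun i => ?_), fun i => ?_⟩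
  · fin_cases i
    exacts [h1, h2, h3]
  · fin_cases i <;> exact (List.getElem_idxOf _).symm

/-- the node of a side -/
def nd {V J : Type} (s : Bool) : V ⊕ J → V ⊕ (J × Bool) := Sum.map id fun j => (j, s)

lemma nd_inj {V J : Type} (s : Bool) : Injective (nd s : V ⊕ J → _) :=
  Sum.map_injective.2 ⟨injective_id, fun _ _ h => congrArg Prod.fst h⟩

section
variable {V J : Type} (x : V ⊕ J → ℝ) (R : Bool → V ⊕ J → V ⊕ J → Prop)

/-- arcs -/
def Arc : Type := {a : Bool × (V ⊕ J) × (V ⊕ J) // R a.1 a.2.1 a.2.2 ∧ x a.2.1 < x a.2.2}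

/-- their ends -/
def en (d : Arc x R × Bool) : V ⊕ J := cond d.2 d.1.1.2.2 d.1.1.2.1

variable {x R}

lemma semi (hx : Injective x) (h : ∀ s p q p' q', R s p q → R s p' q' → x p < x p' → x p' < x q →
    x q < x q' → False) : Semi x (en x R) fun a => a.1.1 :=
  ⟨hx, fun a => a.2.2, fun a b n e => ⟨fun k => n (Subtype.ext (Prod.ext e (Prod.ext k.1 k.2))),
    fun k => h _ _ _ _ _ a.2.1 (by rw [show a.1.1 = b.1.1 from e]; exact b.2.1) k.1 k.2.1 k.2.2⟩⟩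

lemma adj (hx : Injective x) (hs : ∀ s p q, R s p q → R s q p) (hi : ∀ s p, ¬R s p p)
    {y z : V ⊕ (J × Bool)} : (split (en x R) fun d => d.1.1.1).Adj y z ↔
      (∃ s p q, R s p q ∧ y = nd s p ∧ z = nd s q) ∨ ∃ j s, y = .inr (j, s) ∧ z = .inr (j, !s) := by
  rw [split, SimpleGraph.fromRel_adj]
  have a : ∀ y z, (∃ d, node (en x R) (fun d => d.1.1.1) d = y ∧
      node (en x R) (fun d => d.1.1.1) (d.1, !d.2) = z) ↔
        ∃ s p q, R s p q ∧ y = nd s p ∧ z = nd s q := fun y z => by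
    constructor
    · rintro ⟨⟨a, _ | _⟩, rfl, rfl⟩
      exacts [⟨_, _, _, a.2.1, rfl, rfl⟩, ⟨_, _, _, hs _ _ _ a.2.1, rfl, rfl⟩]
    · rintro ⟨s, p, q, h, rfl, rfl⟩
      rcases lt_trichotomy (x p) (x q) with k | k | k
      · exact ⟨(⟨(s, p, q), h, k⟩, false), rfl, rfl⟩
      · exact (hi s p (by rwa [← hx k] at h)).elim
      · exact ⟨(⟨(s, q, p), hs _ _ _ h, k⟩, true), rfl, rfl⟩
  rw [a, a]
  constructor
  · rintro ⟨-, (h | ⟨j, h⟩) | ⟨s, p, q, h, h1, h2⟩ | ⟨j, h1, h2⟩⟩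
    exacts [.inl h, .inr ⟨j, true, h⟩, .inl ⟨s, q, p, hs _ _ _ h, h2, h1⟩, .inr ⟨j, false, h2, h1⟩]
  · rintro (⟨s, p, q, h, rfl, rfl⟩ | ⟨j, _ | _, rfl, rfl⟩)
    · exact ⟨fun k => hi s p (by rwa [← nd_inj s k] at h), .inl (.inl ⟨s, p, q, h, rfl, rfl⟩)⟩
    · exact ⟨by simp, .inr (.inr ⟨j, rfl, rfl⟩)⟩
    · exact ⟨by simp, .inl (.inr ⟨j, rfl, rfl⟩)⟩

end

variable {V X : Type} (ι : V → X) (W : Finset X) (H : SimpleGraph X) (m₀ : X → X)

/-- the junctions -/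
def Jn : Type := {d : X × X // H.Adj d.1 d.2 ∧ (d.1 ∈ W ∨ ∃ v, ι v = d.1) ∧ (d.2 ∈ W ∨ ∃ v, ι v = d.2)}

variable {ι W H}

/-- the opposite dart -/
def Jn.sw (d : Jn ι W H) : Jn ι W H := ⟨d.1.swap, d.2.1.symm, d.2.2.2, d.2.2.1⟩

/-- the vertex of a point -/
def own : V ⊕ Jn ι W H → X := Sum.elim ι fun d => d.1.1

/-- base points -/
def IsB : V ⊕ Jn ι W H → Prop := Sum.elim (fun _ => True) fun d => d.1.1 ∈ W ∧ m₀ d.1.1 = d.1.2

/-- upper and lower arcs -/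
def Rl : Bool → V ⊕ Jn ι W H → V ⊕ Jn ι W H → Prop
  | true, p, q => ∃ d, p = .inr d ∧ q = .inr d.sw
  | false, p, q => own p = own q ∧ (IsB m₀ p ↔ ¬IsB m₀ q)

variable {m₀} {p q : V ⊕ Jn ι W H} {d : Jn ι W H}

lemma rl_symm : ∀ (s) (p q : V ⊕ Jn ι W H), Rl m₀ s p q → Rl m₀ s q p
  | true, _, _, ⟨d, h, k⟩ => ⟨d.sw, k, h⟩
  | false, _, _, ⟨h, k⟩ => ⟨h.symm, by tauto⟩

lemma rl_irr : ∀ (s) (p : V ⊕ Jn ι W H), ¬Rl m₀ s p p
  | true, _, ⟨d, h, k⟩ => d.2.1.ne (congrArg own (h.symm.trans k))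
  | false, _, ⟨_, k⟩ => by tauto

lemma b_inj (hι : Injective ι) (hW : ∀ v, ι v ∉ W) (hp : IsB m₀ p) (hq : IsB m₀ q)
    (e : own p = own q) : p = q := by
  rcases p with u | a <;> rcases q with v | b
  · exact congrArg _ (hι e)
  · exact (hW u (by rw [show ι u = b.1.1 from e]; exact hq.1)).elim
  · exact (hW v (by rw [← show a.1.1 = ι v from e]; exact hp.1)).elim
  · exact congrArg _ (Subtype.ext (Prod.ext e (hp.2.symm.trans ((congrArg m₀ e).trans hq.2))))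

lemma b_ex (h0 : IsPM H W m₀) {a : X} (ha : a ∈ W ∨ ∃ v, ι v = a) :
    ∃ p : V ⊕ Jn ι W H, IsB m₀ p ∧ own p = a := by
  rcases ha with ha | ⟨v, rfl⟩
  exacts [⟨.inr ⟨(a, m₀ a), (h0 a ha).2.1, .inl ha, .inl (h0 a ha).1⟩, ⟨ha, rfl⟩, rfl⟩,
    ⟨.inl v, trivial, rfl⟩]

lemma b_sw (h0 : IsPM H W m₀) (h : IsB m₀ (.inr d : V ⊕ Jn ι W H)) :
    IsB m₀ (.inr d.sw : V ⊕ Jn ι W H) :=
  ⟨by rw [show d.sw.1.1 = m₀ d.1.1 from h.2.symm]; exact (h0 _ h.1).1,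
    by rw [show d.sw.1.1 = m₀ d.1.1 from h.2.symm]; exact (h0 _ h.1).2.2⟩

lemma nb (h : ¬IsB m₀ p) : ∃ d, p = .inr d := by
  rcases p with u | a
  exacts [(h trivial).elim, ⟨a, rfl⟩]

section
variable {K : SimpleGraph (V ⊕ (Jn ι W H × Bool))} (hK : ∀ y z, K.Adj y z ↔
  (∃ s p q, Rl m₀ s p q ∧ y = nd s p ∧ z = nd s q) ∨ ∃ j s, y = .inr (j, s) ∧ z = .inr (j, !s))
  {z : V ⊕ (Jn ι W H × Bool)}
include hK

lemma nT (h : K.Adj (.inr (d, true)) z) : z = .inr (d.sw, true) ∨ z = .inr (d, false) := by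
  rcases (hK _ _).1 h with ⟨_ | _, p, q, r, a, rfl⟩ | ⟨j, s, a, rfl⟩
  · rcases p with u | a <;> simp [nd] at a
  · obtain ⟨e, rfl, rfl⟩ := r
    obtain rfl : d = e := by simpa [nd] using a
    exact .inl rfl
  · obtain ⟨rfl, rfl⟩ : d = j ∧ true = s := by simpa using a
    exact .inr rfl

lemma nF (h : K.Adj (nd false p) z) :
    (∃ q, Rl m₀ false p q ∧ z = nd false q) ∨ ∃ d, p = .inr d ∧ z = .inr (d, true) := by
  rcases (hK _ _).1 h with ⟨_ | _, p', q, r, a, rfl⟩ | ⟨j, s, a, rfl⟩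
  · exact .inl ⟨q, nd_inj _ a ▸ r, rfl⟩
  · obtain ⟨e, rfl, rfl⟩ := r
    rcases p with u | b <;> simp [nd] at a
  · rcases p with u | b
    · simp [nd] at a
    obtain ⟨rfl, rfl⟩ : b = j ∧ false = s := by simpa [nd] using a
    exact .inr ⟨_, rfl, rfl⟩

variable (hι : Injective ι) (hW : ∀ v, ι v ∉ W) (h0 : IsPM H W m₀) {S : Finset X}
  {S' : Finset (V ⊕ (Jn ι W H × Bool))} (s1 : W ⊆ S) (s2 : ∀ a ∈ S, a ∈ W ∨ ∃ v, ι v = a)
  (s3 : ∀ j, .inr j ∈ S') (s4 : ∀ v, .inl v ∈ S' ↔ ι v ∈ S)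
include hι hW h0 s1 s2 s3 s4

omit hK hι hW h0 s2 in
lemma b_mem (h : IsB m₀ p) : nd false p ∈ S' ↔ own p ∈ S := by
  rcases p with u | a
  exacts [s4 u, iff_of_true (s3 _) (s1 h.1)]

lemma down (h : HasPM K S') : HasPM H S := by
  obtain ⟨μ, hμ⟩ := h
  have inv : ∀ {j z}, μ (.inr j) = z → μ z = .inr j := fun {j z} e => e ▸ (hμ _ (s3 j)).2.2
  let r (a b : X) : Prop := ∃ (p : V ⊕ Jn ι W H) (s : Bool) (d : Jn ι W H), IsB m₀ p ∧
    nd false p ∈ S' ∧ own p = a ∧ d.1 = (a, b) ∧ μ (nd false p) = .inr (d, s)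
  have sy : ∀ a b, r a b → r b a := by
    rintro a b ⟨p, s, d, h1, h2, h3, h4, h5⟩
    have e : d.sw.1 = (b, a) := congrArg Prod.swap h4
    have k : μ (.inr (d, s)) = nd false p := h5 ▸ (hμ _ h2).2.2
    rcases nF hK (h5 ▸ (hμ _ h2).2.1) with ⟨q, r1, r2⟩ | ⟨d', rfl, r2⟩
    · obtain ⟨d', rfl⟩ := nb (r1.2.1 h1)
      obtain ⟨rfl, rfl⟩ : d = d' ∧ s = false := by simpa [nd] using r2
      have n : ¬IsB m₀ (.inr d.sw : V ⊕ Jn ι W H) := fun c => r1.2.1 h1 (b_sw h0 c)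
      rcases nT hK (hμ _ (s3 (d, true))).2.1 with t | t
      swap
      · rw [inv t] at k
        rcases p with u | c <;> simp [nd] at k
      rcases nF hK (p := .inr d.sw) (hμ _ (s3 (d.sw, false))).2.1 with ⟨q, t1, t2⟩ | ⟨c, t1, t2⟩
      · have : IsB m₀ q := by_contra fun c => n (t1.2.2 c)
        exact ⟨q, false, d.sw, this, t2 ▸ (hμ _ (s3 (d.sw, false))).1,
          t1.1.symm.trans (congrArg Prod.fst e), e, inv t2⟩
      · obtain rfl : d.sw = c := Sum.inr.inj t1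
        have := (inv t).symm.trans (inv t2)
        simp at this
    · obtain ⟨rfl, rfl⟩ : d = d' ∧ s = true := by simpa using r2
      rcases nT hK (hμ _ (s3 (d.sw, true))).2.1 with t | t
      · have := (inv t).symm.trans k
        simp [nd] at this
      · exact ⟨.inr d.sw, true, d.sw, b_sw h0 h1, s3 _, congrArg Prod.fst e, e, inv t⟩
  refine pm_of_rel r sy (fun a ha => ?_) ?_
  · obtain ⟨p, h1, rfl⟩ := b_ex h0 (s2 a ha)
    have h2 := (b_mem s1 s3 s4 h1).2 ha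
    obtain ⟨d, s, e1, e2⟩ : ∃ (d : Jn ι W H) (s : Bool), d.1.1 = own p ∧
        μ (nd false p) = .inr (d, s) := by
      rcases nF hK (hμ _ h2).2.1 with ⟨q, r1, r2⟩ | ⟨d', rfl, r2⟩
      · obtain ⟨d', rfl⟩ := nb (r1.2.1 h1)
        exact ⟨d', false, r1.1.symm, r2⟩
      · exact ⟨d', true, rfl, r2⟩
    have t : r (own p) d.1.2 := ⟨p, s, d, h1, h2, rfl, Prod.ext e1 rfl, e2⟩
    obtain ⟨q, -, -, t1, t2, t3, -⟩ := sy _ _ t
    exact ⟨_, t3 ▸ (b_mem s1 s3 s4 t1).1 t2, e1 ▸ d.2.1, t⟩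
  · rintro a b c ⟨p, s, d, h1, -, h3, h4, h5⟩ ⟨q, s', d', k1, -, k3, k4, k5⟩
    obtain rfl := b_inj hι hW h1 k1 (h3.trans k3.symm)
    obtain ⟨rfl, -⟩ : d = d' ∧ s = s' := by simpa using h5.symm.trans k5
    exact congrArg Prod.snd (h4.symm.trans k4)

lemma up (h : HasPM H S) : HasPM K S' := by
  obtain ⟨m, hm⟩ := h
  let U (d : Jn ι W H) : Prop := d.1.1 ∈ S ∧ m d.1.1 = d.1.2
  let T (d : Jn ι W H) : Prop := U d ↔ IsB m₀ (.inr d : V ⊕ Jn ι W H)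
  have us : ∀ d, U d → U d.sw := fun d h =>
    ⟨by rw [show d.sw.1.1 = m d.1.1 from h.2.symm]; exact (hm _ h.1).1,
      by rw [show d.sw.1.1 = m d.1.1 from h.2.symm]; exact (hm _ h.1).2.2⟩
  have ts : ∀ d, T d → T d.sw := fun d h =>
    ⟨fun k => b_sw h0 (h.1 (us _ k)), fun k => us _ (h.2 (b_sw h0 k))⟩
  have uu : ∀ d d', U d → U d' → d.1.1 = d'.1.1 → d = d' := fun d d' a b e =>
    Subtype.ext (Prod.ext e (a.2.symm.trans ((congrArg m e).trans b.2)))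
  have ex : ∀ p : V ⊕ Jn ι W H, IsB m₀ p → own p ∈ S → (∀ d, p = .inr d → ¬T d) →
      ∃ d, Rl m₀ false p (.inr d) ∧ ¬T d := fun p h1 h2 h3 => by
    let d : Jn ι W H := ⟨(own p, m (own p)), (hm _ h2).2.1, s2 _ h2, s2 _ (hm _ h2).1⟩
    have u : U d := ⟨h2, rfl⟩
    have n : ¬IsB m₀ (.inr d : V ⊕ Jn ι W H) := fun c =>
      h3 d (b_inj hι hW h1 c rfl) (iff_of_true u c)
    exact ⟨d, ⟨rfl, iff_of_true h1 n⟩, fun c => n (c.1 u)⟩
  refine pm_of_rel (fun y z => (∃ d s, T d ∧ y = .inr (d, s) ∧ z = .inr (d, !s)) ∨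
    (∃ d, ¬T d ∧ y = .inr (d, true) ∧ z = .inr (d.sw, true)) ∨ ∃ p q, Rl m₀ false p q ∧
      (∀ d, p = .inr d → ¬T d) ∧ (∀ d, q = .inr d → ¬T d) ∧ y = nd false p ∧ z = nd false q)
    ?_ ?_ ?_
  · rintro y z (⟨d, s, h, rfl, rfl⟩ | ⟨d, h, rfl, rfl⟩ | ⟨p, q, h1, h2, h3, rfl, rfl⟩)
    · exact .inl ⟨d, !s, h, rfl, by rw [Bool.not_not]⟩
    · exact .inr (.inl ⟨d.sw, fun c => h (ts _ c), rfl, rfl⟩)
    · exact .inr (.inr ⟨q, p, rl_symm _ _ _ h1, h3, h2, rfl, rfl⟩)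
  · rintro (v | ⟨d, s⟩) hy
    · obtain ⟨d, a, b⟩ := ex (.inl v) trivial ((s4 v).1 hy) (by simp)
      exact ⟨nd false (.inr d), s3 _, (hK _ _).2 (.inl ⟨_, _, _, a, rfl, rfl⟩),
        .inr (.inr ⟨_, _, a, by simp, by simpa using b, rfl, rfl⟩)⟩
    by_cases t : T d
    · exact ⟨_, s3 _, (hK _ _).2 (.inr ⟨d, s, rfl, rfl⟩), .inl ⟨d, s, t, rfl, rfl⟩⟩
    cases s
    swap
    · exact ⟨_, s3 _, (hK _ _).2 (.inl ⟨true, _, _, ⟨d, rfl, rfl⟩, rfl, rfl⟩),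
        .inr (.inl ⟨d, t, rfl, rfl⟩)⟩
    by_cases b : IsB m₀ (.inr d : V ⊕ Jn ι W H)
    · obtain ⟨d', a, c⟩ := ex _ b (s1 b.1) (by simpa using t)
      exact ⟨nd false (.inr d'), s3 _, (hK _ _).2 (.inl ⟨_, _, _, a, rfl, rfl⟩),
        .inr (.inr ⟨_, _, a, by simpa using t, by simpa using c, rfl, rfl⟩)⟩
    · have u : U d := by_contra fun c => t (iff_of_false c b)
      obtain ⟨q, h1, h2⟩ := b_ex h0 d.2.2.1
      have a : Rl m₀ false (.inr d) q := ⟨h2.symm, iff_of_false b (not_not.2 h1)⟩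
      refine ⟨nd false q, (b_mem s1 s3 s4 h1).2 (h2 ▸ u.1), (hK _ _).2 (.inl ⟨_, _, _, a, rfl, rfl⟩),
        .inr (.inr ⟨_, _, a, by simpa using t, ?_, rfl, rfl⟩)⟩
      rintro d' rfl c
      exact b (uu _ _ (c.2 h1) u h2 ▸ h1)
  · rintro y z z' (⟨d, s, h, rfl, rfl⟩ | ⟨d, h, rfl, rfl⟩ | ⟨p, q, h1, h2, h3, rfl, rfl⟩)
      (⟨d', s', h', e, rfl⟩ | ⟨d', h', e, rfl⟩ | ⟨p', q', k1, k2, k3, e, rfl⟩)
    · cases e; rfl
    · cases e; exact (h' h).elim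
    · rcases p' with u | c <;> cases e
      exact (k2 _ rfl h).elim
    · cases e; exact (h h').elim
    · cases e; rfl
    · rcases p' with u | c <;> cases e
    · rcases p with u | c <;> cases e
      exact (h2 _ rfl h').elim
    · rcases p with u | c <;> cases e
    obtain rfl := nd_inj _ e
    congr 1
    by_cases b : IsB m₀ p
    · obtain ⟨c, rfl⟩ := nb (h1.2.1 b)
      obtain ⟨c', rfl⟩ := nb (k1.2.1 b)
      exact congrArg _ (uu _ _ (by_contra fun a => h3 c rfl (iff_of_false a (h1.2.1 b)))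
        (by_contra fun a => k3 c' rfl (iff_of_false a (k1.2.1 b))) (h1.1.symm.trans k1.1))
    · exact b_inj hι hW (by_contra fun a => b (h1.2.2 a)) (by_contra fun a => b (k1.2.2 a))
        (h1.1.symm.trans k1.1)

end

lemma pos [Finite V] [DecidableEq X] (hι : Injective ι) {L : List (X × X)}
    (hL : ∀ d : Jn ι W H, d.1 ∈ L) : ∃ x : V ⊕ Jn ι W H → ℕ, Injective x ∧
      (∀ d, x (.inr d) = 2 * L.idxOf d.1) ∧ ∀ p, (∃ d : Jn ι W H, d.1.1 = own p) →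
        ∃ d : Jn ι W H, d.1.1 = own p ∧ x p / 2 = L.idxOf d.1 := by
  classical
  obtain ⟨e, he⟩ := Countable.exists_injective_nat V
  have lt := fun d => List.idxOf_lt_length_of_mem (hL d)
  have ij : ∀ d d' : Jn ι W H, L.idxOf d.1 = L.idxOf d'.1 → d = d' := fun d d' h =>
    Subtype.ext ((List.idxOf_inj (hL d)).1 h)
  let r (v : V) : ℕ := if h : ∃ d : Jn ι W H, d.1.1 = ι v then L.idxOf h.choose.1 else L.length + e v
  refine ⟨Sum.elim (fun v => 2 * r v + 1) fun d => 2 * L.idxOf d.1, ?_, fun _ => rfl, ?_⟩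
  · rintro (u | a) (v | b) h <;> simp only [Sum.elim_inl, Sum.elim_inr] at h
    · have h : r u = r v := by omega
      simp only [r] at h
      split_ifs at h with h1 h2 h2
      · exact congrArg _ (hι (h1.choose_spec.symm.trans (ij _ _ h ▸ h2.choose_spec)))
      · have := lt h1.choose
        omega
      · have := lt h2.choose
        omega
      · exact congrArg _ (he (by omega))
    · omega
    · omega
    · exact congrArg _ (ij _ _ (by omega))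
  · rintro (v | d) h
    · refine ⟨h.choose, h.choose_spec, ?_⟩
      have : r v = L.idxOf h.choose.1 := dif_pos h
      simp only [Sum.elim_inl]
      omega
    · exact ⟨d, rfl, by simp⟩

end Sbd

open Sbd in
theorem sub : SubSt := by
  intro V X _ _ _ _ G ι W H ⟨hι, hW, ⟨m₀, h0⟩, hG⟩ ⟨L, _, hL, n1, n2⟩
  classical
  have mL : ∀ d : Jn ι W H, d.1 ∈ L := fun d => (hL _ _ d.2.1).1
  obtain ⟨x, x1, x2, x3⟩ := pos hι mL
  have fin : Finite (Jn ι W H) := Subtype.finite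
  have xi : Injective fun p => (x p : ℝ) := Nat.cast_injective.comp x1
  refine ⟨Jn ι W H, Arc (fun p => (x p : ℝ)) (Rl m₀), Fintype.ofFinite _, inferInstance,
    Subtype.finite, _, _, _, semi xi ?_, fun u v huv => (hG u v huv).trans ?_⟩
  · rintro (_ | _) p q p' q' a b h1 h2 h3 <;> simp only [Nat.cast_lt] at h1 h2 h3
    · have ex : ∀ {p q : V ⊕ Jn ι W H}, Rl m₀ false p q → ∃ d : Jn ι W H, d.1.1 = own p :=
        fun {p q} h => by
          by_cases c : IsB m₀ p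
          · obtain ⟨d, rfl⟩ := nb (h.2.1 c)
            exact ⟨d, h.1.symm⟩
          · obtain ⟨d, rfl⟩ := nb c
            exact ⟨d, rfl⟩
      have n : own p ≠ own p' := fun e => by
        by_cases c : IsB m₀ p <;> by_cases c' : IsB m₀ p'
        · rw [b_inj hι hW c c' e] at h1
          omega
        · rw [b_inj hι hW c (by_contra fun t => c' (b.2.2 t)) (e.trans b.1)] at h1
          omega
        · rw [b_inj hι hW (by_contra fun t => c (a.2.2 t)) c' (a.1.symm.trans e)] at h2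
          omega
        · rw [b_inj hι hW (by_contra fun t => c (a.2.2 t)) (by_contra fun t => c' (b.2.2 t))
            (a.1.symm.trans (e.trans b.1))] at h3
          omega
      obtain ⟨d1, e1, f1⟩ := x3 p (ex a)
      obtain ⟨d2, e2, f2⟩ := x3 p' (ex b)
      obtain ⟨d3, e3, f3⟩ := x3 q (ex (rl_symm _ _ _ a))
      obtain ⟨d4, e4, f4⟩ := x3 q' (ex (rl_symm _ _ _ b))
      have lt : ∀ {c c' : Jn ι W H}, c.1.1 ≠ c'.1.1 → L.idxOf c.1 ≤ L.idxOf c'.1 →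
          L.idxOf c.1 < L.idxOf c'.1 := fun {c c'} h k =>
        k.lt_of_ne fun t => h (congrArg _ ((List.idxOf_inj (mL c)).1 t))
      rw [← a.1] at e3
      rw [← b.1] at e4
      exact n (e1.symm.trans ((n1 _ _ _ _ (four (mL d4) (lt (e1 ▸ e2 ▸ n) (by omega))
        (lt (e2 ▸ e3 ▸ n.symm) (by omega)) (lt (e3 ▸ e4 ▸ n) (by omega))) (e1.trans e3.symm)
        (e2.trans e4.symm)).trans e2))
    · obtain ⟨d, rfl, rfl⟩ := a
      obtain ⟨d', rfl, rfl⟩ := b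
      simp only [x2] at h1 h2 h3
      rcases Sym2.eq_iff.1 (n2 _ _ _ _ (four (a := d.1) (b := d'.1) (c := d.sw.1) (mL d'.sw) (by omega)
        (by omega) (by omega)) Sym2.eq_swap Sym2.eq_swap) with e | e
      · rw [Prod.ext e.1 e.2] at h1
        omega
      · rw [show d.sw.1 = d'.1 from Prod.ext e.2 e.1] at h2
        omega
  have hK := fun y z => adj (R := Rl (ι := ι) (W := W) (H := H) m₀) xi rl_symm rl_irr (y := y) (z := z)
  have s1 : W ⊆ insert (ι u) (insert (ι v) W) := fun a h => by simp [h]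
  have s2 : ∀ a ∈ insert (ι u) (insert (ι v) W), a ∈ W ∨ ∃ w, ι w = a := fun a h => by
    simp only [Finset.mem_insert] at h
    rcases h with rfl | rfl | h
    exacts [.inr ⟨_, rfl⟩, .inr ⟨_, rfl⟩, .inl h]
  exact ⟨up hK hι hW h0 s1 s2 (by simp [allW]) (by simp [allW, hι.eq_iff, hW]),
    down hK hι hW h0 s1 s2 (by simp [allW]) (by simp [allW, hι.eq_iff, hW])⟩

end Pool.Agent.Lib.MP_50b5c6_lc.Np
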