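import Pool.Agent.Lib.MP_50b5c6_lc.NpSpec

namespace Pool.Agent.Lib.MP_50b5c6_lc.Np

open Set Function Filter Topology Metric
open scoped ContDiff

namespace Top

variable {V J A : Type}

/-- an arc run from one of its ends -/
def run (γ : A → ℝ → ℂ) (d : A × Bool) (t : ℝ) : ℂ := γ d.1 (if d.2 then 1 - t else t)

theorem run_deriv {γ : A → ℝ → ℂ} {d : A × Bool} (h : ContDiff ℝ ∞ (γ d.1)) :
    HasDerivAt (run γ d) (vel γ d) 0 := by
  obtain ⟨a, _ | _⟩ := d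
  · exact (h.differentiable (by simp) 0).hasDerivAt
  · have := ((h.differentiable (by simp) (1 - 0)).hasDerivAt).scomp (0 : ℝ)
      ((hasDerivAt_id (0 : ℝ)).const_sub 1)
    rw [sub_zero, neg_one_smul] at this
    exact this

theorem dirs (ends : A × Bool → V ⊕ J) (v : A × Bool → ℂ) (v0 : ∀ d, v d ≠ 0)
    (h : ∀ j d d', ends d = .inr j → ends d' = .inr j → ∃ r : ℝ, v d' = r • v d) :
    ∃ (side : A × Bool → Bool) (u : J × Bool → ℂ), (∀ x, u x ≠ 0) ∧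
      (∀ j s s', s ≠ s' → u (j, s') = -u (j, s)) ∧
      ∀ d j, ends d = .inr j → ∃ r > (0 : ℝ), v d = r • u (j, side d) := by
  classical
  have : ∀ j, ∃ w ≠ 0, ∀ d, ends d = .inr j → ∃ r : ℝ, v d = r • w := fun j => by
    by_cases e : ∃ d, ends d = .inr j
    · exact e.elim fun d e => ⟨v d, v0 d, fun d' => h j d d' e⟩
    · exact ⟨1, one_ne_zero, fun d e' => (e ⟨d, e'⟩).elim⟩
  choose w w0 hw using this
  refine ⟨fun d => decide (∃ j, ends d = .inr j ∧ ∃ r > (0 : ℝ), v d = r • w j),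
    fun x => if x.2 then w x.1 else -w x.1, ?_, ?_, fun d j e => ?_⟩
  · rintro ⟨j, _ | _⟩ <;> simp [w0]
  · rintro j (_ | _) (_ | _) <;> simp
  · by_cases c : ∃ j, ends d = .inr j ∧ ∃ r > (0 : ℝ), v d = r • w j
    · simp only [c, decide_true, if_true]
      obtain ⟨j', e', c⟩ := c
      cases e.symm.trans e'
      exact c
    · obtain ⟨r, hr⟩ := hw j d e
      have r0 : r ≠ 0 := fun z => v0 d (by rw [hr, z, zero_smul])
      exact ⟨-r, neg_pos.2 (lt_of_le_of_ne (not_lt.1 fun p => c ⟨j, e, r, p, hr⟩) r0),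
        by simp only [c, decide_false, Bool.false_eq_true, if_false, neg_smul_neg, ← hr]⟩

theorem ray {u : Bool → ℂ} (u0 : ∀ s, u s ≠ 0) (hu : ∀ s s', s ≠ s' → u s' = -u s) {r r' : ℝ}
    (r0 : 0 < r) (r1 : 0 < r') {s s' : Bool} : SameRay ℝ (-(r • u s)) (r' • u s') ↔ s ≠ s' := by
  refine ⟨?_, fun h => ?_⟩
  · rintro h rfl
    obtain ⟨a, b, a0, b0, e⟩ := h.exists_pos (by simp [r0.ne', u0]) (by simp [r1.ne', u0])
    have : (b * r' + a * r) • u s = 0 := by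
      rw [add_smul, mul_smul, mul_smul, ← e, smul_neg, neg_add_cancel]
    exact (smul_ne_zero (by positivity) (u0 s)) this
  · rw [hu s s' h, ← smul_neg]
    exact (SameRay.rfl.pos_smul_left r0).pos_smul_right r1

theorem sym {X : Type} {R R' : X → X → Prop} (h : ∀ a b, R' a b → R a b ∨ R b a) (p : Pl R) :
    Pl R' :=
  let ⟨L, a, b, c⟩ := p
  ⟨L, a, fun x y e => (h x y e).elim (b x y) fun e => (b y x e).symm, c⟩

/-- the sizes of the discs and of the caps -/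
theorem sizes {N D Y : Type} [Finite N] [Finite D] [Finite Y] {pos : N → ℂ} {c : D → ℝ → ℂ}
    {ends : D → N} {v : D → ℂ} (w : Y → ℂ) (hp : Injective pos)
    (cc : ∀ d, Continuous (c d)) (cd : ∀ d, HasDerivAt (c d) (v d) 0)
    (c0 : ∀ d, c d 0 = pos (ends d)) (cn : ∀ d, ∀ t ∈ Ioo (0 : ℝ) 1, ∀ n, c d t ≠ pos n)
    (v0 : ∀ d, v d ≠ 0) :
    ∃ τ ρ t₀ δ : ℝ, τ ≤ 1 / 3 ∧ 0 < t₀ ∧ t₀ ≤ τ ∧ 0 < δ ∧
      Pairwise (Disjoint on fun n => closedBall (pos n) ρ) ∧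
      (∀ d n, ∀ t ∈ Icc (0 : ℝ) (2 / 3), c d t ∈ closedBall (pos n) ρ → ends d = n ∧ t < τ) ∧
      (∀ d, ∀ t ∈ Ioc 0 τ, inner ℝ (v d) (pos (ends d)) < inner ℝ (v d) (c d t)) ∧
      (∀ d, c d t₀ ∈ closedBall (pos (ends d)) ρ) ∧
      (∀ d x, inner ℝ (w x) (pos (ends d)) < inner ℝ (w x) (c d t₀) →
        inner ℝ (w x) (pos (ends d) + δ • w x) ≤ inner ℝ (w x) (c d t₀)) ∧
      ∀ n x, pos n + δ • w x ∈ closedBall (pos n) ρ := by
  have h1 : ∀ᶠ t in 𝓝[>] (0 : ℝ), ∀ d, inner ℝ (v d) (pos (ends d)) < inner ℝ (v d) (c d t) := by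
    refine eventually_all.2 fun d => ?_
    have := ((hasDerivAt_const (0 : ℝ) (v d)).inner ℝ (cd d)).tendsto_slope_zero_right
    rw [inner_zero_left, add_zero] at this
    filter_upwards [this.eventually (lt_mem_nhds (real_inner_self_pos.2 (v0 d))),
      self_mem_nhdsWithin] with t ht t0
    rw [zero_add, c0, smul_eq_mul] at ht
    exact sub_pos.1 ((mul_pos_iff_of_pos_left (inv_pos.2 t0)).1 ht)
  obtain ⟨τ₁, τ₀, h1⟩ := mem_nhdsGT_iff_exists_Ioc_subset.1 h1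
  obtain ⟨τ, τ0, τ1, τ2⟩ : ∃ τ > (0 : ℝ), τ ≤ 1 / 3 ∧ τ ≤ τ₁ :=
    ⟨min (1 / 3) τ₁, lt_min (by norm_num) τ₀, min_le_left _ _, min_le_right _ _⟩
  have h2 : ∀ᶠ ρ in 𝓝 (0 : ℝ), ∀ n n', n ≠ n' →
      Disjoint (closedBall (pos n) ρ) (closedBall (pos n') ρ) := by
    refine eventually_all.2 fun n => eventually_all.2 fun n' => eventually_all.2 fun e => ?_
    have : Tendsto (fun ρ : ℝ => ρ + ρ) (𝓝 0) (𝓝 (0 + 0)) := tendsto_id.add tendsto_id
    exact (this.eventually (gt_mem_nhds (by simpa using hp.ne e))).mono fun ρ =>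
      closedBall_disjoint_closedBall
  have h3 : ∀ᶠ ρ in 𝓝 (0 : ℝ), ∀ d n, ∀ t ∈ Icc (0 : ℝ) (2 / 3), c d t ∈ closedBall (pos n) ρ →
      ends d = n ∧ t < τ := by
    refine eventually_all.2 fun d => eventually_all.2 fun n => ?_
    have k : ∀ s, (∀ t ∈ Icc s (2 / 3), c d t ≠ pos n) → ∀ᶠ ρ in 𝓝 (0 : ℝ), ∀ t ∈ Icc s (2 / 3),
        c d t ∉ closedBall (pos n) ρ := fun s h =>
      (eventually_closedBall_subset ((isCompact_Icc.image (cc d)).isClosed.isOpen_compl.mem_nhds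
        fun ⟨t, a, b⟩ => h t a b)).mono fun ρ e t a b => e b ⟨t, a, rfl⟩
    by_cases e : ends d = n
    · refine (k τ fun t a => cn d t ⟨τ0.trans_le a.1, by linarith [a.2]⟩ n).mono fun ρ h t a b =>
        ⟨e, not_le.1 fun l => h t ⟨l, a.2⟩ b⟩
    · refine (k 0 fun t a => ?_).mono fun ρ h t a b => (h t a b).elim
      rcases a.1.eq_or_lt with rfl | z
      · exact c0 d ▸ hp.ne e
      · exact cn d t ⟨z, by linarith [a.2]⟩ n
  obtain ⟨ρ, ⟨h2, h3⟩, ρ0⟩ := (((h2.and h3).filter_mono nhdsWithin_le_nhds).and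
    (self_mem_nhdsWithin (s := Ioi 0))).exists
  have h4 : ∀ᶠ t in 𝓝 (0 : ℝ), ∀ d, c d t ∈ closedBall (pos (ends d)) ρ :=
    eventually_all.2 fun d => (cc d).continuousAt.eventually_mem (c0 d ▸ closedBall_mem_nhds _ ρ0)
  obtain ⟨t₀, h4, t0⟩ := ((h4.filter_mono nhdsWithin_le_nhds).and (Ioc_mem_nhdsGT τ0)).exists
  have k : ∀ (p : ℂ) x, Tendsto (fun δ : ℝ => p + δ • w x) (𝓝 0) (𝓝 p) := fun p x => by
    simpa using (tendsto_const_nhds (x := p)).add (tendsto_id.smul_const (w x) (c := (0 : ℝ)))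
  have h5 : ∀ᶠ δ in 𝓝 (0 : ℝ), ∀ d x, inner ℝ (w x) (pos (ends d)) < inner ℝ (w x) (c d t₀) →
      inner ℝ (w x) (pos (ends d) + δ • w x) ≤ inner ℝ (w x) (c d t₀) :=
    eventually_all.2 fun d => eventually_all.2 fun x => eventually_all.2 fun e =>
      ((tendsto_const_nhds.inner (k _ x)).eventually (gt_mem_nhds e)).mono fun _ => le_of_lt
  have h6 : ∀ᶠ δ in 𝓝 (0 : ℝ), ∀ n x, pos n + δ • w x ∈ closedBall (pos n) ρ :=
    eventually_all.2 fun n => eventually_all.2 fun x => k _ x (closedBall_mem_nhds _ ρ0)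
  obtain ⟨δ, ⟨h5, h6⟩, δ0⟩ := (((h5.and h6).filter_mono nhdsWithin_le_nhds).and
    (self_mem_nhdsWithin (s := Ioi 0))).exists
  exact ⟨τ, ρ, t₀, δ, τ1, t0.1, t0.2, δ0, h2, h3, fun d t a => h1 ⟨a.1, a.2.trans τ2⟩ d, h4, h5, h6⟩

theorem plan (ht : TouchSt) [Finite V] [Finite J] [Finite A] {pos : V ⊕ J → ℂ}
    {c : A × Bool → ℝ → ℂ} {ends : A × Bool → V ⊕ J} {v : A × Bool → ℂ} {side : A × Bool → Bool}
    {u : J × Bool → ℂ} (hp : Injective pos) (cc : ∀ d, Continuous (c d))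
    (cd : ∀ d, HasDerivAt (c d) (v d) 0) (c0 : ∀ d, c d 0 = pos (ends d))
    (cn : ∀ d, ∀ t ∈ Ioo (0 : ℝ) 1, ∀ n, c d t ≠ pos n) (v0 : ∀ d, v d ≠ 0)
    (cf : ∀ a t, c (a, true) t = c (a, false) (1 - t))
    (ci : ∀ d d', ∀ t ∈ Ioo (0 : ℝ) 1, ∀ t' ∈ Ioo (0 : ℝ) 1, c d t = c d' t' →
      d.1 = d'.1 ∧ (d.2 ≠ d'.2 → t + t' = 1)) (u0 : ∀ x, u x ≠ 0)
    (us : ∀ j s s', s ≠ s' → u (j, s') = -u (j, s))
    (hu : ∀ d j, ends d = .inr j → ∃ r > (0 : ℝ), v d = r • u (j, side d)) :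
    Pl (split ends side).Adj := by
  obtain ⟨U, U0, U1⟩ : ∃ U : V ⊕ (J × Bool) → ℂ, (∀ x, U (.inl x) = 0) ∧ ∀ y, U (.inr y) = u y :=
    ⟨Sum.elim 0 u, fun _ => rfl, fun _ => rfl⟩
  obtain ⟨τ, ρ, t₀, δ, τ1, t0, t1, δ0, f1, f2, f3, f4, f5, f6⟩ := sizes U hp cc cd c0 cn v0
  let b : V ⊕ (J × Bool) → V ⊕ J := Sum.map id Prod.fst
  have nb : ∀ d, b (node ends side d) = ends d := fun d => by
    unfold node
    cases ends d <;> rfl
  let K : V ⊕ (J × Bool) → Set ℂ := fun x => closedBall (pos (b x)) ρ ∩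
    {z | inner ℝ (U x) (pos (b x) + δ • U x) ≤ inner ℝ (U x) z}
  have K0 : ∀ x, pos (b x) + δ • U x ∈ K x := fun x => ⟨f6 _ x, le_refl (inner ℝ (U x) _)⟩
  have K1 : ∀ x, IsPreconnected (K x) := fun x => ((convex_closedBall _ _).inter
    (convex_halfSpace_ge ⟨inner_add_right _, fun r y => real_inner_smul_right _ y r⟩ _)).isPreconnected
  have K2 : ∀ x y, ∀ z ∈ K x, b x = b y → inner ℝ (U y) (pos (b y)) ≤ inner ℝ (U y) z → x = y := by
    rintro (x | ⟨j, s⟩) (y | ⟨j', s'⟩) z ⟨-, a⟩ e h <;> cases e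
    · rfl
    · by_contra n
      have := mul_pos δ0 (real_inner_self_pos.2 (u0 (j, s)))
      simp only [mem_ofPred_eq, U1, us j s s' fun e => n (by rw [e]), inner_neg_left,
        inner_add_right, real_inner_smul_right] at a h
      exact (neg_le_neg_iff.1 h).not_gt ((lt_add_of_pos_right _ this).trans_le a)
  have hs : ∀ d, ∀ t ∈ Ioc 0 τ, U (node ends side d) = 0 ∨ inner ℝ (U (node ends side d))
      (pos (ends d)) < inner ℝ (U (node ends side d)) (c d t) := fun d t a => by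
    have := f3 d t a
    unfold node
    rcases e : ends d with x | j
    · exact .inl (U0 x)
    · obtain ⟨r, r0, hr⟩ := hu d j e
      rw [hr, real_inner_smul_left, real_inner_smul_left, e] at this
      exact .inr (U1 _ ▸ lt_of_mul_lt_mul_left this r0.le)
  have K3 : ∀ d, c d t₀ ∈ K (node ends side d) := fun d => ⟨(nb d).symm ▸ f4 d,
    (hs d t₀ ⟨t0, t1⟩).elim (fun e => by simp [e]) fun e => by
      simpa only [mem_ofPred_eq, nb] using f5 d _ e⟩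
  have K4 : ∀ x d, ∀ t ∈ Icc t₀ (1 / 3), c d t ∈ K x → x = node ends side d := fun x d t a h => by
    obtain ⟨e, l⟩ := f2 d _ t ⟨t0.le.trans a.1, by linarith [a.2]⟩ h.1
    refine K2 x _ _ h (by rw [nb, e]) ?_
    rw [nb]
    exact (hs d t ⟨t0.trans_le a.1, l.le⟩).elim (fun e => by simp [e]) le_of_lt
  have i1 : ∀ t ∈ Icc t₀ (1 / 3), t ∈ Ioo (0 : ℝ) 1 := fun t a =>
    ⟨t0.trans_le a.1, by linarith [a.2]⟩
  have i2 : ∀ t ∈ Icc (1 / 3 : ℝ) (2 / 3), t ∈ Ioo (0 : ℝ) 1 := fun t a =>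
    ⟨by linarith [a.1], by linarith [a.2]⟩
  have m : ∀ a n, ∀ t ∈ Icc (1 / 3 : ℝ) (2 / 3), c (a, false) t ∉ closedBall (pos n) ρ :=
    fun a n t h e => by linarith [(f2 _ n t ⟨by linarith [h.1], h.2⟩ e).2, h.1]
  refine sym ?_ (ht (V ⊕ (J × Bool)) (A ⊕ J)
    (Sum.elim (fun a => node ends side (a, false)) fun j => .inr (j, true))
    (Sum.elim (fun a => node ends side (a, true)) fun j => .inr (j, false))
    (fun x => K x ∪ ⋃ d, ⋃ _ : node ends side d = x, c d '' Icc t₀ (1 / 3))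
    (Sum.elim (fun a => c (a, false) '' Icc (1 / 3) (2 / 3)) fun j => closedBall (pos (.inr j)) ρ)
    (fun x => ⟨?_, ?_⟩) ?_ ?_ ?_ ?_ ?_)
  · rintro x y ⟨n, (⟨⟨a, _ | _⟩, rfl, rfl⟩ | ⟨j, rfl, rfl⟩) | ⟨⟨a, _ | _⟩, rfl, rfl⟩ | ⟨j, rfl, rfl⟩⟩
    exacts [.inl ⟨n, .inl a, rfl, rfl⟩, .inr ⟨n.symm, .inl a, rfl, rfl⟩, .inl ⟨n, .inr j, rfl, rfl⟩,
      .inr ⟨n.symm, .inl a, rfl, rfl⟩, .inl ⟨n, .inl a, rfl, rfl⟩, .inr ⟨n.symm, .inr j, rfl, rfl⟩]
  · exact ((isCompact_closedBall _ _).inter_right (isClosed_le continuous_const (by fun_prop))).union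
      (isCompact_iUnion fun d => isCompact_iUnion fun _ => isCompact_Icc.image (cc d))
  · refine isPreconnected_of_forall (pos (b x) + δ • U x) ?_
    simp only [mem_union, mem_iUnion]
    rintro z (h | ⟨d, rfl, h⟩)
    · exact ⟨K x, subset_union_left, K0 x, h, K1 x⟩
    · exact ⟨K _ ∪ c d '' Icc t₀ (1 / 3), union_subset_union_right _ (subset_iUnion₂_of_subset d rfl
        subset_rfl), .inl (K0 _), .inr h, (K1 _).union _ (K3 d) ⟨t₀, ⟨le_rfl, t1.trans τ1⟩, rfl⟩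
          (isPreconnected_Icc.image _ (cc d).continuousOn)⟩
  · rintro (a | j)
    · exact ⟨isCompact_Icc.image (cc _), isPreconnected_Icc.image _ (cc _).continuousOn⟩
    · exact ⟨isCompact_closedBall _ _, (convex_closedBall _ _).isPreconnected⟩
  · refine fun x y n => disjoint_left.2 ?_
    simp only [mem_union, mem_iUnion]
    rintro z (h | ⟨d, rfl, t, a, rfl⟩) (h' | ⟨d', rfl, t', a', e⟩)
    · refine n (K2 x y z h (by_contra fun e => disjoint_left.1 (f1 e) h.1 h'.1) (le_trans ?_ h'.2))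
      rw [inner_add_right, real_inner_smul_right]
      exact le_add_of_nonneg_right (mul_nonneg δ0.le real_inner_self_nonneg)
    · exact n (K4 x d' t' a' (e ▸ h))
    · exact n (K4 y d t a h').symm
    · obtain ⟨p, q⟩ := ci d' d t' (i1 _ a') t (i1 _ a) e
      exact n (congrArg _ (Prod.ext p.symm (by_contra fun e => by
        linarith [q (Ne.symm e), a.2, a'.2])))
  · rintro (a | j) (a' | j') n <;> refine disjoint_left.2 ?_
    · rintro _ ⟨t, h, rfl⟩ ⟨t', h', e⟩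
      exact n (congrArg _ (ci _ _ t' (i2 _ h') t (i2 _ h) e).1.symm)
    · rintro _ ⟨t, h, rfl⟩ e
      exact m a _ t h e
    · rintro _ e ⟨t, h, rfl⟩
      exact m a' _ t h e
    · exact disjoint_left.1 (f1 fun e => n (by cases e; rfl))
  · rintro (a | j) x n n' <;> refine disjoint_left.2 ?_ <;> simp only [mem_union, mem_iUnion]
    · rintro _ ⟨t, h, rfl⟩ (e | ⟨⟨a', s⟩, rfl, t', h', e⟩)
      · exact m a _ t h e.1
      · cases (ci _ _ t' (i1 _ h') t (i2 _ h) e).1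
        cases s
        exacts [n rfl, n' rfl]
    · have : b x ≠ .inr j := by
        rcases x with x | ⟨j', _ | _⟩ <;> rintro ⟨⟩
        exacts [n' rfl, n rfl]
      rintro z h (e | ⟨d, rfl, t, a, rfl⟩)
      · exact disjoint_left.1 (f1 this) e.1 h
      · exact this ((nb d).trans (f2 d _ t ⟨t0.le.trans a.1, by linarith [a.2]⟩ h).1)
  · rintro (a | j)
    · have k : ∀ d, c d (1 / 3) ∈ K (node ends side d) ∪
          ⋃ d', ⋃ _ : node ends side d' = node ends side d, c d' '' Icc t₀ (1 / 3) := fun d =>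
        .inr (mem_iUnion₂.2 ⟨d, rfl, _, ⟨t1.trans τ1, le_rfl⟩, rfl⟩)
      exact ⟨⟨_, ⟨_, ⟨le_rfl, by norm_num⟩, rfl⟩, k _⟩,
        ⟨_, ⟨1 - 1 / 3, by norm_num, (cf a _).symm⟩, k _⟩⟩
    · exact ⟨⟨_, (K0 (.inr (j, true))).1, .inl (K0 _)⟩, ⟨_, (K0 (.inr (j, false))).1, .inl (K0 _)⟩⟩

end Top

theorem top (ht : TouchSt) : TopSt := by
  rintro V _ G ⟨J, A, _, _, pos, γ, ends, hp, h1, h2, h3, h4⟩
  have v0 : ∀ d, vel γ d ≠ 0 := by
    rintro ⟨a, _ | _⟩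
    · exact (h1 a).2.2.1 0 ⟨le_rfl, zero_le_one⟩
    · exact neg_ne_zero.2 ((h1 a).2.2.1 1 ⟨zero_le_one, le_rfl⟩)
  obtain ⟨side, u, u0, us, hu⟩ := Top.dirs ends (vel γ) v0 h3
  have i : ∀ d : A × Bool, ∀ t ∈ Ioo (0 : ℝ) 1, (if d.2 then 1 - t else t) ∈ Ioo (0 : ℝ) 1 := by
    rintro ⟨a, _ | _⟩ t h
    exacts [h, ⟨sub_pos.2 h.2, sub_lt_self _ h.1⟩]
  refine ⟨J, A, inferInstance, inferInstance, ends, side, fun a b ab => ?_,
    Top.plan ht (c := Top.run γ) hp ?_ (fun d => Top.run_deriv (h1 _).1) ?_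
      (fun d t h => (h2 _ _ (i d t h)).1) v0 (fun _ _ => rfl) (fun d d' t h t' h' e => ?_) u0 us hu⟩
  · rw [h4 a b ab]
    refine exists_congr fun l => and_congr_right' (and_congr_right' (and_congr
      (List.IsChain.iff fun d d' => and_congr_right ?_) (forall_true_left _)))
    rintro ⟨j, e, e'⟩
    obtain ⟨r, r0, hr⟩ := hu _ j e
    obtain ⟨r', r1, hr'⟩ := hu _ j e'
    rw [hr, hr']
    exact Top.ray (u := fun s => u (j, s)) (fun s => u0 _) (us j) r0 r1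
  · rintro ⟨a, _ | _⟩
    exacts [(h1 a).1.continuous, (h1 a).1.continuous.comp (continuous_sub_left 1)]
  · rintro ⟨a, _ | _⟩
    exacts [(h1 a).2.2.2.1, (congrArg (γ a) (sub_zero 1)).trans (h1 a).2.2.2.2]
  · have p : d.1 = d'.1 := by_contra fun n =>
      (h2 _ _ (i d t h)).2 _ (Ne.symm n) _ (Ioo_subset_Icc_self (i d' t' h')) e
    obtain ⟨a, s⟩ := d
    obtain ⟨a', s'⟩ := d'
    cases p
    have := (h1 a).2.1 (Ioo_subset_Icc_self (i (a, s) t h)) (Ioo_subset_Icc_self (i (a, s') t' h')) e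
    refine ⟨rfl, ?_⟩
    cases s <;> cases s' <;> simp at this ⊢ <;> linarith

end Pool.Agent.Lib.MP_50b5c6_lc.Np
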