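import Pool.Agent.Lib.MP_50b5c6_lc.NpSpec

set_option autoImplicit false

namespace Pool.Agent.Lib.MP_50b5c6_lc.Np

open Pf Function

lemma HasPM.add {X : Type} [DecidableEq X] {H : SimpleGraph X} {S : Finset X} (h : HasPM H S)
    {x y : X} (hx : x ∉ S) (hy : y ∉ S) (ha : H.Adj x y) : HasPM H (insert x (insert y S)) := by
  obtain ⟨m, hm⟩ := h
  have hxy : y ≠ x := ha.ne'
  refine ⟨fun z => if z = x then y else if z = y then x else m z, fun z hz => ?_⟩
  by_cases h1 : z = x
  · subst h1; simp [hxy, ha]
  by_cases h2 : z = y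
  · subst h2; simp [h1, ha.symm]
  have hz' : z ∈ S := by simpa [h1, h2] using hz
  obtain ⟨a, b, c⟩ := hm z hz'
  have h3 : m z ≠ x := fun e => hx (e ▸ a)
  have h4 : m z ≠ y := fun e => hy (e ▸ a)
  simp [h1, h2, h3, h4, a, b, c]

lemma pm_del {X : Type} {H : SimpleGraph X} {S S' : Finset X} {m : X → X} (hm : IsPM H S m)
    {x : X} (hx : x ∈ S) (h : ∀ z, z ∈ S' ↔ z ∈ S ∧ z ≠ x ∧ z ≠ m x) : IsPM H S' m := by
  intro z hz
  obtain ⟨a, b, c⟩ := (h z).1 hz
  obtain ⟨d, e, f⟩ := hm z a
  refine ⟨(h _).2 ⟨d, fun g => c (by rw [← g, f]), fun g => b ?_⟩, e, f⟩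
  rw [← f, g, (hm x hx).2.2]

section
variable {V J A : Type} (ends : A × Bool → V ⊕ J) (side : A × Bool → Bool)

lemma node_inl {d : A × Bool} {u : V} : node ends side d = .inl u ↔ ends d = .inl u := by
  unfold node; cases ends d <;> simp

lemma node_inr {d : A × Bool} {j : J} {b : Bool} :
    node ends side d = .inr (j, b) ↔ ends d = .inr j ∧ side d = b := by
  unfold node; cases ends d <;> simp

lemma split_dart {d : A × Bool} (h : node ends side d ≠ node ends side (d.1, !d.2)) :
    (split ends side).Adj (node ends side d) (node ends side (d.1, !d.2)) :=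
  (SimpleGraph.fromRel_adj _ _ _).2 ⟨h, .inl (.inl ⟨d, rfl, rfl⟩)⟩

lemma split_jun (j : J) (b : Bool) : (split ends side).Adj (.inr (j, b)) (.inr (j, !b)) := by
  refine (SimpleGraph.fromRel_adj _ _ _).2 ⟨by simp, ?_⟩
  cases b
  · exact .inr (.inr ⟨j, rfl, rfl⟩)
  · exact .inl (.inr ⟨j, rfl, rfl⟩)

lemma split_cases {x y : V ⊕ (J × Bool)} (h : (split ends side).Adj x y) :
    (∃ d, node ends side d = x ∧ node ends side (d.1, !d.2) = y) ∨
      ∃ j b, x = .inr (j, b) ∧ y = .inr (j, !b) := by
  obtain ⟨-, (⟨d, a, b⟩ | ⟨j, a, b⟩) | (⟨d, a, b⟩ | ⟨j, a, b⟩)⟩ :=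
    (SimpleGraph.fromRel_adj _ _ _).1 h
  · exact .inl ⟨d, a, b⟩
  · exact .inr ⟨j, true, a, b⟩
  · exact .inl ⟨(d.1, !d.2), b, by simpa using a⟩
  · exact .inr ⟨j, false, b, a⟩

/-- smooth path from the node `x` to `v` through junctions of `T` -/
def SPf (T : Finset J) (x : V ⊕ (J × Bool)) (v : V) (l : List (A × Bool)) : Prop :=
  l.head?.map (node ends side) = some x ∧
    l.getLast?.map (fun d => ends (d.1, !d.2)) = some (.inl v) ∧
    l.IsChain (fun d d' => (∃ j, ends (d.1, !d.2) = .inr j ∧ ends d' = .inr j) ∧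
      side (d.1, !d.2) ≠ side d') ∧
    (l.map fun d => ends (d.1, !d.2)).Nodup ∧
    ∀ d ∈ l, ∀ j, ends (d.1, !d.2) = .inr j → j ∈ T

variable [DecidableEq V] [DecidableEq J]

/-- both sides of the junctions of `T` -/
def WT (V : Type) (T : Finset J) : Finset (V ⊕ (J × Bool)) :=
  (T ×ˢ Finset.univ).map Function.Embedding.inr

omit [DecidableEq V] [DecidableEq J] in
@[simp] lemma inr_WT {T : Finset J} {p : J × Bool} :
    (Sum.inr p : V ⊕ (J × Bool)) ∈ WT V T ↔ p.1 ∈ T := by
  obtain ⟨j, b⟩ := p
  simp [WT]

omit [DecidableEq V] [DecidableEq J] in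
@[simp] lemma inl_WT {T : Finset J} {u : V} : (Sum.inl u : V ⊕ (J × Bool)) ∉ WT V T := by
  simp [WT]

omit [DecidableEq V] [DecidableEq J] in
lemma pm_WT (T : Finset J) : HasPM (split ends side) (WT V T) := by
  refine ⟨Sum.map id fun p => (p.1, !p.2), fun z hz => ?_⟩
  rcases z with u | ⟨j, b⟩
  · simp at hz
  · exact ⟨by simpa using hz, split_jun ends side j b, by simp⟩

lemma pm_of_path (v : V) (l : List (A × Bool)) : ∀ (T : Finset J) (x : V ⊕ (J × Bool)),
    x ∉ WT V T → x ≠ .inl v → SPf ends side T x v l →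
    HasPM (split ends side) (insert x (insert (.inl v) (WT V T))) := by
  induction l with
  | nil => intro T x _ _ h; simp [SPf] at h
  | cons d l ih =>
    intro T x hx hv ⟨h1, h2, h3, h4, h5⟩
    have e1 : node ends side d = x := by simpa using h1
    cases l with
    | nil =>
      have e2 : node ends side (d.1, !d.2) = .inl v := (node_inl ends side).2 (by simpa using h2)
      refine (pm_WT ends side T).add hx inl_WT ?_
      rw [← e1, ← e2]
      exact split_dart ends side (by rw [e1, e2]; exact hv)
    | cons d' l =>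
      obtain ⟨⟨⟨j, a1, a2⟩, a3⟩, h3'⟩ := List.isChain_cons_cons.1 h3
      have hj : j ∈ T := h5 d (by simp) j a1
      rw [List.map_cons, List.nodup_cons] at h4
      have e2 : node ends side (d.1, !d.2) = .inr (j, side (d.1, !d.2)) :=
        (node_inr ends side).2 ⟨a1, rfl⟩
      have e3 : node ends side d' = .inr (j, side d') := (node_inr ends side).2 ⟨a2, rfl⟩
      have hxj : ∀ b, x ≠ .inr (j, b) := fun b e => hx (by simpa [e] using hj)
      have := ih (T.erase j) (.inr (j, side d')) (by simp) (by simp)
        ⟨by simpa using e3, by simpa [List.getLast?_cons_cons] using h2, h3', h4.2,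
          fun e he k hk => Finset.mem_erase.2 ⟨fun g => h4.1 (List.mem_map.2 ⟨e, he, by
            rw [hk, g, a1]⟩), h5 e (List.mem_cons_of_mem _ he) k hk⟩⟩
      have h6 := this.add (x := x) (y := .inr (j, side (d.1, !d.2)))
        (by
          simp only [Finset.mem_insert, not_or]
          refine ⟨hxj _, hv, fun g => hx ?_⟩
          rcases x with u | p
          · simp at g
          · simp at g ⊢; exact g.2)
        (by simp [a3])
        (by rw [← e1, ← e2]; exact split_dart ends side (by rw [e1, e2]; exact hxj _))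
      convert h6 using 2
      ext z
      rcases z with u | ⟨k, b⟩
      · simp
      · by_cases g : k = j
        · subst g
          revert a3
          cases side (d.1, !d.2) <;> cases side d' <;> cases b <;> simp [hj]
        · simp [g]

lemma path_of_pm (v : V) (n : ℕ) : ∀ (T : Finset J) (x : V ⊕ (J × Bool)), T.card = n →
    x ∉ WT V T → x ≠ .inl v → HasPM (split ends side) (insert x (insert (.inl v) (WT V T))) →
    ∃ l, SPf ends side T x v l := by
  induction n using Nat.strong_induction_on with
  | _ n ih =>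
  intro T x hn hx hv ⟨m, hm⟩
  obtain ⟨a, b, c⟩ := hm x (by simp)
  have hd : ∃ d, node ends side d = x ∧ node ends side (d.1, !d.2) = m x := by
    refine (split_cases ends side b).resolve_right ?_
    rintro ⟨j, s, e1, e2⟩
    rw [e2, e1] at a
    rw [e1] at hx
    simp at a hx
    exact hx a
  obtain ⟨d, e1, e2⟩ := hd
  rcases hy : m x with w | ⟨j, s⟩
  · have : w = v := by
      have h1 := b.ne'
      rw [hy] at a h1
      simpa [h1] using a
    subst this
    have e3 := (node_inl ends side).1 (e2.trans hy)
    exact ⟨[d], by simpa using e1, by simpa using e3, by simp, by simp, by simp [e3]⟩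
  · have hj : j ∈ T := by
      have h1 := b.ne'
      rw [hy] at a h1
      simpa [h1] using a
    obtain ⟨e3, e4⟩ := (node_inr ends side).1 (e2.trans hy)
    have hxj : ∀ b, x ≠ .inr (j, b) := fun b e => hx (by simpa [e] using hj)
    obtain ⟨l, h1, h2, h3, h4, h5⟩ := ih _ (hn ▸ Finset.card_erase_lt_of_mem hj) (T.erase j)
      (.inr (j, !s)) rfl (by simp) (by simp) ⟨m, pm_del hm (x := x) (by simp) fun z => by
        rw [hy]
        by_cases g : z = x
        · subst g
          simp only [Finset.mem_insert, ne_eq, not_true, false_and, and_false, iff_false, not_or]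
          refine ⟨hxj _, hv, fun g => hx ?_⟩
          rcases z with u | p
          · simp at g
          · simp at g ⊢; exact g.2
        · rcases z with u | ⟨k, t⟩
          · simp [g]
          · by_cases g' : k = j
            · subst g'
              cases s <;> cases t <;> simp [g, hj]
            · simp [g, g']⟩
    cases l with
    | nil => simp at h1
    | cons d' l =>
      obtain ⟨e5, e6⟩ := (node_inr ends side).1 (show node ends side d' = _ by simpa using h1)
      refine ⟨d :: d' :: l, by simpa using e1, by simpa [List.getLast?_cons_cons] using h2,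
        List.isChain_cons_cons.2 ⟨⟨⟨j, e3, e5⟩, by rw [e4, e6]; simp⟩, h3⟩, ?_, ?_⟩
      · rw [List.map_cons, List.nodup_cons]
        refine ⟨fun g => ?_, h4⟩
        obtain ⟨e, he, g⟩ := List.mem_map.1 g
        simpa using h5 e he j (g.trans e3)
      · intro e he k hk
        rcases List.mem_cons.1 he with rfl | he
        · rw [e3] at hk
          obtain rfl : j = k := by simpa using hk
          exact hj
        · exact Finset.mem_of_mem_erase (h5 e he k hk)

end

theorem track : TrackSt := by
  intro V J A _ _ _ ends side u v huv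
  have e : allW V J = WT V Finset.univ := by rw [allW, WT, Finset.univ_product_univ]
  have hv : (Sum.inl u : V ⊕ (J × Bool)) ≠ .inl v := by simpa using huv
  have hh : ∀ l : List (A × Bool), l.head?.map (node ends side) = some (.inl u) ↔
      l.head?.map ends = some (.inl u) := fun l => by
    cases l <;> simp [node_inl]
  rw [e]
  constructor
  · rintro ⟨l, h1, h2, h3, h4⟩
    exact pm_of_path ends side v l _ _ inl_WT hv ⟨(hh l).2 h1, h2, h3, h4, by simp⟩
  · intro h
    obtain ⟨l, h1, h2, h3, h4, -⟩ := path_of_pm ends side v _ _ _ rfl inl_WT hv h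
    exact ⟨l, (hh l).1 h1, h2, h3, h4⟩

end Pool.Agent.Lib.MP_50b5c6_lc.Np
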