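import Pool.Agent.Lib.MP_50b5c6_lc.Three

set_option autoImplicit false

namespace Pool.Agent.Lib.MP_50b5c6_lc.Pf

open Finset

variable {V : Type*} [Fintype V] [DecidableEq V]

/-- a Tutte barrier `U` of the subgraph induced on `S`, with a labelling `c` that is constant along
edges outside `U` and has more odd classes than `U` has elements -/
def Bar (H : SimpleGraph V) (S U : Finset V) (c : V → V) : Prop :=
  (∀ x ∈ S \ U, ∀ y ∈ S \ U, H.Adj x y → c x = c y) ∧
    U.card < (univ.filter fun a => Odd ((S \ U).filter fun x => c x = a).card).card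

omit [Fintype V] [DecidableEq V] in
lemma even_of_inv (T : Finset V) (m : V → V) (h : ∀ v ∈ T, m v ∈ T ∧ m v ≠ v ∧ m (m v) = v) :
    Even T.card := by
  have := Finset.sum_involution (s := T) (f := fun _ => (1 : ZMod 2)) (fun a _ => m a)
    (fun _ _ => by decide) (fun a ha _ => (h a ha).2.1) (fun a ha => (h a ha).1)
    (fun a ha => (h a ha).2.2)
  rw [sum_const, nsmul_eq_mul, mul_one] at this
  exact (ZMod.natCast_eq_zero_iff_even).1 this

lemma noPM_of_bar {H : SimpleGraph V} {S U : Finset V} {c : V → V} (h : Bar H S U c) :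
    ¬ ∃ m, IsPM H S m := by
  rintro ⟨m, hm⟩
  have key : ∀ a, Odd ((S \ U).filter fun x => c x = a).card →
      ∃ x ∈ S, c x = a ∧ m x ∈ U := by
    intro a ha
    by_contra hc
    push Not at hc
    refine (Nat.not_even_iff_odd.2 ha) (even_of_inv _ m fun v hv => ?_)
    obtain ⟨h1, h2⟩ := mem_filter.1 hv
    have h3 := (mem_sdiff.1 h1).1
    have h4 : m v ∈ S \ U := mem_sdiff.2 ⟨(hm v h3).1, hc v h3 h2⟩
    exact ⟨mem_filter.2 ⟨h4, (h.1 _ h1 _ h4 (hm v h3).2.1).symm.trans h2⟩, (hm v h3).2.1.ne',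
      (hm v h3).2.2⟩
  refine absurd h.2 (not_lt.2 ?_)
  refine card_le_card_of_surjOn (fun u => c (m u)) fun a ha => ?_
  obtain ⟨x, h1, h2, h3⟩ := key a (mem_filter.1 ha).2
  exact ⟨m x, h3, by simp only [(hm x h1).2.2, h2]⟩

lemma bar_of_noPM {H : SimpleGraph V} {S : Finset V} (h : ¬ ∃ m, IsPM H S m) :
    ∃ U c, Bar H S U c := by
  classical
  let G := H.induce (S : Set V)
  have h1 : ¬ ∃ M : G.Subgraph, M.IsPerfectMatching := by
    rintro ⟨M, hM⟩
    rw [SimpleGraph.Subgraph.isPerfectMatching_iff] at hM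
    choose f hf hu using hM
    refine h ⟨fun v => if k : v ∈ S then (f ⟨v, k⟩).1 else v, fun v hv => ?_⟩
    have k : ((f ⟨v, hv⟩).1 : V) ∈ S := (f ⟨v, hv⟩).2
    simp only [dif_pos hv, dif_pos k]
    refine ⟨k, (hf ⟨v, hv⟩).adj_sub, ?_⟩
    exact congrArg Subtype.val (hu (f ⟨v, hv⟩) ⟨v, hv⟩ (hf ⟨v, hv⟩).symm).symm
  rw [SimpleGraph.tutte] at h1
  push Not at h1
  obtain ⟨u, hu⟩ := h1
  let K := ((⊤ : G.Subgraph).deleteVerts u).coe
  let U : Finset V := univ.filter fun v => ∃ k : v ∈ S, (⟨v, k⟩ : (S : Set V)) ∈ u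
  have hU : ∀ x ∈ S \ U, ∃ k : x ∈ S,
      (⟨x, k⟩ : (S : Set V)) ∈ ((⊤ : G.Subgraph).deleteVerts u).verts := by
    intro x hx
    obtain ⟨a, b⟩ := mem_sdiff.1 hx
    refine ⟨a, ?_⟩
    simp only [SimpleGraph.Subgraph.deleteVerts_verts, SimpleGraph.Subgraph.verts_top,
      Set.mem_sdiff, Set.mem_univ, true_and]
    exact fun k => b (mem_filter.2 ⟨mem_univ _, a, k⟩)
  have hU' : ∀ z : ((⊤ : G.Subgraph).deleteVerts u).verts, z.1.1 ∈ S \ U := by
    intro z
    refine mem_sdiff.2 ⟨z.1.2, fun k => ?_⟩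
    obtain ⟨a, b⟩ := (mem_filter.1 k).2
    exact z.2.2 b
  let e : ∀ x ∈ S \ U, ((⊤ : G.Subgraph).deleteVerts u).verts := fun x hx =>
    ⟨⟨x, (mem_sdiff.1 hx).1⟩, (hU x hx).2⟩
  let r : K.ConnectedComponent → V := fun C => C.out.1.1
  have hr : Function.Injective r := fun C D k => by
    have : C.out = D.out := Subtype.ext (Subtype.ext k)
    rw [← C.out_eq, ← D.out_eq]
    exact congrArg _ this
  let c : V → V := fun x => if k : x ∈ S \ U then r (K.connectedComponentMk (e x k)) else x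
  refine ⟨U, c, fun x hx y hy ha => ?_, ?_⟩
  · simp only [c, dif_pos hx, dif_pos hy]
    refine congrArg r (SimpleGraph.ConnectedComponent.connectedComponentMk_eq_of_adj ?_)
    simp only [K, e, SimpleGraph.Subgraph.coe_adj, SimpleGraph.Subgraph.deleteVerts_adj]
    exact ⟨trivial, (hU x hx).2.2, trivial, (hU y hy).2.2, ha⟩
  · have a1 : U.card = u.ncard := by
      rw [← Set.ncard_coe_finset, ← Set.ncard_image_of_injective u Subtype.val_injective]
      congr 1
      ext v
      simp [U]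
    have a2 : K.oddComponents.ncard ≤
        (univ.filter fun a => Odd ((S \ U).filter fun x => c x = a).card).card := by
      rw [← Set.ncard_coe_finset]
      refine Set.ncard_le_ncard_of_injOn r (fun C hC => ?_) hr.injOn
      refine mem_coe.2 (mem_filter.2 ⟨mem_univ _, ?_⟩)
      have : ((S \ U).filter fun x => c x = r C).card = C.supp.ncard := by
        rw [← Set.ncard_coe_finset, ← Set.ncard_image_of_injective C.supp
          (Subtype.val_injective.comp Subtype.val_injective)]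
        congr 1
        ext v
        simp only [coe_filter, Set.mem_ofPred_eq, Set.mem_image, Function.comp]
        constructor
        · rintro ⟨k, l⟩
          simp only [c, dif_pos k] at l
          exact ⟨e v k, hr l, rfl⟩
        · rintro ⟨z, k, rfl⟩
          refine ⟨hU' z, ?_⟩
          simp only [c, dif_pos (hU' z)]
          exact congrArg r k
      rw [this]
      exact hC
    exact a1 ▸ lt_of_lt_of_le hu a2

theorem noPM_iff (H : SimpleGraph V) (S : Finset V) :
    (¬ ∃ m, IsPM H S m) ↔ ∃ U c, Bar H S U c :=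
  ⟨bar_of_noPM, fun ⟨_, _, h⟩ => noPM_of_bar h⟩

end Pool.Agent.Lib.MP_50b5c6_lc.Pf
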