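import Pool.Agent.Lib.MP_50b5c6_lc.NpSpec
import Pool.Agent.Lib.MP_50b5c6_lc.NpTutte
import Pool.Agent.Lib.Complexity.Bridge

/-! The polynomial time verifier. -/

set_option autoImplicit false

namespace Pool.Agent.Lib.MP_50b5c6_lc.Np.Ver

open Pf Pool.Agent.Lib.Complexity N487b59b3 N68a2faeb

abbrev EL := List (ℕ × ℕ)

def adjB (L : EL) (a b : ℕ) : Bool := decide (a ≠ b) && (decide ((a, b) ∈ L) || decide ((b, a) ∈ L))

def inB (n u v x : ℕ) : Bool := decide (n ≤ x) || decide (x = u) || decide (x = v)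

def pmB (N n : ℕ) (L : EL) (u v : ℕ) (m : List ℕ) : Bool :=
  (List.range N).all fun x => !inB n u v x ||
    (decide (m.getD x 0 < N) && inB n u v (m.getD x 0) && adjB L x (m.getD x 0) &&
      decide (m.getD (m.getD x 0) 0 = x))

def outB (n u v : ℕ) (U : List ℕ) (x : ℕ) : Bool := inB n u v x && !decide (x ∈ U)

def barB (N n : ℕ) (L : EL) (u v : ℕ) (c U : List ℕ) : Bool :=
  ((List.range N).all fun x => (List.range N).all fun y =>
    !(outB n u v U x && outB n u v U y && adjB L x y) || decide (c.getD x 0 = c.getD y 0)) &&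
  decide (((List.range N).countP fun x => decide (x ∈ U)) < (List.range N).countP fun a =>
    decide (((List.range N).countP fun x => outB n u v U x && decide (c.getD x 0 = a)) % 2 = 1))

def subB (L : EL) (a b c d : ℕ × ℕ) : Bool :=
  decide ((L.filter fun e => decide (e ∈ [a, b, c, d])) = [a, b, c, d])

def seB (a b : ℕ × ℕ) : Bool := decide (a = b) || decide (a = (b.2, b.1))

def ncB (L : EL) (a b c d : ℕ × ℕ) : Bool :=
  !subB L a b c d ||
    ((!(decide (a.1 = c.1) && decide (b.1 = d.1)) || decide (a.1 = b.1)) &&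
      (!(seB a c && seB b d) || seB a b))

def plB (L : EL) : Bool :=
  (L.all fun d => decide ((L.countP fun e => e == d) ≤ 1) && decide ((d.2, d.1) ∈ L)) &&
    L.all fun a => L.all fun b => L.all fun c => L.all fun d => ncB L a b c d

def ltB (N : ℕ) (L : EL) : Bool := L.all fun d => decide (d.1 < N) && decide (d.2 < N)

def pairB (N n : ℕ) (es L : EL) (u v : ℕ) (w : List ℕ × List ℕ) : Bool :=
  decide (u = v) || (adjB es u v && pmB N n L u v w.1) || (!adjB es u v && barB N n L u v w.1 w.2)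

section pt

variable {α : Type} [Enc α] {L E : α → EL} {N n u v x y : α → ℕ} {m U : α → List ℕ}
  {a b c d : α → ℕ × ℕ}

@[fun_prop] theorem pt_adj (h1 : PT L) (h2 : PT x) (h3 : PT y) :
    PT fun z => adjB (L z) (x z) (y z) := by
  unfold adjB; fun_prop

@[fun_prop] theorem pt_in (h1 : PT n) (h2 : PT u) (h3 : PT v) (h4 : PT x) :
    PT fun z => inB (n z) (u z) (v z) (x z) := by
  unfold inB; fun_prop

@[fun_prop] theorem pt_pm (h0 : PT N) (h1 : PT n) (h2 : PT L) (h3 : PT u) (h4 : PT v) (h5 : PT m) :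
    PT fun z => pmB (N z) (n z) (L z) (u z) (v z) (m z) := by
  unfold pmB; fun_prop

@[fun_prop] theorem pt_out (h1 : PT n) (h2 : PT u) (h3 : PT v) (h4 : PT U) (h5 : PT x) :
    PT fun z => outB (n z) (u z) (v z) (U z) (x z) := by
  unfold outB; fun_prop

@[fun_prop] theorem pt_bar (h0 : PT N) (h1 : PT n) (h2 : PT L) (h3 : PT u) (h4 : PT v) (h5 : PT m)
    (h6 : PT U) : PT fun z => barB (N z) (n z) (L z) (u z) (v z) (m z) (U z) := by
  unfold barB; fun_prop

@[fun_prop] theorem pt_sub (h0 : PT L) (h1 : PT a) (h2 : PT b) (h3 : PT c) (h4 : PT d) :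
    PT fun z => subB (L z) (a z) (b z) (c z) (d z) := by
  unfold subB; fun_prop

@[fun_prop] theorem pt_se (h1 : PT a) (h2 : PT b) : PT fun z => seB (a z) (b z) := by
  unfold seB; fun_prop

@[fun_prop] theorem pt_nc (h0 : PT L) (h1 : PT a) (h2 : PT b) (h3 : PT c) (h4 : PT d) :
    PT fun z => ncB (L z) (a z) (b z) (c z) (d z) := by
  unfold ncB; fun_prop

@[fun_prop] theorem pt_pl (h0 : PT L) : PT fun z => plB (L z) := by
  unfold plB; fun_prop

@[fun_prop] theorem pt_lt (h0 : PT N) (h1 : PT L) : PT fun z => ltB (N z) (L z) := by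
  unfold ltB; fun_prop

@[fun_prop] theorem pt_pair {w : α → List ℕ × List ℕ} (h0 : PT N) (h1 : PT n) (h2 : PT E)
    (h3 : PT L) (h4 : PT u) (h5 : PT v) (h6 : PT w) :
    PT fun z => pairB (N z) (n z) (E z) (L z) (u z) (v z) (w z) := by
  unfold pairB; fun_prop

end pt

abbrev Wt := ℕ × EL × ℕ × EL × List ℕ × List (List (List ℕ × List ℕ))

def chk (w : Wt) : Bool :=
  ltB w.1 w.2.1 && ltB (w.1 + w.2.2.1) w.2.2.2.1 && plB w.2.2.2.1 &&
    pmB (w.1 + w.2.2.1) w.1 w.2.2.2.1 w.1 w.1 w.2.2.2.2.1 &&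
    (List.range w.1).all fun u => (List.range w.1).all fun v =>
      pairB (w.1 + w.2.2.1) w.1 w.2.1 w.2.2.2.1 u v ((w.2.2.2.2.2.getD u []).getD v ([], []))

theorem pt_chk : PT chk := by
  unfold chk; fun_prop

def vv {N : ℕ} (e : Fin N × Fin N) : ℕ × ℕ := (e.1.val, e.2.val)

theorem vv_inj {N : ℕ} : Function.Injective (vv (N := N)) := fun _ _ h =>
  Prod.ext (Fin.ext (congrArg Prod.fst h)) (Fin.ext (congrArg Prod.snd h))

theorem lift {N : ℕ} {L : EL} (h : ltB N L = true) : ∃ L' : List (Fin N × Fin N), L'.map vv = L := by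
  induction L with
  | nil => exact ⟨[], rfl⟩
  | cons d L ih =>
    simp only [ltB, List.all_cons, Bool.and_eq_true, decide_eq_true_eq] at h ih
    obtain ⟨L', rfl⟩ := ih h.2
    exact ⟨(⟨d.1, h.1.1⟩, ⟨d.2, h.1.2⟩) :: L', rfl⟩

theorem lt_map {N : ℕ} (L : List (Fin N × Fin N)) : ltB N (L.map vv) = true := by
  simp [ltB, vv]

/-- the graph of an edge list -/
def gr {N : ℕ} (L : List (Fin N × Fin N)) : SimpleGraph (Fin N) :=
  SimpleGraph.fromRel fun u v => (u, v) ∈ L

theorem adj_iff {N : ℕ} (L : List (Fin N × Fin N)) (a b : Fin N) :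
    adjB (L.map vv) a b = true ↔ (gr L).Adj a b := by
  have k : ∀ a b : Fin N, (a.1, b.1) ∈ L.map vv ↔ (a, b) ∈ L := fun a b =>
    List.mem_map_of_injective (a := (a, b)) vv_inj
  simp only [adjB, gr, SimpleGraph.fromRel_adj, Bool.and_eq_true, Bool.or_eq_true,
    decide_eq_true_eq, k, ne_eq, Fin.ext_iff]

def SS (N n u v : ℕ) : Finset (Fin N) := Finset.univ.filter fun x => inB n u v x = true

theorem pm_sound {N n u v : ℕ} {L : List (Fin N × Fin N)} {m : List ℕ}
    (h : pmB N n (L.map vv) u v m = true) : HasPM (gr L) (SS N n u v) := by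
  simp only [pmB, List.all_eq_true, List.mem_range, Bool.or_eq_true, Bool.not_eq_true',
    Bool.and_eq_true, decide_eq_true_eq] at h
  refine ⟨fun x => if k : m.getD x 0 < N then ⟨_, k⟩ else x, fun x hx => ?_⟩
  have h1 := (Finset.mem_filter.1 hx).2
  obtain ⟨⟨⟨a, b⟩, c⟩, d⟩ := (h x x.2).resolve_left (by simp [h1])
  simp only [dif_pos a]
  refine ⟨Finset.mem_filter.2 ⟨Finset.mem_univ _, b⟩, (adj_iff L x ⟨_, a⟩).1 c, ?_⟩
  rw [dif_pos (d.symm ▸ x.2)]
  exact Fin.ext d

theorem sz_ofFn {N : ℕ} (f : Fin N → Fin N) : sz (List.ofFn fun x => (f x).1) ≤ N * (N + 1) := by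
  have := sz_list_le (l := List.ofFn fun x => (f x).1) (B := N) fun a ha => by
    obtain ⟨x, rfl⟩ := List.mem_ofFn.1 ha
    simp
  simpa using this

theorem getD_ofFn {N : ℕ} (f : Fin N → Fin N) (x : Fin N) :
    (List.ofFn fun x => (f x).1).getD x 0 = f x := by
  simp

theorem pm_compl {N n u v : ℕ} {L : List (Fin N × Fin N)} (h : HasPM (gr L) (SS N n u v)) :
    ∃ m, sz m ≤ N * (N + 1) ∧ pmB N n (L.map vv) u v m = true := by
  obtain ⟨m, hm⟩ := h
  refine ⟨_, sz_ofFn m, ?_⟩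
  simp only [pmB, List.all_eq_true, List.mem_range, Bool.or_eq_true, Bool.not_eq_true',
    Bool.and_eq_true, decide_eq_true_eq]
  intro x hx
  by_cases k : inB n u v x = true
  · obtain ⟨a, b, c⟩ := hm ⟨x, hx⟩ (Finset.mem_filter.2 ⟨Finset.mem_univ _, k⟩)
    have e := getD_ofFn m ⟨x, hx⟩
    simp only at e
    right
    rw [e, getD_ofFn, c]
    exact ⟨⟨⟨Fin.is_lt _, (Finset.mem_filter.1 a).2⟩, (adj_iff L ⟨x, hx⟩ _).2 b⟩, rfl⟩
  · exact Or.inl (by simpa using k)

theorem cnt (N : ℕ) (p : ℕ → Bool) :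
    (List.range N).countP p = (Finset.univ.filter fun x : Fin N => p x = true).card := by
  rw [List.countP_eq_length_filter, ← List.toFinset_card_of_nodup (List.nodup_range.filter _),
    ← Finset.card_map Fin.valEmbedding]
  congr 1
  ext x
  simp only [List.mem_toFinset, List.mem_filter, List.mem_range, Finset.mem_map,
    Finset.mem_filter, Finset.mem_univ, true_and, Fin.valEmbedding_apply]
  exact ⟨fun h => ⟨⟨x, h.1⟩, h.2, rfl⟩, fun ⟨y, a, b⟩ => b ▸ ⟨y.2, a⟩⟩

theorem bar_iff {N n u v : ℕ} {L : List (Fin N × Fin N)} {c U : List ℕ} {U' : Finset (Fin N)}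
    (hU : ∀ x, x ∈ U' ↔ x.1 ∈ U) :
    barB N n (L.map vv) u v c U = true ↔
      (∀ x ∈ SS N n u v \ U', ∀ y ∈ SS N n u v \ U', (gr L).Adj x y → c.getD x 0 = c.getD y 0) ∧
      U'.card < (Finset.univ.filter fun a : Fin N =>
        Odd ((SS N n u v \ U').filter fun x : Fin N => c.getD x 0 = a.1).card).card := by
  have k : ∀ x : Fin N, x ∈ SS N n u v \ U' ↔ outB n u v U x = true := by
    intro x
    simp [SS, outB, hU]
  have e1 : (Finset.univ.filter fun x : Fin N => x.1 ∈ U) = U' := by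
    ext x
    simp [hU]
  have e2 : ∀ a : ℕ, (Finset.univ.filter fun x : Fin N =>
      outB n u v U x = true ∧ c.getD x 0 = a) =
      (SS N n u v \ U').filter fun x : Fin N => c.getD x 0 = a := by
    intro a
    ext x
    simp only [Finset.mem_filter, Finset.mem_univ, true_and, k]
  simp only [barB, Bool.and_eq_true, decide_eq_true_eq, cnt, e1, e2, Nat.odd_iff, k]
  refine and_congr_left fun _ => ?_
  simp only [List.all_eq_true, List.mem_range, Bool.or_eq_true, Bool.not_eq_true',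
    decide_eq_true_eq]
  constructor
  · intro h x hx y hy ha
    exact (h x x.2 y y.2).resolve_left (by simp [hx, hy, (adj_iff L x y).2 ha])
  · intro h x hx y hy
    by_contra hc
    rw [not_or, Bool.not_eq_false, Bool.and_eq_true, Bool.and_eq_true] at hc
    exact hc.2 (h ⟨x, hx⟩ hc.1.1.1 ⟨y, hy⟩ hc.1.1.2 ((adj_iff L ⟨x, hx⟩ ⟨y, hy⟩).1 hc.1.2))

theorem bar_sound {N n u v : ℕ} {L : List (Fin N × Fin N)} {c U : List ℕ}
    (h : barB N n (L.map vv) u v c U = true) : ¬ HasPM (gr L) (SS N n u v) := by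
  obtain ⟨h1, h2⟩ := (bar_iff (U' := Finset.univ.filter fun x => x.1 ∈ U) (by simp)).1 h
  generalize (Finset.univ.filter fun x : Fin N => x.1 ∈ U) = U' at h1 h2
  rintro ⟨m, hm⟩
  have key : ∀ a : Fin N, Odd ((SS N n u v \ U').filter fun x : Fin N => c.getD x 0 = a.1).card →
      ∃ x ∈ SS N n u v, c.getD x 0 = a.1 ∧ m x ∈ U' := by
    intro a ha
    by_contra hc
    push Not at hc
    refine (Nat.not_even_iff_odd.2 ha) (even_of_inv _ m fun v hv => ?_)
    obtain ⟨k1, k2⟩ := Finset.mem_filter.1 hv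
    have k3 := (Finset.mem_sdiff.1 k1).1
    have k4 := Finset.mem_sdiff.2 ⟨(hm v k3).1, hc v k3 k2⟩
    exact ⟨Finset.mem_filter.2 ⟨k4, (h1 _ k1 _ k4 (hm v k3).2.1).symm.trans k2⟩,
      (hm v k3).2.1.ne', (hm v k3).2.2⟩
  refine absurd h2 (not_lt.2 ?_)
  refine Finset.card_le_card_of_surjOn
    (fun z => if k : c.getD (m z) 0 < N then (⟨_, k⟩ : Fin N) else z) fun a ha => ?_
  obtain ⟨x, k1, k2, k3⟩ := key a (Finset.mem_filter.1 ha).2
  refine ⟨m x, k3, ?_⟩
  simp only [(hm x k1).2.2]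
  rw [dif_pos (k2.symm ▸ a.2)]
  exact Fin.ext k2

theorem bar_compl {N n u v : ℕ} {L : List (Fin N × Fin N)} (h : ¬ HasPM (gr L) (SS N n u v)) :
    ∃ c U, sz c ≤ N * (N + 1) ∧ sz U ≤ N * (N + 1) ∧ barB N n (L.map vv) u v c U = true := by
  obtain ⟨U, c, h1, h2⟩ := bar_of_noPM h
  refine ⟨_, U.toList.map Fin.val, sz_ofFn c, ?_, (bar_iff (U' := U) fun x => ?_).2 ?_⟩
  · refine (sz_list_le (B := N) fun a ha => ?_).trans (Nat.mul_le_mul_right _ ?_)
    · obtain ⟨x, -, rfl⟩ := List.mem_map.1 ha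
      simp
    · simpa using U.card_le_univ
  · rw [List.mem_map_of_injective Fin.val_injective, Finset.mem_toList]
  · simp only [getD_ofFn, ← Fin.ext_iff]
    exact ⟨h1, h2⟩

theorem sub_iff {L : EL} (h : L.Nodup) (a b c d : ℕ × ℕ) :
    subB L a b c d = true ↔ [a, b, c, d].Sublist L := by
  rw [subB, decide_eq_true_eq]
  refine ⟨fun e => e ▸ List.filter_sublist, fun e => ?_⟩
  have h1 := e.filter fun x => decide (x ∈ [a, b, c, d])
  rw [List.filter_eq_self.2 fun x hx => decide_eq_true hx] at h1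
  refine (h1.eq_of_length_le ?_).symm
  exact (List.subperm_of_subset (h.filter _) fun x hx =>
    of_decide_eq_true (List.mem_filter.1 hx).2).length_le

theorem se_iff {N : ℕ} (a b : Fin N × Fin N) :
    seB (vv a) (vv b) = true ↔ s(a.1, a.2) = s(b.1, b.2) := by
  simp [seB, vv, Prod.ext_iff, Fin.ext_iff]

theorem pl_iff {N : ℕ} (L : List (Fin N × Fin N)) :
    plB (L.map vv) = true ↔ L.Nodup ∧ (∀ d ∈ L, (d.2, d.1) ∈ L) ∧ NC Prod.fst L ∧
      NC (fun d => s(d.1, d.2)) L := by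
  have e1 : ((L.map vv).all fun d => decide (((L.map vv).countP fun e => e == d) ≤ 1) &&
      decide ((d.2, d.1) ∈ L.map vv)) = true ↔ L.Nodup ∧ ∀ d ∈ L, (d.2, d.1) ∈ L := by
    rw [← List.nodup_map_iff vv_inj, List.nodup_iff_count_le_one]
    simp only [List.all_eq_true, Bool.and_eq_true, decide_eq_true_eq]
    have k : ∀ d : Fin N × Fin N, ((vv d).2, (vv d).1) ∈ L.map vv ↔ (d.2, d.1) ∈ L := fun d =>
      List.mem_map_of_injective (a := (d.2, d.1)) vv_inj
    constructor
    · intro h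
      refine ⟨fun a => ?_, fun d hd => (k d).1 (h _ (List.mem_map_of_mem hd)).2⟩
      by_cases ha : a ∈ L.map vv
      · exact (h a ha).1
      · rw [List.count_eq_zero_of_not_mem ha]; omega
    · intro h a ha
      obtain ⟨d, hd, rfl⟩ := List.mem_map.1 ha
      exact ⟨h.1 _, (k d).2 (h.2 d hd)⟩
  rw [plB, Bool.and_eq_true, e1, and_assoc]
  refine and_congr_right fun hn => and_congr_right fun _ => ?_
  have k : ∀ a b c d, subB (L.map vv) (vv a) (vv b) (vv c) (vv d) = true ↔
      [a, b, c, d].Sublist L := by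
    intro a b c d
    rw [sub_iff (hn.map vv_inj)]
    refine ⟨fun e => ?_, fun e => e.map vv⟩
    obtain ⟨l, h1, h2⟩ := List.sublist_map_iff.1 e
    exact (List.map_injective_iff.2 vv_inj (a₁ := [a, b, c, d]) h2).symm ▸ h1
  have f : ∀ a b : Fin N × Fin N, (vv a).1 = (vv b).1 ↔ a.1 = b.1 := fun a b => Fin.ext_iff.symm
  have g : ∀ a b c d, ncB (L.map vv) (vv a) (vv b) (vv c) (vv d) = true ↔
      ([a, b, c, d].Sublist L → (a.1 = c.1 → b.1 = d.1 → a.1 = b.1) ∧
        (s(a.1, a.2) = s(c.1, c.2) → s(b.1, b.2) = s(d.1, d.2) → s(a.1, a.2) = s(b.1, b.2))) := by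
    intro a b c d
    rw [← k, ← se_iff, ← se_iff, ← se_iff, ← f, ← f, ← f, ncB]
    grind
  simp only [List.all_eq_true, List.forall_mem_map, g]
  constructor
  · intro h
    have m : ∀ a b c d, [a, b, c, d].Sublist L → _ := fun a b c d e =>
      h a (e.subset (by simp)) b (e.subset (by simp)) c (e.subset (by simp)) d
        (e.subset (by simp)) e
    exact ⟨fun a b c d e => (m a b c d e).1, fun a b c d e => (m a b c d e).2⟩
  · exact fun h a _ b _ c _ d _ e => ⟨h.1 a b c d e, h.2 a b c d e⟩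

theorem SS_W (n k : ℕ) : Finset.univ.map (Fin.natAddEmb n) = SS (n + k) n n n := by
  ext x
  simp only [SS, inB, Finset.mem_map, Finset.mem_univ, true_and, Finset.mem_filter,
    Bool.or_eq_true, decide_eq_true_eq, Fin.natAddEmb_apply]
  constructor
  · rintro ⟨y, rfl⟩
    simp
  · intro h
    have := x.2
    exact ⟨⟨x.1 - n, by omega⟩, Fin.ext (by simp; omega)⟩

theorem SS_ins (n k : ℕ) (u v : Fin n) :
    insert (Fin.castAdd k u) (insert (Fin.castAdd k v) (SS (n + k) n n n)) = SS (n + k) n u v := by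
  ext x
  simp only [SS, inB, Finset.mem_insert, Finset.mem_univ, true_and, Finset.mem_filter,
    Bool.or_eq_true, decide_eq_true_eq, Fin.ext_iff, Fin.val_castAdd]
  omega

theorem sound {n k : ℕ} {es : List (Fin n × Fin n)} {L : EL} {m : List ℕ}
    {C : List (List (List ℕ × List ℕ))} (h : chk (n, es.map vv, k, L, m, C) = true) :
    ∃ H : SimpleGraph (Fin (n + k)),
      Rep (gr es) (Fin.castAdd k) (Finset.univ.map (Fin.natAddEmb n)) H ∧ Pl H.Adj := by
  simp only [chk, Bool.and_eq_true, List.all_eq_true, List.mem_range] at h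
  obtain ⟨⟨⟨⟨-, h1⟩, h2⟩, h3⟩, h4⟩ := h
  obtain ⟨L, rfl⟩ := lift h1
  obtain ⟨a, b, c, d⟩ := (pl_iff L).1 h2
  refine ⟨gr L, ⟨Fin.castAdd_injective _ _, fun v => ?_, SS_W n k ▸ pm_sound h3, fun u v e => ?_⟩,
    L, a, fun x y e => ?_, c, d⟩
  · have := v.2
    simp only [SS_W, SS, inB, Finset.mem_univ, true_and, Finset.mem_filter,
      Bool.or_eq_true, decide_eq_true_eq, Fin.val_castAdd]
    omega
  · have := h4 u u.2 v v.2
    simp only [pairB, Bool.or_eq_true, Bool.and_eq_true, decide_eq_true_eq, Bool.not_eq_true',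
      ← Fin.ext_iff, e, false_or] at this
    rw [SS_W, SS_ins, ← adj_iff]
    rcases this with t | t
    · exact iff_of_true t.1 (pm_sound t.2)
    · exact iff_of_false (by simp [t.1]) (bar_sound t.2)
  · rcases e.2 with e | e
    · exact ⟨e, b _ e⟩
    · exact ⟨b _ e, e⟩

def bd (P : ℕ) : ℕ :=
  P + P * (2 * P + 2) + P + P * P * (2 * P + 2) + P * (P + 1) +
    P * (P * (2 * (P * (P + 1)) + 2) + 1) + 5

theorem sz_el {N P Q : ℕ} (L : List (Fin N × Fin N)) (h : N ≤ P) (h' : L.length ≤ Q) :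
    sz (L.map vv) ≤ Q * (2 * P + 2) := by
  refine (sz_list_le (B := 2 * P + 1) fun a ha => ?_).trans (Nat.mul_le_mul_right _ ?_)
  · obtain ⟨x, -, rfl⟩ := List.mem_map.1 ha
    have := x.1.2
    have := x.2.2
    simp only [vv, sz_pair, sz_nat]
    omega
  · simpa using h'

theorem compl {n k P : ℕ} {es : List (Fin n × Fin n)} {H : SimpleGraph (Fin (n + k))}
    (h : Rep (gr es) (Fin.castAdd k) (Finset.univ.map (Fin.natAddEmb n)) H) (hp : Pl H.Adj)
    (h1 : n + k ≤ P) (h2 : es.length ≤ P) :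
    ∃ L m C, sz ((n, es.map vv, k, L, m, C) : Wt) ≤ bd P ∧
      chk (n, es.map vv, k, L, m, C) = true := by
  classical
  obtain ⟨L0, a, b, c, d⟩ := hp
  obtain ⟨L, hs, hL⟩ : ∃ L : List (Fin (n + k) × Fin (n + k)), L.Sublist L0 ∧
      ∀ x y, (x, y) ∈ L ↔ H.Adj x y :=
    ⟨L0.filter fun e => decide (H.Adj e.1 e.2), List.filter_sublist, fun x y => by
      simpa using fun e => (b x y e).1⟩
  obtain rfl : H = gr L := by
    ext x y
    simp only [gr, SimpleGraph.fromRel_adj, hL]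
    exact ⟨fun e => ⟨e.ne, Or.inl e⟩, fun e => e.2.elim id fun e => e.symm⟩
  obtain ⟨-, -, h3, h4⟩ := h
  rw [SS_W] at h3 h4
  obtain ⟨m, m1, m2⟩ := pm_compl h3
  have hb : (n + k) * (n + k + 1) ≤ P * (P + 1) := Nat.mul_le_mul h1 (by omega)
  have key : ∀ u v : Fin n, ∃ w : List ℕ × List ℕ, sz w ≤ 2 * (P * (P + 1)) + 1 ∧
      pairB (n + k) n (es.map vv) (L.map vv) u v w = true := by
    intro u v
    by_cases e : u = v
    · exact ⟨([], []), by simp, by simp [pairB, e]⟩
    have := h4 u v e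
    rw [SS_ins, ← adj_iff] at this
    by_cases f : adjB (es.map vv) u v = true
    · obtain ⟨w, w1, w2⟩ := pm_compl (this.1 f)
      exact ⟨(w, []), by simp only [sz_pair, sz_nil]; omega, by simp [pairB, f, w2]⟩
    · obtain ⟨w, U, w1, w2, w3⟩ := bar_compl fun t => f (this.2 t)
      exact ⟨(w, U), by simp only [sz_pair]; omega, by simp [pairB, f, w3]⟩
  choose w w1 w2 using key
  refine ⟨L.map vv, m, List.ofFn fun u => List.ofFn fun v => w u v, ?_, ?_⟩
  · have s1 := sz_el es (P := P) (by omega) h2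
    have s2 := sz_el L h1 (Q := P * P) (((a.sublist hs).length_le_card).trans (by
      simpa using Nat.mul_le_mul h1 h1))
    have s3 : sz (List.ofFn fun u => List.ofFn fun v => w u v) ≤
        P * (P * (2 * (P * (P + 1)) + 2) + 1) := by
      refine (sz_list_le (B := P * (2 * (P * (P + 1)) + 2)) fun r hr => ?_).trans
        (Nat.mul_le_mul_right _ (by simp; omega))
      obtain ⟨u, rfl⟩ := List.mem_ofFn.1 hr
      refine (sz_list_le (B := 2 * (P * (P + 1)) + 1) fun r hr => ?_).trans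
        (Nat.mul_le_mul_right _ (by simp; omega))
      obtain ⟨v, rfl⟩ := List.mem_ofFn.1 hr
      exact w1 u v
    simp only [sz_pair, sz_nat, bd]
    omega
  · simp only [chk, Bool.and_eq_true, List.all_eq_true, List.mem_range]
    refine ⟨⟨⟨⟨lt_map _, lt_map _⟩, (pl_iff L).2 ⟨a.sublist hs, fun e he => ?_,
      fun _ _ _ _ e => c _ _ _ _ (e.trans hs), fun _ _ _ _ e => d _ _ _ _ (e.trans hs)⟩⟩, m2⟩,
      fun u hu v hv => ?_⟩
    · exact (hL _ _).2 ((hL _ _).1 he).symm
    · have := w2 ⟨u, hu⟩ ⟨v, hv⟩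
      simpa [hu, hv] using this

theorem len_enc (n : ℕ) (E : EL) :
    n ≤ (bitEncode (List.range n, E)).length ∧ E.length ≤ (bitEncode (List.range n, E)).length := by
  have h1 := length_le_length_flatten_delimit ((List.range n).map bitEncode)
  have h2 := length_le_length_flatten_delimit (E.map bitEncode)
  have h3 : ∀ l : List Bool, l.length ≤ (delimit l).length := by
    intro l
    induction l with
    | nil => simp
    | cons b l ih => simp only [delimit, List.length_cons]; omega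
  have h4 := h3 (bitEncode (List.range n))
  rw [List.length_map] at h1 h2
  rw [List.length_range] at h1
  change _ ≤ (bitEncode (List.range n)).length at h1
  change _ ≤ (bitEncode E).length at h2
  change _ ≤ (delimit (bitEncode (List.range n)) ++ bitEncode E).length ∧
    _ ≤ (delimit (bitEncode (List.range n)) ++ bitEncode E).length
  rw [List.length_append]
  omega

end Pool.Agent.Lib.MP_50b5c6_lc.Np.Ver

namespace Pool.Agent.Lib.MP_50b5c6_lc.Np

open Ver Pool.Agent.Lib.Complexity N487b59b3 N68a2faeb Polynomial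

theorem ver : VerSt := by
  rintro ⟨c, hc⟩
  obtain ⟨P, hP⟩ : ∃ P : Polynomial ℕ, ∀ x, P.eval x = bd (x + c * (x + 1) ^ 6) :=
    ⟨(X + X * (2 * X + 2) + X + X * X * (2 * X + 2) + X * (X + 1) +
      X * (X * (2 * (X * (X + 1)) + 2) + 1) + 5).comp (X + C c * (X + 1) ^ 6), fun x => by
      simp only [bd, eval_comp, eval_add, eval_mul, eval_X, eval_C, eval_pow, eval_one,
        eval_ofNat]⟩
  refine mem_NP_of_rd (W := Wt) (R := fun x =>
    decide (x.1 = bitEncode (List.range x.2.1, x.2.2.1)) && chk x.2 &&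
      decide (x.2.2.2.1 ≤ c * (x.2.1 + 1) ^ 6)) ?_ P ?_ ?_
  · refine PT.and (PT.and (PT.dec_eq (by fun_prop) ?_) (pt_chk.comp (by fun_prop))) (by fun_prop)
    refine (PT.encode (List ℕ × EL) (f := fun x : Str × Wt =>
      ((List.range x.2.1).map fun i : ℕ => (i : ℤ),
        x.2.2.1.map fun e : ℕ × ℕ => ((e.1 : ℤ), (e.2 : ℤ)))) (by fun_prop)).of_eq fun x => ?_
    simp [Function.comp_def]
  · rintro s ⟨n, E, k, L, m, D⟩ h
    simp only [Bool.and_eq_true, decide_eq_true_eq] at h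
    obtain ⟨⟨rfl, h1⟩, h2⟩ := h
    obtain ⟨es, rfl⟩ := lift (N := n) (L := E) (by
      simp only [chk, Bool.and_eq_true] at h1
      exact h1.1.1.1.1)
    simp only [lang, decide_eq_true_eq]
    exact ⟨n, es, rfl, (hc n _).2 ⟨k, h2, sound h1⟩⟩
  · intro s hs
    simp only [lang, decide_eq_true_eq] at hs
    obtain ⟨n, es, rfl, h⟩ := hs
    obtain ⟨k, hk, H, h1, h2⟩ := (hc n _).1 h
    obtain ⟨l1, l2⟩ := len_enc n (es.map vv)
    rw [List.length_map] at l2
    change ∃ w, sz w ≤ P.eval (bitEncode (List.range n, es.map vv)).length ∧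
      (decide (bitEncode (List.range n, es.map vv) = _) && _ && _) = true
    generalize hx : (bitEncode (List.range n, es.map vv)).length = x at l1 l2
    have h3 : c * (n + 1) ^ 6 ≤ c * (x + 1) ^ 6 := by gcongr
    obtain ⟨L, m, D, a, b⟩ := compl (P := x + c * (x + 1) ^ 6) h1 h2 (by omega) (by omega)
    exact ⟨_, hP x ▸ a, by simp [b, hk]⟩

end Pool.Agent.Lib.MP_50b5c6_lc.Np
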