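import Pool.Agent.Lib.MP_50b5c6_lc.Face

/-! The sector argument and two neighbouring faces. -/

set_option linter.unusedSectionVars false

namespace Pool.Agent.Lib.MP_50b5c6_lc

variable {V A N Sd : Type} [Fintype N] [DecidableEq N] [Fintype A] [DecidableEq A]

structure FaceH (G : SimpleGraph V) (R : V → Prop) (en : (Sd × Fin 3) × Bool → V)
    (u x p w : Sd → V) (s : Fin 3 → Sd) (o z : V) : Prop where
  cyc : ∀ i, w (s i) = u (s (i + 1))
  inj : ∀ i j, u (s i) = u (s j) → i = j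
  ro : R o
  rz : R z
  eo : ∀ i, en i ≠ o
  ez : ∀ i, en i ≠ z
  oz : G.Adj z o
  ou : ∀ i, G.Adj o (u (s i))
  zu : ∀ i, G.Adj z (u (s i))
  no : ∀ i, ¬G.Adj (x (s i)) o ∧ ¬G.Adj (p (s i)) o
  nf : ∀ i, ¬G.Adj (x (s i)) (u (s (i + 2))) ∧ ¬G.Adj (p (s i)) (u (s (i + 2)))

variable {G : SimpleGraph V} {R : V → Prop} {en : (Sd × Fin 3) × Bool → V} {ends : A × Bool → N}
  {χ : (A → F) → A → F} {vx : V → N} {lS : Sd × Fin 3 → Set N} {lk : Sd × Fin 3 → List A}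
  {Free : Set N} {Pa : V → V → Set N → Prop} {u x p w : Sd → V}

lemma f1 : ∀ i : Fin 3, i + 1 ≠ i := by decide
lemma f2 : ∀ i : Fin 3, i + 2 ≠ i := by decide
lemma f3 : ∀ i : Fin 3, i + 2 ≠ i + 1 := by decide
lemma f4 : ∀ i : Fin 3, i + 1 + 1 = i + 2 := by decide
lemma f5 : ∀ i : Fin 3, i + 2 + 1 = i := by decide

def fc (lk : Sd × Fin 3 → List A) (s : Fin 3 → Sd) : A → F := ∑ i, ch (sw lk (s i))

lemma fc_rot (s : Fin 3 → Sd) (i : Fin 3) :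
    fc lk s = ch (sw lk (s i)) + ch (sw lk (s (i + 1))) + ch (sw lk (s (i + 2))) := by
  fin_cases i <;> simp [fc, Fin.sum_univ_three] <;> abel

variable (W : World G R en ends χ vx lS lk Free Pa) (Z : Sides G R en u x p w)
include W Z

lemma av_sr {s s' : Sd} (h : s ≠ s') : Av ends (ch (sw lk s)) (reg vx lS x p s') :=
  (ws W Z s).av fun _ hn => ⟨fun h' => h (reg_reg W Z h' hn),
    fun h' => (reg_v W Z (Z.ru _) (h' ▸ hn)).elim (Z.xu _ _).symm (Z.pu _ _).symm,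
    fun h' => (reg_v W Z (Z.rw _) (h' ▸ hn)).elim (Z.xw _ _).symm (Z.pw _ _).symm⟩

lemma av_sF (s : Sd) {T : Set N} (h : T ⊆ Free) : Av ends (ch (sw lk s)) T :=
  (ws W Z s).av fun _ hn => ⟨fun h' => reg_F W Z h' (h hn), fun h' => W.vF _ (h' ▸ h hn),
    fun h' => W.vF _ (h' ▸ h hn)⟩

lemma av_sv {s : Sd} {v : V} (hv : R v) (h1 : u s ≠ v) (h2 : w s ≠ v) (h3 : x s ≠ v)
    (h4 : p s ≠ v) : Av ends (ch (sw lk s)) {vx v} :=
  (ws W Z s).av fun _ hn => hn ▸ ⟨fun h' => (reg_v W Z hv h').elim h3.symm h4.symm,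
    W.inj.ne h1.symm, W.inj.ne h2.symm⟩

lemma av_cr {S : Set N} {a c : V} {l : List A} (q : Walk ends S (vx a) (vx c) l) (h : S ⊆ Free)
    {s : Sd} (ha : R a) (hc : R c) (h1 : x s ≠ a) (h2 : p s ≠ a) (h3 : x s ≠ c) (h4 : p s ≠ c) :
    Av ends (ch l) (reg vx lS x p s) :=
  q.av fun _ hn => ⟨fun h' => reg_F W Z hn (h h'),
    fun h' => (reg_v W Z ha (h' ▸ hn)).elim h1.symm h2.symm,
    fun h' => (reg_v W Z hc (h' ▸ hn)).elim h3.symm h4.symm⟩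

omit Z in
lemma av_cv {S : Set N} {a c v : V} {l : List A} (q : Walk ends S (vx a) (vx c) l) (h : S ⊆ Free)
    (h1 : v ≠ a) (h2 : v ≠ c) : Av ends (ch l) {vx v} :=
  q.av fun _ hn => hn ▸ ⟨fun h' => W.vF _ (h h'), W.inj.ne h1, W.inj.ne h2⟩

omit Z in
lemma av_cc {S T : Set N} {a c : V} {l : List A} (q : Walk ends S (vx a) (vx c) l) (h : T ⊆ Free)
    (h1 : ∀ n ∈ T, n ∉ S) : Av ends (ch l) T :=
  q.av fun _ hn => ⟨h1 _ hn, fun h' => W.vF _ (h' ▸ h hn), fun h' => W.vF _ (h' ▸ h hn)⟩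

omit W in
lemma Sides.ne {v : V} (h : ∀ i, en i ≠ v) (s : Sd) : u s ≠ v ∧ w s ≠ v ∧ x s ≠ v ∧ p s ≠ v :=
  ⟨Z.e0 s ▸ h _, Z.e5 s ▸ h _, Z.e1 s ▸ h _, Z.e3 s ▸ h _⟩

variable {s : Fin 3 → Sd} {o z : V} (H : FaceH G R en u x p w s o z)
include H

omit W Z in
lemma FaceH.sne {i j : Fin 3} (h : i ≠ j) : s i ≠ s j := fun e => h (H.inj _ _ (by rw [e]))

omit W Z in
lemma FaceH.une {i j : Fin 3} (h : i ≠ j) : u (s i) ≠ u (s j) := fun e => h (H.inj _ _ e)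

lemma wf (i : Fin 3) : Walk ends (reg vx lS x p (s i)) (vx (u (s i))) (vx (u (s (i + 1))))
    (sw lk (s i)) := H.cyc i ▸ ws W Z (s i)

lemma bd_fc : bd ends (fc lk s) = 0 := by
  rw [fc_rot s 0, bd_add, bd_add, (wf W Z H _).bd, (wf W Z H _).bd, (wf W Z H _).bd]
  ext n
  simp only [Pi.add_apply, Pi.zero_apply, show (0 + 1 + 1 : Fin 3) = 0 + 2 from rfl,
    show (0 + 2 + 1 : Fin 3) = 0 from rfl]
  grind

omit H in
lemma av_fF (s : Fin 3 → Sd) {T : Set N} (h : T ⊆ Free) : Av ends (fc lk s) T := by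
  rw [fc_rot s 0]
  exact ((av_sF W Z _ h).add (av_sF W Z _ h)).add (av_sF W Z _ h)

omit H in
lemma av_fv (s : Fin 3 → Sd) {v : V} (hv : R v) (h : ∀ i, en i ≠ v) :
    Av ends (fc lk s) {vx v} := by
  have k := fun s => av_sv W Z (s := s) hv (Z.ne h s).1 (Z.ne h s).2.1 (Z.ne h s).2.2.1
    (Z.ne h s).2.2.2
  rw [fc_rot s 0]
  exact ((k _).add (k _)).add (k _)

lemma crossF (i : Fin 3) {la lb : List A} {Sa Sb : Set N} {κ κ' : F}
    (pa : Pa (u (s i)) (p (s i)) Sa) (qa : Walk ends Sa (vx (u (s i))) (vx (p (s i))) la)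
    (pb : Pa (x (s i)) (w (s i)) Sb) (qb : Walk ends Sb (vx (x (s i))) (vx (w (s i))) lb)
    (va : Val χ (fc lk s) la κ) (vb : Val χ (fc lk s) lb κ') : κ + κ' = 1 := by
  have n1 := f1 i
  have n2 := f2 i
  have n3 := f3 i
  have e1 := f4 i
  have e2 := f5 i
  rw [fc_rot s i, add_assoc, ← ch_append] at va vb
  refine cross W Z (s i) (Sr := {n | n ∈ reg vx lS x p (s (i + 1)) ∨
    n ∈ reg vx lS x p (s (i + 2)) ∨ n = vx (u (s (i + 2)))}) ?_ ?_ ?_ qa qb (W.pF _ _ _ pa)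
    (W.pF _ _ _ pb) (fun n h1 h2 => ?_) va vb
  · have a1 := wf W Z H (i + 1)
    have a2 := wf W Z H (i + 2)
    rw [e1] at a1
    rw [e2] at a2
    rw [H.cyc]
    exact (a1.mono fun _ h => .inl h).append (a2.mono fun _ h => .inr (.inl h)) (by simp)
  · intro e he
    rcases List.mem_append.1 he with he | he <;> obtain ⟨β, h⟩ := hs W Z _ e he
    exacts [⟨β, .inl h⟩, ⟨β, .inr (.inl h)⟩]
  · have k : ∀ j, j ≠ i → ∀ n ∈ reg vx lS x p (s j), n ∉ reg vx lS x p (s i) ∧ n ∉ Free ∧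
        n ≠ vx (u (s i)) ∧ n ≠ vx (w (s i)) := fun j hj n hn =>
      ⟨fun h => H.sne hj (reg_reg W Z hn h), reg_F W Z hn,
        fun h => (reg_v W Z (Z.ru _) (h ▸ hn)).elim (Z.xu _ _).symm (Z.pu _ _).symm,
        fun h => (reg_v W Z (Z.rw _) (h ▸ hn)).elim (Z.xw _ _).symm (Z.pw _ _).symm⟩
    rintro n (h | h | rfl)
    · exact k _ n1 n h
    · exact k _ n2 n h
    · exact ⟨fun h => (reg_v W Z (Z.ru _) h).elim (Z.xu _ _).symm (Z.pu _ _).symm, W.vF _,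
        W.inj.ne (H.une n2), H.cyc i ▸ W.inj.ne (H.une n3)⟩
  · exact (W.pm _ _ _ _ _ _ (Z.ru _) (Z.rp _) (Z.rx _) (Z.rw _) (Z.xu _ _).symm (Z.uw _)
      (Z.xp _ _).symm (Z.pw _ _) pa pb ⟨n, h1, h2⟩).elim (Z.nx _) fun h => Z.nw _ h.1

omit W Z H in
def In (ends : A × Bool → N) (χ : (A → F) → A → F) (C : A → F) (z : N) (b : List A) : Prop :=
  ∃ κ, ValN ends χ C z κ ∧ Val χ C b (κ + 1)

theorem face {β : Sd → List A} {βS : Sd → Set N} (pb : ∀ s, Pa (x s) (w s) (βS s))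
    (qb : ∀ s, Walk ends (βS s) (vx (x s)) (vx (w s)) (β s)) :
    ∃ σ : Fin 3, ∀ i, (G.Adj z (p (s i)) → σ = i + 2 → In ends χ (fc lk s) (vx z) (β (s i))) ∧
      (G.Adj z (x (s i)) → σ ≠ i + 2 ∧ (σ = i + 1 → ¬In ends χ (fc lk s) (vx z) (β (s i)))) := by
  have E := W.emb
  have cF := bd_fc W Z H
  have no := Z.ne H.eo
  have nz := Z.ne H.ez
  choose SP pP nP using fun k => W.pn o (u (s k)) (H.ou k) H.ro (Z.ru _) H.eo
  choose lP qP using fun k => W.pw _ _ _ H.ro (Z.ru _) (pP k)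
  have fP := fun k => W.pF _ _ _ (pP k)
  obtain ⟨So, po⟩ := W.pe _ _ H.oz
  obtain ⟨lo, qo⟩ := W.pw _ _ _ H.rz H.ro po
  obtain ⟨κ, vz⟩ := E.valN cF (av_fv W Z s H.rz H.ez)
  have vo : ValN ends χ (fc lk s) (vx o) κ := E.toR cF qo (av_fv W Z s H.ro H.eo)
    (E.fromL cF qo (av_fF W Z s (W.pF _ _ _ po)) vz)
  let D : Fin 3 → A → F := fun k => ch (lP k) + ch (lP (k + 1)) + ch (sw lk (s k))
  have cD : ∀ k, bd ends (D k) = 0 := fun k => by
    simp only [D, bd_add, (qP _).bd, (wf W Z H k).bd]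
    ext n; simp only [Pi.add_apply, Pi.zero_apply]; grind
  have aDr : ∀ k i, k ≠ i → Av ends (D k) (reg vx lS x p (s i)) := fun k i h =>
    ((av_cr W Z (qP _) (fP _) H.ro (Z.ru _) (no _).2.2.1 (no _).2.2.2 (Z.xu _ _) (Z.pu _ _)).add
      (av_cr W Z (qP _) (fP _) H.ro (Z.ru _) (no _).2.2.1 (no _).2.2.2 (Z.xu _ _) (Z.pu _ _))).add
      (av_sr W Z (H.sne h))
  have aDu : ∀ k, Av ends (D k) {vx (u (s (k + 2)))} := fun k =>
    ((av_cv W (qP _) (fP _) (no _).1 (H.une (by revert k; decide))).add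
      (av_cv W (qP _) (fP _) (no _).1 (H.une (by revert k; decide)))).add
      (av_sv W Z (Z.ru _) (H.une (by revert k; decide)) (H.cyc k ▸ H.une (by revert k; decide))
        (Z.xu _ _) (Z.pu _ _))
  have aDz : ∀ k, Av ends (D k) {vx z} := fun k =>
    ((av_cv W (qP _) (fP _) H.oz.ne (nz _).1.symm).add
      (av_cv W (qP _) (fP _) H.oz.ne (nz _).1.symm)).add
      (av_sv W Z H.rz (nz _).1 (nz _).2.1 (nz _).2.2.1 (nz _).2.2.2)
  choose a va using fun k => E.valN (cD k) (aDu k)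
  choose ζ vζ using fun k => E.valN (cD k) (aDz k)
  have vs : ∀ k i, k ≠ i → Val χ (D k) (sw lk (s i)) (a k) := by
    intro k i h
    have : i = k + 2 ∨ i + 1 = k + 2 := by revert k i; decide
    rcases this with h1 | h1
    · exact E.fromL (cD k) (wf W Z H i) (aDr k i h) (h1 ▸ va k)
    · exact E.fromR (cD k) (wf W Z H i) (aDr k i h) (h1 ▸ va k)
  have sD : D 0 + D 2 = fc lk s + D 1 := by
    rw [fc_rot s 0]
    ext n
    simp only [D, Pi.add_apply, show (0 + 1 : Fin 3) = 1 from rfl, show (0 + 2 : Fin 3) = 2 from rfl,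
      show (1 + 1 : Fin 3) = 2 from rfl, show (2 + 1 : Fin 3) = 0 from rfl]
    grind
  have aP : ∀ k i, Av ends (ch (lP k)) (reg vx lS x p (s i)) := fun k i =>
    av_cr W Z (qP _) (fP _) H.ro (Z.ru _) (no _).2.2.1 (no _).2.2.2 (Z.xu _ _) (Z.pu _ _)
  have t := E.theta (a := vx (u (s 0))) (κ0 := κ + a 1) (cD 0) (cD 2)
    ((qP 0).bd_right (W.inj.ne (no _).1.symm)) ((wf W Z H 0).bd_left (W.inj.ne (H.une (by decide))))
    ((wf W Z H 2).bd_right (W.inj.ne (H.une (by decide))))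
    (fun e => ⟨(aP _ _).mul (hs W Z _) e, (aP _ _).mul (hs W Z _) e,
      (av_sr W Z (H.sne (by decide))).mul (hs W Z _) e⟩)
    (by
      rw [show D 0 + ch (lP 0) + ch (sw lk (s 0)) = ch (lP 1) by
        ext n; simp only [D, Pi.add_apply, show (0 + 1 : Fin 3) = 1 from rfl]; grind]
      exact av_cv W (qP _) (fP _) (no _).1 (H.une (by decide)))
    (by
      rw [show D 2 + ch (lP 0) + ch (sw lk (s 2)) = ch (lP 2) by
        ext n; simp only [D, Pi.add_apply, show (2 + 1 : Fin 3) = 0 from rfl]; grind]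
      exact av_cv W (qP _) (fP _) (no _).1 (H.une (by decide)))
    (fun d hd h => by
      rw [sD, E.add, E.fromL cF (qP 0) (av_fF W Z s (fP 0)) vo _ (mem_of_ch h), va 1 d hd])
    (fun d _ h => vs 2 0 (by decide) _ (mem_of_ch h))
    (fun d _ h => vs 0 2 (by decide) _ (mem_of_ch h))
  have t2 := qo.uniqL (sD ▸ E.valN_add (vζ 0) (vζ 2)) (E.valN_add vz (vζ 1))
  have : ∃ σ, ζ σ ≠ a σ := by
    by_contra hn
    push Not at hn
    rw [hn, hn, hn] at t2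
    grind
  obtain ⟨σ, hσ⟩ := this
  have key : ∀ i q, σ ≠ i → q = x (s i) ∨ q = p (s i) → G.Adj z q → ∃ k, (k = σ ∨ k = σ + 1) ∧
      G.Adj q (u (s k)) ∧ ∃ S l, Pa q (u (s k)) S ∧ Walk ends S (vx q) (vx (u (s k))) l ∧
        Val χ (fc lk s) l κ := by
    intro i q hi hq hz
    have rq : R q := hq.elim (· ▸ Z.rx _) (· ▸ Z.rp _)
    have qr : vx q ∈ reg vx lS x p (s i) := by rcases hq with rfl | rfl <;> simp [reg]
    obtain ⟨S, pR⟩ := W.pe _ _ hz.symm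
    obtain ⟨l, qR⟩ := W.pw _ _ _ rq H.rz pR
    have fR := W.pF _ _ _ pR
    have : ∃ k, (k = σ ∨ k = σ + 1) ∧ ∃ n ∈ S, n ∈ SP k := by
      by_contra hn
      push Not at hn
      have k1 := E.toL (cD σ) qR ((aDr σ i hi).mono (by simpa using qr)) (E.fromR (cD σ) qR
        (((av_cc W (qP _) fR (hn _ (.inl rfl))).add (av_cc W (qP _) fR (hn _ (.inr rfl)))).add
          (av_sF W Z _ fR)) (vζ σ))
      have k2 : ∃ d, d.1 ∈ sw lk (s i) ∧ ends d = vx q := by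
        rcases hq with rfl | rfl
        · obtain ⟨d, h1, h2⟩ := (w1 W Z (s i)).first
          exact ⟨d, by simp [sw, h1], h2⟩
        · obtain ⟨d, h1, h2⟩ := (w1 W Z (s i)).last
          exact ⟨d, by simp [sw, h1], h2⟩
      obtain ⟨d, h1, h2⟩ := k2
      exact hσ ((k1 d h2).symm.trans (vs σ i hi _ h1))
    obtain ⟨k, hk, hn⟩ := this
    rcases W.pm _ _ _ _ _ _ rq H.rz H.ro (Z.ru _)
      (hq.elim (· ▸ (no _).2.2.1) (· ▸ (no _).2.2.2)) (hq.elim (· ▸ Z.xu _ _) (· ▸ Z.pu _ _))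
      H.oz.ne (nz _).1.symm pR (pP k) hn with h | ⟨h, S', j, l1, l2, h1, h2, h3, h4, h5⟩
    · exact (hq.elim (· ▸ (H.no i).1) (· ▸ (H.no i).2) : ¬G.Adj q o) h |>.elim
    refine ⟨k, hk, h, S', _, h1, h4.append h5 h3, ?_⟩
    obtain ⟨l0, h6⟩ := nP k j h2
    have f' := W.pF _ _ _ h1
    have vj := E.toR cF h6 (av_fF W Z s (by simpa using fP k h2))
      (E.fromL cF h6 (av_fF W Z s (fP k)) vo)
    intro e he
    rcases List.mem_append.1 he with he | he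
    · exact E.fromR cF h4 (av_fF W Z s f') vj e he
    · exact E.fromL cF h5 (av_fF W Z s f') vj e he
  refine ⟨σ, fun i => ⟨fun hz hi => ?_, fun hz => ⟨fun hi => ?_, fun hi hin => ?_⟩⟩⟩
  · obtain ⟨k, hk, h1, S, l, h2, h3, h4⟩ := key i _ (hi ▸ f2 i) (.inr rfl) hz
    obtain rfl : i = k := by
      rcases hk with rfl | rfl
      · exact ((H.nf i).2 (hi ▸ h1)).elim
      · rw [hi, f5]
    obtain ⟨κ', h5⟩ := E.val cF (qb (s i)) (av_fF W Z s (W.pF _ _ _ (pb _)))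
    have := crossF W Z H i (W.ps _ _ _ h2) h3.symm (pb _) (qb _)
      (fun e he => h4 e (List.mem_reverse.1 he)) h5
    exact ⟨κ, vz, by rwa [show κ + 1 = κ' by grind]⟩
  · obtain ⟨k, hk, h1, -⟩ := key i _ (hi ▸ f2 i) (.inl rfl) hz
    rcases hk with rfl | rfl
    · exact (H.nf i).1 (hi ▸ h1)
    · rw [hi, f5] at h1
      exact Z.nx _ h1.symm
  · obtain ⟨k, hk, h1, S, l, h2, h3, h4⟩ := key i _ (hi ▸ f1 i) (.inl rfl) hz
    obtain rfl : i + 1 = k := by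
      rcases hk with rfl | rfl
      · exact hi.symm
      · rw [hi, f4] at h1
        exact ((H.nf i).1 h1).elim
    rw [← H.cyc] at h2 h3
    obtain ⟨Sa, pa⟩ := W.pe _ _ (Z.aA (s i))
    obtain ⟨la, qa⟩ := W.pw _ _ _ (Z.ru _) (Z.rp _) pa
    obtain ⟨κ', h5⟩ := E.val cF qa (av_fF W Z s (W.pF _ _ _ pa))
    obtain ⟨κ0, h6, h7⟩ := hin
    have k1 := crossF W Z H i pa qa h2 h3 h5 h4
    have k2 := crossF W Z H i pa qa (pb _) (qb _) h5 h7
    have k3 := qo.uniqL h6 vz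
    grind

theorem opp {s' : Fin 3 → Sd} {o' z' : V} (H' : FaceH G R en u x p w s' o' z') {i i' : Fin 3}
    (hi : s i = s' i') (hw : u (s (i + 2)) ≠ u (s' (i' + 2))) {q q' : V}
    (hq : q = x (s i) ∨ q = p (s i)) (hq' : q' = x (s i) ∨ q' = p (s i)) (hz : G.Adj z q)
    (hz' : G.Adj z' q') (hn : ∀ j j', j ≠ i → s j ≠ s' j') (hn' : ∀ j j', j' ≠ i' → s j ≠ s' j')
    {S : Set N} {b : List A} (pb : Pa (x (s i)) (w (s i)) S)
    (qb : Walk ends S (vx (x (s i))) (vx (w (s i))) b) :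
    In ends χ (fc lk s) (vx z) b ↔ ¬In ends χ (fc lk s') (vx z') b := by
  have E := W.emb
  have c1 := bd_fc W Z H
  have c2 := bd_fc W Z H'
  have c3 : bd ends (fc lk s + fc lk s') = 0 := by rw [bd_add, c1, c2, add_zero]
  have e3 : fc lk s + fc lk s' = ch (sw lk (s (i + 1))) + ch (sw lk (s (i + 2))) +
      ch (sw lk (s' (i' + 1))) + ch (sw lk (s' (i' + 2))) := by
    rw [fc_rot s i, fc_rot s' i', ← hi]
    ext n; simp only [Pi.add_apply]; grind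
  have a3 : Av ends (fc lk s + fc lk s') (reg vx lS x p (s i)) := by
    rw [e3]
    exact (((av_sr W Z (H.sne (f1 i))).add (av_sr W Z (H.sne (f2 i)))).add
      (av_sr W Z (hn' _ _ (f1 i')).symm)).add (av_sr W Z (hn' _ _ (f2 i')).symm)
  have aF : ∀ {T}, T ⊆ Free → Av ends (fc lk s + fc lk s') T := fun h =>
    (av_fF W Z s h).add (av_fF W Z s' h)
  obtain ⟨γ, v0⟩ := E.val c3 (ws W Z (s i)) a3
  have vq : ∀ q, q = x (s i) ∨ q = p (s i) → ValN ends χ (fc lk s + fc lk s') (vx q) γ := by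
    rintro q (rfl | rfl)
    · exact E.toL c3 (w1 W Z (s i)) (a3.mono (by simp [reg])) fun e he => v0 e (by simp [sw, he])
    · exact E.toR c3 (w1 W Z (s i)) (a3.mono (by simp [reg])) fun e he => v0 e (by simp [sw, he])
  have rq : ∀ q, q = x (s i) ∨ q = p (s i) → R q := fun q h => h.elim (· ▸ Z.rx _) (· ▸ Z.rp _)
  obtain ⟨κ1, v1⟩ := E.valN c1 (av_fv W Z s H.rz H.ez)
  obtain ⟨κ2, v2⟩ := E.valN c2 (av_fv W Z s' H.rz H.ez)
  obtain ⟨κ1', v1'⟩ := E.valN c1 (av_fv W Z s H'.rz H'.ez)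
  obtain ⟨κ2', v2'⟩ := E.valN c2 (av_fv W Z s' H'.rz H'.ez)
  have k : ∀ z q κ, R z → q = x (s i) ∨ q = p (s i) → G.Adj z q →
      ValN ends χ (fc lk s + fc lk s') (vx z) κ → κ = γ := by
    intro z q κ rz hq hz v
    obtain ⟨S, pR⟩ := W.pe _ _ hz
    obtain ⟨l, qR⟩ := W.pw _ _ _ rz (rq q hq) pR
    exact qR.uniq (E.fromL c3 qR (aF (W.pF _ _ _ pR)) v)
      (E.fromR c3 qR (aF (W.pF _ _ _ pR)) (vq q hq))
  have t1 := k z q _ H.rz hq hz (E.valN_add v1 v2)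
  have t2 := k z' q' _ H'.rz hq' hz' (E.valN_add v1' v2')
  have k2 : ∀ {s s' : Fin 3 → Sd} {o z o' z' : V} {i i' : Fin 3} {κ : F},
      FaceH G R en u x p w s o z → FaceH G R en u x p w s' o' z' → s i = s' i' →
      u (s (i + 2)) ≠ u (s' (i' + 2)) → (∀ j', s (i + 2) ≠ s' j') →
      ValN ends χ (fc lk s') (vx z) κ → Val χ (fc lk s') (sw lk (s (i + 2))) κ := by
    intro s s' o z o' z' i i' κ H H' hi hw hn v
    have c2 := bd_fc W Z H'
    obtain ⟨S, pR⟩ := W.pe _ _ (H.zu (i + 2))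
    obtain ⟨l, qR⟩ := W.pw _ _ _ H.rz (Z.ru _) pR
    have b1 : u (s' i') ≠ u (s (i + 2)) := hi ▸ H.une (f2 i).symm
    have b2 : u (s' (i' + 1)) ≠ u (s (i + 2)) := by
      rw [← H'.cyc, ← hi, H.cyc]; exact H.une (f3 i).symm
    refine E.fromL c2 (ws W Z _) ?_ (E.toR c2 qR ?_
      (E.fromL c2 qR (av_fF W Z s' (W.pF _ _ _ pR)) v))
    · rw [fc_rot s' i']
      exact ((av_sr W Z (hn _).symm).add (av_sr W Z (hn _).symm)).add (av_sr W Z (hn _).symm)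
    · rw [fc_rot s' i']
      exact ((av_sv W Z (Z.ru _) b1 (H'.cyc _ ▸ b2) (Z.xu _ _) (Z.pu _ _)).add
        (av_sv W Z (Z.ru _) b2 (by rw [H'.cyc, f4]; exact hw.symm) (Z.xu _ _) (Z.pu _ _))).add
        (av_sv W Z (Z.ru _) hw.symm (by rw [H'.cyc, f5]; exact b1) (Z.xu _ _) (Z.pu _ _))
  have t3 := k2 H H' hi hw (fun _ => hn _ _ (f2 i)) v2
  have t4 := k2 H' H hi.symm hw.symm (fun _ => (hn' _ _ (f2 i')).symm) v1'
  have wa := wf W Z H (i + 2)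
  have wb := wf W Z H' (i' + 2)
  rw [f5] at wa wb
  rw [← hi] at wb
  have t := E.theta (a := vx (u (s i))) c1 c2 ((ws W Z _).bd_left (W.inj.ne (Z.uw _)))
    (wa.bd_right (W.inj.ne (H.une (f2 i)))) (wb.bd_right (W.inj.ne (hi ▸ H'.une (f2 i'))))
    (fun e => ⟨(av_sr W Z (H.sne (f2 i).symm)).mul (hs W Z _) e,
      (av_sr W Z (hn' _ _ (f2 i'))).mul (hs W Z _) e,
      (av_sr W Z (hn' _ _ (f2 i'))).mul (hs W Z _) e⟩)
    (by
      rw [show fc lk s + ch (sw lk (s i)) + ch (sw lk (s (i + 2))) = ch (sw lk (s (i + 1))) by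
        rw [fc_rot s i]; ext n; simp only [Pi.add_apply]; grind]
      exact av_sv W Z (Z.ru _) (H.une (f1 i)) (by rw [H.cyc, f4]; exact H.une (f2 i)) (Z.xu _ _)
        (Z.pu _ _))
    (by
      rw [show fc lk s' + ch (sw lk (s i)) + ch (sw lk (s' (i' + 2))) = ch (sw lk (s' (i' + 1))) by
        rw [fc_rot s' i', hi]; ext n; simp only [Pi.add_apply]; grind, hi]
      exact av_sv W Z (Z.ru _) (H'.une (f1 i')) (by rw [H'.cyc, f4]; exact H'.une (f2 i'))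
        (Z.xu _ _) (Z.pu _ _))
    (fun d _ h => v0 _ (mem_of_ch h)) (fun d _ h => t3 _ (mem_of_ch h))
    (fun d _ h => t4 _ (mem_of_ch h))
  have fb := W.pF _ _ _ pb
  obtain ⟨b1, u1⟩ := E.val c1 qb (av_fF W Z s fb)
  obtain ⟨b2, u2⟩ := E.val c2 qb (av_fF W Z s' fb)
  have t5 := qb.uniq (E.val_add u1 u2) (E.fromL c3 qb (aF fb) (vq _ (.inl rfl)))
  have k3 : ∀ {s : Fin 3 → Sd} {o z κ β}, FaceH G R en u x p w s o z →
      ValN ends χ (fc lk s) (vx z) κ → Val χ (fc lk s) b β →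
      (In ends χ (fc lk s) (vx z) b ↔ β = κ + 1) := by
    intro s o z κ β H v v'
    obtain ⟨S, pR⟩ := W.pe _ _ H.oz
    obtain ⟨l, qR⟩ := W.pw _ _ _ H.rz H.ro pR
    exact ⟨fun ⟨κ', h1, h2⟩ => by rw [qb.uniq v' h2, qR.uniqL h1 v], fun h => ⟨κ, v, h ▸ v'⟩⟩
  rw [k3 H v1 u1, k3 H' v2' u2]
  have aux : ∀ γ κ1 κ2 κ1' κ2' b1 b2 : F, γ + κ2 + κ1' = 1 → κ1 + κ2 = γ → κ1' + κ2' = γ →
      b1 + b2 = γ → (b1 = κ1 + 1 ↔ ¬b2 = κ2' + 1) := by decide +kernel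
  exact aux _ _ _ _ _ _ _ t t1 t2 t5

omit H in
theorem only_abs {Φ : Type} {s : Φ → Fin 3 → Sd} {o z : Φ → V} {c : Φ → Bool}
    (H : ∀ f, FaceH G R en u x p w (s f) (o f) (z f))
    (h1 : ∀ f f' i i', s f i = s f' i' → c f = c f' → f = f' ∧ i = i')
    (h2 : ∀ f f' i i', s f i = s f' i' → c f = true → c f' = false →
      u (s f (i + 2)) ≠ u (s f' (i' + 2)) ∧ (∀ j j', j ≠ i → s f j ≠ s f' j') ∧
        ∀ j j', j' ≠ i' → s f j ≠ s f' j') :
    ∃ y : Sd → Bool, ∀ f, ∃ σ : Fin 3, ∀ i,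
      (G.Adj (z f) (p (s f i)) → σ = i + 2 → y (s f i) = c f) ∧
      (G.Adj (z f) (x (s f i)) → σ ≠ i + 2 ∧ (σ = i + 1 → y (s f i) ≠ c f)) := by
  classical
  choose βS pb using fun s => W.pe _ _ (Z.aB s)
  choose β qb using fun s => W.pw _ _ _ (Z.rx s) (Z.rw s) (pb s)
  let I : Φ → Fin 3 → Prop := fun f i => In ends χ (fc lk (s f)) (vx (z f)) (β (s f i))
  let fl : Φ → Fin 3 → Prop := fun f i => ∃ q, (q = x (s f i) ∨ q = p (s f i)) ∧ G.Adj (z f) q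
  have k : ∀ f f' i i', s f i = s f' i' → c f = true → c f' = false → fl f i → fl f' i' →
      (I f i ↔ ¬I f' i') := by
    rintro f f' i i' e1 e2 e3 ⟨q, h3, h4⟩ ⟨q', h5, h6⟩
    obtain ⟨h7, h8, h9⟩ := h2 f f' i i' e1 e2 e3
    have := opp W Z (H f) (H f') e1 h7 h3 (e1 ▸ h5) h4 h6 h8 h9 (pb _) (qb _)
    simp only [I, ← e1]
    exact this
  let y : Sd → Bool := fun t => decide (∃ f i, s f i = t ∧ fl f i ∧ (I f i ↔ c f = true))
  have hy : ∀ f i, fl f i → (y (s f i) = c f ↔ I f i) := by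
    intro f i hf
    have k1 : y (s f i) = true ↔ (I f i ↔ c f = true) := by
      simp only [y, decide_eq_true_eq]
      refine ⟨fun ⟨f', i', e1, e2, e3⟩ => ?_, fun h => ⟨f, i, rfl, hf, h⟩⟩
      by_cases e4 : c f' = c f
      · obtain ⟨rfl, rfl⟩ := h1 _ _ _ _ e1 e4
        exact e3
      · cases e5 : c f
        · have := k f' f i' i e1 (by simpa [e5] using e4) e5 e2 hf
          grind
        · have := k f f' i i' e1.symm e5 (by simpa [e5] using e4) hf e2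
          grind
    grind
  refine ⟨y, fun f => ?_⟩
  obtain ⟨σ, h⟩ := face W Z (H f) pb qb
  exact ⟨σ, fun i => ⟨fun h3 h4 => (hy f i ⟨_, .inr rfl, h3⟩).2 ((h i).1 h3 h4), fun h3 =>
    ⟨((h i).2 h3).1, fun h4 h5 => ((h i).2 h3).2 h4 ((hy f i ⟨_, .inl rfl, h3⟩).1 h5)⟩⟩⟩

end Pool.Agent.Lib.MP_50b5c6_lc
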