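import Pool.Agent.Lib.MP_50b5c6_lc.Defs
import Pool.Agent.Lib.MP_50b5c6_lc.Sector

/-! From a drawing to the combinatorial structure. -/

namespace Pool.Agent.Lib.MP_50b5c6_lc

lemma sameRay_tri {a b c : ℂ} {r : ℝ} (hc : c = r • a)
    (h : SameRay ℝ (-a) b) : SameRay ℝ (-c) a ∨ SameRay ℝ (-c) b := by
  subst hc
  rcases le_total r 0 with hr | hr
  · left
    rw [← neg_smul]
    exact SameRay.sameRay_nonneg_smul_left a (by linarith)
  · right
    rw [← smul_neg]
    exact h.nonneg_smul_left hr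

/-- the abstract track of a family of arcs -/
def trackOf {V J A : Type} (simple : Prop) (γ : A → ℝ → ℂ) (ends : A × Bool → V ⊕ J)
    (h : ∀ j d d', ends d = .inr j → ends d' = .inr j → ∃ r : ℝ, vel γ d' = r • vel γ d) :
    Track V J A where
  ends := ends
  opp := fun a b => SameRay ℝ (-vel γ a) (vel γ b)
  simple := simple
  symm := fun _ _ h => SameRay.symm (sameRay_neg_swap.1 h)
  tri := fun j a b c ha _ hc hab => by
    obtain ⟨r, hr⟩ := h j a c ha hc
    exact sameRay_tri hr hab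

theorem Confluent.track {simple : Prop} {V : Type} [Fintype V] [DecidableEq V] {G : SimpleGraph V}
    (h : Confluent simple G) : ∃ (J A : Type) (_ : Fintype J) (_ : DecidableEq J) (_ : Fintype A)
      (_ : DecidableEq A) (T : Track V J A) (χ : (A → F) → A → F), Emb T.ends χ ∧
      ∀ u v, u ≠ v → (G.Adj u v ↔ ∃ l, T.SP u v l) := by
  classical
  obtain ⟨J, A, _, _, pos, γ, ends, h1, h2, h3, h4, h5⟩ := h
  have := Fintype.ofFinite J
  have := Fintype.ofFinite A
  have hne : ∀ e, ends (e, true) ≠ ends (e, false) := fun e he => by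
    have := (h2 e).2.1 (by simp) (by simp) ((h2 e).2.2.2.1.trans (he ▸ (h2 e).2.2.2.2.symm))
    simp at this
  have k : ∀ a : unitInterval, ¬(a = 0 ∨ a = 1) → 1 - (a : ℝ) ∈ Set.Ioo (0 : ℝ) 1 := by
    intro a ha
    push Not at ha
    have b1 : (a : ℝ) ≠ 0 := fun h => ha.1 (Subtype.ext h)
    have b2 : (a : ℝ) ≠ 1 := fun h => ha.2 (Subtype.ext h)
    exact ⟨sub_pos.2 (lt_of_le_of_ne a.2.2 b2), sub_lt_self _ (lt_of_le_of_ne a.2.1 b1.symm)⟩
  obtain ⟨ρ, mid, hN⟩ := exists_normal (fun e => ends (e, true)) (fun e => ends (e, false)) hne pos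
    h1 (fun e a => γ e (1 - a))
    (fun e => (h2 e).1.continuous.comp (continuous_const.sub continuous_subtype_val))
    (fun e => by simpa using (h2 e).2.2.2.2) (fun e => by simpa using (h2 e).2.2.2.1)
    (fun e a w h => by_contra fun hn => (h3 e _ (k a hn)).1 w h)
    (fun e e' a b he h => by_contra fun hn => (h3 e _ (k a hn)).2 e' he.symm _
      ⟨sub_nonneg.2 b.2.2, sub_le_self _ b.2.1⟩ h)
  obtain ⟨χ, hE⟩ := hN.emb hne
  have e : base (fun e => ends (e, true)) (fun e => ends (e, false)) = ends := by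
    ext ⟨a, _ | _⟩ <;> rfl
  rw [e] at hE
  refine ⟨J, A, inferInstance, inferInstance, inferInstance, inferInstance,
    trackOf simple γ ends h4, χ, hE, fun u v huv => (h5 u v huv).trans ?_⟩
  simp only [Track.SP, Track.Ch, and_assoc]
  rfl

theorem Confluent.only {simple : Prop} {V Sd Φ : Type} [Fintype V] {G : SimpleGraph V}
    (h : Confluent simple G) {en nr : (Sd × Fin 3) × Bool → V} {md : Sd × Fin 3 → V}
    (hL : Links G en nr md) {u x p w : Sd → V} (Z : Sides G (Real nr md) en u x p w)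
    {s : Φ → Fin 3 → Sd} {o z : Φ → V} {c : Φ → Bool}
    (H : ∀ f, FaceH G (Real nr md) en u x p w (s f) (o f) (z f))
    (h1 : ∀ f f' i i', s f i = s f' i' → c f = c f' → f = f' ∧ i = i')
    (h2 : ∀ f f' i i', s f i = s f' i' → c f = true → c f' = false →
      u (s f (i + 2)) ≠ u (s f' (i' + 2)) ∧ (∀ j j', j ≠ i → s f j ≠ s f' j') ∧
        ∀ j j', j' ≠ i' → s f j ≠ s f' j') :
    ∃ y : Sd → Bool, ∀ f, ∃ σ : Fin 3, ∀ i,
      (G.Adj (z f) (p (s f i)) → σ = i + 2 → y (s f i) = c f) ∧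
      (G.Adj (z f) (x (s f i)) → σ ≠ i + 2 ∧ (σ = i + 1 → y (s f i) ≠ c f)) := by
  classical
  obtain ⟨J, A, _, _, _, _, T, χ, hE, hG⟩ := h.track
  obtain ⟨_, _, _, _, _, _, W⟩ := exists_world T hE hG hL
  exact only_abs W Z H h1 h2

theorem Confluent.iso {simple : Prop} {V V' : Type} {G : SimpleGraph V} {G' : SimpleGraph V'}
    (e : V ≃ V') (he : ∀ a b, G'.Adj (e a) (e b) ↔ G.Adj a b) (h : Confluent simple G) :
    Confluent simple G' := by
  obtain ⟨J, A, _, _, pos, γ, ends, h1, h2, h3, h4, h5⟩ := h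
  let E := Equiv.sumCongr e (Equiv.refl J)
  have e1 : ∀ n j, E n = .inr j ↔ n = .inr j := by rintro (n | n) j <;> simp [E]
  refine ⟨J, A, inferInstance, inferInstance, pos ∘ E.symm, γ, fun d => E (ends d),
    h1.comp E.symm.injective, fun a => by simpa using h2 a,
    fun a t ht => ⟨fun n => (h3 a t ht).1 _, (h3 a t ht).2⟩,
    fun j d d' k1 k2 => h4 j d d' ((e1 _ _).1 k1) ((e1 _ _).1 k2), fun u v huv => ?_⟩
  obtain ⟨u, rfl⟩ := e.surjective u
  obtain ⟨v, rfl⟩ := e.surjective v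
  rw [he, h5 u v fun h => huv (congrArg e h)]
  have e2 : ∀ (o : Option (A × Bool)) (f : A × Bool → V ⊕ J) (u : V),
      o.map (fun d => E (f d)) = some (.inl (e u)) ↔ o.map f = some (.inl u) := by
    rintro (_ | d) f u
    · simp
    · simp only [Option.map_some, Option.some.injEq]
      exact E.apply_eq_iff_eq (y := .inl u)
  refine exists_congr fun l => ?_
  rw [e2, e2 _ fun d => ends (d.1, !d.2)]
  simp only [e1]
  rw [show (l.map fun d => E (ends (d.1, !d.2))) = (l.map fun d => ends (d.1, !d.2)).map E by simp,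
    List.nodup_map_iff E.injective]

end Pool.Agent.Lib.MP_50b5c6_lc
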