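import Pool.Agent.Lib.MP_50b5c6_lc.Block
import Pool.Agent.Lib.Complexity.CookLevin

/-! The reduction from three literal clauses. -/

namespace Pool.Agent.Lib.MP_50b5c6_lc

open Pool.Agent.Lib.Complexity N487b59b3 N68a2faeb N793a5b8e

def lit (φ : CNF) (o : ℕ) : ℕ × Bool := (φ.getD (o / 3) []).getD (o % 3) (0, true)

def col (l : ℕ × Bool) : ℕ := 2 * l.1 + bif l.2 then 0 else 1

def mtN (φ : CNF) (I J : ℕ) : ℕ :=
  if J = 0 then (if I < 2 * φ.top then (if I % 2 = 0 then 6 else 4) else 0)
  else if J ≤ 3 * φ.length then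
    (if I < 2 * φ.top then (if I = col (lit φ (J - 1)) then 2 else 1)
    else if I = 2 * φ.top then (if J % 3 = 1 then 4 else if J % 3 = 2 then 3 else 5) else 0)
  else 0

def mt (φ : CNF) (I : Pt) : ℕ := if 0 ≤ I.1 ∧ 0 ≤ I.2 then mtN φ I.1.toNat I.2.toNat else 0

lemma mt_lt (φ : CNF) (I : Pt) : mt φ I < 7 := by
  unfold mt mtN; split_ifs <;> omega

lemma mt_nat (φ : CNF) (I J : ℕ) : mt φ ((I : ℤ), (J : ℤ)) = mtN φ I J := by simp [mt]

lemma lit_mem {φ : CNF} (h3 : ∀ c ∈ φ, c.length = 3) {j : ℕ} (hj : j < φ.length) :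
    φ[j] = [lit φ (3 * j), lit φ (3 * j + 1), lit φ (3 * j + 2)] := by
  obtain ⟨l0, l1, l2, h⟩ := List.length_eq_three.1 (h3 _ (List.getElem_mem hj))
  have e1 : (3 * j + 1) / 3 = j := by omega
  have e2 : (3 * j + 2) / 3 = j := by omega
  simp [lit, e1, e2, hj, h, Nat.add_mod]

lemma col_lt {φ : CNF} (h3 : ∀ c ∈ φ, c.length = 3) {o : ℕ} (ho : o < 3 * φ.length) :
    col (lit φ o) < 2 * φ.top := by
  have hj : o / 3 < φ.length := by omega
  have : lit φ o ∈ φ[o / 3] := by
    rw [lit_mem h3 hj]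
    have : o = 3 * (o / 3) ∨ o = 3 * (o / 3) + 1 ∨ o = 3 * (o / 3) + 2 := by omega
    rcases this with h | h | h <;> rw [← h] <;> simp
  have := CNF.lt_top (List.getElem_mem hj) this
  unfold col
  cases (lit φ o).2 <;> simp <;> omega

lemma sat_of_grid {φ : CNF} (h3 : ∀ c ∈ φ, c.length = 3) {h v : ℕ → ℕ → Bool}
    (hc : ∀ I ≤ 2 * φ.top, ∀ J ≤ 3 * φ.length,
      cond (mtN φ I J) (h I J) (h (I + 1) J) (v I J) (v I (J + 1)) = true) : ∃ α, φ.Sat α := by
  have k1 : ∀ I < 2 * φ.top, ∀ J ≤ 3 * φ.length, v I (J + 1) = true → v I 1 = true := by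
    intro I hI J
    induction J with
    | zero => exact fun _ h => h
    | succ J ih =>
      intro hJ h1
      refine ih (by omega) ?_
      have := hc I hI.le (J + 1) hJ
      simp only [mtN, Nat.add_one_ne_zero, if_false, hJ, if_true, hI] at this
      split_ifs at this <;> simp only [cond] at this <;> grind
  have k2 : ∀ o < 3 * φ.length, h (2 * φ.top) (o + 1) = true → v (col (lit φ o)) 1 = true := by
    intro o ho h1
    have h2 := col_lt h3 ho
    have h4 : ∀ I, col (lit φ o) + 1 ≤ I → I ≤ 2 * φ.top → h I (o + 1) = true →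
        h (col (lit φ o) + 1) (o + 1) = true := by
      intro I hI
      induction I, hI using Nat.le_induction with
      | base => exact fun _ h => h
      | succ I hI ih =>
        intro h5 h6
        refine ih (by omega) ?_
        have := hc I (by omega) (o + 1) ho
        rw [mtN, if_neg (by omega), if_pos (by omega), if_pos (by omega),
          if_neg (by simp; omega)] at this
        simp only [cond] at this
        grind
    have := hc _ h2.le (o + 1) ho
    rw [mtN, if_neg (by omega), if_pos (by omega), if_pos h2, if_pos (by simp),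
      h4 _ h2 le_rfl h1] at this
    exact k1 _ h2 o ho.le (by simpa [cond] using this)
  have k3 : ∀ o < 3 * φ.length, h (2 * φ.top) (o + 1) = true →
      v (2 * (lit φ o).1) 1 = (lit φ o).2 := by
    intro o ho h1
    have h2 := k2 o ho h1
    have h4 := col_lt h3 ho
    unfold col at h2 h4
    cases e : (lit φ o).2
    · simp only [e, cond_false] at h2 h4
      have a1 := hc (2 * (lit φ o).1) (by omega) 0 (by omega)
      have a2 := hc (2 * (lit φ o).1 + 1) (by omega) 0 (by omega)
      rw [mtN, if_pos rfl, if_pos (by omega), if_pos (by omega)] at a1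
      rw [mtN, if_pos rfl, if_pos (by omega), if_neg (by omega)] at a2
      simp only [cond] at a1 a2
      grind
    · simpa [e] using h2
  refine ⟨fun x => v (2 * x) 1, fun c hc' => ?_⟩
  obtain ⟨j, hj, rfl⟩ := List.getElem_of_mem hc'
  have a0 := hc _ le_rfl (3 * j + 1) (by omega)
  have a1 := hc _ le_rfl (3 * j + 1 + 1) (by omega)
  have a2 := hc _ le_rfl (3 * j + 2 + 1) (by omega)
  rw [mtN, if_neg (by omega), if_pos (by omega), if_neg (by omega), if_pos rfl,
    if_pos (by omega)] at a0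
  rw [mtN, if_neg (by omega), if_pos (by omega), if_neg (by omega), if_pos rfl, if_neg (by omega),
    if_pos (by omega)] at a1
  rw [mtN, if_neg (by omega), if_pos (by omega), if_neg (by omega), if_pos rfl, if_neg (by omega),
    if_neg (by omega)] at a2
  have b0 := k3 (3 * j) (by omega)
  have b1 := k3 (3 * j + 1) (by omega)
  have b2 := k3 (3 * j + 2) (by omega)
  simp only [cond] at a0 a1 a2
  rw [lit_mem h3 hj]
  simp only [List.mem_cons, List.not_mem_nil, or_false, exists_eq_or_imp, exists_eq_left]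
  grind

lemma grid_of_sat {φ : CNF} (h3 : ∀ c ∈ φ, c.length = 3) {α : ℕ → Bool} (hα : φ.Sat α) :
    ∃ h v : ℕ → ℕ → Bool, ∀ I J,
      cond (mtN φ I J) (h I J) (h (I + 1) J) (v I J) (v I (J + 1)) = true := by
  let lv : ℕ → Bool := fun I => α (I / 2) == decide (I % 2 = 0)
  let lo : ℕ → Bool := fun o => α (lit φ o).1 == (lit φ o).2
  have e : ∀ o, lv (col (lit φ o)) = lo o := by
    intro o
    simp only [lv, lo, col]
    cases (lit φ o).2
    · rw [cond_false, show (2 * (lit φ o).1 + 1) / 2 = (lit φ o).1 by omega]; simp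
    · simp
  refine ⟨fun I J => if J = 0 then lv I else if I ≤ col (lit φ (J - 1)) then true else lo (J - 1),
    fun I J => if I < 2 * φ.top then lv I else if J % 3 = 2 then lo (J - 2) else !lo (J - 1),
    fun I J => ?_⟩
  unfold mtN
  by_cases h1 : J = 0
  · subst h1
    by_cases h2 : I < 2 * φ.top
    · by_cases h4 : I % 2 = 0
      · have : (I + 1) / 2 = I / 2 := by omega
        have h5 : (I + 1) % 2 ≠ 0 := by omega
        simp [h2, h4, cond, lv, this, h5]
      · simp [h2, h4, cond]
    · simp [h2, cond]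
  by_cases h2 : J ≤ 3 * φ.length
  · have h4 := col_lt h3 (o := J - 1) (by omega)
    by_cases h5 : I < 2 * φ.top
    · by_cases h6 : I = col (lit φ (J - 1))
      · simp only [h1, h2, h5, if_true, if_false, ← h6, cond]
        rw [← e, ← h6]
        simp
      · simp only [h1, h2, h5, h6, if_true, if_false, cond]
        by_cases h7 : I ≤ col (lit φ (J - 1))
        · simp [h7]
        · simp [h7, show ¬I + 1 ≤ col (lit φ (J - 1)) by omega]
    · by_cases h6 : I = 2 * φ.top
      · have h7 : ¬I ≤ col (lit φ (J - 1)) := by omega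
        simp only [h1, h2, h5, h7, if_true, if_false, if_pos h6]
        by_cases h8 : J % 3 = 1
        · simp [h8, cond, show (J + 1) % 3 = 2 by omega, show J + 1 - 2 = J - 1 by omega]
        by_cases h9 : J % 3 = 2
        · have hj : J / 3 < φ.length := by omega
          have := hα _ (List.getElem_mem hj)
          rw [lit_mem h3 hj, show 3 * (J / 3) = J - 2 by omega, show J - 2 + 1 = J - 1 by omega,
            show J - 2 + 2 = J by omega] at this
          simp only [List.mem_cons, List.not_mem_nil, or_false, exists_eq_or_imp,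
            exists_eq_left] at this
          simp only [h9, cond, show (J + 1) % 3 ≠ 2 by omega, lo, Nat.add_sub_cancel]
          grind
        · simp [h8, h9, cond]
      · simp [h1, h2, h5, h6, cond]
  · simp [h1, h2, cond]

def wX (φ : CNF) : ℕ := 300 * (2 * φ.top + 2)
def wY (φ : CNF) : ℕ := 156 * (3 * φ.length + 2)

theorem sat_iff (simple : Prop) {φ : CNF} (h3 : ∀ c ∈ φ, c.length = 3) :
    (∃ α, φ.Sat α) ↔ Confluent simple (graph (gateOf (mt φ)) (wX φ) (wY φ)) := by
  constructor
  · rintro ⟨α, hα⟩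
    obtain ⟨h, v, hc⟩ := grid_of_sat h3 hα
    obtain ⟨y, hy⟩ := grid_complete (mt_lt φ) (h := fun I => h I.1.toNat I.2.toNat)
      (v := fun I => v I.1.toNat I.2.toNat) fun I => by
        unfold mt
        split_ifs with h1
        · simp only [Prod.fst_add, Prod.snd_add, add_zero]
          rw [show (I.1 + 1).toNat = I.1.toNat + 1 by omega,
            show (I.2 + 1).toNat = I.2.toNat + 1 by omega]
          exact hc _ _
        · rfl
    exact if_dir simple (fun T => blk_gates _ (mt_lt φ _) _ (by omega)) _ _ hy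
  · intro h
    obtain ⟨y, hy⟩ := only_dir h
    refine sat_of_grid h3 (h := fun I J => y (morg ((I : ℤ), (J : ℤ)) + (0, 1), true))
      (v := fun I J => y (morg ((I : ℤ), (J : ℤ)) + (5, 0), false)) fun I hI J hJ => ?_
    have := grid_sound (mt := mt φ) (y := y) ((I : ℤ), (J : ℤ)) fun a ha b hb =>
      hy _ (by simp [morg]; omega) (by simp [morg, wX]; omega) (by simp [morg]; omega)
        (by simp [morg, wY]; omega)
    simpa [mt_nat] using this

def adjB (φ : CNF) (i j : ℕ) : Bool :=
  decide (((((i % wX φ % 30 : ℕ) : ℤ), ((i / wX φ % 26 : ℕ) : ℤ)),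
      (((j % wX φ : ℕ) : ℤ) - 30 * ((i % wX φ / 30 : ℕ) : ℤ),
        ((j / wX φ : ℕ) : ℤ) - 26 * ((i / wX φ / 26 : ℕ) : ℤ))) ∈
    templ (decide ((i % wX φ / 30 + i / wX φ / 26) % 2 = 1))
      (blk (mtN φ (i % wX φ / 30 / 10) (i / wX φ / 26 / 6))
        (i % wX φ / 30 % 10 * 6 + i / wX φ / 26 % 6)))

lemma adjB_iff (φ : CNF) (i j : ℕ) : adjB φ i j = true ↔ E (gateOf (mt φ))
    (((i % wX φ : ℕ) : ℤ), ((i / wX φ : ℕ) : ℤ)) (((j % wX φ : ℕ) : ℤ), ((j / wX φ : ℕ) : ℤ)) := by
  unfold adjB E
  generalize i % wX φ = x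
  generalize i / wX φ = y
  have e1 : par (vt ((x : ℤ), (y : ℤ))) = decide ((x / 30 + y / 26) % 2 = 1) := by
    simp only [par, vt, decide_eq_decide]; omega
  have e2 : gateOf (mt φ) (vt ((x : ℤ), (y : ℤ))) =
      blk (mtN φ (x / 30 / 10) (y / 26 / 6)) (x / 30 % 10 * 6 + y / 26 % 6) := by
    rw [← mt_nat]
    simp only [gateOf, vt]
    congr 3
  rw [e1, e2, decide_eq_true_eq]
  rfl

lemma pt_adjB : PT fun x : CNF × ℕ × ℕ => adjB x.1 x.2.1 x.2.2 := by
  have h0 := pt_top
  have hX : PT wX := by unfold wX; fun_prop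
  have hm : PT fun x : CNF × ℕ × ℕ => mtN x.1 x.2.1 x.2.2 := by
    unfold mtN col lit; fun_prop
  have hb : PT fun x : ℕ × ℕ => blk x.1 x.2 := by unfold blk; fun_prop
  have ht : PT fun x : Bool × ℕ => templ x.1 x.2 := by
    have h1 : PT fun π => bif π then base' true else base' false := by fun_prop
    have h2 : PT fun π => bif π then flags true else flags false := by fun_prop
    have h3 : PT base' := h1.of_eq fun π => by cases π <;> rfl
    have h4 : PT flags := h2.of_eq fun π => by cases π <;> rfl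
    unfold templ
    fun_prop
  unfold adjB
  refine PT.dec_mem (by fun_prop) (ht.comp (PT.prodMk (PT.dec_eq (by fun_prop) (by fun_prop))
    (hb.comp (PT.prodMk (hm.comp (f := fun x : CNF × ℕ × ℕ =>
      (x.1, x.2.1 % wX x.1 / 30 / 10, x.2.1 / wX x.1 / 26 / 6)) (by fun_prop)) (by fun_prop)))))

def edges (φ : CNF) : List (ℕ × ℕ) :=
  (List.range (wX φ * wY φ) ×ˢ List.range (wX φ * wY φ)).filter fun e => adjB φ e.1 e.2

lemma lang_iff (simple : Prop) (n : ℕ) (es : List (ℕ × ℕ)) (h : ∀ e ∈ es, e.1 < n ∧ e.2 < n) :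
    lang simple (bitEncode (List.range n, es)) = true ↔
      Confluent simple (SimpleGraph.fromRel fun u v : Fin n => (u.1, v.1) ∈ es) := by
  have k : ∀ es : List (Fin n × Fin n), (fun u v : Fin n => (u, v) ∈ es) =
      fun u v : Fin n => (u.1, v.1) ∈ es.map fun e => (e.1.val, e.2.val) := by
    intro es
    ext u v
    simp only [List.mem_map, Prod.mk.injEq, Fin.val_inj]
    exact ⟨fun h => ⟨_, h, rfl, rfl⟩, fun ⟨_, h, h1, h2⟩ => h1 ▸ h2 ▸ h⟩
  simp only [lang, decide_eq_true_eq]
  constructor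
  · rintro ⟨n', es', e, h1⟩
    obtain ⟨e1, rfl⟩ := Prod.mk.inj (bitEncode_injective e)
    obtain rfl : n = n' := by simpa using congrArg List.length e1
    rwa [← k]
  · intro h1
    have e : (es.pmap (fun e (he : e.1 < n ∧ e.2 < n) => ((⟨e.1, he.1⟩, ⟨e.2, he.2⟩) :
        Fin n × Fin n)) h).map (fun e => (e.1.val, e.2.val)) = es := by
      simp [List.map_pmap]
    exact ⟨n, _, by rw [e], by rwa [k, e]⟩

def winEquiv (X Y : ℕ) : Fin (X * Y) ≃ {v // win X Y v} where
  toFun i := ⟨(((i.1 % X : ℕ) : ℤ), ((i.1 / X : ℕ) : ℤ)), by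
    have hX : 0 < X := Nat.pos_of_mul_pos_right (Nat.zero_lt_of_lt i.2)
    exact ⟨by positivity, Int.ofNat_lt.2 (Nat.mod_lt _ hX), by positivity,
      Int.ofNat_lt.2 (Nat.div_lt_of_lt_mul i.2)⟩⟩
  invFun v := ⟨v.1.1.toNat + X * v.1.2.toNat, by
    obtain ⟨h1, h2, h3, h4⟩ := v.2
    have a1 : v.1.1.toNat < X := by omega
    have a2 : v.1.2.toNat + 1 ≤ Y := by omega
    nlinarith [Nat.mul_le_mul_left X a2]⟩
  left_inv i := Fin.ext (by simp only [Int.toNat_natCast]; exact Nat.mod_add_div _ _)
  right_inv v := by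
    obtain ⟨h1, h2, h3, h4⟩ := v.2
    have a1 : v.1.1.toNat < X := by omega
    refine Subtype.ext (Prod.ext ?_ ?_)
    · simp only [Nat.add_mul_mod_self_left, Nat.mod_eq_of_lt a1]; omega
    · simp only [Nat.add_mul_div_left _ _ (Nat.zero_lt_of_lt a1), Nat.div_eq_of_lt a1]; omega

theorem hard (simple : Prop) : ∀ L ∈ NP, ManyOneReducible L (lang simple) := by
  refine HardPT.manyOne (β := List ℕ × List (ℕ × ℕ))
    (Q := fun M => lang simple (bitEncode M) = true)
    (hard_3sat.reduce (f := fun φ => ((List.range (wX φ.1 * wY φ.1)).map fun i : ℕ => (i : ℤ),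
      (edges φ.1).map fun e => ((e.1 : ℤ), (e.2 : ℤ)))) ?_ fun φ => ?_) (fun _ => Iff.rfl)
  · have h0 := pt_top
    have hX : PT wX := by unfold wX; fun_prop
    have hY : PT wY := by unfold wY; fun_prop
    have hE : PT edges := by
      unfold edges
      have h1 : PT fun φ => List.range (wX φ * wY φ) := by fun_prop
      exact PT.filter (PT.product h1 h1) pt_adjB
    fun_prop
  · have e : (Rep.down ((List.range (wX φ.1 * wY φ.1)).map fun i : ℕ => (i : ℤ),
        (edges φ.1).map fun e => ((e.1 : ℤ), (e.2 : ℤ))) : List ℕ × List (ℕ × ℕ)) =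
        (List.range (wX φ.1 * wY φ.1), edges φ.1) := by
      simp [Function.comp_def]
    have k : ∀ a b : Fin (wX φ.1 * wY φ.1), (graph (gateOf (mt φ.1)) (wX φ.1) (wY φ.1)).Adj
        (winEquiv _ _ a) (winEquiv _ _ b) ↔
        (SimpleGraph.fromRel fun u v : Fin (wX φ.1 * wY φ.1) => (u.1, v.1) ∈ edges φ.1).Adj a b := by
      intro a b
      rw [graph_adj, SimpleGraph.fromRel_adj, (winEquiv _ _).injective.ne_iff]
      simp only [edges, List.mem_filter, List.mem_product, List.mem_range, a.2, b.2, true_and,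
        adjB_iff]
      rfl
    rw [e, lang_iff simple _ _ fun e he => by
      simpa using List.mem_product.1 (List.mem_filter.1 he).1, sat_iff simple φ.2]
    exact ⟨Confluent.iso (winEquiv _ _).symm fun a b => by simpa using
      (k ((winEquiv _ _).symm a) ((winEquiv _ _).symm b)).symm, Confluent.iso (winEquiv _ _) k⟩

end Pool.Agent.Lib.MP_50b5c6_lc
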