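import Pool.Agent.Lib.MP_50b5c6_lc.Chain

/-! Abstract train tracks and their smooth paths. -/

set_option linter.unusedSectionVars false

namespace Pool.Agent.Lib.MP_50b5c6_lc

variable {V J A : Type}

structure Track (V J A : Type) where
  ends : A × Bool → V ⊕ J
  opp : A × Bool → A × Bool → Prop
  simple : Prop
  symm : ∀ a b, opp a b → opp b a
  tri : ∀ j a b c, ends a = .inr j → ends b = .inr j → ends c = .inr j → opp a b →
    opp c a ∨ opp c b

namespace Track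

variable (T : Track V J A)

def hd (d : A × Bool) : V ⊕ J := T.ends (rv d)

def Nx (d d' : A × Bool) : Prop :=
  (∃ j, T.ends (rv d) = .inr j ∧ T.ends d' = .inr j) ∧ T.opp (rv d) d'

def Ch (a : V ⊕ J) (l : List (A × Bool)) (c : V ⊕ J) : Prop :=
  l.head?.map T.ends = some a ∧ l.getLast?.map T.hd = some c ∧ l.IsChain T.Nx

def SP (u v : V) (l : List (A × Bool)) : Prop :=
  T.Ch (.inl u) l (.inl v) ∧ (T.simple → (l.map T.hd).Nodup)

def JS (l : List (A × Bool)) : Set J := {j | ∃ d ∈ l, T.hd d = .inr j}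

def rl (l : List (A × Bool)) : List (A × Bool) := (l.map rv).reverse

variable {T} {a b c : V ⊕ J} {l p q : List (A × Bool)} {d d' : A × Bool} {u v : V}

lemma ch_one : T.Ch a [d] c ↔ T.ends d = a ∧ T.hd d = c := by simp [Ch]

lemma ch_cons : T.Ch a (d :: d' :: l) c ↔
    T.ends d = a ∧ T.Nx d d' ∧ T.Ch (T.hd d) (d' :: l) c := by
  simp only [Ch, List.head?_cons, Option.map_some, Option.some.injEq, List.getLast?_cons_cons,
    List.isChain_cons_cons]
  constructor
  · rintro ⟨h1, h2, h3, h4⟩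
    obtain ⟨j, h5, h6⟩ := h3.1
    exact ⟨h1, h3, h6.trans h5.symm, h2, h4⟩
  · rintro ⟨h1, h2, -, h3, h4⟩
    exact ⟨h1, h3, h2, h4⟩

lemma not_ch_nil : ¬ T.Ch a [] c := by simp [Ch]

lemma ch_split : T.Ch a (p ++ d :: d' :: q) c ↔
    T.Ch a (p ++ [d]) (T.hd d) ∧ T.Nx d d' ∧ T.Ch (T.hd d) (d' :: q) c := by
  induction p generalizing a with
  | nil => simp [ch_cons, ch_one]
  | cons x p ih =>
    cases p with
    | nil => simp [ch_cons, ch_one]; tauto
    | cons y p =>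
      simp only [List.cons_append] at ih ⊢
      rw [ch_cons, ch_cons, ih]; tauto

lemma Ch.pre (h : T.Ch a (p ++ d :: q) c) : T.Ch a (p ++ [d]) (T.hd d) := by
  cases q with
  | nil =>
    have : T.hd d = c := by simpa using h.2.1
    rwa [this]
  | cons y q => exact (ch_split.1 h).1

lemma Ch.rev (h : T.Ch a l c) : T.Ch c (rl l) a := by
  obtain ⟨h1, h2, h3⟩ := h
  refine ⟨?_, ?_, ?_⟩
  · rw [rl, List.head?_reverse, List.getLast?_map, Option.map_map]; exact h2
  · rw [rl, List.getLast?_reverse, List.head?_map, Option.map_map]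
    rw [← h1]; congr 1; ext d; simp [hd]
  · rw [rl, List.isChain_reverse, List.isChain_map]
    refine h3.imp fun x y ⟨⟨j, k1, k2⟩, k3⟩ => ⟨⟨j, by simpa using k2, k1⟩, ?_⟩
    simpa using T.symm _ _ k3

lemma Ch.nodes (h : T.Ch a l c) : a :: l.map T.hd = l.map T.ends ++ [c] := by
  induction l generalizing a with
  | nil => exact (not_ch_nil h).elim
  | cons x l ih =>
    cases l with
    | nil => obtain ⟨rfl, rfl⟩ := ch_one.1 h; simp
    | cons y l =>
      obtain ⟨rfl, -, h2⟩ := ch_cons.1 h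
      have := ih h2
      simp only [List.map_cons, List.cons_append, List.cons.injEq, true_and] at this ⊢
      exact this

lemma Ch.junc (h : T.Ch a (p ++ d :: d' :: q) c) : ∃ j, T.hd d = .inr j := by
  obtain ⟨j, h1, -⟩ := (ch_split.1 h).2.1.1
  exact ⟨j, h1⟩

lemma Ch.head (h : T.Ch a l c) (hd : d ∈ l) : T.hd d = c ∨ ∃ j, T.hd d = .inr j := by
  obtain ⟨p, q, rfl⟩ := List.append_of_mem hd
  cases q with
  | nil => left; simpa using h.2.1
  | cons y q => exact .inr h.junc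

lemma Ch.tail (h : T.Ch a l c) (hd : d ∈ l) : T.ends d = a ∨ ∃ j, T.ends d = .inr j := by
  have := h.rev.head (d := rv d) (by simp only [rl, List.mem_reverse]; exact List.mem_map_of_mem hd)
  simpa [Track.hd] using this

lemma map_hd_rl : (rl l).map T.hd = (l.map T.ends).reverse := by
  simp [rl, List.map_reverse, Function.comp_def, hd]

lemma SP.js_rev (h : T.SP u v l) : T.JS (rl l) = T.JS l := by
  ext j
  have h1 : (Sum.inr j : V ⊕ J) ∈ Sum.inl u :: l.map T.hd ↔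
      (Sum.inr j : V ⊕ J) ∈ l.map T.ends ++ [Sum.inl v] := by rw [h.1.nodes]
  have h2 : j ∈ T.JS (rl l) ↔ (Sum.inr j : V ⊕ J) ∈ (rl l).map T.hd := by simp [JS]
  rw [h2, map_hd_rl]
  simpa [JS] using h1.symm

lemma SP.rev (h : T.SP u v l) : T.SP v u (rl l) := by
  refine ⟨h.1.rev, fun hs => ?_⟩
  rw [map_hd_rl, List.nodup_reverse]
  obtain ⟨h1, h2⟩ := h
  have h3 := h1.nodes
  rcases List.eq_nil_or_concat l with rfl | ⟨p, d, rfl⟩
  · simp
  · have h4 : List.map T.ends (p.concat d) = Sum.inl u :: p.map T.hd := by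
      simp only [List.concat_eq_append, List.map_append, List.map_cons, List.map_nil] at h3 ⊢
      exact (List.append_inj' (s₁ := Sum.inl u :: p.map T.hd) h3 rfl).1.symm
    rw [h4, List.nodup_cons]
    refine ⟨fun hm => ?_, (h2 hs).sublist (by simp)⟩
    obtain ⟨x, hx, hx'⟩ := List.mem_map.1 hm
    obtain ⟨p1, p2, rfl⟩ := List.append_of_mem hx
    have : ∃ j, T.hd x = .inr j := by
      cases p2 with
      | nil => exact Ch.junc (p := p1) (d' := d) (q := []) (by simpa using h1)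
      | cons y p2 => exact Ch.junc (p := p1) (d' := y) (q := p2 ++ [d]) (by simpa using h1)
    obtain ⟨j, hj⟩ := this
    simp [hj] at hx'

lemma first {S : Set J} (h : ∃ j ∈ T.JS l, j ∈ S) : ∃ p d q j, l = p ++ d :: q ∧
    T.hd d = .inr j ∧ j ∈ S ∧ ∀ x ∈ p, ∀ j', T.hd x = .inr j' → j' ∉ S := by
  induction l with
  | nil => simp [JS] at h
  | cons x l ih =>
    by_cases hx : ∃ j, T.hd x = .inr j ∧ j ∈ S
    · obtain ⟨j, h1, h2⟩ := hx
      exact ⟨[], x, l, j, rfl, h1, h2, by simp⟩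
    · obtain ⟨j, ⟨y, h1, h2⟩, h3⟩ := h
      rcases List.mem_cons.1 h1 with rfl | h1
      · exact (hx ⟨j, h2, h3⟩).elim
      obtain ⟨p, d, q, j, rfl, h4, h5, h6⟩ := ih ⟨j, ⟨y, h1, h2⟩, h3⟩
      refine ⟨x :: p, d, q, j, rfl, h4, h5, fun z hz j' h7 h8 => ?_⟩
      rcases List.mem_cons.1 hz with rfl | hz
      · exact hx ⟨j', h7, h8⟩
      · exact h6 z hz j' h7 h8

lemma glue {u v w e : V} {p p' q q' : List (A × Bool)} {d x y : A × Bool}
    (hP : T.SP u v (p ++ d :: p')) (hQ : T.SP w e (q ++ x :: y :: q')) (hx : T.hd d = T.hd x)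
    (ho : T.opp (rv d) y)
    (hp : ∀ z ∈ p, ∀ j', T.hd z = .inr j' → j' ∉ T.JS (q ++ x :: y :: q')) :
    T.Ch (T.hd d) (y :: q') (.inl e) ∧ T.SP u e (p ++ d :: y :: q') := by
  obtain ⟨-, ⟨⟨j, h1, h2⟩, -⟩, h3⟩ := ch_split.1 hQ.1
  rw [← hx] at h3
  refine ⟨h3, ch_split.2 ⟨hP.1.pre, ⟨⟨j, hx.trans h1, h2⟩, ho⟩, h3⟩, fun hs => ?_⟩
  have n1 := hP.2 hs
  have n2 := hQ.2 hs
  rw [show p ++ d :: y :: q' = (p ++ [d]) ++ y :: q' by simp, List.map_append, List.nodup_append]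
  refine ⟨n1.sublist (by simp), n2.sublist (by simp), fun z hz z' hz' he => ?_⟩
  subst he
  obtain ⟨s, hs1, rfl⟩ := List.mem_map.1 hz
  rcases List.mem_append.1 hs1 with hs1 | hs1
  · obtain ⟨p1, p2, rfl⟩ := List.append_of_mem hs1
    have : ∃ j, T.hd s = .inr j := by
      cases p2 with
      | nil => exact Ch.junc (p := p1) (d' := d) (q := p') (by simpa using hP.1)
      | cons y p2 => exact Ch.junc (p := p1) (d' := y) (q := p2 ++ d :: p') (by simpa using hP.1)
    obtain ⟨j', hj'⟩ := this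
    obtain ⟨t, ht, ht'⟩ := List.mem_map.1 hz'
    exact hp s (by simp) j' hj' ⟨t, by simp [List.mem_cons.1 ht], ht'.trans hj'⟩
  · rw [List.mem_singleton.1 hs1, hx] at hz'
    simp only [List.map_append, List.map_cons, List.nodup_append, List.nodup_cons] at n2
    exact n2.2.1.1 hz'

lemma meet_at {u v w e : V} {p p' Q : List (A × Bool)} {d : A × Bool} {j : J}
    (hP : T.SP u v (p ++ d :: p')) (hQ : T.SP w e Q) (hd : T.hd d = .inr j) (hj : j ∈ T.JS Q)
    (hp : ∀ z ∈ p, ∀ j', T.hd z = .inr j' → j' ∉ T.JS Q) :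
    ∃ m e', (e' = w ∨ e' = e) ∧ T.Ch (.inr j) m (.inl e') ∧ T.SP u e' (p ++ d :: m) ∧
      T.JS m ⊆ T.JS Q := by
  obtain ⟨x, hx, hx'⟩ := hj
  obtain ⟨q, q', rfl⟩ := List.append_of_mem hx
  cases q' with
  | nil => have := hQ.1.2.1; simp [hx'] at this
  | cons y q' =>
    obtain ⟨-, ⟨⟨j', h1, h2⟩, h3⟩, -⟩ := ch_split.1 hQ.1
    obtain rfl : j = j' := Sum.inr_injective (hx'.symm.trans h1)
    rcases T.tri j _ _ (rv d) h1 h2 hd h3 with h | h
    · have e1 : rl (q ++ x :: y :: q') = rl q' ++ rv y :: rv x :: rl q := by simp [rl]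
      have hR := hQ.rev
      have hJ := hQ.js_rev
      rw [e1] at hR hJ
      obtain ⟨k1, k2⟩ := glue hP hR (by rw [hd]; simpa [Track.hd] using h2.symm) h (hJ ▸ hp)
      exact ⟨_, w, .inl rfl, hd ▸ k1, k2, hJ ▸ fun j ⟨z, hz, hz'⟩ =>
        ⟨z, by simp [List.mem_cons.1 hz], hz'⟩⟩
    · obtain ⟨k1, k2⟩ := glue hP hQ (hd.trans hx'.symm) h hp
      exact ⟨_, e, .inr rfl, hd ▸ k1, k2, fun j ⟨z, hz, hz'⟩ =>
        ⟨z, by simp [List.mem_cons.1 hz], hz'⟩⟩

lemma Ch.walk {N : Type} (π : V ⊕ J → N) {S : Set N} (h : T.Ch a l c)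
    (hS : ∀ d ∈ l, π (T.hd d) ∈ S ∨ π (T.hd d) = π a ∨ π (T.hd d) = π c) :
    ∃ l', Walk (fun d => π (T.ends d)) S (π a) (π c) l' := by
  have k : ∀ (S : Set N) (l : List (A × Bool)) a, T.Ch a l c → (∀ d ∈ l, π (T.hd d) ∈ S) →
      Walk (fun d => π (T.ends d)) S (π a) (π c) (l.map Prod.fst) := by
    intro S l
    induction l with
    | nil => exact fun a h => (not_ch_nil h).elim
    | cons x l ih =>
      intro a h hS
      cases l with
      | nil => obtain ⟨rfl, rfl⟩ := ch_one.1 h; exact .one x rfl rfl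
      | cons y l =>
        obtain ⟨rfl, -, h2⟩ := ch_cons.1 h
        exact .cons x rfl rfl (hS x (by simp)) (ih _ h2 fun d hd => hS d (by simp [hd]))
  obtain ⟨l', w⟩ := (k {n | n ∈ S ∨ n = π a ∨ n = π c} l a h hS).shorten
  exact ⟨l', w.mono fun n hn => by simp at hn; tauto⟩

end Track

end Pool.Agent.Lib.MP_50b5c6_lc
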