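import Mathlib

/-! Winding numbers mod two for a plane drawing (adapted from the files of MP_ffa969_co). -/

set_option linter.unusedSectionVars false

namespace Pool.Agent.Lib.MP_50b5c6_lc

abbrev F := ZMod 2

lemma F_add_self (x : F) : x + x = 0 := CharTwo.add_self_eq_zero x

lemma F_eq_of_add {x y : F} (h : x + y = 0) : x = y := by
  revert x y; decide

def bv {V E : Type} [DecidableEq V] (s t : E → V) (e : E) : V → F :=
  fun v => (if s e = v then 1 else 0) + (if t e = v then 1 else 0)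

lemma bv_dot {V E : Type} [Fintype V] [DecidableEq V] (s t : E → V) (e : E) (g : V → F) :
    bv s t e ⬝ᵥ g = g (s e) + g (t e) := by
  simp [bv, dotProduct, add_mul, Finset.sum_add_distrib]

section


open Complex
open scoped Real

/-- `z` is the total variation of a continuous logarithm along `γ` -/
def IsVar (γ : unitInterval → ℂ) (z : ℂ) : Prop :=
  ∃ L : unitInterval → ℂ, Continuous L ∧ (∀ a, exp (L a) = γ a) ∧ z = L 1 - L 0

lemma IsVar.unique {γ : unitInterval → ℂ} {z z' : ℂ} (h : IsVar γ z) (h' : IsVar γ z') :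
    z = z' := by
  obtain ⟨L, hL, h1, rfl⟩ := h
  obtain ⟨L', hL', h1', rfl⟩ := h'
  have := isCoveringMap_exp.eq_of_comp_eq (g₁ := L) (g₂ := fun a => L' a + (L 0 - L' 0)) hL
    (hL'.add continuous_const) (by
      ext a
      simp only [Function.comp_apply]
      rw [exp_add, exp_sub, h1, h1', h1, h1', div_self (h1 0 ▸ exp_ne_zero _), mul_one]) 0
    (by simp)
  have := congrFun this 1
  rw [this]; ring

lemma exists_isVar {γ : unitInterval → ℂ} (hγ : Continuous γ) (h0 : ∀ a, γ a ≠ 0) :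
    ∃ n : ℤ, IsVar γ (log (γ 1) - log (γ 0) + n * (2 * π * I)) := by
  obtain ⟨L, h1, h2⟩ := isCoveringMap_exp.exists_path_lifts
    (⟨fun a => ⟨γ a, h0 a⟩, hγ.subtype_mk _⟩ : C(unitInterval, {z : ℂ // z ≠ 0})) (log (γ 0))
    (Subtype.ext (exp_log (h0 0)).symm)
  have h3 : ∀ a, exp (L a) = γ a := fun a => congrArg Subtype.val (congrFun h1 a)
  obtain ⟨n, hn⟩ := exp_eq_exp_iff_exists_int.mp ((h3 1).trans (exp_log (h0 1)).symm)
  exact ⟨n, L, L.continuous, h3, by rw [hn, h2]; ring⟩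

open Classical in
/-- parity of the number of crossings of `γ` with the ray going left from `p` -/
noncomputable def nu (γ : unitInterval → ℂ) (p : ℂ) : F :=
  if h : ∃ n : ℤ, IsVar (fun a => γ a - p) (log (γ 1 - p) - log (γ 0 - p) + n * (2 * π * I))
  then ((h.choose : ℤ) : F) else 0

lemma nu_eq {γ : unitInterval → ℂ} {p : ℂ} {n : ℤ}
    (h : IsVar (fun a => γ a - p) (log (γ 1 - p) - log (γ 0 - p) + n * (2 * π * I))) :
    nu γ p = n := by
  have h' : ∃ n : ℤ, IsVar (fun a => γ a - p)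
    (log (γ 1 - p) - log (γ 0 - p) + n * (2 * π * I)) := ⟨n, h⟩
  rw [nu, dif_pos h']
  have h1 := h'.choose_spec.unique h
  have h2 : ((h'.choose : ℤ) : ℂ) = n :=
    mul_right_cancel₀ two_pi_I_ne_zero (add_left_cancel h1)
  rw [Int.cast_injective h2]

open Classical in
noncomputable def kk (p p' Z : ℂ) : ℤ :=
  if h : ∃ n : ℤ, log (Z - p') = log (Z - p) + log ((Z - p') / (Z - p)) + n * (2 * π * I)
  then h.choose else 0

lemma kk_spec {p p' Z : ℂ} (h : Z - p ≠ 0) (h' : Z - p' ≠ 0) :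
    log (Z - p') = log (Z - p) + log ((Z - p') / (Z - p)) + kk p p' Z * (2 * π * I) := by
  have h1 : ∃ n : ℤ, log (Z - p') = log (Z - p) + log ((Z - p') / (Z - p)) + n * (2 * π * I) := by
    apply exp_eq_exp_iff_exists_int.mp
    rw [exp_add, exp_log h, exp_log h', exp_log (div_ne_zero h' h)]
    field_simp
  rw [kk, dif_pos h1]
  exact h1.choose_spec

lemma F_neg (x : F) : -x = x := by revert x; decide

lemma nu_near {γ : unitInterval → ℂ} (hγ : Continuous γ) {p p' : ℂ}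
    (h : ∀ a, ‖p' - p‖ < ‖γ a - p‖) :
    nu γ p' = nu γ p + (kk p p' (γ 0) : F) + (kk p p' (γ 1) : F) := by
  have h0 : ∀ a, γ a - p ≠ 0 := fun a h' => by
    have := h a; rw [h', norm_zero] at this; exact absurd this (not_lt.mpr (norm_nonneg _))
  have hs : ∀ a, (γ a - p') / (γ a - p) ∈ slitPlane := by
    intro a
    have : (γ a - p') / (γ a - p) = 1 + (p - p') / (γ a - p) := by
      field_simp [h0 a]; ring
    rw [this]
    apply mem_slitPlane_of_norm_lt_one
    rw [norm_div, div_lt_one (norm_pos_iff.mpr (h0 a)), norm_sub_rev]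
    exact h a
  have h0' : ∀ a, γ a - p' ≠ 0 := fun a h' => by
    have := slitPlane_ne_zero (hs a); rw [h', zero_div] at this; exact this rfl
  obtain ⟨n, hn⟩ := exists_isVar (γ := fun a => γ a - p) (hγ.sub continuous_const) h0
  rw [nu_eq hn]
  obtain ⟨L, hL, h1, h2⟩ := hn
  rw [nu_eq (n := n - kk p p' (γ 1) + kk p p' (γ 0))]
  · push_cast
    rw [sub_eq_add_neg, F_neg]; ring
  · refine ⟨fun a => L a + log ((γ a - p') / (γ a - p)), hL.add ?_, fun a => ?_, ?_⟩
    · exact Continuous.clog ((hγ.sub continuous_const).div (hγ.sub continuous_const) h0) hs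
    · rw [exp_add, h1, exp_log (slitPlane_ne_zero (hs a))]
      field_simp [h0 a]
    · rw [kk_spec (h0 1) (h0' 1), kk_spec (h0 0) (h0' 0)]
      push_cast
      linear_combination h2

/-- the segment from `A` to `B` -/
noncomputable def seg (A B : ℂ) (a : unitInterval) : ℂ := A + (a : ℝ) * (B - A)

lemma seg_zero (A B : ℂ) : seg A B 0 = A := by simp [seg]
lemma seg_one (A B : ℂ) : seg A B 1 = B := by simp [seg]
lemma continuous_seg (A B : ℂ) : Continuous (seg A B) := by unfold seg; fun_prop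

lemma isVar_seg {A B p : ℂ} (h : ((B - p) / (A - p)).im ≠ 0) :
    IsVar (fun a => seg A B a - p) (log ((B - p) / (A - p))) := by
  have hA : A - p ≠ 0 := by rintro h'; simp [h'] at h
  have hs : ∀ a : unitInterval, 1 + ((a : ℝ) : ℂ) * ((B - p) / (A - p) - 1) ∈ slitPlane := by
    intro a
    rw [mem_slitPlane_iff]
    by_cases ha : (a : ℝ) = 0
    · left; simp [ha]
    · right; simp [ha, h]
  refine ⟨fun a => log (A - p) + log (1 + ((a : ℝ) : ℂ) * ((B - p) / (A - p) - 1)), ?_, ?_, ?_⟩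
  · exact continuous_const.add (Continuous.clog (by fun_prop) hs)
  · intro a
    rw [exp_add, exp_log hA, exp_log (slitPlane_ne_zero (hs a))]
    simp only [seg]
    field_simp
    ring
  · simp

lemma nu_jump {A B p p' : ℂ} (h1 : ((B - p) / (A - p)).re < 0) (h2 : ((B - p) / (A - p)).im < 0)
    (h3 : ((B - p') / (A - p')).re < 0) (h4 : 0 < ((B - p') / (A - p')).im)
    (h5 : 0 < ((B - p') / (B - p)).re) (h6 : 0 < ((A - p') / (A - p)).re) :
    nu (seg A B) p' = nu (seg A B) p + (kk p p' A : F) + (kk p p' B : F) + 1 := by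
  have hA : A - p ≠ 0 := by rintro h'; simp [h'] at h1
  have hB : B - p ≠ 0 := by rintro h'; simp [h'] at h1
  have hA' : A - p' ≠ 0 := by rintro h'; simp [h'] at h3
  have hB' : B - p' ≠ 0 := by rintro h'; simp [h'] at h3
  obtain ⟨n, hn⟩ : ∃ n : ℤ, log ((B - p) / (A - p)) =
      log (B - p) - log (A - p) + n * (2 * π * I) := by
    apply exp_eq_exp_iff_exists_int.mp
    rw [exp_sub, exp_log hA, exp_log hB, exp_log (div_ne_zero hB hA)]
  obtain ⟨n', hn'⟩ : ∃ n : ℤ, log ((B - p') / (A - p')) =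
      log (B - p') - log (A - p') + n * (2 * π * I) := by
    apply exp_eq_exp_iff_exists_int.mp
    rw [exp_sub, exp_log hA', exp_log hB', exp_log (div_ne_zero hB' hA')]
  rw [nu_eq (p := p) (n := n) (by rw [seg_zero, seg_one, ← hn]; exact isVar_seg h2.ne),
    nu_eq (p := p') (n := n') (by rw [seg_zero, seg_one, ← hn']; exact isVar_seg h4.ne')]
  have e1 := kk_spec hA hA'
  have e2 := kk_spec hB hB'
  have e3 : log ((B - p') / (A - p')) - log ((B - p) / (A - p)) - log ((B - p') / (B - p)) +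
      log ((A - p') / (A - p)) = ((n' - n + kk p p' B - kk p p' A : ℤ) : ℂ) * (2 * π * I) := by
    push_cast
    linear_combination hn' - hn + e2 - e1
  have e4 := congrArg Complex.im e3
  simp only [add_im, sub_im, log_im] at e4
  have e5 : (((n' - n + kk p p' B - kk p p' A : ℤ) : ℂ) * (2 * π * I)).im =
      ((n' - n + kk p p' B - kk p p' A : ℤ) : ℝ) * (2 * π) := by
    generalize (n' - n + kk p p' B - kk p p' A : ℤ) = m
    simp
  rw [e5] at e4
  have a1 : π / 2 < arg ((B - p') / (A - p')) := by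
    by_contra h
    rcases arg_le_pi_div_two_iff.mp (not_lt.mp h) with h | h <;> linarith
  have a2 := arg_le_pi ((B - p') / (A - p'))
  have a3 : arg ((B - p) / (A - p)) < -(π / 2) := by
    by_contra h
    rcases neg_pi_div_two_le_arg_iff.mp (not_lt.mp h) with h | h <;> linarith
  have a4 := neg_pi_lt_arg ((B - p) / (A - p))
  have a5 := abs_lt.mp (abs_arg_lt_pi_div_two_iff.mpr (Or.inl h5))
  have a6 := abs_lt.mp (abs_arg_lt_pi_div_two_iff.mpr (Or.inl h6))
  have hm : n' - n + kk p p' B - kk p p' A = 1 := by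
    generalize (n' - n + kk p p' B - kk p p' A : ℤ) = m at e4
    have b1 : (0 : ℝ) < m := by
      by_contra h
      nlinarith [Real.pi_pos, not_lt.mp h]
    have b2 : (m : ℝ) < 2 := by
      by_contra h
      nlinarith [Real.pi_pos, not_lt.mp h]
    have b3 : (0 : ℤ) < m := by exact_mod_cast b1
    have b4 : m < 2 := by exact_mod_cast b2
    omega
  have : n' = n + kk p p' A + -kk p p' B + 1 := by omega
  rw [this]
  push_cast
  rw [F_neg]

lemma telescope (h : ℝ → F) (δ a : ℝ) (hδ : 0 < δ) (S : Finset ℝ) : ∀ b : ℝ, a ≤ b →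
    (∀ θ ∈ S, a ≤ θ - δ ∧ θ + δ ≤ b) → (∀ θ ∈ S, ∀ θ' ∈ S, θ < θ' → θ + δ ≤ θ' - δ) →
    (∀ x y, a ≤ x → x ≤ y → y ≤ b → (∀ θ ∈ S, θ < x ∨ y < θ) → h x = h y) →
    ∑ θ ∈ S, (h (θ - δ) + h (θ + δ)) = h a + h b := by
  induction S using Finset.induction_on_max with
  | empty =>
    intro b hab _ _ h3
    rw [h3 a b le_rfl hab le_rfl (by simp), F_add_self]; simp
  | insert M S hM ih =>
    intro b hab h1 h2 h3
    have hMS : M ∉ S := fun h => lt_irrefl _ (hM M h)
    obtain ⟨h4, h5⟩ := h1 M (Finset.mem_insert_self _ _)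
    rw [Finset.sum_insert hMS, ih (M - δ) h4]
    · rw [h3 (M + δ) b (by linarith) h5 le_rfl]
      · have := F_add_self (h (M - δ))
        linear_combination this
      · intro θ hθ
        left
        rcases Finset.mem_insert.mp hθ with rfl | hθ
        · linarith
        · linarith [hM θ hθ]
    · intro θ hθ
      exact ⟨(h1 θ (Finset.mem_insert_of_mem hθ)).1,
        h2 θ (Finset.mem_insert_of_mem hθ) M (Finset.mem_insert_self _ _) (hM θ hθ)⟩
    · intro θ hθ θ' hθ'
      exact h2 θ (Finset.mem_insert_of_mem hθ) θ' (Finset.mem_insert_of_mem hθ')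
    · intro x y hx hxy hy hS
      apply h3 x y hx hxy (by linarith)
      intro θ hθ
      rcases Finset.mem_insert.mp hθ with rfl | hθ
      · right; linarith
      · exact hS θ hθ

end

section


lemma exists_mid (γ : unitInterval → ℂ) (hγ : Continuous γ) (ρ : ℝ) (hρ : 0 < ρ)
    (h : 2 * ρ < ‖γ 0 - γ 1‖) :
    ∃ μ : unitInterval → unitInterval, Continuous μ ∧ ‖γ (μ 0) - γ 0‖ = ρ ∧ ‖γ (μ 1) - γ 1‖ = ρ ∧
      ∀ a, ρ ≤ ‖γ (μ a) - γ 0‖ ∧ ρ ≤ ‖γ (μ a) - γ 1‖ := by
  have c0 : Continuous fun a => ‖γ a - γ 0‖ := by fun_prop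
  have c1 : Continuous fun a => ‖γ a - γ 1‖ := by fun_prop
  obtain ⟨σ, hσ, hσ'⟩ := (isClosed_le c0 (continuous_const (y := ρ))).isCompact.exists_isGreatest
    ⟨0, by simpa using hρ.le⟩
  have hσ1 : ‖γ σ - γ 0‖ = ρ := by
    obtain ⟨a, ha, ha'⟩ := intermediate_value_Icc (unitInterval.le_one' (t := σ)) c0.continuousOn
      (show ρ ∈ Set.Icc ‖γ σ - γ 0‖ ‖γ 1 - γ 0‖ from ⟨hσ, by rw [norm_sub_rev]; linarith⟩)
    have : a = σ := le_antisymm (hσ' (le_of_eq ha')) ha.1
    rw [← this]; exact ha'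
  obtain ⟨τ, ⟨hτ0, hτ⟩, hτ'⟩ := ((isClosed_Ici (a := σ)).inter
    (isClosed_le c1 (continuous_const (y := ρ)))).isCompact.exists_isLeast
    ⟨1, unitInterval.le_one', by simpa using hρ.le⟩
  have hτ1 : ‖γ τ - γ 1‖ = ρ := by
    obtain ⟨a, ha, ha'⟩ := intermediate_value_Icc' hτ0 c1.continuousOn
      (show ρ ∈ Set.Icc ‖γ τ - γ 1‖ ‖γ σ - γ 1‖ from ⟨hτ, by
        have := norm_sub_le_norm_sub_add_norm_sub (γ 0) (γ σ) (γ 1)
        rw [norm_sub_rev (γ 0) (γ σ)] at this
        linarith⟩)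
    have : a = τ := le_antisymm ha.2 (hτ' ⟨ha.1, le_of_eq ha'⟩)
    rw [← this]; exact ha'
  have hστ : (σ : ℝ) ≤ τ := hτ0
  have m1 : ∀ a : unitInterval, (σ : ℝ) ≤ σ + a * (τ - σ) := fun a => by
    nlinarith [a.2.1]
  have m2 : ∀ a : unitInterval, (σ : ℝ) + a * (τ - σ) ≤ τ := fun a => by
    nlinarith [a.2.2]
  refine ⟨fun a => ⟨σ + a * (τ - σ), σ.2.1.trans (m1 a), (m2 a).trans τ.2.2⟩, by fun_prop,
    by simpa using hσ1, by simpa using hτ1, fun a => ⟨?_, ?_⟩⟩
  · by_contra hn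
    have h1 := hσ' (le_of_lt (not_le.mp hn))
    have h2 : (⟨σ + a * (τ - σ), σ.2.1.trans (m1 a), (m2 a).trans τ.2.2⟩ : unitInterval) = σ :=
      le_antisymm h1 (m1 a)
    simp only [h2] at hn
    exact hn hσ1.ge
  · by_contra hn
    have h1 := hτ' (a := ⟨σ + a * (τ - σ), σ.2.1.trans (m1 a), (m2 a).trans τ.2.2⟩)
      ⟨m1 a, le_of_lt (not_le.mp hn)⟩
    have h2 : (⟨σ + a * (τ - σ), σ.2.1.trans (m1 a), (m2 a).trans τ.2.2⟩ : unitInterval) = τ :=
      le_antisymm (m2 a) h1
    simp only [h2] at hn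
    exact hn hτ1.ge

variable {V E : Type} [Finite V] [Finite E]

/-- a drawing in normal form: discs of radius `ρ` round the vertices and arcs between them -/
structure Normal (s t : E → V) (pos : V → ℂ) (ρ : ℝ) (mid : E → unitInterval → ℂ) : Prop where
  pos_rho : 0 < ρ
  cont : ∀ e, Continuous (mid e)
  far : ∀ v w, v ≠ w → 2 * ρ < ‖pos v - pos w‖
  start : ∀ e, ‖mid e 0 - pos (s e)‖ = ρ
  stop : ∀ e, ‖mid e 1 - pos (t e)‖ = ρ
  out : ∀ e a w, ρ ≤ ‖mid e a - pos w‖
  disj : ∀ e e' a b, e ≠ e' → mid e a ≠ mid e' b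

theorem exists_normal (s t : E → V) (hne : ∀ e, s e ≠ t e) (pos : V → ℂ)
    (hpos : Function.Injective pos) (γ : E → unitInterval → ℂ) (hγ : ∀ e, Continuous (γ e))
    (h0 : ∀ e, γ e 0 = pos (s e)) (h1 : ∀ e, γ e 1 = pos (t e))
    (h2 : ∀ e a w, γ e a = pos w → a = 0 ∨ a = 1)
    (h3 : ∀ e e' a b, e ≠ e' → γ e a = γ e' b → a = 0 ∨ a = 1) :
    ∃ ρ mid, Normal s t pos ρ mid := by
  have e1 : ∀ᶠ ρ in nhdsWithin (0 : ℝ) (Set.Ioi 0), ∀ v w, v ≠ w → 2 * ρ < ‖pos v - pos w‖ := by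
    simp only [Filter.eventually_all]
    intro v w hvw
    have : 0 < ‖pos v - pos w‖ := norm_pos_iff.mpr (sub_ne_zero.mpr (hpos.ne hvw))
    filter_upwards [Ioo_mem_nhdsGT (half_pos this)] with ρ hρ
    linarith [hρ.2]
  have e2 : ∀ᶠ ρ in nhdsWithin (0 : ℝ) (Set.Ioi 0),
      ∀ e w, w ≠ s e → w ≠ t e → ∀ a, ρ ≤ ‖γ e a - pos w‖ := by
    refine Filter.eventually_all.mpr fun e => Filter.eventually_all.mpr fun w =>
      Filter.eventually_all.mpr fun hs => Filter.eventually_all.mpr fun ht => ?_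
    have := hγ e
    obtain ⟨a0, -, ha0⟩ := isCompact_univ.exists_isMinOn (f := fun a => ‖γ e a - pos w‖)
      Set.univ_nonempty (by fun_prop)
    have : 0 < ‖γ e a0 - pos w‖ := by
      rw [norm_pos_iff, sub_ne_zero]
      intro h
      rcases h2 e a0 w h with rfl | rfl
      · exact hs (hpos (h.symm.trans (h0 e)))
      · exact ht (hpos (h.symm.trans (h1 e)))
    filter_upwards [Ioo_mem_nhdsGT this] with ρ hρ a
    exact hρ.2.le.trans (ha0 (Set.mem_univ a))
  obtain ⟨ρ, ⟨hρ1, hρ2⟩, hρ⟩ := ((e1.and e2).and self_mem_nhdsWithin).exists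
  have H := fun e => exists_mid (γ e) (hγ e) ρ hρ (by rw [h0, h1]; exact hρ1 _ _ (hne e))
  choose μ c m0 m1 m2 using H
  simp only [h0, h1] at m0 m1 m2
  refine ⟨ρ, fun e a => γ e (μ e a), hρ, fun e => (hγ e).comp (c e), hρ1, m0, m1, ?_, ?_⟩
  · intro e a w
    by_cases hs : w = s e
    · rw [hs]; exact (m2 e a).1
    by_cases ht : w = t e
    · rw [ht]; exact (m2 e a).2
    exact hρ2 e w hs ht _
  · intro e e' a b hee h
    have hρ' : 0 < ρ := hρ
    rcases h3 e e' _ _ hee h with h4 | h4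
    · have := (m2 e a).1
      rw [h4, h0] at this
      simp at this; linarith
    · have := (m2 e a).2
      rw [h4, h1] at this
      simp at this; linarith

end

section


open Complex
open scoped Real Topology

variable {V E : Type} [Fintype V] [DecidableEq V] [Fintype E] [DecidableEq E]

def base (s t : E → V) (d : E × Bool) : V := if d.2 then s d.1 else t d.1

def tip (mid : E → unitInterval → ℂ) (d : E × Bool) : ℂ := if d.2 then mid d.1 0 else mid d.1 1

/-- the pieces of the normalised drawing -/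
noncomputable def piece (s t : E → V) (pos : V → ℂ) (mid : E → unitInterval → ℂ) :
    (E × Bool) ⊕ E → unitInterval → ℂ
  | Sum.inl d => seg (pos (base s t d)) (tip mid d)
  | Sum.inr e => mid e

def pedge : (E × Bool) ⊕ E → E
  | Sum.inl d => d.1
  | Sum.inr e => e

noncomputable def Ind (s t : E → V) (pos : V → ℂ) (mid : E → unitInterval → ℂ) (C : E → F)
    (p : ℂ) : F := ∑ κ, C (pedge κ) * nu (piece s t pos mid κ) p

variable {s t : E → V} {pos : V → ℂ} {ρ : ℝ} {mid : E → unitInterval → ℂ}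

lemma Normal.piece_cont (h : Normal s t pos ρ mid) (κ : (E × Bool) ⊕ E) :
    Continuous (piece s t pos mid κ) := by
  cases κ with
  | inl d => exact continuous_seg _ _
  | inr e => exact h.cont e

lemma sum_ends {C : E → F} (hC : ∑ e, C e • bv s t e = 0) (k : ℂ → F) :
    ∑ κ, C (pedge κ) * (k (piece s t pos mid κ 0) + k (piece s t pos mid κ 1)) = 0 := by
  have h1 : ∑ e, C e * (k (pos (s e)) + k (pos (t e))) = 0 := by
    have := congrArg (fun g => g ⬝ᵥ (fun v => k (pos v))) hC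
    simp only [sum_dotProduct, smul_dotProduct, bv_dot, zero_dotProduct, smul_eq_mul] at this
    exact this
  rw [Fintype.sum_sum_type, Fintype.sum_prod_type, ← Finset.sum_add_distrib, ← h1]
  apply Finset.sum_congr rfl
  intro e _
  simp only [Fintype.sum_bool, pedge, piece, seg_zero, seg_one, base, tip, if_true,
    Bool.false_eq_true, if_false]
  have h2 := F_add_self (C e * k (mid e 0))
  have h3 := F_add_self (C e * k (mid e 1))
  linear_combination h2 + h3

lemma Normal.Ind_near (h : Normal s t pos ρ mid) {C : E → F} (hC : ∑ e, C e • bv s t e = 0)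
    {p p' : ℂ} (hp : ∀ κ, C (pedge κ) ≠ 0 → ∀ a, ‖p' - p‖ < ‖piece s t pos mid κ a - p‖) :
    Ind s t pos mid C p' = Ind s t pos mid C p := by
  have := sum_ends (pos := pos) (mid := mid) hC (fun Z => (kk p p' Z : F))
  rw [← add_zero (Ind s t pos mid C p), ← this, Ind, Ind, ← Finset.sum_add_distrib]
  apply Finset.sum_congr rfl
  intro κ _
  by_cases hκ : C (pedge κ) = 0
  · simp [hκ]
  · rw [nu_near (h.piece_cont κ) (hp κ hκ)]; ring

lemma Normal.exists_ball (h : Normal s t pos ρ mid) (P : (E × Bool) ⊕ E → Prop) {p : ℂ}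
    (hp : ∀ κ, P κ → ∀ a, piece s t pos mid κ a ≠ p) :
    ∃ r > 0, ∀ κ, P κ → ∀ a, r ≤ ‖piece s t pos mid κ a - p‖ := by
  have h1 : IsClosed (⋃ κ : {κ // P κ}, Set.range (piece s t pos mid κ.1)) :=
    isClosed_iUnion_of_finite fun κ => (isCompact_range (h.piece_cont κ.1)).isClosed
  have h2 : p ∈ (⋃ κ : {κ // P κ}, Set.range (piece s t pos mid κ.1))ᶜ := by
    simp only [Set.mem_compl_iff, Set.mem_iUnion, not_exists]
    rintro ⟨κ, hκ⟩ ⟨a, ha⟩
    exact hp κ hκ a ha
  obtain ⟨r, hr, h3⟩ := Metric.isOpen_iff.mp h1.isOpen_compl p h2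
  refine ⟨r, hr, fun κ hκ a => ?_⟩
  by_contra hn
  exact h3 (mem_ball_iff_norm.mpr (not_le.mp hn)) (Set.mem_iUnion.mpr ⟨⟨κ, hκ⟩, a, rfl⟩)

lemma Normal.Ind_const (h : Normal s t pos ρ mid) {C : E → F} (hC : ∑ e, C e • bv s t e = 0)
    {S : Set ℂ} (hS : IsPreconnected S)
    (hp : ∀ p ∈ S, ∀ κ, C (pedge κ) ≠ 0 → ∀ a, piece s t pos mid κ a ≠ p) {p q : ℂ} (hp' : p ∈ S)
    (hq : q ∈ S) : Ind s t pos mid C p = Ind s t pos mid C q := by
  refine hS.constant (fun p hp' => ContinuousAt.continuousWithinAt ?_) hp' hq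
  obtain ⟨r, hr, h1⟩ := h.exists_ball (fun κ => C (pedge κ) ≠ 0) (hp p hp')
  refine (continuousAt_const (y := Ind s t pos mid C p)).congr ?_
  filter_upwards [Metric.ball_mem_nhds p hr] with p' hp'
  exact (h.Ind_near hC fun κ hκ a => (mem_ball_iff_norm.mp hp').trans_le (h1 κ hκ a)).symm

lemma Normal.tip_norm (h : Normal s t pos ρ mid) (d : E × Bool) :
    ‖tip mid d - pos (base s t d)‖ = ρ := by
  obtain ⟨e, _ | _⟩ := d
  · exact h.stop e
  · exact h.start e

lemma tip_mem (d : E × Bool) : ∃ a, tip mid d = mid d.1 a := by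
  obtain ⟨e, _ | _⟩ := d
  · exact ⟨1, rfl⟩
  · exact ⟨0, rfl⟩

lemma Normal.tip_inj (h : Normal s t pos ρ mid) (hne : ∀ e, s e ≠ t e) {d d' : E × Bool}
    (h1 : base s t d = base s t d') (h2 : tip mid d = tip mid d') : d = d' := by
  have h3 : d.1 = d'.1 := by
    by_contra hn
    obtain ⟨a, ha⟩ := tip_mem (mid := mid) d
    obtain ⟨b, hb⟩ := tip_mem (mid := mid) d'
    exact h.disj _ _ a b hn (ha.symm.trans (h2.trans hb))
  obtain ⟨e, _ | _⟩ := d <;> obtain ⟨e', _ | _⟩ := d' <;> simp only at h3 <;> subst h3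
  · rfl
  · exact (hne e (Eq.symm h1)).elim
  · exact (hne e h1).elim
  · rfl

/-- a point of a closed disc lying on a piece -/
lemma Normal.disc_piece (h : Normal s t pos ρ mid) {v : V} {x : ℝ} (hx0 : 0 < x) (hx1 : x ≤ 1)
    {u : ℂ} (hu : ‖u‖ = ρ) {κ : (E × Bool) ⊕ E} {a : unitInterval}
    (hz : piece s t pos mid κ a = pos v + x * u) :
    (∃ d, κ = Sum.inl d ∧ base s t d = v ∧ tip mid d = pos v + u) ∨
      (∃ e, κ = Sum.inr e ∧ x = 1) := by
  have hρ := h.pos_rho
  have hn : ‖(x : ℂ) * u‖ = x * ρ := by rw [norm_mul, hu, norm_real, Real.norm_of_nonneg hx0.le]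
  cases κ with
  | inr e =>
    right
    refine ⟨e, rfl, le_antisymm hx1 ?_⟩
    have := h.out e a v
    rw [show mid e a = _ from hz, add_sub_cancel_left, hn] at this
    nlinarith
  | inl d =>
    left
    simp only [piece, seg] at hz
    have hn' : ‖((a : ℝ) : ℂ) * (tip mid d - pos (base s t d))‖ = a * ρ := by
      rw [norm_mul, h.tip_norm, norm_real, Real.norm_of_nonneg a.2.1]
    have hb : base s t d = v := by
      by_contra hb
      have h1 := h.far _ _ hb
      have h2 : pos (base s t d) - pos v =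
          x * u - ((a : ℝ) : ℂ) * (tip mid d - pos (base s t d)) := by linear_combination hz
      have h3 := norm_sub_le ((x : ℂ) * u) (((a : ℝ) : ℂ) * (tip mid d - pos (base s t d)))
      rw [← h2, hn, hn'] at h3
      nlinarith [a.2.2]
    refine ⟨d, rfl, hb, ?_⟩
    rw [hb] at hz hn'
    have h1 : ((a : ℝ) : ℂ) * (tip mid d - pos v) = x * u := add_left_cancel hz
    have h2 : (a : ℝ) = x := by
      rw [h1, hn] at hn'
      exact (mul_right_cancel₀ hρ.ne' hn').symm
    rw [h2] at h1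
    have := mul_left_cancel₀ (by exact_mod_cast hx0.ne') h1
    linear_combination this

lemma Normal.along (h : Normal s t pos ρ mid) (hne : ∀ e, s e ≠ t e) {C : E → F}
    (hC : ∑ e, C e • bv s t e = 0) (d : E × Bool) (h0 : C d.1 = 0) :
    Ind s t pos mid C (pos (base s t d) + (1 / 2 : ℝ) * (tip mid d - pos (base s t d))) =
      Ind s t pos mid C (mid d.1 0) := by
  have hmid : ∀ b κ, C (pedge κ) ≠ 0 → ∀ a, piece s t pos mid κ a ≠ mid d.1 b := by
    intro b κ hκ a hz
    cases κ with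
    | inr e => exact h.disj e d.1 a b (by rintro rfl; exact hκ h0) hz
    | inl d' =>
      have h1 := h.out d.1 b (base s t d')
      rw [← hz] at h1
      simp only [piece, seg, add_sub_cancel_left] at h1 hz
      rw [norm_mul, h.tip_norm, norm_real, Real.norm_of_nonneg a.2.1] at h1
      have h2 : (a : ℝ) = 1 := le_antisymm a.2.2 (by nlinarith [h.pos_rho])
      rw [h2] at hz
      obtain ⟨c, hc⟩ := tip_mem (mid := mid) d'
      refine h.disj d'.1 d.1 c b (fun he => hκ (by rw [pedge, he]; exact h0)) ?_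
      rw [← hc, ← hz]; simp
  obtain ⟨b, hb⟩ := tip_mem (mid := mid) d
  have h1 : Ind s t pos mid C (mid d.1 b) = Ind s t pos mid C (mid d.1 0) :=
    h.Ind_const hC (isPreconnected_range (h.cont d.1)) (by
      rintro _ ⟨b, rfl⟩; exact hmid b) ⟨b, rfl⟩ ⟨0, rfl⟩
  rw [← h1, ← hb]
  refine h.Ind_const hC (S := (fun x : ℝ => pos (base s t d) + x * (tip mid d - pos (base s t d)))
    '' Set.Icc (1 / 2) 1) (isPreconnected_Icc.image _ (by fun_prop)) ?_
    ⟨1 / 2, ⟨le_rfl, by norm_num⟩, rfl⟩ ⟨1, ⟨by norm_num, le_rfl⟩, by simp⟩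
  rintro _ ⟨x, hx, rfl⟩ κ hκ a hz
  rcases h.disc_piece (by linarith [hx.1]) hx.2 (h.tip_norm d) hz with
    ⟨d', rfl, h2, h3⟩ | ⟨e, rfl, rfl⟩
  · rw [h.tip_inj hne h2 (by rw [h3]; ring)] at hκ
    exact hκ h0
  · refine hmid b _ hκ a ?_
    rw [hz, ← hb]; simp

lemma exists_rotation {D : Type} [Finite D] (w : D → ℂ) (hw : ∀ d, w d ≠ 0) :
    ∃ u : ℂ, ‖u‖ = 1 ∧ ∀ d, arg (w d / u) < π := by
  have hinf : (Set.Ioo (0 : ℝ) π).Infinite := Set.Ioo_infinite Real.pi_pos
  obtain ⟨θ, hθ, hθ'⟩ := hinf.exists_notMem_finite (Set.finite_range fun d => arg (-w d))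
  refine ⟨exp (θ * I), norm_exp_ofReal_mul_I θ, fun d => ?_⟩
  refine lt_of_le_of_ne (arg_le_pi _) fun hd => hθ' ⟨d, ?_⟩
  have h1 := norm_mul_exp_arg_mul_I (w d / exp (θ * I))
  rw [hd, exp_pi_mul_I, norm_div, norm_exp_ofReal_mul_I, div_one,
    eq_div_iff (exp_ne_zero _)] at h1
  have h2 : -w d = ‖w d‖ * exp (θ * I) := by linear_combination h1
  simp only
  rw [h2, arg_real_mul _ (norm_pos_iff.mpr (hw d)), exp_mul_I]
  exact arg_cos_add_sin_mul_I ⟨by linarith [hθ.1, Real.pi_pos], hθ.2.le⟩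

lemma re_pos_of_near {p p' Z : ℂ} (h : ‖p' - p‖ < ‖Z - p‖) : 0 < ((Z - p') / (Z - p)).re := by
  have h0 : Z - p ≠ 0 := norm_pos_iff.mp ((norm_nonneg _).trans_lt h)
  have : (Z - p') / (Z - p) = 1 - (p' - p) / (Z - p) := by field_simp; ring
  rw [this, sub_re, one_re]
  have h1 := re_le_norm ((p' - p) / (Z - p))
  have h2 : ‖(p' - p) / (Z - p)‖ < 1 := by
    rw [norm_div, div_lt_one (norm_pos_iff.mpr h0)]; exact h
  linarith

lemma norm_exp_sub (x y : ℝ) : ‖exp (x * I) - exp (y * I)‖ ≤ |x - y| := by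
  have : exp (x * I) - exp (y * I) = exp (y * I) * (exp (I * ((x - y : ℝ) : ℂ)) - 1) := by
    rw [mul_sub, ← exp_add]; congr 2 <;> [push_cast; skip] <;> ring
  rw [this, norm_mul, norm_exp_ofReal_mul_I, one_mul]
  exact Real.norm_exp_I_mul_ofReal_sub_one_le

end

end Pool.Agent.Lib.MP_50b5c6_lc
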