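import Pool.Agent.Lib.MP_50b5c6_lc.Track

/-! Contracting the starts of the subdivided links. -/

set_option linter.unusedSectionVars false

namespace Pool.Agent.Lib.MP_50b5c6_lc

variable {V J A Λ N : Type}

/-- links `en - nr - md - nr - en` whose three inner vertices have degree two -/
structure Links (G : SimpleGraph V) (en nr : Λ × Bool → V) (md : Λ → V) : Prop where
  a1 : ∀ i, G.Adj (en i) (nr i)
  a2 : ∀ i, G.Adj (nr i) (md i.1)
  n1 : ∀ i w, G.Adj (nr i) w → w = en i ∨ w = md i.1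
  n2 : ∀ k w, G.Adj (md k) w → ∃ β, w = nr (k, β)
  i1 : Function.Injective nr
  i2 : Function.Injective md
  d1 : ∀ i k, nr i ≠ md k
  d2 : ∀ i i', en i ≠ nr i'
  d3 : ∀ i k, en i ≠ md k

def Real (nr : Λ × Bool → V) (md : Λ → V) (v : V) : Prop := (∀ i, v ≠ nr i) ∧ ∀ k, v ≠ md k

structure World [Fintype N] [DecidableEq N] [Fintype A] [DecidableEq A] (G : SimpleGraph V)
    (R : V → Prop) (en : Λ × Bool → V) (ends : A × Bool → N) (χ : (A → F) → A → F) (vx : V → N)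
    (lS : Λ → Set N) (lk : Λ → List A) (Free : Set N) (Pa : V → V → Set N → Prop) : Prop where
  emb : Emb ends χ
  inj : Function.Injective vx
  vF : ∀ v, vx v ∉ Free
  vS : ∀ v k, R v → vx v ∉ lS k
  SF : ∀ k n, n ∈ lS k → n ∉ Free
  SS : ∀ k k' n, n ∈ lS k → n ∈ lS k' → k = k'
  lw : ∀ k, Walk ends (lS k) (vx (en (k, false))) (vx (en (k, true))) (lk k)
  lh : ∀ k, ∀ e ∈ lk k, ∃ β, ends (e, β) ∈ lS k
  pF : ∀ c d S, Pa c d S → S ⊆ Free
  pw : ∀ c d S, R c → R d → Pa c d S → ∃ l, Walk ends S (vx c) (vx d) l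
  pe : ∀ c d, G.Adj c d → ∃ S, Pa c d S
  pn : ∀ a c, G.Adj a c → R a → R c → (∀ i, en i ≠ a) →
    ∃ S, Pa a c S ∧ ∀ j ∈ S, ∃ l, Walk ends S (vx a) j l
  ps : ∀ c d S, Pa c d S → Pa d c S
  pm : ∀ a b c d S S', R a → R b → R c → R d → a ≠ c → a ≠ d → b ≠ c → b ≠ d → Pa a b S →
    Pa c d S' → (∃ n ∈ S, n ∈ S') → G.Adj a c ∨ (G.Adj a d ∧ ∃ S'' j l1 l2, Pa a d S'' ∧ j ∈ S' ∧
      j ∈ S'' ∧ Walk ends S'' (vx a) j l1 ∧ Walk ends S'' j (vx d) l2)

open Track in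
theorem exists_world [Fintype V] [DecidableEq V] [Fintype J] [DecidableEq J] [Fintype A]
    [DecidableEq A] (T : Track V J A) {χ : (A → F) → A → F} (hE : Emb T.ends χ)
    {G : SimpleGraph V} (hG : ∀ u v, u ≠ v → (G.Adj u v ↔ ∃ l, T.SP u v l))
    {en nr : Λ × Bool → V} {md : Λ → V} (h : Links G en nr md) :
    ∃ (ends : A × Bool → V ⊕ J) (χ : (A → F) → A → F) (lS : Λ → Set (V ⊕ J)) (lk : Λ → List A)
      (Free : Set (V ⊕ J)) (Pa : V → V → Set (V ⊕ J) → Prop),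
      World G (Real nr md) en ends χ Sum.inl lS lk Free Pa := by
  classical
  have pe : ∀ u v, G.Adj u v → ∃ l, T.SP u v l := fun u v huv => (hG u v huv.ne).1 huv
  have pa : ∀ {u v l}, T.SP u v l → u = v ∨ G.Adj u v := fun {u v l} hl =>
    (em (u = v)).imp id fun hn => (hG u v hn).2 ⟨l, hl⟩
  have ma : ∀ {a b c d P Q j}, T.SP a b P → T.SP c d Q → j ∈ T.JS P → j ∈ T.JS Q →
      (a = c ∨ G.Adj a c) ∨ (a = d ∨ G.Adj a d) := by
    intro a b c d P Q j hP hQ h1 h2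
    obtain ⟨p, x, q, j, rfl, h3, h4, h5⟩ := first ⟨j, h1, h2⟩
    obtain ⟨m, e, rfl | rfl, -, h6, -⟩ := meet_at hP hQ h3 h4 h5
    exacts [.inl (pa h6), .inr (pa h6)]
  have mb : ∀ {a b c d P Q j}, T.SP b a P → T.SP c d Q → j ∈ T.JS P → j ∈ T.JS Q →
      (a = c ∨ G.Adj a c) ∨ (a = d ∨ G.Adj a d) := fun hP hQ h1 h2 =>
    ma hP.rev hQ (hP.js_rev ▸ h1) h2
  choose L hL using fun i => pe _ _ (h.a1 i)
  choose M hM using fun i => pe _ _ (h.a2 i)
  have rn : ∀ i c, Real nr md c → nr i = c ∨ G.Adj (nr i) c → c = en i := by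
    rintro i c hc (h1 | h1)
    · exact (hc.1 i h1.symm).elim
    · exact (h.n1 i c h1).resolve_right (hc.2 _)
  have ren : ∀ i, Real nr md (en i) := fun i => ⟨h.d2 i, h.d3 i⟩
  have nn : ∀ i i', nr i = nr i' ∨ G.Adj (nr i) (nr i') → i' = i := by
    rintro i i' (h1 | h1)
    · exact (h.i1 h1).symm
    · rcases h.n1 i _ h1 with h2 | h2
      exacts [(h.d2 _ _ h2.symm).elim, (h.d1 _ _ h2).elim]
  have fa : ∀ {i c d Q j}, T.SP c d Q → Real nr md c → Real nr md d → j ∈ T.JS (L i) →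
      j ∈ T.JS Q → c = en i ∨ d = en i := fun hQ hc hd h1 h2 =>
    (mb (hL _) hQ h1 h2).imp (rn _ _ hc) (rn _ _ hd)
  have fb : ∀ {i i' j}, j ∈ T.JS (L i) → j ∈ T.JS (L i') → en i' = en i := fun h1 h2 =>
    (mb (hL _) (hL _) h1 h2).elim (rn _ _ (ren _)) fun h3 => by rw [nn _ _ h3]
  have fe : ∀ {i i' j}, j ∈ T.JS (M i) → j ∈ T.JS (L i') → en i' = en i := fun h1 h2 =>
    (ma (hM _) (hL _) h1 h2).elim (rn _ _ (ren _)) fun h3 => by rw [nn _ _ h3]
  have rm : ∀ k c, Real nr md c → ¬(md k = c ∨ G.Adj (md k) c) := by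
    rintro k c hc (h1 | h1)
    · exact hc.2 k h1.symm
    · obtain ⟨β, h2⟩ := h.n2 k c h1
      exact hc.1 _ h2
  have fc : ∀ {i c d Q j}, T.SP c d Q → Real nr md c → Real nr md d → j ∈ T.JS (M i) →
      j ∉ T.JS Q := fun hQ hc hd h1 h2 => (mb (hM _) hQ h1 h2).elim (rm _ _ hc) (rm _ _ hd)
  have fd : ∀ {i i' j}, j ∈ T.JS (M i) → j ∈ T.JS (M i') → i.1 = i'.1 := by
    intro i i' j h1 h2
    rcases mb (hM _) (hM _) h1 h2 with (h3 | h3) | (h3 | h3)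
    · exact (h.d1 _ _ h3.symm).elim
    · obtain ⟨β, h4⟩ := h.n2 _ _ h3
      rw [h.i1 h4]
    · exact h.i2 h3
    · obtain ⟨β, h4⟩ := h.n2 _ _ h3
      exact (h.d1 _ _ h4.symm).elim
  let Bl : V ⊕ J → Λ × Bool → Prop := fun n i =>
    n = .inl (nr i) ∨ ∃ j ∈ T.JS (L i), n = .inr j
  let π : V ⊕ J → V ⊕ J := fun n => if hn : ∃ i, Bl n i then .inl (en hn.choose) else n
  have p0 : ∀ n, (¬∃ i, Bl n i) → π n = n := fun n hn => dif_neg hn
  have p1 : ∀ n i, Bl n i → π n = .inl (en i) := by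
    intro n i hi
    have hn : ∃ i, Bl n i := ⟨i, hi⟩
    simp only [π, dif_pos hn]
    congr 1
    rcases hn.choose_spec with h1 | ⟨j, h1, h2⟩ <;> rcases hi with h3 | ⟨j', h3, h4⟩
    · rw [h.i1 (Sum.inl_injective (h1.symm.trans h3))]
    · exact absurd (h1.symm.trans h4) (by simp)
    · exact absurd (h3.symm.trans h2) (by simp)
    · obtain rfl : j = j' := Sum.inr_injective (h2.symm.trans h4)
      exact fb h3 h1
  have p2 : ∀ v, (∀ i, v ≠ nr i) → ¬∃ i, Bl (.inl v) i := by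
    rintro v hv ⟨i, h1 | ⟨j, -, h1⟩⟩
    · exact hv i (Sum.inl_injective h1)
    · simp at h1
  have p3 : ∀ v, Real nr md v → π (.inl v) = .inl v := fun v hv => p0 _ (p2 v hv.1)
  have p4 : ∀ j i, Bl (.inr j) i → j ∈ T.JS (L i) := by
    rintro j i (h1 | ⟨j', h1, h2⟩)
    · simp at h1
    · rwa [Sum.inr_injective h2]
  obtain ⟨χ', hE'⟩ := hE.contract π (by
    intro n
    by_cases hn : ∃ i, Bl n i
    · obtain ⟨i, hi⟩ := hn
      rw [p1 n i hi]
      have k : ∀ (l : List (A × Bool)) a c, T.Ch a l c → π a = .inl (en i) →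
          (∀ x ∈ l, π (T.hd x) = .inl (en i)) → ∀ x ∈ l, Relation.ReflTransGen
          (fun a b => π a = π b ∧ ∃ d, T.ends d = a ∧ T.ends (rv d) = b) (T.hd x) a := by
        intro l
        induction l with
        | nil => simp
        | cons y l ih =>
          intro a c h1 h2 h3 x hx
          have h4 : T.ends y = a := by simpa using h1.1
          have h5 : Relation.ReflTransGen
              (fun a b => π a = π b ∧ ∃ d, T.ends d = a ∧ T.ends (rv d) = b) (T.hd y) a :=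
            .single ⟨(h3 y (by simp)).trans h2.symm, rv y, rfl, by simpa using h4⟩
          rcases List.mem_cons.1 hx with rfl | hx
          · exact h5
          · cases l with
            | nil => simp at hx
            | cons z l =>
              exact (ih _ c (Track.ch_cons.1 h1).2.2 (h3 y (by simp)) (fun w hw => h3 w (by simp [hw]))
                x hx).trans h5
      have k2 := k _ _ _ (hL i).1 (p3 _ (ren i)) fun x hx => p1 _ i (by
        rcases (hL i).1.head hx with h1 | ⟨j, h1⟩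
        · exact .inl h1
        · exact .inr ⟨j, ⟨x, hx, h1⟩, h1⟩)
      rcases hi with rfl | ⟨j, ⟨x, hx, h1⟩, rfl⟩
      · obtain ⟨x, h1, h2⟩ := Option.map_eq_some_iff.1 (hL i).1.2.1
        exact h2 ▸ k2 x (List.mem_of_getLast? h1)
      · exact h1 ▸ k2 x hx
    · rw [p0 n hn])
  let lS : Λ → Set (V ⊕ J) := fun k =>
    {n | (n = .inl (md k) ∨ ∃ β j, j ∈ T.JS (M (k, β)) ∧ n = .inr j) ∧ ¬∃ i, Bl n i}
  let Free : Set (V ⊕ J) := {n | (¬∃ i, Bl n i) ∧ ∃ j, n = .inr j ∧ ∀ i, j ∉ T.JS (M i)}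
  let fs : List (A × Bool) → Set (V ⊕ J) := fun Q => {n | n ∈ Free ∧ ∃ j ∈ T.JS Q, n = .inr j}
  have q0 : ∀ k, Sum.inl (md k) ∈ lS k := fun k => ⟨.inl rfl, p2 _ fun i => (h.d1 i k).symm⟩
  have q1 : ∀ i : Λ × Bool, ∃ l, Walk (fun d => π (T.ends d)) (lS i.1) (.inl (en i))
      (.inl (md i.1)) l := by
    intro i
    have := (hM i).1.walk π (S := lS i.1) fun x hx => by
      rcases (hM i).1.head hx with h1 | ⟨j, h1⟩
      · exact .inr (.inr (by rw [h1]))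
      · by_cases h2 : ∃ i, Bl (.inr j) i
        · obtain ⟨i', h2⟩ := h2
          refine .inr (.inl ?_)
          rw [h1, p1 _ _ h2, p1 _ i (.inl rfl), fe ⟨x, hx, h1⟩ (p4 _ _ h2)]
        · left
          rw [h1, p0 _ h2]
          exact ⟨.inr ⟨i.2, j, ⟨x, hx, h1⟩, rfl⟩, h2⟩
    rwa [p1 _ i (.inl rfl), p0 _ (q0 _).2] at this
  choose lk hlk using q1
  have q2 : ∀ {c d Q j}, T.SP c d Q → Real nr md c → Real nr md d → j ∈ T.JS Q →
      (¬∃ i, Bl (.inr j) i) → π (.inr j) = .inr j ∧ Sum.inr j ∈ fs Q := fun hQ hc hd h1 h2 =>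
    ⟨p0 _ h2, ⟨h2, _, rfl, fun _ h3 => fc hQ hc hd h3 h1⟩, _, h1, rfl⟩
  refine ⟨_, χ', lS, fun k => lk (k, false) ++ (lk (k, true)).reverse, Free,
    fun c d S => ∃ Q, T.SP c d Q ∧ S = fs Q, hE', Sum.inl_injective, ?_, ?_, ?_, ?_,
    fun k => (hlk (k, false)).append (hlk (k, true)).symm (q0 k), ?_, ?_, ?_, ?_, ?_, ?_, ?_⟩
  · rintro v ⟨-, j, h1, -⟩
    simp at h1
  · rintro v k hv ⟨h1 | ⟨β, j, -, h1⟩, -⟩
    · exact hv.2 k (Sum.inl_injective h1)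
    · simp at h1
  · rintro k n ⟨rfl | ⟨β, j, h1, rfl⟩, -⟩ ⟨-, j', h2, h3⟩
    · simp at h2
    · exact h3 _ (Sum.inr_injective h2 ▸ h1)
  · rintro k k' n ⟨rfl | ⟨β, j, h1, rfl⟩, -⟩ ⟨h2 | ⟨β', j', h2, h3⟩, -⟩
    · exact h.i2 (Sum.inl_injective h2)
    · simp at h3
    · simp at h2
    · exact fd h1 (Sum.inr_injective h3 ▸ h2)
  · intro k e he
    rcases List.mem_append.1 he with he | he
    · exact (hlk (k, false)).hit (q0 k) e he
    · exact (hlk (k, true)).hit (q0 k) e (List.mem_reverse.1 he)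
  · rintro c d S ⟨Q, -, rfl⟩ n hn
    exact hn.1
  · rintro c d S hc hd ⟨Q, hQ, rfl⟩
    have := hQ.1.walk π (S := fs Q) fun x hx => by
      rcases hQ.1.head hx with h1 | ⟨j, h1⟩
      · exact .inr (.inr (by rw [h1]))
      · by_cases h2 : ∃ i, Bl (.inr j) i
        · obtain ⟨i, h2⟩ := h2
          right
          rw [h1, p1 _ _ h2, p3 _ hc, p3 _ hd]
          exact (fa hQ hc hd (p4 _ _ h2) ⟨x, hx, h1⟩).imp (fun h => by rw [h]) fun h => by rw [h]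
        · obtain ⟨h3, h4⟩ := q2 hQ hc hd ⟨x, hx, h1⟩ h2
          exact .inl (by rwa [h1, h3])
    rwa [p3 _ hc, p3 _ hd] at this
  · intro c d hcd
    obtain ⟨Q, hQ⟩ := pe c d hcd
    exact ⟨_, Q, hQ, rfl⟩
  · intro a c hac ha hc hen
    have k : ∀ p r, T.SP a c (p ++ r) → (∀ x ∈ p, ∀ j, T.hd x = .inr j → ¬∃ i, Bl (.inr j) i) →
        (∀ j ∈ T.JS r, ∃ i, Bl (.inr j) i) → ∃ S, (∃ Q, T.SP a c Q ∧ S = fs Q) ∧
        ∀ j ∈ S, ∃ l, Walk (fun d => π (T.ends d)) S (.inl a) j l := by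
      intro p r hQ h1 h2
      refine ⟨_, ⟨_, hQ, rfl⟩, ?_⟩
      rintro _ ⟨h3, j, ⟨x, hx, h4⟩, rfl⟩
      rcases List.mem_append.1 hx with hx | hx
      · obtain ⟨p1, p2, rfl⟩ := List.append_of_mem hx
        have h5 : T.Ch (.inl a) (p1 ++ [x]) (T.hd x) :=
          Ch.pre (q := p2 ++ r) (by simpa using hQ.1)
        have := h5.walk π (S := fs (p1 ++ x :: p2 ++ r)) fun y hy => by
          rcases h5.head hy with h6 | ⟨j', h6⟩
          · exact .inr (.inr (by rw [h6]))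
          · have h7 : y ∈ p1 ++ x :: p2 := by simp at hy ⊢; tauto
            obtain ⟨h8, h9⟩ := q2 hQ ha hc ⟨y, List.mem_append_left _ h7, h6⟩ (h1 y h7 j' h6)
            exact .inl (by rwa [h6, h8])
        rwa [p3 _ ha, h4, p0 _ h3.1] at this
      · exact (h3.1 (h2 j ⟨x, hx, h4⟩)).elim
    obtain ⟨Q, hQ⟩ := pe a c hac
    by_cases h1 : ∃ j ∈ T.JS Q, j ∈ {j | ∃ i, Bl (.inr j) i}
    · obtain ⟨p, x, q, j, rfl, h2, ⟨i, h3⟩, h4⟩ := first h1
      obtain ⟨m, e, h5, -, h6, h7⟩ := meet_at hQ (hL i) h2 (p4 _ _ h3)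
        fun z hz j' h8 h9 => h4 z hz j' h8 ⟨i, .inr ⟨j', h9, rfl⟩⟩
      obtain rfl : c = en i :=
        (fa hQ ha hc (p4 _ _ h3) ⟨x, by simp, h2⟩).resolve_left (hen i).symm
      rcases h5 with rfl | rfl
      · refine k p (x :: m) h6 h4 ?_
        rintro j' ⟨y, hy, h8⟩
        rcases List.mem_cons.1 hy with rfl | hy
        · exact ⟨i, Sum.inr_injective (h8.symm.trans h2) ▸ h3⟩
        · exact ⟨i, .inr ⟨j', h7 ⟨y, hy, h8⟩, rfl⟩⟩
      · exact (hen i (rn i a ha ((pa h6).imp Eq.symm G.adj_symm)).symm).elim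
    · exact k Q [] (by simpa using hQ) (fun x hx j h2 h3 => h1 ⟨j, ⟨x, hx, h2⟩, h3⟩)
        (by simp [JS])
  · rintro c d S ⟨Q, hQ, rfl⟩
    exact ⟨_, hQ.rev, by simp only [fs, hQ.js_rev]⟩
  · rintro a b c d S S' ha hb hc hd ac ad bc bd' ⟨P, hP, rfl⟩ ⟨Q, hQ, rfl⟩
      ⟨n, ⟨-, j, h1, rfl⟩, -, j', h2, h3⟩
    obtain rfl := Sum.inr_injective h3
    obtain ⟨p, x, q, j, rfl, h3, h4, h5⟩ := first ⟨j, h1, h2⟩
    obtain ⟨m, e, rfl | rfl, h6, h7, h8⟩ := meet_at hP hQ h3 h4 h5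
    · exact .inl ((pa h7).resolve_left ac)
    have h9 : ¬∃ i, Bl (.inr j) i := by
      rintro ⟨i, hi⟩
      have k1 := fa hP ha hb (p4 _ _ hi) ⟨x, by simp, h3⟩
      have k2 := fa hQ hc hd (p4 _ _ hi) h4
      grind
    refine .inr ⟨(pa h7).resolve_left ad, ?_⟩
    have w1 := hP.1.pre.walk π (S := fs (p ++ x :: m)) fun y hy => by
      rcases hP.1.pre.head hy with k | ⟨j', k⟩
      · exact .inr (.inr (by rw [k]))
      · have k1 : y ∈ p ++ x :: m := by simp at hy ⊢; tauto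
        have k2 : y ∈ p ++ x :: q := by simp at hy ⊢; tauto
        by_cases k3 : ∃ i, Bl (.inr j') i
        · obtain ⟨i, hi⟩ := k3
          have k4 := fa hP ha hb (p4 _ _ hi) ⟨y, k2, k⟩
          have k5 := fa h7 ha hd (p4 _ _ hi) ⟨y, k1, k⟩
          refine .inr (.inl ?_)
          rw [k, p1 _ _ hi, p3 _ ha]
          grind
        · obtain ⟨k4, k5⟩ := q2 h7 ha hd ⟨y, k1, k⟩ k3
          exact .inl (by rwa [k, k4])
    have w2 := h6.walk π (S := fs (p ++ x :: m)) fun y hy => by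
      rcases h6.head hy with k | ⟨j', k⟩
      · exact .inr (.inr (by rw [k]))
      · have k1 : y ∈ p ++ x :: m := by simp [hy]
        by_cases k3 : ∃ i, Bl (.inr j') i
        · obtain ⟨i, hi⟩ := k3
          have k4 := fa hQ hc hd (p4 _ _ hi) (h8 ⟨y, hy, k⟩)
          have k5 := fa h7 ha hd (p4 _ _ hi) ⟨y, k1, k⟩
          refine .inr (.inr ?_)
          rw [k, p1 _ _ hi, p3 _ hd]
          grind
        · obtain ⟨k4, k5⟩ := q2 h7 ha hd ⟨y, k1, k⟩ k3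
          exact .inl (by rwa [k, k4])
    rw [p3 _ ha, h3, p0 _ h9] at w1
    rw [p3 _ hd, p0 _ h9] at w2
    obtain ⟨l1, w1⟩ := w1
    obtain ⟨l2, w2⟩ := w2
    exact ⟨_, _, l1, l2, ⟨_, h7, rfl⟩, (q2 hQ hc hd h4 h9).2,
      (q2 h7 ha hd ⟨x, by simp, h3⟩ h9).2, w1, w2⟩

end Pool.Agent.Lib.MP_50b5c6_lc
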